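import Pool.Agent.N977.Q.Lac

/-!
The symbol of the perturbation: one triad.
-/

open MeasureTheory Set Filter Topology
open scoped ContDiff

namespace Pool.Agent.N977.Q

open H459R3.NS

/-- third components -/
noncomputable def fz (u : V → V) (k : K3) : ℂ := fr (fun x => u x 2) k

/-- vertical vorticities (up to the factor `2 π i`) -/
noncomputable def fs (u : V → V) (k : K3) : ℂ :=
  (k 0 : ℂ) * fr (fun x => u x 1) k - (k 1 : ℂ) * fr (fun x => u x 0) k

/-- `1 / |p|²` -/
noncomputable def mm (p : K3) : ℂ := 1 / ((p 0 : ℂ) ^ 2 + (p 1 : ℂ) ^ 2)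

/-- the frequencies of the output -/
def fq (p q : K3) : Fin 3 → K3 := ![p + q, -q, -p]

/-- the coefficient of the horizontal output -/
noncomputable def yt (p q : K3) (u v : V → V) : ℂ :=
  -(mm p * (fs u q * fz v (thd p q) - fz v q * fs u (thd p q)))

/-- The Fourier coefficients of the output of one triad: `zt p q u v j a` is the `a`-th component of
the coefficient at the frequency `fq p q j`. -/
noncomputable def zt (p q : K3) (u v : V → V) : Fin 3 → Fin 3 → ℂ :=
  ![![0, 0, fz u p * fz v q + mm p * (fs v p * fs u q)],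
    ![0, 0, -(fz u p * fz v (thd p q) + mm p * (fs v p * fs u (thd p q)))],
    ![-((p 1 : ℂ) * yt p q u v), (p 0 : ℂ) * yt p q u v, 0]]

/-- admissible triads -/
structure Td (p q : K3) : Prop where
  p0 : p ≠ 0
  q0 : q ≠ 0
  r0 : thd p q ≠ 0
  p2 : p 2 = 0
  q2 : q 2 = 0
  lq : len q ≤ 2 * len p
  lr : len (thd p q) ≤ 2 * len p

variable {p q : K3} {u v w u' v' : V → V}

theorem Td.r2 (h : Td p q) : thd p q 2 = 0 := by
  unfold thd; simp [h.p2, h.q2]

theorem fz_le (u : V → V) (k : K3) : ‖fz u k‖ ≤ un u k := fr_le_un u k 2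

theorem len_sq (k : K3) : len k ^ 2 = ∑ j, (k j : ℝ) ^ 2 :=
  Real.sq_sqrt (Finset.sum_nonneg fun i _ => sq_nonneg _)

theorem fs_le (u : V → V) (k : K3) : ‖fs u k‖ ≤ len k * un u k := by
  have h1 : ‖fs u k‖ ≤ |(k 0 : ℝ)| * ‖fr (fun x => u x 1) k‖ + |(k 1 : ℝ)| * ‖fr (fun x => u x 0) k‖ := by
    unfold fs
    refine (norm_sub_le _ _).trans ?_
    rw [norm_mul, norm_mul, Complex.norm_intCast, Complex.norm_intCast]
  refine h1.trans ?_
  have h2 : 0 ≤ len k * un u k := mul_nonneg (len_nonneg _) (un_nonneg _ _)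
  refine abs_le_of_sq_le_sq' ?_ h2 |>.2
  rw [mul_pow, len_sq, un_sq, Fin.sum_univ_three, Fin.sum_univ_three]
  set a := ‖fr (fun x => u x 0) k‖
  set b := ‖fr (fun x => u x 1) k‖
  set c := ‖fr (fun x => u x 2) k‖
  have e0 := sq_abs (k 0 : ℝ)
  have e1 := sq_abs (k 1 : ℝ)
  have e2 := sq_abs (k 2 : ℝ)
  rw [← e0, ← e1, ← e2]
  nlinarith [sq_nonneg (|(k 0 : ℝ)| * a - |(k 1 : ℝ)| * b), sq_nonneg (|(k 0 : ℝ)| * c),
    sq_nonneg (|(k 1 : ℝ)| * c), sq_nonneg (|(k 2 : ℝ)| * a), sq_nonneg (|(k 2 : ℝ)| * b),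
    sq_nonneg (|(k 2 : ℝ)| * c)]

theorem len_pos {k : K3} (hk : k ≠ 0) : 0 < len k := by linarith [one_le_len hk]

theorem len_sq2 {k : K3} (hk : k 2 = 0) : len k ^ 2 = (k 0 : ℝ) ^ 2 + (k 1 : ℝ) ^ 2 := by
  rw [len_sq, Fin.sum_univ_three, hk]; simp

theorem norm_mm (h2 : p 2 = 0) : ‖mm p‖ = 1 / len p ^ 2 := by
  have e : mm p = ((1 / len p ^ 2 : ℝ) : ℂ) := by
    rw [len_sq2 h2]; unfold mm; push_cast; rfl
  rw [e, Complex.norm_real, Real.norm_eq_abs, abs_of_nonneg (by positivity)]

theorem ms_le (h : Td p q) {k : K3} (hk : len k ≤ 2 * len p) (u v : V → V) :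
    ‖mm p * (fs v p * fs u k)‖ ≤ 2 * (un v p * un u k) := by
  have hp := len_pos h.p0
  rw [norm_mul, norm_mul, norm_mm h.p2]
  have h1 := fs_le v p
  have h2 := fs_le u k
  have hv := un_nonneg v p
  have hu := un_nonneg u k
  calc 1 / len p ^ 2 * (‖fs v p‖ * ‖fs u k‖)
      ≤ 1 / len p ^ 2 * ((len p * un v p) * (len k * un u k)) := by
        apply mul_le_mul_of_nonneg_left _ (by positivity)
        exact mul_le_mul h1 h2 (norm_nonneg _) (by positivity)
    _ ≤ 1 / len p ^ 2 * ((len p * un v p) * (2 * len p * un u k)) := by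
        apply mul_le_mul_of_nonneg_left _ (by positivity)
        apply mul_le_mul_of_nonneg_left _ (by positivity)
        exact mul_le_mul_of_nonneg_right hk hu
    _ = 2 * (un v p * un u k) := by field_simp

theorem yt_le (h : Td p q) (u v : V → V) : len p * ‖yt p q u v‖
    ≤ 2 * (un u q * un v (thd p q) + un v q * un u (thd p q)) := by
  have hp := len_pos h.p0
  unfold yt
  rw [norm_neg, norm_mul, norm_mm h.p2]
  have a1 := fs_le u q
  have a2 := fs_le u (thd p q)
  have b1 := fz_le v q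
  have b2 := fz_le v (thd p q)
  have n1 := un_nonneg u q
  have n2 := un_nonneg u (thd p q)
  have n3 := un_nonneg v q
  have n4 := un_nonneg v (thd p q)
  have e : ‖fs u q * fz v (thd p q) - fz v q * fs u (thd p q)‖
      ≤ 2 * len p * (un u q * un v (thd p q) + un v q * un u (thd p q)) := by
    refine (norm_sub_le _ _).trans ?_
    rw [norm_mul, norm_mul]
    have c1 : ‖fs u q‖ * ‖fz v (thd p q)‖ ≤ (2 * len p * un u q) * un v (thd p q) :=
      mul_le_mul (a1.trans (mul_le_mul_of_nonneg_right h.lq n1)) b2 (norm_nonneg _) (by positivity)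
    have c2 : ‖fz v q‖ * ‖fs u (thd p q)‖ ≤ un v q * (2 * len p * un u (thd p q)) :=
      mul_le_mul b1 (a2.trans (mul_le_mul_of_nonneg_right h.lr n2)) (norm_nonneg _) n3
    linarith
  calc len p * (1 / len p ^ 2 * ‖fs u q * fz v (thd p q) - fz v q * fs u (thd p q)‖)
      ≤ len p * (1 / len p ^ 2 * (2 * len p * (un u q * un v (thd p q) + un v q * un u (thd p q)))) := by
        apply mul_le_mul_of_nonneg_left _ hp.le
        exact mul_le_mul_of_nonneg_left e (by positivity)
    _ = _ := by field_simp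

/-- bounds of the coefficients -/
noncomputable def bt (p q : K3) (u v : V → V) : Fin 3 → ℝ :=
  ![un u p * un v q + 2 * (un v p * un u q),
    un u p * un v (thd p q) + 2 * (un v p * un u (thd p q)),
    2 * (un u q * un v (thd p q) + un v q * un u (thd p q))]

theorem bt_nonneg (p q : K3) (u v : V → V) (j : Fin 3) : 0 ≤ bt p q u v j := by
  have h : ∀ (u : V → V) k, 0 ≤ un u k := un_nonneg
  have a1 := h u p; have a2 := h u q; have a3 := h u (thd p q)
  have b1 := h v p; have b2 := h v q; have b3 := h v (thd p q)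
  fin_cases j <;> simp [bt] <;> positivity

theorem abs_le_len (k : K3) (j : Fin 3) : |(k j : ℝ)| ≤ len k := by
  unfold len
  apply Real.le_sqrt_of_sq_le
  rw [sq_abs]
  exact Finset.single_le_sum (f := fun j => (k j : ℝ) ^ 2) (fun i _ => sq_nonneg _)
    (Finset.mem_univ j)

theorem zA_le (h : Td p q) (u v : V → V) : ‖fz u p * fz v q + mm p * (fs v p * fs u q)‖
    ≤ bt p q u v 0 := by
  refine (norm_add_le _ _).trans ?_
  have h1 := ms_le h h.lq u v
  have h2 : ‖fz u p * fz v q‖ ≤ un u p * un v q := by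
    rw [norm_mul]
    exact mul_le_mul (fz_le _ _) (fz_le _ _) (norm_nonneg _) (un_nonneg _ _)
  simp only [bt, Matrix.cons_val_zero]
  linarith

theorem zB_le (h : Td p q) (u v : V → V) :
    ‖fz u p * fz v (thd p q) + mm p * (fs v p * fs u (thd p q))‖ ≤ bt p q u v 1 := by
  refine (norm_add_le _ _).trans ?_
  have h1 := ms_le h h.lr u v
  have h2 : ‖fz u p * fz v (thd p q)‖ ≤ un u p * un v (thd p q) := by
    rw [norm_mul]
    exact mul_le_mul (fz_le _ _) (fz_le _ _) (norm_nonneg _) (un_nonneg _ _)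
  simp only [bt, Matrix.cons_val_one, Matrix.cons_val_zero]
  linarith

theorem zt_le (h : Td p q) (u v : V → V) (j a : Fin 3) : ‖zt p q u v j a‖ ≤ bt p q u v j := by
  have h0 := bt_nonneg p q u v
  have hC : ∀ m : Fin 3, ‖(p m : ℂ) * yt p q u v‖ ≤ bt p q u v 2 := by
    intro m
    rw [norm_mul, Complex.norm_intCast]
    refine (mul_le_mul_of_nonneg_right (abs_le_len p m) (norm_nonneg _)).trans ?_
    exact yt_le h u v
  fin_cases j <;> fin_cases a
  · simpa [zt] using h0 0
  · simpa [zt] using h0 0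
  · simpa [zt] using zA_le h u v
  · simpa [zt] using h0 1
  · simpa [zt] using h0 1
  · have := zB_le h u v
    rw [← norm_neg] at this
    simpa [zt] using this
  · have := hC 1
    rw [← norm_neg] at this
    simpa [zt] using this
  · simpa [zt] using hC 0
  · simpa [zt] using h0 2

/-- the trilinear form of one triad -/
noncomputable def Tt (p q : K3) (u v w : V → V) : ℝ :=
  ∑ j, ∑ a, (zt p q u v j a * fr (fun x => w x a) (-(fq p q j))).re

theorem Tt_eq (p q : K3) (u v w : V → V) : Tt p q u v w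
    = ((fz u p * fz v q + mm p * (fs v p * fs u q)) * fz w (thd p q)
      - (fz u p * fz v (thd p q) + mm p * (fs v p * fs u (thd p q))) * fz w q
      + yt p q u v * fs w p).re := by
  have e0 : -(p + q) = thd p q := by unfold thd; abel
  unfold Tt
  simp only [Fin.sum_univ_three, zt, fq]
  simp only [Matrix.cons_val_zero, Matrix.cons_val_one, Matrix.cons_val_two, Matrix.head_cons,
    Matrix.tail_cons, neg_neg, e0, ← Complex.add_re]
  congr 1
  unfold fs fz
  ring

theorem Tt_le (h : Td p q) (u v w : V → V) : |Tt p q u v w|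
    ≤ bt p q u v 0 * un w (thd p q) + bt p q u v 1 * un w q + bt p q u v 2 * un w p := by
  rw [Tt_eq]
  refine (Complex.abs_re_le_norm _).trans ?_
  refine (norm_add_le _ _).trans ?_
  have h1 : ‖(fz u p * fz v q + mm p * (fs v p * fs u q)) * fz w (thd p q)‖
      ≤ bt p q u v 0 * un w (thd p q) := by
    rw [norm_mul]
    exact mul_le_mul (zA_le h u v) (fz_le _ _) (norm_nonneg _) (bt_nonneg _ _ _ _ _)
  have h2 : ‖(fz u p * fz v (thd p q) + mm p * (fs v p * fs u (thd p q))) * fz w q‖
      ≤ bt p q u v 1 * un w q := by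
    rw [norm_mul]
    exact mul_le_mul (zB_le h u v) (fz_le _ _) (norm_nonneg _) (bt_nonneg _ _ _ _ _)
  have h3 : ‖yt p q u v * fs w p‖ ≤ bt p q u v 2 * un w p := by
    rw [norm_mul]
    have hy := yt_le h u v
    have h4 := fs_le w p
    calc ‖yt p q u v‖ * ‖fs w p‖ ≤ ‖yt p q u v‖ * (len p * un w p) :=
          mul_le_mul_of_nonneg_left h4 (norm_nonneg _)
      _ = (len p * ‖yt p q u v‖) * un w p := by ring
      _ ≤ _ := mul_le_mul_of_nonneg_right hy (un_nonneg _ _)
  have h4 := norm_sub_le ((fz u p * fz v q + mm p * (fs v p * fs u q)) * fz w (thd p q))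
    ((fz u p * fz v (thd p q) + mm p * (fs v p * fs u (thd p q))) * fz w q)
  linarith

theorem Tt_energy (p q : K3) (u v : V → V) : Tt p q u v v = 0 := by
  rw [Tt_eq]
  have : (fz u p * fz v q + mm p * (fs v p * fs u q)) * fz v (thd p q)
      - (fz u p * fz v (thd p q) + mm p * (fs v p * fs u (thd p q))) * fz v q
      + yt p q u v * fs v p = 0 := by
    unfold yt
    ring
  rw [this, Complex.zero_re]

/-! ### the curl -/

theorem fr_pd' {f : V → ℝ} (hf : SP f) (j : Fin 3) (k : K3) :
    fr (pd j f) k = 2 * Real.pi * Complex.I * (k j : ℂ) * fr f k := by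
  rw [fr_pd hf]; rfl

theorem curl_sp (hu : SPV u) (i : Fin 3) : SP (fun x => curl u x i) := by
  have h := fun i => spv_sp hu i
  fin_cases i
  · exact ((h 2).pd 1).sub ((h 1).pd 2)
  · exact ((h 0).pd 2).sub ((h 2).pd 0)
  · exact ((h 1).pd 0).sub ((h 0).pd 1)

theorem curl_spv (hu : SPV u) : SPV (curl u) := sp_spv (curl_sp hu)

theorem fz_curl (hu : SPV u) (k : K3) : fz (curl u) k = 2 * Real.pi * Complex.I * fs u k := by
  have h := fun i => spv_sp hu i
  have e : fz (curl u) k = fr (fun x => pd 0 (fun y => u y 1) x - pd 1 (fun y => u y 0) x) k := rfl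
  rw [e, fr_sub ((h 1).pd 0).cont ((h 0).pd 1).cont, fr_pd' (h 1), fr_pd' (h 0)]
  unfold fs
  ring

theorem fs_curl (hu : SPV u) {k : K3} (hk : k 2 = 0) :
    fs (curl u) k = -(2 * Real.pi * Complex.I * ((k 0 : ℂ) ^ 2 + (k 1 : ℂ) ^ 2) * fz u k) := by
  have h := fun i => spv_sp hu i
  have e1 : fr (fun x => curl u x 1) k
      = fr (fun x => pd 2 (fun y => u y 0) x - pd 0 (fun y => u y 2) x) k := rfl
  have e0 : fr (fun x => curl u x 0) k
      = fr (fun x => pd 1 (fun y => u y 2) x - pd 2 (fun y => u y 1) x) k := rfl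
  unfold fs
  rw [e1, e0, fr_sub ((h 0).pd 2).cont ((h 2).pd 0).cont, fr_sub ((h 2).pd 1).cont ((h 1).pd 2).cont,
    fr_pd' (h 0), fr_pd' (h 2), fr_pd' (h 2), fr_pd' (h 1), hk]
  unfold fz
  push_cast
  ring

theorem Tt_hel (h : Td p q) (hu : SPV u) (v : V → V) : Tt p q u v (curl u) = 0 := by
  rw [Tt_eq, fz_curl hu, fz_curl hu, fs_curl hu h.p2]
  have hne : ((p 0 : ℂ) ^ 2 + (p 1 : ℂ) ^ 2) ≠ 0 := by
    have h1 := len_sq2 h.p2
    have h2 := len_pos h.p0
    have h3 : ((p 0 : ℝ) ^ 2 + (p 1 : ℝ) ^ 2) ≠ 0 := by rw [← h1]; positivity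
    exact_mod_cast h3
  have hm : mm p * ((p 0 : ℂ) ^ 2 + (p 1 : ℂ) ^ 2) = 1 := by
    unfold mm; field_simp
  have : (fz u p * fz v q + mm p * (fs v p * fs u q)) * (2 * Real.pi * Complex.I * fs u (thd p q))
      - (fz u p * fz v (thd p q) + mm p * (fs v p * fs u (thd p q)))
        * (2 * Real.pi * Complex.I * fs u q)
      + yt p q u v * -(2 * Real.pi * Complex.I * ((p 0 : ℂ) ^ 2 + (p 1 : ℂ) ^ 2) * fz u p) = 0 := by
    unfold yt
    linear_combination (2 * Real.pi * Complex.I * fz u p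
      * (fs u q * fz v (thd p q) - fz v q * fs u (thd p q))) * hm
  rw [this, Complex.zero_re]

/-! ### bilinearity and symmetries -/

theorem fz_add (hu : SPV u) (hv : SPV v) (k : K3) :
    fz (fun x => u x + v x) k = fz u k + fz v k :=
  fr_add (spv_sp hu 2).cont (spv_sp hv 2).cont k

theorem fw_add (hu : SPV u) (hv : SPV v) (k : K3) :
    fs (fun x => u x + v x) k = fs u k + fs v k := by
  unfold fs
  have e : ∀ i, fr (fun x => (u x + v x) i) k = fr (fun x => u x i) k + fr (fun x => v x i) k :=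
    fun i => fr_add (spv_sp hu i).cont (spv_sp hv i).cont k
  rw [e, e]
  ring

theorem fz_smul (r : ℝ) (u : V → V) (k : K3) : fz (fun x => r • u x) k = r * fz u k :=
  fr_smul r _ k

theorem fw_smul (r : ℝ) (u : V → V) (k : K3) : fs (fun x => r • u x) k = r * fs u k := by
  unfold fs
  have e : ∀ i, fr (fun x => (r • u x) i) k = r * fr (fun x => u x i) k := fun i => fr_smul r _ k
  rw [e, e]
  ring

theorem zt_add_left (hu : SPV u) (hu' : SPV u') (v : V → V) (j a : Fin 3) :
    zt p q (fun x => u x + u' x) v j a = zt p q u v j a + zt p q u' v j a := by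
  fin_cases j <;> fin_cases a <;>
    simp [zt, yt, fz_add hu hu', fw_add hu hu'] <;> ring

theorem zt_add_right (u : V → V) (hv : SPV v) (hv' : SPV v') (j a : Fin 3) :
    zt p q u (fun x => v x + v' x) j a = zt p q u v j a + zt p q u v' j a := by
  fin_cases j <;> fin_cases a <;>
    simp [zt, yt, fz_add hv hv', fw_add hv hv'] <;> ring

theorem zt_smul_left (r : ℝ) (u v : V → V) (j a : Fin 3) :
    zt p q (fun x => r • u x) v j a = r * zt p q u v j a := by
  fin_cases j <;> fin_cases a <;>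
    simp [zt, yt, fz_smul, fw_smul] <;> ring

theorem zt_smul_right (r : ℝ) (u v : V → V) (j a : Fin 3) :
    zt p q u (fun x => r • v x) j a = r * zt p q u v j a := by
  fin_cases j <;> fin_cases a <;>
    simp [zt, yt, fz_smul, fw_smul] <;> ring

theorem fr_const (r : ℝ) {k : K3} (hk : k ≠ 0) : fr (fun _ => r) k = 0 := by
  unfold fr fc
  rw [integral_mul_const, integral_ee, if_neg (by simpa using hk), zero_mul]

theorem fr_add_const {f : V → ℝ} (hf : Continuous f) (r : ℝ) {k : K3} (hk : k ≠ 0) :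
    fr (fun x => f x + r) k = fr f k := by
  rw [fr_add hf continuous_const, fr_const r hk, add_zero]

theorem fz_const (hu : SPV u) (b : V) {k : K3} (hk : k ≠ 0) : fz (fun x => u x + b) k = fz u k :=
  fr_add_const (spv_sp hu 2).cont _ hk

theorem fw_const (hu : SPV u) (b : V) {k : K3} (hk : k ≠ 0) : fs (fun x => u x + b) k = fs u k := by
  unfold fs
  have e : ∀ i, fr (fun x => (u x + b) i) k = fr (fun x => u x i) k :=
    fun i => fr_add_const (spv_sp hu i).cont _ hk
  rw [e, e]

theorem zt_const_left (h : Td p q) (hu : SPV u) (b : V) (v : V → V) (j a : Fin 3) :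
    zt p q (fun x => u x + b) v j a = zt p q u v j a := by
  fin_cases j <;> fin_cases a <;>
    simp [zt, yt, fz_const hu b h.p0, fw_const hu b h.q0, fw_const hu b h.r0]

theorem zt_const_right (h : Td p q) (u : V → V) (b : V) (hv : SPV v) (j a : Fin 3) :
    zt p q u (fun x => v x + b) j a = zt p q u v j a := by
  fin_cases j <;> fin_cases a <;>
    simp [zt, yt, fz_const hv b h.q0, fz_const hv b h.r0, fw_const hv b h.p0]

/-- translations -/
theorem fr_shift {f : V → ℝ} (hf : SP f) (b : V) (k : K3) :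
    fr (fun x => f (x + b)) k = ee k b * fr f k := by
  have hs := (rap_fr hf).summable
  have hs' : Summable fun k => ee k b * fr f k := by
    refine Summable.of_norm ?_
    simp_rw [norm_mul, norm_ee, one_mul]
    exact hs.norm
  have h1 : ∀ x, ((f (x + b) : ℝ) : ℂ) = S (fun k => ee k b * fr f k) x := by
    intro x
    rw [← S_fr hf]
    unfold S
    refine tsum_congr fun k => ?_
    rw [ee_add]
    ring
  unfold fr fc
  simp_rw [h1]
  rw [integral_ee_S (-k) hs', neg_neg]
  rfl

theorem fz_shift (hu : SPV u) (b : V) (k : K3) : fz (fun x => u (x + b)) k = ee k b * fz u k :=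
  fr_shift (spv_sp hu 2) b k

theorem fw_shift (hu : SPV u) (b : V) (k : K3) : fs (fun x => u (x + b)) k = ee k b * fs u k := by
  unfold fs
  have e : ∀ i, fr (fun x => u (x + b) i) k = ee k b * fr (fun x => u x i) k :=
    fun i => fr_shift (spv_sp hu i) b k
  rw [e, e]
  ring

theorem zt_shift (hu : SPV u) (hv : SPV v) (b : V) (j a : Fin 3) :
    zt p q (fun x => u (x + b)) (fun x => v (x + b)) j a = ee (fq p q j) b * zt p q u v j a := by
  have e1 : ee (p + q) b = ee p b * ee q b := ee_add_left p q b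
  have e2 : ee (-q) b = ee p b * ee (thd p q) b := by
    rw [← ee_add_left]; congr 1; unfold thd; abel
  have e3 : ee (-p) b = ee q b * ee (thd p q) b := by
    rw [← ee_add_left]; congr 1; unfold thd; abel
  fin_cases j <;> fin_cases a <;>
    simp [zt, yt, fq, fz_shift hu, fz_shift hv, fw_shift hu, fw_shift hv, e1, e2, e3] <;> ring

theorem zt_div (h : Td p q) (u v : V → V) (j : Fin 3) :
    ∑ a, ((fq p q j a : ℤ) : ℂ) * zt p q u v j a = 0 := by
  rw [Fin.sum_univ_three]
  fin_cases j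
  · simp [zt, fq, h.p2, h.q2]
  · simp [zt, fq, h.q2]
  · simp [zt, fq, h.p2]
    ring

end Pool.Agent.N977.Q
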