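import Pool.Agent.N977.Q.Tw3

/-!
Up to the power one of the logarithm there is no blow-up for flows which do not depend on the third
variable (Navier-Stokes case).
-/

open MeasureTheory Set Filter Topology
open scoped ContDiff ComplexConjugate

namespace Pool.Agent.N977.Q

open H459R3.NS
open Pool.Agent.N977.K (SolK cmp)

variable {ν T σ p δ : ℝ} {u : ℝ → V → V} {q : ℝ → V → ℝ} {K : (V → V) → (V → V) → V → V}
variable {M h : ℕ} {w : ℕ → ℝ} {v : V → V}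

/-- independence of the third variable -/
def Ind3 (v : V → V) : Prop := ∀ (a : ℝ) (x : V), v (x + Pi.single 2 a) = v x

theorem pd_two_ind {f : V → ℝ} (hf : SP f) (h : ∀ (a : ℝ) (x : V), f (x + Pi.single 2 a) = f x)
    (x : V) : pd 2 f x = 0 := by
  have h1 : HasFDerivAt f (fderiv ℝ f x) (x + Pi.single 2 (0 : ℝ)) := by
    rw [Pi.single_zero, add_zero]
    exact (hf.diff x).hasFDerivAt
  have h2 : HasDerivAt (fun a : ℝ => x + (Pi.single 2 a : V)) (Pi.single 2 (1 : ℝ)) 0 := by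
    have h3 : HasDerivAt (fun a : ℝ => (Pi.single 2 a : V)) (Pi.single 2 (1 : ℝ)) 0 := by
      have e : (fun a : ℝ => (Pi.single 2 a : V)) = fun a : ℝ => a • (Pi.single 2 (1 : ℝ) : V) := by
        funext a
        rw [← Pi.single_smul, smul_eq_mul, mul_one]
      rw [e]
      simpa using (hasDerivAt_id (0 : ℝ)).smul_const (Pi.single 2 (1 : ℝ) : V)
    exact h3.const_add x
  have h4 := h1.comp_hasDerivAt (0 : ℝ) h2
  have h5 : (f ∘ fun a : ℝ => x + (Pi.single 2 a : V)) = fun _ => f x := funext fun a => h a x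
  rw [h5] at h4
  exact h4.unique (hasDerivAt_const _ _)

theorem un_zero_of_ind (hv : SPV v) (h : Ind3 v) {k : K3} (hk : k 2 ≠ 0) : un v k = 0 := by
  have h1 : ∀ i, fr (fun x => v x i) k = 0 := by
    intro i
    have h2 : pd 2 (fun x => v x i) = fun _ => 0 :=
      funext fun x => pd_two_ind (spv_sp hv i) (fun a x => by rw [h a x]) x
    have h3 := fr_pd' (spv_sp hv i) 2 k
    rw [h2] at h3
    have h4 : fr (fun _ : V => (0 : ℝ)) k = 0 := by unfold fr fc; simp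
    rw [h4] at h3
    have h5 : (2 * Real.pi * Complex.I * (k 2 : ℂ)) ≠ 0 := by
      have : (k 2 : ℂ) ≠ 0 := by exact_mod_cast hk
      simp [Real.pi_ne_zero, this]
    exact (mul_eq_zero.1 h3.symm).resolve_left h5
  unfold un
  simp_rw [h1]
  simp

open Classical in
theorem card_Bl (n : ℕ) : (((Bl n).filter fun k => k 2 = 0).card : ℝ) ≤ (2 * 2 ^ n) ^ 2 := by
  have h1 : ((Bl n).filter fun k => k 2 = 0).card
      ≤ ((Finset.Ioo (-(2 ^ n : ℤ)) (2 ^ n)) ×ˢ (Finset.Ioo (-(2 ^ n : ℤ)) (2 ^ n))).card := by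
    refine Finset.card_le_card_of_injOn (fun k => (k 0, k 1)) (fun k hk => ?_) ?_
    · have hk' := Finset.mem_coe.1 hk
      rw [Finset.mem_filter, mem_Bl] at hk'
      have h2 : ∀ j, k j ∈ Finset.Ioo (-(2 ^ n : ℤ)) (2 ^ n) := by
        intro j
        have h3 := (abs_le_len k j).trans_lt hk'.1
        rw [abs_lt] at h3
        rw [Finset.mem_Ioo]
        constructor
        · exact_mod_cast h3.1
        · exact_mod_cast h3.2
      exact Finset.mem_coe.2 (Finset.mem_product.2 ⟨h2 0, h2 1⟩)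
    · intro k hk l hl hkl
      have hk' := (Finset.mem_filter.1 (Finset.mem_coe.1 hk)).2
      have hl' := (Finset.mem_filter.1 (Finset.mem_coe.1 hl)).2
      have h3 : k 0 = l 0 ∧ k 1 = l 1 := by simpa using hkl
      funext j
      fin_cases j
      · exact h3.1
      · exact h3.2
      · exact hk'.trans hl'.symm
  rw [Finset.card_product, Int.card_Ioo] at h1
  have h2 : ((2 ^ n : ℤ) - -(2 ^ n : ℤ) - 1).toNat ≤ 2 * 2 ^ n := by
    have : (0 : ℤ) < 2 ^ n := by positivity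
    have h3 : (((2 ^ n : ℤ) - -(2 ^ n : ℤ) - 1).toNat : ℤ) ≤ ((2 * 2 ^ n : ℕ) : ℤ) := by
      rw [Int.toNat_of_nonneg (by linarith)]
      push_cast
      linarith
    exact_mod_cast h3
  have h3 := h1.trans (Nat.mul_le_mul h2 h2)
  calc (((Bl n).filter fun k => k 2 = 0).card : ℝ) ≤ ((2 * 2 ^ n * (2 * 2 ^ n) : ℕ) : ℝ) := by
        exact_mod_cast h3
    _ = _ := by push_cast; ring

theorem S1_part (hv : SPV v) (h : Ind3 v) {n : ℕ} {F : Finset K3} (hF : F ⊆ Bl n) :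
    ∑ k ∈ F, un v k ≤ 2 * 2 ^ n * √(∑ k ∈ F, un v k ^ 2) := by
  classical
  have h1 : ∑ k ∈ F, un v k = ∑ k ∈ F.filter (fun k => k 2 = 0), un v k := by
    rw [Finset.sum_filter]
    refine Finset.sum_congr rfl fun k _ => ?_
    split_ifs with hk
    · rfl
    · exact un_zero_of_ind hv h hk
  have h2 := sq_sum_le_card_mul_sum_sq (s := F.filter (fun k => k 2 = 0)) (f := fun k => un v k)
  have h3 : ((F.filter (fun k => k 2 = 0)).card : ℝ) ≤ (2 * 2 ^ n) ^ 2 := by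
    refine le_trans ?_ (card_Bl n)
    exact_mod_cast Finset.card_le_card (Finset.filter_subset_filter _ hF)
  have h4 : ∑ k ∈ F.filter (fun k => k 2 = 0), un v k ^ 2 ≤ ∑ k ∈ F, un v k ^ 2 :=
    Finset.sum_le_sum_of_subset_of_nonneg (Finset.filter_subset _ _) fun k _ _ => sq_nonneg _
  have h5 : 0 ≤ ∑ k ∈ F, un v k ^ 2 := Finset.sum_nonneg fun k _ => sq_nonneg _
  rw [h1]
  apply le_of_sq_le_sq _ (by positivity)
  rw [mul_pow, Real.sq_sqrt h5]
  exact h2.trans (mul_le_mul h3 h4 (Finset.sum_nonneg fun k _ => sq_nonneg _) (by positivity))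

theorem sum_le_EE (hv : SPV v) (F : Finset K3) : ∑ k ∈ F, un v k ^ 2 ≤ EE 0 v := by
  unfold EE
  have h1 := (EE_summable hv 0).sum_le_tsum F fun k _ => by
    have := len_nonneg k
    positivity
  simpa using h1

theorem S1_energy (hv : SPV v) (h : Ind3 v) (n : ℕ) : S1 n v / 2 ^ n ≤ 2 * √(EE 0 v) := by
  rw [div_le_iff₀ (by positivity)]
  calc S1 n v ≤ 2 * 2 ^ n * √(∑ k ∈ Bl n, un v k ^ 2) := S1_part hv h (Finset.Subset.refl _)
    _ ≤ 2 * 2 ^ n * √(EE 0 v) :=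
        mul_le_mul_of_nonneg_left (Real.sqrt_le_sqrt (sum_le_EE hv _)) (by positivity)
    _ = _ := by ring

theorem S1_split (hw : Wg M w) (hv : SPV v) (h : Ind3 v) {j n : ℕ} (hj : 2 * j ≤ n) {B : ℝ}
    (hB : YY w j 0 v ≤ B) : S1 n v / 2 ^ n ≤ 2 * √(EE 0 v) / 2 ^ j + 2 * √(B / w j) := by
  classical
  have hwj := hw.pos j
  have h2n : (0 : ℝ) < 2 ^ n := by positivity
  have h2j : (0 : ℝ) < 2 ^ j := by positivity
  have hsub : Bl j ⊆ Bl n := fun k hk => by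
    rw [mem_Bl] at hk ⊢
    have : (2 : ℝ) ^ j ≤ 2 ^ n := pow_le_pow_right₀ (by norm_num) (by omega)
    linarith
  have h1 : S1 n v = ∑ k ∈ Bl n \ Bl j, un v k + ∑ k ∈ Bl j, un v k :=
    (Finset.sum_sdiff hsub).symm
  have h2 : ∑ k ∈ Bl j, un v k ≤ 2 * 2 ^ j * √(EE 0 v) :=
    (S1_part hv h (Finset.Subset.refl _)).trans
      (mul_le_mul_of_nonneg_left (Real.sqrt_le_sqrt (sum_le_EE hv _)) (by positivity))
  have h3 : ∑ k ∈ Bl n \ Bl j, un v k ^ 2 ≤ B / w j := by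
    rw [le_div_iff₀ hwj, Finset.sum_mul]
    refine le_trans (Finset.sum_le_sum fun k hk => ?_)
      (((YY_summable hw hv j 0).sum_le_tsum (Bl n \ Bl j) fun k _ => ?_).trans hB)
    · have e1 : j ≤ lv k := by
        by_contra hcon
        push Not at hcon
        apply (Finset.mem_sdiff.1 hk).2
        obtain ⟨i, rfl⟩ : ∃ i, j = i + 1 := ⟨j - 1, by omega⟩
        exact (lv_le_iff k i).1 (by omega)
      rw [min_eq_right e1, mul_zero, pow_zero, one_mul, mul_comm]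
    · have := hw.pos (min (lv k) j)
      have := len_nonneg k
      positivity
  have h4 : ∑ k ∈ Bl n \ Bl j, un v k ≤ 2 * 2 ^ n * √(B / w j) :=
    (S1_part hv h (Finset.sdiff_subset)).trans
      (mul_le_mul_of_nonneg_left (Real.sqrt_le_sqrt h3) (by positivity))
  rw [h1, add_div]
  have h5 : (∑ k ∈ Bl n \ Bl j, un v k) / 2 ^ n ≤ 2 * √(B / w j) := by
    rw [div_le_iff₀ h2n]
    linarith
  have h6 : (∑ k ∈ Bl j, un v k) / 2 ^ n ≤ 2 * √(EE 0 v) / 2 ^ j := by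
    rw [div_le_div_iff₀ h2n h2j]
    have h7 : (2 : ℝ) ^ j * 2 ^ j ≤ 2 ^ n := by
      rw [← pow_add]
      exact pow_le_pow_right₀ (by norm_num) (by omega)
    calc (∑ k ∈ Bl j, un v k) * 2 ^ j ≤ (2 * 2 ^ j * √(EE 0 v)) * 2 ^ j :=
          mul_le_mul_of_nonneg_right h2 h2j.le
      _ = 2 * √(EE 0 v) * (2 ^ j * 2 ^ j) := by ring
      _ ≤ 2 * √(EE 0 v) * 2 ^ n := mul_le_mul_of_nonneg_left h7 (by positivity)
  linarith

/-- translates of solutions -/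
theorem sol_shift (hK : Low σ p δ K) (hs : SolK ν T K u q) (a : V) :
    SolK ν T K (fun t x => u t (x + a)) (fun t x => q t (x + a)) := by
  have hpd : ∀ (f : V → ℝ) (j : Fin 3), pd j (fun y => f (y + a)) = fun x => pd j f (x + a) := by
    intro f j
    funext x
    unfold pd
    rw [fderiv_comp_add_right]
  have hsub : ContDiff ℝ ∞ (fun z : ℝ × V => ((z.1, z.2 + a) : ℝ × V)) := by fun_prop
  refine ⟨?_, ?_, fun t ht i x => ?_, fun t ht i x => ?_, fun t ht x => ?_, fun t ht x i => ?_⟩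
  · exact hs.smooth_u.comp hsub.contDiffOn fun z hz => ⟨hz.1, mem_univ _⟩
  · exact hs.smooth_p.comp hsub.contDiffOn fun z hz => ⟨hz.1, mem_univ _⟩
  · rw [add_right_comm, hs.per_u t ht i]
  · rw [add_right_comm, hs.per_p t ht i]
  · have h1 : ∀ i, pd i (fun y => u t (y + a) i) x = pd i (fun y => u t y i) (x + a) := fun i =>
      congrFun (hpd (fun y => u t y i) i) x
    simp_rw [h1]
    exact hs.divfree t ht (x + a)
  · have h1 : ∀ j, pd j (fun y => u t (y + a) i) = fun x => pd j (fun y => u t y i) (x + a) :=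
      fun j => hpd (fun y => u t y i) j
    have h2 : ∀ j, pd j (fun x => pd j (fun y => u t y i) (x + a))
        = fun x => pd j (pd j (fun y => u t y i)) (x + a) := fun j =>
      hpd (pd j (fun y => u t y i)) j
    have h3 : pd i (fun x => q t (x + a)) x = pd i (q t) (x + a) := congrFun (hpd (q t) i) x
    have hu := sol_spv hs (Ioo_subset_Ico_self ht)
    have h4 : K (fun x => u t (x + a)) (fun x => u t (x + a)) x i = K (u t) (u t) (x + a) i :=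
      congrFun (congrFun (hK.shift a _ _ hu hu) x) i
    simp_rw [h1, h2, h3]
    rw [h4]
    exact hs.momentum t ht (x + a) i

/-- the independence of the third variable is preserved -/
theorem ind_of_init (hν : 0 ≤ ν) (hp0 : 0 ≤ p) (hδ : 0 ≤ δ) (hK : Low σ p δ K)
    (hs : SolK ν T K u q) (h0 : Ind3 (u 0)) {t : ℝ} (ht : t ∈ Ico 0 T) : Ind3 (u t) := fun a x =>
  sol_unique' hν hp0 hδ hK (sol_shift hK hs (Pi.single 2 a)) hs (fun x => h0 a x) t ht x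

theorem tend_half : Tendsto (fun n : ℕ => n / 2) atTop atTop :=
  tendsto_atTop.2 fun b => eventually_atTop.2 ⟨2 * b, fun n hn => by omega⟩

/-- all the weighted energies are bounded -/
theorem YY_bdd' (hK : Low 2 p δ K) (hp0 : 0 ≤ p) (hp1 : p ≤ 1) (hδ : 0 ≤ δ) (hν : 0 < ν)
    (hT : 0 < T) (hs : SolK ν T K u q) (hi : ∀ t ∈ Ico 0 T, Ind3 (u t)) (s : ℕ) :
    ∃ B, 0 ≤ B ∧ ∀ t ∈ Ico 0 T, ∀ m, YY (fun n : ℕ => ((4 : ℝ) ^ s) ^ n) m 0 (u t) ≤ B := by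
  have hπ : 0 < ν * (2 * Real.pi) ^ 2 := by positivity
  set G := 2 * √(EE 0 (u 0)) with hG
  have hG0 : 0 ≤ G := by positivity
  have hGS : ∀ t ∈ Ico 0 T, ∀ n, S1 n (u t) / 2 ^ n ≤ G := fun t ht n => by
    have h1 := S1_energy (sol_spv hs ht) (hi t ht) n
    have h2 := Real.sqrt_le_sqrt (EE_le hν.le hK hs ht)
    linarith
  have hL0 : ∀ n, 0 ≤ LL n ^ p := fun n => Real.rpow_nonneg (by linarith [one_le_LL n]) _
  -- the first step
  obtain ⟨η, hη, hη1, B₁, hB₁0, hB₁⟩ : ∃ η : ℝ, 0 < η ∧ η ≤ 1 ∧ ∃ B, 0 ≤ B ∧ ∀ t ∈ Ico 0 T, ∀ m,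
      YY (fun n : ℕ => ((n : ℝ) + 2) ^ η) m 0 (u t) ≤ B := by
    set η := min 1 (ν * (2 * Real.pi) ^ 2 / (6 * (δ * 5 ^ 8 * G) + 2400 * G + 1)) with hη
    have hη0 : 0 < η := lt_min one_pos (by positivity)
    refine ⟨η, hη0, min_le_left _ _, ?_⟩
    have hη2 : η * (6 * (δ * 5 ^ 8 * G) + 2400 * G) ≤ ν * (2 * Real.pi) ^ 2 := by
      have h1 : η ≤ ν * (2 * Real.pi) ^ 2 / (6 * (δ * 5 ^ 8 * G) + 2400 * G + 1) := min_le_right _ _
      rw [le_div_iff₀ (by positivity)] at h1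
      linarith
    refine prop_w' (wg1 hη0 (min_le_left _ _)) hK hν.le hT hs
      (a := fun n => δ * 5 ^ (2 * 1 + 6) * LL (n + 1) ^ p * G / 2 + 100 * 4 ^ 1 * G)
      (fun n => by have := hL0 (n + 1); positivity)
      (fun t ht n => flux_tot hK hp0 hδ (sol_spv hs (Ioo_subset_Ico_self ht))
        (hs.divfree t (Ioo_subset_Ico_self ht)) n 1
        (gam_energy hν.le hK hs (Ioo_subset_Ico_self ht) (n + 1))
        (hGS t (Ioo_subset_Ico_self ht) (n + 1))) (n₀ := 0) fun n _ => ?_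
    have h1 := diff1 hη0 (min_le_left _ _ : η ≤ 1) n
    have h2 := LL_rpow_le hp1 (n + 1)
    have h3 : (0 : ℝ) < ((n + 1 : ℕ) + 2 : ℝ) ^ η := by positivity
    have h4 : (0 : ℝ) ≤ ((n + 1 : ℕ) + 2 : ℝ) ^ η - ((n : ℝ) + 2) ^ η :=
      sub_nonneg.2 ((wg1 hη0 (min_le_left _ _)).mono n)
    have h5 : (((n + 1 : ℕ) + 2 : ℝ) ^ η - ((n : ℝ) + 2) ^ η) * LL (n + 1) ^ p
        ≤ 2 * η * ((n + 1 : ℕ) + 2 : ℝ) ^ η := by
      calc (((n + 1 : ℕ) + 2 : ℝ) ^ η - ((n : ℝ) + 2) ^ η) * LL (n + 1) ^ p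
          ≤ (η * ((n + 1 : ℕ) + 2 : ℝ) ^ η / ((n : ℝ) + 2)) * (((n + 1 : ℕ) : ℝ) + 2) :=
            mul_le_mul h1 h2 (hL0 (n + 1)) (by positivity)
        _ ≤ (η * ((n + 1 : ℕ) + 2 : ℝ) ^ η / ((n : ℝ) + 2)) * (2 * ((n : ℝ) + 2)) := by
            apply mul_le_mul_of_nonneg_left _ (by positivity)
            push_cast
            linarith
        _ = _ := by field_simp
    have h6 : ((n + 1 : ℕ) + 2 : ℝ) ^ η - ((n : ℝ) + 2) ^ η ≤ η * ((n + 1 : ℕ) + 2 : ℝ) ^ η := by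
      refine h1.trans ?_
      rw [div_le_iff₀ (by positivity)]
      have h7 : 0 ≤ η * ((n + 1 : ℕ) + 2 : ℝ) ^ η := by positivity
      have h8 : (0 : ℝ) ≤ n := Nat.cast_nonneg n
      nlinarith
    calc (((n + 1 : ℕ) + 2 : ℝ) ^ η - ((n : ℝ) + 2) ^ η)
          * (2 * (δ * 5 ^ (2 * 1 + 6) * LL (n + 1) ^ p * G / 2 + 100 * 4 ^ 1 * G)) * (4 ^ 1 + 2)
        = ((((n + 1 : ℕ) + 2 : ℝ) ^ η - ((n : ℝ) + 2) ^ η) * LL (n + 1) ^ p)
          * (6 * (δ * 5 ^ 8 * G))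
          + (((n + 1 : ℕ) + 2 : ℝ) ^ η - ((n : ℝ) + 2) ^ η) * (4800 * G) := by ring
      _ ≤ (2 * η * ((n + 1 : ℕ) + 2 : ℝ) ^ η) * (6 * (δ * 5 ^ 8 * G))
          + (η * ((n + 1 : ℕ) + 2 : ℝ) ^ η) * (4800 * G) :=
          add_le_add (mul_le_mul_of_nonneg_right h5 (by positivity))
            (mul_le_mul_of_nonneg_right h6 (by positivity))
      _ = 2 * (η * (6 * (δ * 5 ^ 8 * G) + 2400 * G)) * ((n + 1 : ℕ) + 2 : ℝ) ^ η := by ring
      _ ≤ 2 * (ν * (2 * Real.pi) ^ 2) * ((n + 1 : ℕ) + 2 : ℝ) ^ η :=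
          mul_le_mul_of_nonneg_right (by linarith) h3.le
      _ = _ := by ring
  have ht2 : Tendsto (fun n : ℕ => ((n + 1 : ℕ) : ℝ) + 2) atTop atTop :=
    tendsto_atTop_add_const_right _ _
      (tendsto_natCast_atTop_atTop.comp (tendsto_add_atTop_nat 1))
  -- the second step
  obtain ⟨B₂, hB₂0, hB₂⟩ : ∃ B, 0 ≤ B ∧ ∀ t ∈ Ico 0 T, ∀ m,
      YY (fun n : ℕ => ((n : ℝ) + 2) ^ 3) m 0 (u t) ≤ B := by
    have hw1 := wg1 hη hη1
    have hr : ∀ n : ℕ, ((n + 1 : ℕ) + 2 : ℝ) ^ η ≤ 4 * ((n : ℝ) + 2) ^ η := fun n => by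
      have h1 := rat1 hη hη1 n
      have h2 : (0 : ℝ) < ((n : ℝ) + 2) ^ η := by positivity
      linarith
    have ht1 : Tendsto (fun n : ℕ => (((n + 1 : ℕ) : ℝ) + 2) ^ η) atTop atTop :=
      (tendsto_rpow_atTop hη).comp ht2
    have ht3 : Tendsto (fun n : ℕ => (162 * (δ * 5 ^ 10)) * √(B₁ / (((n + 1 : ℕ) : ℝ) + 2) ^ η)
        + 172800 * G / (((n + 1 : ℕ) : ℝ) + 2)) atTop (𝓝 0) := by
      have := (tend_sqrt ht1 B₁ (162 * (δ * 5 ^ 10))).add (ht2.const_div_atTop (172800 * G))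
      rwa [add_zero] at this
    obtain ⟨n₀, hn₀⟩ := ev_le ht3 (c := 2 * ν * (2 * Real.pi) ^ 2) (by positivity)
    refine prop_w' wg2 hK hν.le hT hs
      (a := fun n => δ * 5 ^ (2 * 2 + 6) * LL (n + 1) ^ p
        * (3 * √(B₁ / (((n + 1 : ℕ) : ℝ) + 2) ^ η)) / 2 + 100 * 4 ^ 2 * G)
      (fun n => by have := hL0 (n + 1); positivity)
      (fun t ht n => flux_tot hK hp0 hδ (sol_spv hs (Ioo_subset_Ico_self ht))
        (hs.divfree t (Ioo_subset_Ico_self ht)) n 2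
        (gam_le hw1 hr (sol_spv hs (Ioo_subset_Ico_self ht)) (n + 1)
          (hB₁ t (Ioo_subset_Ico_self ht) (n + 1)))
        (hGS t (Ioo_subset_Ico_self ht) (n + 1))) (n₀ := n₀) fun n hn => ?_
    have h1 := hn₀ n hn
    have h2 := LL_rpow_le hp1 (n + 1)
    have h3 : (((n + 1 : ℕ) + 2 : ℝ) ^ 3 - ((n : ℝ) + 2) ^ 3) ≤ 3 * (((n + 1 : ℕ) : ℝ) + 2) ^ 2 := by
      push_cast
      have : (0 : ℝ) ≤ n := Nat.cast_nonneg n
      nlinarith
    set y : ℝ := ((n + 1 : ℕ) : ℝ) + 2 with hy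
    have hy0 : 0 < y := by positivity
    have h4 : (y ^ 3 - ((n : ℝ) + 2) ^ 3) * LL (n + 1) ^ p ≤ 3 * y ^ 3 := by
      calc _ ≤ (3 * y ^ 2) * y := mul_le_mul h3 h2 (hL0 _) (by positivity)
        _ = _ := by ring
    set g := √(B₁ / y ^ η) with hg
    have hg0 : 0 ≤ g := Real.sqrt_nonneg _
    calc (y ^ 3 - ((n : ℝ) + 2) ^ 3)
          * (2 * (δ * 5 ^ (2 * 2 + 6) * LL (n + 1) ^ p * (3 * g) / 2 + 100 * 4 ^ 2 * G))
          * (4 ^ 2 + 2)
        = ((y ^ 3 - ((n : ℝ) + 2) ^ 3) * LL (n + 1) ^ p) * ((δ * 5 ^ 10) * 18 * 3 * g)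
          + (y ^ 3 - ((n : ℝ) + 2) ^ 3) * (57600 * G) := by ring
      _ ≤ (3 * y ^ 3) * ((δ * 5 ^ 10) * 18 * 3 * g) + (3 * y ^ 2) * (57600 * G) :=
          add_le_add (mul_le_mul_of_nonneg_right h4 (by positivity))
            (mul_le_mul_of_nonneg_right h3 (by positivity))
      _ = (162 * (δ * 5 ^ 10) * g + 172800 * G / y) * y ^ 3 := by
          field_simp
          ring
      _ ≤ _ := mul_le_mul_of_nonneg_right h1 (by positivity)
  -- the third step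
  have hr2 : ∀ n : ℕ, ((n + 1 : ℕ) + 2 : ℝ) ^ 3 ≤ 4 * ((n : ℝ) + 2) ^ 3 := fun n => by
    push_cast
    have : (0 : ℝ) ≤ n := Nat.cast_nonneg n
    nlinarith [mul_nonneg this this, mul_nonneg (mul_nonneg this this) this]
  set gN : ℕ → ℝ := fun n => G / 2 ^ ((n + 1) / 2)
    + 2 * √(B₂ / ((((n + 1) / 2 : ℕ) : ℝ) + 2) ^ 3) with hgN
  have hgN0 : ∀ n, 0 ≤ gN n := fun n => by positivity
  have hh : Tendsto (fun n : ℕ => (n + 1) / 2) atTop atTop :=
    tend_half.comp (tendsto_add_atTop_nat 1)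
  have hgt : Tendsto gN atTop (𝓝 0) := by
    have h1 : Tendsto (fun n : ℕ => G / 2 ^ ((n + 1) / 2)) atTop (𝓝 0) := by
      have : Tendsto (fun n : ℕ => (2 : ℝ) ^ n) atTop atTop :=
        tendsto_pow_atTop_atTop_of_one_lt (by norm_num)
      exact (this.comp hh).const_div_atTop G
    have h2 : Tendsto (fun n : ℕ => ((((n + 1) / 2 : ℕ) : ℝ) + 2) ^ 3) atTop atTop :=
      (tendsto_pow_atTop (by norm_num)).comp (tendsto_atTop_add_const_right _ _
        (tendsto_natCast_atTop_atTop.comp hh))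
    have := h1.add (tend_sqrt h2 B₂ 2)
    rwa [add_zero] at this
  have ht4 : Tendsto (fun n : ℕ => ((δ * 5 ^ (2 * (s + 1) + 6)) * 3 * (4 ^ (s + 1) + 2))
      * √(B₂ / (((n + 1 : ℕ) : ℝ) + 2)) + (200 * 4 ^ (s + 1) * (4 ^ (s + 1) + 2)) * gN n)
      atTop (𝓝 0) := by
    have := (tend_sqrt ht2 B₂ ((δ * 5 ^ (2 * (s + 1) + 6)) * 3 * (4 ^ (s + 1) + 2))).add
      (hgt.const_mul (200 * 4 ^ (s + 1) * (4 ^ (s + 1) + 2)))
    rwa [mul_zero, add_zero] at this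
  obtain ⟨n₀, hn₀⟩ := ev_le ht4 (c := 2 * ν * (2 * Real.pi) ^ 2) (by positivity)
  refine prop_w' (wg3 s) hK hν.le hT hs
    (a := fun n => δ * 5 ^ (2 * (s + 1) + 6) * LL (n + 1) ^ p
      * (3 * √(B₂ / (((n + 1 : ℕ) : ℝ) + 2) ^ 3)) / 2 + 100 * 4 ^ (s + 1) * gN n)
    (fun n => by have := hL0 (n + 1); have := hgN0 n; positivity)
    (fun t ht n => flux_tot hK hp0 hδ (sol_spv hs (Ioo_subset_Ico_self ht))
      (hs.divfree t (Ioo_subset_Ico_self ht)) n (s + 1)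
      (gam_le wg2 hr2 (sol_spv hs (Ioo_subset_Ico_self ht)) (n + 1)
        (hB₂ t (Ioo_subset_Ico_self ht) (n + 1))) ?_) (n₀ := n₀) fun n hn => ?_
  · have htI := Ioo_subset_Ico_self ht
    have h1 := S1_split wg2 (sol_spv hs htI) (hi t htI) (j := (n + 1) / 2) (n := n + 1) (by omega)
      (hB₂ t htI _)
    refine h1.trans ?_
    simp only [hgN]
    have h2 := Real.sqrt_le_sqrt (EE_le hν.le hK hs htI)
    have h3 : 2 * √(EE 0 (u t)) / 2 ^ ((n + 1) / 2) ≤ G / 2 ^ ((n + 1) / 2) :=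
      div_le_div_of_nonneg_right (by linarith) (by positivity)
    linarith
  have h1 := hn₀ n hn
  have h2 := LL_rpow_le hp1 (n + 1)
  set y : ℝ := ((n + 1 : ℕ) : ℝ) + 2 with hy
  have hy0 : 0 < y := by positivity
  have h3 : LL (n + 1) ^ p * √(B₂ / y ^ 3) ≤ √(B₂ / y) := by
    calc LL (n + 1) ^ p * √(B₂ / y ^ 3) ≤ y * √(B₂ / y ^ 3) :=
          mul_le_mul_of_nonneg_right h2 (Real.sqrt_nonneg _)
      _ = √(y ^ 2 * (B₂ / y ^ 3)) := by rw [Real.sqrt_mul (sq_nonneg _), Real.sqrt_sq hy0.le]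
      _ = √(B₂ / y) := by
          congr 1
          field_simp
  have h4 : ((4 : ℝ) ^ s) ^ (n + 1) - (4 ^ s) ^ n ≤ (4 ^ s) ^ (n + 1) := by
    have : (0 : ℝ) < (4 ^ s) ^ n := by positivity
    linarith
  have hgn := hgN0 n
  calc (((4 : ℝ) ^ s) ^ (n + 1) - (4 ^ s) ^ n)
        * (2 * (δ * 5 ^ (2 * (s + 1) + 6) * LL (n + 1) ^ p * (3 * √(B₂ / y ^ 3)) / 2
          + 100 * 4 ^ (s + 1) * gN n)) * (4 ^ (s + 1) + 2)
      = (((4 : ℝ) ^ s) ^ (n + 1) - (4 ^ s) ^ n) * ((δ * 5 ^ (2 * (s + 1) + 6)) * 3 *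
        (4 ^ (s + 1) + 2) * (LL (n + 1) ^ p * √(B₂ / y ^ 3))
          + (200 * 4 ^ (s + 1) * (4 ^ (s + 1) + 2)) * gN n) := by ring
    _ ≤ (4 ^ s) ^ (n + 1) * ((δ * 5 ^ (2 * (s + 1) + 6)) * 3 * (4 ^ (s + 1) + 2) * √(B₂ / y)
          + (200 * 4 ^ (s + 1) * (4 ^ (s + 1) + 2)) * gN n) := by
        refine mul_le_mul h4 (add_le_add (mul_le_mul_of_nonneg_left h3 (by positivity)) le_rfl)
          ?_ (by positivity)
        have := hL0 (n + 1)
        positivity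
    _ ≤ (4 ^ s) ^ (n + 1) * (2 * ν * (2 * Real.pi) ^ 2) :=
        mul_le_mul_of_nonneg_left h1 (by positivity)
    _ = _ := by ring

/-- **No blow-up** up to the power one of the logarithm, for data which do not depend on the third
variable, Navier-Stokes case. -/
theorem reg_ind (hK : Low 2 p δ K) (hp0 : 0 ≤ p) (hp1 : p ≤ 1) (hδ : 0 ≤ δ) (hν : 0 < ν)
    (hs : SolK ν T K u q) (h0 : ∀ (a : ℝ) (x : V), u 0 (x + Pi.single 2 a) = u 0 x)
    (s : ℝ) : ∃ B, ∀ t ∈ Ico 0 T, Hn s 0 (u t) ≤ B := by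
  rcases le_or_gt T 0 with hT | hT
  · exact ⟨0, fun t ht => absurd (ht.1.trans_lt ht.2) (not_lt.2 hT)⟩
  obtain ⟨B, _, hB⟩ := YY_bdd' hK hp0 hp1 hδ hν hT hs
    (fun t ht => ind_of_init hν.le hp0 hδ hK hs h0 ht) ⌈s⌉₊
  refine ⟨√(4 ^ ⌈s⌉₊ * B), fun t ht => ?_⟩
  exact (Hn_mono (Nat.le_ceil s) (sol_spv hs ht)).trans (Hn_of_YY (sol_spv hs ht) (hB t ht))

end Pool.Agent.N977.Q
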