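import Pool.Agent.N977.Q.Th1

/-!
Projections to low and high frequencies, and the flux of energy.
-/

open MeasureTheory Set Filter Topology
open scoped ContDiff ComplexConjugate

namespace Pool.Agent.N977.Q

open H459R3.NS
open Pool.Agent.N977.K (SolK re_integral im_integral)

theorem lowset_finite (n : ℕ) : {k : K3 | len k < 2 ^ n}.Finite := by
  refine (finite_box 0 (2 ^ n)).subset fun k hk => ?_
  have hk' : len k < 2 ^ n := hk
  show H459R3.NS.N (k - 0) ≤ 2 ^ n
  rw [sub_zero, N_le_iff]
  intro j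
  have h1 := (abs_le_len k j).trans hk'.le
  have h2 : ((|k j| : ℤ) : ℝ) ≤ (((2 ^ n : ℕ) : ℤ) : ℝ) := by push_cast; exact h1
  exact_mod_cast h2

/-- the low frequencies -/
noncomputable def Bl (n : ℕ) : Finset K3 := (lowset_finite n).toFinset

theorem mem_Bl {n : ℕ} {k : K3} : k ∈ Bl n ↔ len k < 2 ^ n := by
  unfold Bl
  rw [Set.Finite.mem_toFinset]
  rfl

theorem len_neg (k : K3) : len (-k) = len k := by
  unfold len
  simp

theorem neg_mem_Bl {n : ℕ} {k : K3} : -k ∈ Bl n ↔ k ∈ Bl n := by
  rw [mem_Bl, mem_Bl, len_neg]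

theorem Rm_sp (k : K3) (a : ℂ) : SP (Rm k a) where
  smooth := by
    have : Rm k a = fun x => Complex.reCLM (a * ee k x) := rfl
    rw [this]
    exact Complex.reCLM.contDiff.comp (contDiff_const.mul (ee_contDiff k))
  per := Rm_per k a

theorem fr_Rm (k : K3) (a : ℂ) (l : K3) : fr (Rm k a) l
    = ((if l = k then a else 0) + (if l = -k then conj a else 0)) / 2 := by
  unfold fr fc
  have e : ∀ x, ee (-l) x * ((Rm k a x : ℝ) : ℂ)
      = (a / 2) * ee (-l + k) x + (conj a / 2) * ee (-l + -k) x := by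
    intro x
    rw [ee_add_left, ee_add_left, ee_neg k]
    unfold Rm
    have h1 : (((a * ee k x).re : ℝ) : ℂ) = (a * ee k x + conj (a * ee k x)) / 2 := by
      rw [Complex.re_eq_add_conj]
    rw [h1, map_mul]
    ring
  simp_rw [e]
  have i1 : IntegrableOn (fun x => (a / 2 : ℂ) * ee (-l + k) x) cube :=
    integrableOn_cube (continuous_const.mul (ee_continuous _))
  have i2 : IntegrableOn (fun x => (conj a / 2 : ℂ) * ee (-l + -k) x) cube :=
    integrableOn_cube (continuous_const.mul (ee_continuous _))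
  rw [integral_add i1 i2, integral_const_mul, integral_const_mul, integral_ee, integral_ee]
  have e1 : (-l + k = 0) ↔ l = k := neg_add_eq_zero
  have e2 : (-l + -k = 0) ↔ l = -k := neg_add_eq_zero
  simp only [e1, e2]
  split_ifs <;> ring

theorem fr_neg' {f : V → ℝ} (hf : Continuous f) (k : K3) : fr f (-k) = conj (fr f k) := by
  apply Complex.ext
  · rw [Complex.conj_re, fr_re hf, fr_re hf]
    congr 1
    funext x
    rw [ph_neg, mul_neg, Real.cos_neg]
  · rw [Complex.conj_im, fr_im hf, fr_im hf, neg_neg, ← integral_neg]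
    congr 1
    funext x
    rw [ph_neg, mul_neg, Real.sin_neg]
    ring

/-- projection to the low frequencies -/
noncomputable def Pn (n : ℕ) (u : V → V) (x : V) : V := fun i =>
  ∑ k ∈ Bl n, Rm k (fr (fun y => u y i) k) x

/-- projection to the high frequencies -/
noncomputable def Qn (n : ℕ) (u : V → V) (x : V) : V := u x - Pn n u x

variable {u : V → V} {n : ℕ}

theorem Pn_spv (n : ℕ) (u : V → V) : SPV (Pn n u) :=
  sp_spv fun i => SP.sum fun k _ => Rm_sp k _

theorem Qn_spv (n : ℕ) (hu : SPV u) : SPV (Qn n u) :=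
  sp_spv fun i => (spv_sp hu i).sub (spv_sp (Pn_spv n u) i)

theorem fr_sumF {s : Finset K3} {f : K3 → V → ℝ} (hf : ∀ e, Continuous (f e)) (k : K3) :
    fr (fun x => ∑ e ∈ s, f e x) k = ∑ e ∈ s, fr (f e) k := by
  classical
  induction s using Finset.induction_on with
  | empty =>
    simp only [Finset.sum_empty]
    unfold fr fc; simp
  | insert e s he ih =>
    simp only [Finset.sum_insert he]
    rw [fr_add (hf e) (continuous_finsetSum _ fun i _ => hf i), ih]

open Classical in
theorem fr_Pn (hu : SPV u) (n : ℕ) (i : Fin 3) (l : K3) : fr (fun x => Pn n u x i) l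
    = if l ∈ Bl n then fr (fun x => u x i) l else 0 := by
  have hc := (spv_sp hu i).cont
  unfold Pn
  rw [fr_sumF (fun k => (Rm_cont k _))]
  simp_rw [fr_Rm]
  rw [← Finset.sum_div, Finset.sum_add_distrib, Finset.sum_ite_eq]
  have h2 : ∑ k ∈ Bl n, (if l = -k then conj (fr (fun y => u y i) k) else 0)
      = if l ∈ Bl n then fr (fun x => u x i) l else 0 := by
    have h3 : ∀ k, (if l = -k then conj (fr (fun y => u y i) k) else 0)
        = if -l = k then fr (fun x => u x i) l else 0 := by
      intro k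
      by_cases h : l = -k
      · rw [if_pos h, if_pos (by rw [h, neg_neg]), h, fr_neg' hc]
      · rw [if_neg h, if_neg (fun h' => h (by rw [← h', neg_neg]))]
    simp_rw [h3]
    rw [Finset.sum_ite_eq]
    simp only [neg_mem_Bl]
  rw [h2]
  split_ifs <;> ring

open Classical in
theorem un_Pn (hu : SPV u) (n : ℕ) (k : K3) : un (Pn n u) k = if k ∈ Bl n then un u k else 0 := by
  unfold un
  simp_rw [fr_Pn hu]
  split_ifs <;> simp

open Classical in
theorem fr_Qn (hu : SPV u) (n : ℕ) (i : Fin 3) (l : K3) : fr (fun x => Qn n u x i) l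
    = if l ∈ Bl n then 0 else fr (fun x => u x i) l := by
  have e : (fun x => Qn n u x i) = fun x => u x i - Pn n u x i := rfl
  rw [e, fr_sub (spv_sp hu i).cont (spv_sp (Pn_spv n u) i).cont, fr_Pn hu]
  split_ifs <;> simp

open Classical in
theorem un_Qn (hu : SPV u) (n : ℕ) (k : K3) : un (Qn n u) k = if k ∈ Bl n then 0 else un u k := by
  unfold un
  simp_rw [fr_Qn hu]
  split_ifs <;> simp

variable {σ π' δ : ℝ} {K : (V → V) → (V → V) → V → V}

/-- the trilinear form -/
noncomputable def TT (K : (V → V) → (V → V) → V → V) (u v w : V → V) : ℝ :=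
  ∑ i, ∫ x in cube, K u v x i * w x i

theorem test_Pn (hK : Low σ π' δ K) (hu : SPV u) (n : ℕ) :
    TT K u u (Pn n u) = ∑ k ∈ Bl n, tk K u k := by
  have hKs := hK.smooth _ _ hu hu
  unfold TT tk
  rw [Finset.sum_comm]
  refine Finset.sum_congr rfl fun i _ => ?_
  unfold Pn
  simp_rw [Finset.mul_sum]
  rw [integral_finsetSum _ fun k _ => ((spv_sp hKs i).mul (Rm_sp k _)).int]
  refine Finset.sum_congr rfl fun k _ => ?_
  have h1 := int_Rm_mul k (fr (fun y => u y i) k) (spv_sp hKs i).cont
  have h2 : (∫ x in cube, K u u x i * Rm k (fr (fun y => u y i) k) x)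
      = ∫ x in cube, Rm k (fr (fun y => u y i) k) x * K u u x i := by
    congr 1; funext x; ring
  rw [h2, h1, fr_neg' (spv_sp hKs i).cont]
  rw [← Complex.conj_re, map_mul, Complex.conj_conj]

theorem TT_add_mid (hK : Low σ π' δ K) {u v v' w : V → V} (hu : SPV u) (hv : SPV v)
    (hv' : SPV v') (hw : SPV w) :
    TT K u (fun x => v x + v' x) w = TT K u v w + TT K u v' w := by
  unfold TT
  rw [hK.add_right u v v' hu hv hv', ← Finset.sum_add_distrib]
  refine Finset.sum_congr rfl fun i _ => ?_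
  simp only [Pi.add_apply, add_mul]
  exact integral_add ((spv_sp (hK.smooth _ _ hu hv) i).mul (spv_sp hw i)).int
    ((spv_sp (hK.smooth _ _ hu hv') i).mul (spv_sp hw i)).int

theorem TT_add_left (hK : Low σ π' δ K) {u u' v w : V → V} (hu : SPV u) (hu' : SPV u')
    (hv : SPV v) (hw : SPV w) :
    TT K (fun x => u x + u' x) v w = TT K u v w + TT K u' v w := by
  unfold TT
  rw [hK.add_left u u' v hu hu' hv, ← Finset.sum_add_distrib]
  refine Finset.sum_congr rfl fun i _ => ?_
  simp only [Pi.add_apply, add_mul]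
  exact integral_add ((spv_sp (hK.smooth _ _ hu hv) i).mul (spv_sp hw i)).int
    ((spv_sp (hK.smooth _ _ hu' hv) i).mul (spv_sp hw i)).int

/-- the flux of energy through the frequency `2 ^ n` -/
theorem flux_eq (hK : Low σ π' δ K) (hu : SPV u) (n : ℕ) :
    ∑ k ∈ Bl n, tk K u k = TT K (Pn n u) (Qn n u) (Pn n u) + TT K (Qn n u) (Qn n u) (Pn n u) := by
  have hP := Pn_spv n u
  have hQ := Qn_spv n hu
  have e : u = fun x => Pn n u x + Qn n u x := by
    funext x; unfold Qn; abel
  rw [← test_Pn hK hu]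
  have h1 : TT K u u (Pn n u) = TT K u (Pn n u) (Pn n u) + TT K u (Qn n u) (Pn n u) := by
    conv_lhs => rw [show TT K u u (Pn n u) = TT K u (fun x => Pn n u x + Qn n u x) (Pn n u) by
      rw [← e]]
    exact TT_add_mid hK hu hP hQ hP
  have h2 : TT K u (Pn n u) (Pn n u) = 0 := hK.energy _ _ hu hP
  have h3 : TT K u (Qn n u) (Pn n u)
      = TT K (Pn n u) (Qn n u) (Pn n u) + TT K (Qn n u) (Qn n u) (Pn n u) := by
    have h4 := TT_add_left hK hP hQ hQ hP
    rw [← e] at h4
    exact h4
  rw [h1, h2, h3, zero_add]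

end Pool.Agent.N977.Q
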