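import Pool.Agent.N977.Q.Op
import Pool.Agent.N977.K.Def
import Pool.Agent.H459R3.NS.Gen

/-!
Smooth solutions with the additional bilinear term: preparations for the uniqueness.
-/

open MeasureTheory Set Filter Topology
open scoped ContDiff

namespace Pool.Agent.N977.Q

open H459R3.NS
open Pool.Agent.N977.K (SolK)

theorem pd_sub' {f g : V → ℝ} (hf : SP f) (hg : SP g) (j : Fin 3) (x : V) :
    pd j (fun y => f y - g y) x = pd j f x - pd j g x := by
  unfold pd
  have h : HasFDerivAt (fun y => f y - g y) _ x := (hf.diff x).hasFDerivAt.sub (hg.diff x).hasFDerivAt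
  rw [h.fderiv]
  simp

theorem lap_sub' {f g : V → ℝ} (hf : SP f) (hg : SP g) (x : V) :
    lap (fun y => f y - g y) x = lap f x - lap g x := by
  unfold lap
  rw [← Finset.sum_sub_distrib]
  refine Finset.sum_congr rfl fun j _ => ?_
  have h1 : pd j (fun y => f y - g y) = fun y => pd j f y - pd j g y :=
    funext fun y => pd_sub' hf hg j y
  rw [h1, pd_sub' (hf.pd j) (hg.pd j)]

theorem fr_cont {f : V → ℝ} (hf : Continuous f) (k : K3) :
    Continuous fun x => ee (-k) x * (f x : ℂ) :=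
  (ee_continuous _).mul (Complex.continuous_ofReal.comp hf)

theorem fr_sub {f g : V → ℝ} (hf : Continuous f) (hg : Continuous g) (k : K3) :
    fr (fun x => f x - g x) k = fr f k - fr g k := by
  unfold fr fc
  have e : ∀ x, ee (-k) x * ((f x - g x : ℝ) : ℂ) = ee (-k) x * (f x : ℂ) - ee (-k) x * (g x : ℂ) :=
    fun x => by push_cast; ring
  simp_rw [e]
  exact integral_sub (integrableOn_cube (fr_cont hf k)) (integrableOn_cube (fr_cont hg k))

theorem fr_add {f g : V → ℝ} (hf : Continuous f) (hg : Continuous g) (k : K3) :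
    fr (fun x => f x + g x) k = fr f k + fr g k := by
  unfold fr fc
  have e : ∀ x, ee (-k) x * ((f x + g x : ℝ) : ℂ) = ee (-k) x * (f x : ℂ) + ee (-k) x * (g x : ℂ) :=
    fun x => by push_cast; ring
  simp_rw [e]
  exact integral_add (integrableOn_cube (fr_cont hf k)) (integrableOn_cube (fr_cont hg k))

theorem fr_smul (r : ℝ) (f : V → ℝ) (k : K3) : fr (fun x => r * f x) k = r * fr f k := by
  unfold fr fc
  rw [← integral_const_mul]
  congr 1
  funext x
  push_cast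
  ring

theorem norm_fr_le_nrm {f : V → ℝ} (hf : SP f) (k : K3) : ‖fr f k‖ ≤ nrm f := by
  unfold nrm
  apply Real.le_sqrt_of_sq_le
  rw [← n2_fr hf, n2_sq]
  exact (summable_sq (rap_fr hf).summable).le_tsum k fun _ _ => sq_nonneg _

/-- decay of the Fourier coefficients -/
theorem fr_decay' {f : V → ℝ} (hf : SP f) (s : ℕ) (j : Fin 3) {B : ℝ}
    (hB : ∀ x ∈ cube, |(pd j)^[s] f x| ≤ B) (k : K3) : |(k j : ℝ)| ^ s * ‖fr f k‖ ≤ B := by
  have h1 : ‖fr ((pd j)^[s] f) k‖ ≤ B := by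
    unfold fr fc
    have h2 := norm_setIntegral_le_of_norm_le_const (μ := volume) (s := cube)
      (f := fun x => ee (-k) x * (((pd j)^[s] f x : ℝ) : ℂ)) (C := B)
      isCompact_Icc.measure_lt_top (fun x hx => by
        rw [norm_mul, norm_ee, one_mul, Complex.norm_real]
        exact hB x hx)
    simpa [Measure.real, volume_cube] using h2
  rw [fr_iter hf j s, norm_mul, norm_pow] at h1
  refine le_trans ?_ h1
  apply mul_le_mul_of_nonneg_right _ (norm_nonneg _)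
  apply pow_le_pow_left₀ (abs_nonneg _)
  rw [norm_mul, norm_mul, norm_mul, Complex.norm_I, mul_one, Complex.norm_real,
    Real.norm_eq_abs, abs_of_pos Real.pi_pos, Complex.norm_ofNat, Complex.norm_intCast]
  have := Real.pi_gt_three
  have h0 := abs_nonneg (k j : ℝ)
  nlinarith

theorem exists_abs_eq_N (k : K3) : ∃ j, (H459R3.NS.N k : ℝ) ≤ |(k j : ℝ)| := by
  by_contra hcon
  push Not at hcon
  have h0 := hcon 0
  have hpos : 0 < H459R3.NS.N k := by
    have : (0 : ℝ) < H459R3.NS.N k := (abs_nonneg _).trans_lt h0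
    exact_mod_cast this
  have h1 : H459R3.NS.N k ≤ H459R3.NS.N k - 1 := (N_le_iff _ _).2 fun j => by
    have h2 := hcon j
    have h3 : |k j| < (H459R3.NS.N k : ℤ) := by exact_mod_cast h2
    omega
  omega

section time

variable {T : ℝ} {f : ℝ → V → ℝ}

theorem contDiffOn_iter (hf : ContDiffOn ℝ ∞ (fun z : ℝ × V => f z.1 z.2) (Ico 0 T ×ˢ univ))
    (j : Fin 3) (s : ℕ) :
    ContDiffOn ℝ ∞ (fun z : ℝ × V => (pd j)^[s] (f z.1) z.2) (Ico 0 T ×ˢ univ) := by
  induction s with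
  | zero => exact hf
  | succ s ih =>
    have := contDiffOn_pd (f := fun t => (pd j)^[s] (f t)) ih j
    simp only [← Function.iterate_succ_apply' (pd j) s] at this
    exact this

theorem bdd_compact {F : ℝ → V → ℝ}
    (hF : ContinuousOn (fun z : ℝ × V => F z.1 z.2) (Ico 0 T ×ˢ univ)) {T' : ℝ} (hT : T' < T) :
    ∃ B, 0 ≤ B ∧ ∀ t ∈ Icc 0 T', ∀ x ∈ cube, |F t x| ≤ B := by
  have hK : IsCompact (Icc 0 T' ×ˢ cube) := isCompact_Icc.prod isCompact_Icc
  have hsub : Icc 0 T' ×ˢ cube ⊆ Ico 0 T ×ˢ (univ : Set V) :=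
    prod_mono (fun s hs => ⟨hs.1, hs.2.trans_lt hT⟩) (subset_univ _)
  obtain ⟨C, hC⟩ := hK.exists_bound_of_continuousOn (hF.mono hsub)
  refine ⟨max C 0, le_max_right _ _, fun t ht x hx => ?_⟩
  exact (hC (t, x) ⟨ht, hx⟩).trans (le_max_left _ _)

/-- uniform decay of the coefficients -/
theorem decay_time (hf : ContDiffOn ℝ ∞ (fun z : ℝ × V => f z.1 z.2) (Ico 0 T ×ˢ univ))
    (hp : ∀ t ∈ Ico 0 T, Per (f t)) {T' : ℝ} (hT : T' < T) (s : ℕ) :
    ∃ B, 0 ≤ B ∧ ∀ t ∈ Icc 0 T', Fb s B (f t) := by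
  choose B hB0 hB using fun j => bdd_compact (F := fun t => (pd j)^[s] (f t))
    (contDiffOn_iter hf j s).continuousOn hT
  refine ⟨∑ j, B j, Finset.sum_nonneg fun j _ => hB0 j, fun t ht k => ?_⟩
  have htI : t ∈ Ico 0 T := ⟨ht.1, ht.2.trans_lt hT⟩
  have hsp : SP (f t) := ⟨contDiff_slice hf htI, hp t htI⟩
  obtain ⟨j, hj⟩ := exists_abs_eq_N k
  have h1 := fr_decay' hsp s j (hB j t ht) k
  have h2 : (H459R3.NS.N k : ℝ) ^ s * ‖fr (f t) k‖ ≤ |(k j : ℝ)| ^ s * ‖fr (f t) k‖ :=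
    mul_le_mul_of_nonneg_right (pow_le_pow_left₀ (Nat.cast_nonneg _) hj s) (norm_nonneg _)
  exact (h2.trans h1).trans (Finset.single_le_sum (f := B) (fun i _ => hB0 i) (Finset.mem_univ j))

end time

variable {ι : Type} [Fintype ι] {P Q : ι → K3} {c : ℕ → ι → ℝ} {N : ℕ} {G : ℝ}

theorem abs_Tf_le (p q : K3) (f g h : V → ℝ) :
    |Tf p q f g h| ≤ ‖fr f p‖ * ‖fr g q‖ * ‖fr h (-p - q)‖ := by
  unfold Tf
  refine (Complex.abs_re_le_norm _).trans ?_
  rw [norm_mul, norm_mul]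

theorem neg_sub_smul (m : ℤ) (p q : K3) : -(m • p) - m • q = m • thd p q := by
  rw [thd_smul]; rfl

theorem abs_Fm_le (hG : Gr P Q c N G) (n : ℕ) {f g h : V → ℝ} (hf : SP f) (hh : SP h)
    {B : ℝ} (hB : Fb 4 B g) :
    |Fm P Q c N n f g h| ≤ (∑ _i : ι, 2 * (G * B)) * (nrm f * nrm h) * (1 / 2) ^ n := by
  have hM : (0 : ℝ) < Mn N n := by exact_mod_cast Mn_pos hG.N0 n
  have hG0 := hG.G0
  have hB0 := hB.nonneg
  have hf0 := nrm_nonneg f
  have hh0 := nrm_nonneg h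
  unfold Fm
  refine (Finset.abs_sum_le_sum_abs _ _).trans ?_
  rw [mul_assoc, Finset.sum_mul]
  refine Finset.sum_le_sum fun i _ => ?_
  have h1 : ∀ {q : K3}, q ≠ 0 → ‖fr g ((Mn N n : ℤ) • q)‖ ≤ B / (Mn N n : ℝ) ^ 4 := fun hq => by
    rw [le_div_iff₀ (by positivity), mul_comm]; exact hB.le hq
  have a1 := norm_fr_le_nrm hf ((Mn N n : ℤ) • P i)
  have a2 := norm_fr_le_nrm hh (-((Mn N n : ℤ) • P i) - (Mn N n : ℤ) • Q i)
  have a3 := norm_fr_le_nrm hh ((Mn N n : ℤ) • Q i)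
  have b1 := h1 (hG.Q0 i)
  have b2 := h1 (hG.R0 i)
  have e1 : |Tf ((Mn N n : ℤ) • P i) ((Mn N n : ℤ) • Q i) f g h|
      ≤ nrm f * (B / (Mn N n : ℝ) ^ 4) * nrm h :=
    (abs_Tf_le _ _ _ _ _).trans (mul_le_mul (mul_le_mul a1 b1 (norm_nonneg _) hf0) a2
      (norm_nonneg _) (by positivity))
  have e2 : |Tf ((Mn N n : ℤ) • P i) ((Mn N n : ℤ) • Q i) f h g|
      ≤ nrm f * nrm h * (B / (Mn N n : ℝ) ^ 4) := by
    refine (abs_Tf_le _ _ _ _ _).trans ?_
    rw [neg_sub_smul]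
    exact mul_le_mul (mul_le_mul a1 a3 (norm_nonneg _) hf0) b2 (norm_nonneg _) (by positivity)
  rw [abs_mul]
  have e3 := hG.c n i
  have e4 : |Tf ((Mn N n : ℤ) • P i) ((Mn N n : ℤ) • Q i) f g h
      - Tf ((Mn N n : ℤ) • P i) ((Mn N n : ℤ) • Q i) f h g|
      ≤ 2 * (nrm f * nrm h * (B / (Mn N n : ℝ) ^ 4)) := by
    refine (abs_sub _ _).trans ?_
    linarith
  calc |c n i| * |Tf ((Mn N n : ℤ) • P i) ((Mn N n : ℤ) • Q i) f g h
      - Tf ((Mn N n : ℤ) • P i) ((Mn N n : ℤ) • Q i) f h g|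
      ≤ (G * (Mn N n : ℝ) ^ 3) * (2 * (nrm f * nrm h * (B / (Mn N n : ℝ) ^ 4))) :=
        mul_le_mul e3 e4 (abs_nonneg _) (by positivity)
    _ = 2 * (G * B) * (nrm f * nrm h) * (1 / (Mn N n : ℝ)) := by field_simp
    _ ≤ 2 * (G * B) * (nrm f * nrm h) * (1 / 2) ^ n := by
        apply mul_le_mul_of_nonneg_left _ (by positivity)
        rw [one_div_pow]
        exact one_div_le_one_div_of_le (by positivity) (two_pow_le_Mn hG.N0 n)
    _ = _ := by ring

/-- the operator is bounded: `|∫ K(f, g) h| ≤ C ‖f‖ ‖h‖` -/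
theorem int_kk_le (hG : Gr P Q c N G) {f g h : V → ℝ} (hf : SP f) (hg : SP g) (hh : SP h)
    {B : ℝ} (hB : Fb 4 B g) :
    |∫ x in cube, kk P Q c N f g x * h x| ≤ 2 * (∑ _i : ι, 2 * (G * B)) * (nrm f * nrm h) := by
  have h1 := int_kk hG hf hg hh.cont
  have h2 := tsum_of_norm_bounded (f := fun n => Fm P Q c N n f g h)
    (summable_geometric_two.hasSum.mul_left
    ((∑ _i : ι, 2 * (G * B)) * (nrm f * nrm h))) (fun n => abs_Fm_le hG n hf hh hB)
  rw [h1.tsum_eq, Real.norm_eq_abs, tsum_geometric_two] at h2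
  linarith

theorem kk_sub_sub (hG : Gr P Q c N G) {f g : V → ℝ} (hf : SP f) (hg : SP g) (x : V) :
    kk P Q c N f f x - kk P Q c N g g x = kk P Q c N f (fun y => f y - g y) x
      + kk P Q c N (fun y => f y - g y) g x := by
  have hfg : SP (fun y => f y - g y) := hf.sub hg
  unfold kk
  rw [← (Lt_summable hG hf hf x).tsum_sub (Lt_summable hG hg hg x),
    ← (Lt_summable hG hf hfg x).tsum_add (Lt_summable hG hfg hg x)]
  refine tsum_congr fun n => ?_
  unfold Lt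
  rw [← Finset.sum_sub_distrib, ← Finset.sum_add_distrib]
  refine Finset.sum_congr rfl fun i _ => ?_
  unfold Ee
  rw [← mul_sub, ← mul_add]
  congr 1
  simp only [fr_sub hf.cont hg.cont, mul_sub, sub_mul, Rm_sub]
  ring

section sol

variable {ν T : ℝ} {u v : ℝ → V → V} {p q : ℝ → V → ℝ} {K : (V → V) → (V → V) → V → V}

theorem smooth_c (h : SolK ν T K u p) (i : Fin 3) :
    ContDiffOn ℝ ∞ (fun z : ℝ × V => u z.1 z.2 i) (Ico 0 T ×ˢ univ) :=
  (contDiffOn_pi.1 h.smooth_u) i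

theorem sol_sp (h : SolK ν T K u p) {t : ℝ} (ht : t ∈ Ico 0 T) (i : Fin 3) :
    SP (fun y => u t y i) where
  smooth := contDiff_slice (f := fun t y => u t y i) (smooth_c h i) ht
  per := fun j x => by simp only [h.per_u t ht j x]

theorem sol_sp_p (h : SolK ν T K u p) {t : ℝ} (ht : t ∈ Ico 0 T) : SP (p t) where
  smooth := contDiff_slice h.smooth_p ht
  per := h.per_p t ht

theorem sol_hasDerivAt (h : SolK ν T K u p) {t : ℝ} (ht : t ∈ Ioo 0 T) (i : Fin 3) (x : V) :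
    HasDerivAt (fun s => u s x i) (ν * lap (fun y => u t y i) x
      - conv (fun i y => u t y i) i x - pd i (p t) x + K (u t) (u t) x i) t := by
  have h1 := h.momentum t ht x i
  have h2 := hasDerivAt_slice (F := fun s y => u s y i)
        (mono_Ioo (f := fun s y => u s y i) (smooth_c h i) (by norm_cast)) ht x
  have h3 := h2.deriv
  rw [← h3] at h2
  refine h2.congr_deriv ?_
  unfold lap conv
  linarith

end sol

end Pool.Agent.N977.Q
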