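import Pool.Agent.N977.Q.Cls
import Pool.Agent.N977.Q.Sol

/-!
Properties of the norms.
-/

open MeasureTheory Set Filter Topology
open scoped ContDiff

namespace Pool.Agent.N977.Q

open H459R3.NS

theorem spv_sp {u : V → V} (hu : SPV u) (i : Fin 3) : SP (fun x => u x i) where
  smooth := contDiff_pi.1 hu.1 i
  per := fun j x => by simp only [hu.2 j x]

theorem sp_spv {u : V → V} (hu : ∀ i, SP (fun x => u x i)) : SPV u :=
  ⟨contDiff_pi.2 fun i => (hu i).smooth, fun j x => funext fun i => (hu i).per j x⟩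

theorem len_nonneg (k : K3) : 0 ≤ len k := Real.sqrt_nonneg _

theorem sum_sq_pos {k : K3} (hk : k ≠ 0) : 1 ≤ ∑ j, (k j : ℝ) ^ 2 := by
  obtain ⟨j, hj⟩ : ∃ j, k j ≠ 0 := by
    by_contra hcon
    push Not at hcon
    exact hk (funext hcon)
  have h1 : (1 : ℝ) ≤ (k j : ℝ) ^ 2 := by
    have : 1 ≤ |k j| := Int.one_le_abs hj
    have h2 : (1 : ℝ) ≤ |(k j : ℝ)| := by exact_mod_cast this
    rw [← sq_abs]
    nlinarith
  exact h1.trans (Finset.single_le_sum (f := fun j => (k j : ℝ) ^ 2) (fun i _ => sq_nonneg _)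
    (Finset.mem_univ j))

theorem one_le_len {k : K3} (hk : k ≠ 0) : 1 ≤ len k := by
  unfold len
  rw [Real.one_le_sqrt]
  exact sum_sq_pos hk

theorem len_le_N (k : K3) : len k ≤ 2 * H459R3.NS.N k := by
  unfold len
  rw [Real.sqrt_le_left (by positivity)]
  have h : ∀ j, (k j : ℝ) ^ 2 ≤ (H459R3.NS.N k : ℝ) ^ 2 := by
    intro j
    have h := (N_le_iff k (H459R3.NS.N k)).1 le_rfl j
    have h1 : |(k j : ℝ)| ≤ H459R3.NS.N k := by exact_mod_cast h
    rw [← sq_abs]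
    exact pow_le_pow_left₀ (abs_nonneg _) h1 2
  rw [Fin.sum_univ_three]
  nlinarith [h 0, h 1, h 2, sq_nonneg (H459R3.NS.N k : ℝ)]

theorem one_le_N {k : K3} (hk : k ≠ 0) : (1 : ℝ) ≤ H459R3.NS.N k := by
  have hN : 1 ≤ H459R3.NS.N k := Nat.one_le_iff_ne_zero.2 fun h => hk (N_eq_zero.1 h)
  exact_mod_cast hN

theorem wt_nonneg (s a : ℝ) (k : K3) : 0 ≤ wt s a k := by
  unfold wt
  split_ifs
  · exact le_rfl
  · have := len_nonneg k
    have h1 : 0 ≤ Real.log (2 + len k) := Real.log_nonneg (by linarith)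
    positivity

theorem one_le_log3 {x : ℝ} (hx : 1 ≤ x) : 1 ≤ Real.log (2 + x) := by
  rw [Real.le_log_iff_exp_le (by positivity)]
  have h1 : Real.exp 1 < 3 := Real.exp_one_lt_three
  linarith

theorem rpow_le_abs {x : ℝ} (hx : 1 ≤ x) (s : ℝ) : x ^ s ≤ x ^ (⌈|s|⌉₊ : ℕ) := by
  rw [← Real.rpow_natCast]
  exact Real.rpow_le_rpow_of_exponent_le hx ((le_abs_self s).trans (Nat.le_ceil _))

/-- crude bound of the weight -/
theorem wt_le (s a : ℝ) : ∃ m : ℕ, ∃ C : ℝ, 0 ≤ C ∧ ∀ k, wt s a k ≤ C * (H459R3.NS.N k : ℝ) ^ m := by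
  refine ⟨⌈|s|⌉₊ + ⌈|a|⌉₊, 4 ^ (⌈|s|⌉₊ + ⌈|a|⌉₊), by positivity, fun k => ?_⟩
  unfold wt
  split_ifs with hk
  · positivity
  · have h1 := one_le_len hk
    have h2 := len_le_N k
    have h3 := one_le_N hk
    have h4 := one_le_log3 h1
    have h5 : Real.log (2 + len k) ≤ 4 * H459R3.NS.N k := by
      have := Real.log_le_sub_one_of_pos (show 0 < 2 + len k by linarith)
      linarith
    rw [← mul_pow, pow_add]
    have e1 : len k ^ s ≤ (4 * (H459R3.NS.N k : ℝ)) ^ ⌈|s|⌉₊ :=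
      (rpow_le_abs h1 s).trans (pow_le_pow_left₀ (by linarith) (by linarith) _)
    have e2 : Real.log (2 + len k) ^ a ≤ (4 * (H459R3.NS.N k : ℝ)) ^ ⌈|a|⌉₊ :=
      (rpow_le_abs h4 a).trans (pow_le_pow_left₀ (by linarith) h5 _)
    exact mul_le_mul e1 e2 (by positivity) (by positivity)

theorem sq_summable {α : Type*} {f : α → ℝ} (hf : Summable f) (h0 : ∀ i, 0 ≤ f i) :
    Summable fun i => f i ^ 2 := by
  have h1 : ∀ i, f i ≤ ∑' j, f j := fun i => hf.le_tsum i fun _ _ => h0 _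
  refine Summable.of_nonneg_of_le (fun i => sq_nonneg _) (fun i => ?_) (hf.mul_left (∑' j, f j))
  rw [sq]
  exact mul_le_mul_of_nonneg_right (h1 i) (h0 i)

theorem wt_summable {f : V → ℝ} (hf : SP f) (s a : ℝ) :
    Summable fun k => (wt s a k * ‖fr f k‖) ^ 2 := by
  obtain ⟨m, C, hC, h⟩ := wt_le s a
  have h1 := (rap_fr hf m).mul_left C
  refine sq_summable (Summable.of_nonneg_of_le (fun k => ?_) (fun k => ?_) h1)
    fun k => mul_nonneg (wt_nonneg _ _ _) (norm_nonneg _)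
  · exact mul_nonneg (wt_nonneg _ _ _) (norm_nonneg _)
  · rw [← mul_assoc]
    exact mul_le_mul_of_nonneg_right (h k) (norm_nonneg _)

theorem Hn_summable {u : V → V} (hu : SPV u) (s a : ℝ) :
    Summable fun k : K3 => ∑ i, (wt s a k * ‖fr (fun x => u x i) k‖) ^ 2 :=
  summable_sum fun i _ => wt_summable (spv_sp hu i) s a

theorem Hn_nonneg (s a : ℝ) (u : V → V) : 0 ≤ Hn s a u := Real.sqrt_nonneg _

theorem Hn_sq (s a : ℝ) (u : V → V) :
    Hn s a u ^ 2 = ∑' k : K3, ∑ i, (wt s a k * ‖fr (fun x => u x i) k‖) ^ 2 :=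
  Real.sq_sqrt (tsum_nonneg fun k => Finset.sum_nonneg fun i _ => sq_nonneg _)

/-- the values along a sequence of frequencies are square summable -/
theorem Hn_seq {u : V → V} (hu : SPV u) (s a : ℝ) (i : Fin 3) {k : ℕ → K3}
    (hk : Function.Injective k) :
    Summable (fun n => (wt s a (k n) * ‖fr (fun x => u x i) (k n)‖) ^ 2) ∧
    ∑' n, (wt s a (k n) * ‖fr (fun x => u x i) (k n)‖) ^ 2 ≤ Hn s a u ^ 2 := by
  have h1 := wt_summable (spv_sp hu i) s a
  have h2 : Summable (fun n => (wt s a (k n) * ‖fr (fun x => u x i) (k n)‖) ^ 2) :=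
    h1.comp_injective hk
  refine ⟨h2, ?_⟩
  rw [Hn_sq]
  have h3 : ∑' n, (wt s a (k n) * ‖fr (fun x => u x i) (k n)‖) ^ 2
      ≤ ∑' k, (wt s a k * ‖fr (fun x => u x i) k‖) ^ 2 :=
    tsum_comp_le_tsum_of_inj h1 (fun k => sq_nonneg _) hk
  refine h3.trans (h1.tsum_le_tsum (fun k => ?_) (Hn_summable hu s a))
  exact Finset.single_le_sum (f := fun i => (wt s a k * ‖fr (fun x => u x i) k‖) ^ 2)
    (fun i _ => sq_nonneg _) (Finset.mem_univ i)

theorem Hn_le_val {u : V → V} (hu : SPV u) (s a : ℝ) (i : Fin 3) (k : K3) :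
    wt s a k * ‖fr (fun x => u x i) k‖ ≤ Hn s a u := by
  apply Real.le_sqrt_of_sq_le
  have h1 := (Hn_summable hu s a).le_tsum k fun _ _ => Finset.sum_nonneg fun i _ => sq_nonneg _
  refine le_trans ?_ h1
  exact Finset.single_le_sum (f := fun i => (wt s a k * ‖fr (fun x => u x i) k‖) ^ 2)
    (fun i _ => sq_nonneg _) (Finset.mem_univ i)

/-- the main estimate of trilinear sums -/
theorem cs3 {A B C : ℕ → ℝ} {a b c : ℝ} (ha0 : 0 ≤ a) (hb0 : 0 ≤ b) (hc0 : 0 ≤ c)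
    (ha : ∀ n, |A n| ≤ a) (hb : Summable fun n => B n ^ 2)
    (hb' : ∑' n, B n ^ 2 ≤ b ^ 2) (hc : Summable fun n => C n ^ 2) (hc' : ∑' n, C n ^ 2 ≤ c ^ 2) :
    Summable (fun n => |A n * B n * C n|) ∧ ∑' n, |A n * B n * C n| ≤ a * b * c := by
  have h1 := Real.summable_and_inner_le_Lp_mul_Lq_tsum_of_nonneg (f := fun n => |B n|)
    (g := fun n => |C n|) (p := 2) (q := 2) Real.HolderConjugate.two_two
    (fun n => abs_nonneg _) (fun n => abs_nonneg _) (by simpa using hb) (by simpa using hc)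
  obtain ⟨h2, h3⟩ := h1
  simp only [Real.rpow_two, sq_abs] at h3
  have h4 : ∑' n, |B n| * |C n| ≤ b * c := by
    refine h3.trans ?_
    rw [← Real.sqrt_eq_rpow, ← Real.sqrt_eq_rpow]
    refine mul_le_mul ?_ ?_ (Real.sqrt_nonneg _) hb0
    · rw [Real.sqrt_le_left hb0]; exact hb'
    · rw [Real.sqrt_le_left hc0]; exact hc'
  have h5 : ∀ n, |A n * B n * C n| ≤ a * (|B n| * |C n|) := fun n => by
    rw [abs_mul, abs_mul, mul_assoc]
    exact mul_le_mul_of_nonneg_right (ha n) (by positivity)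
  have h6 : Summable (fun n => |A n * B n * C n|) :=
    Summable.of_nonneg_of_le (fun n => abs_nonneg _) h5 (h2.mul_left a)
  refine ⟨h6, (h6.tsum_le_tsum h5 (h2.mul_left a)).trans ?_⟩
  rw [tsum_mul_left, mul_assoc]
  exact mul_le_mul_of_nonneg_left h4 ha0

theorem wt_zero_le_one (k : K3) : wt 0 0 k ≤ 1 := by
  unfold wt
  split_ifs
  · exact zero_le_one
  · simp

/-- the `L²` norm -/
theorem Hn_zero_le {u : V → V} (hu : SPV u) : Hn 0 0 u ^ 2 ≤ ∑ i, ∫ x in cube, u x i ^ 2 := by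
  rw [Hn_sq, Summable.tsum_finsetSum fun i _ => wt_summable (spv_sp hu i) 0 0]
  refine Finset.sum_le_sum fun i _ => ?_
  rw [← n2_fr (spv_sp hu i), n2_sq]
  refine (wt_summable (spv_sp hu i) 0 0).tsum_le_tsum (fun k => ?_)
    (summable_sq (rap_fr (spv_sp hu i)).summable)
  refine pow_le_pow_left₀ (mul_nonneg (wt_nonneg _ _ _) (norm_nonneg _)) ?_ 2
  exact mul_le_of_le_one_left (norm_nonneg _) (wt_zero_le_one k)

/-- uniform bounds of the norms on compact time intervals -/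
theorem Hn_time {T : ℝ} {u : ℝ → V → V}
    (hf : ContDiffOn ℝ ∞ (fun z : ℝ × V => u z.1 z.2) (Ico 0 T ×ˢ univ))
    (hp : ∀ t ∈ Ico 0 T, Per (u t)) {T' : ℝ} (hT : T' < T) (s a : ℝ) :
    ∃ B, 0 ≤ B ∧ ∀ t ∈ Icc 0 T', Hn s a (u t) ≤ B := by
  obtain ⟨m, C, hC, h⟩ := wt_le s a
  have hfi : ∀ i : Fin 3, ContDiffOn ℝ ∞ (fun z : ℝ × V => u z.1 z.2 i) (Ico 0 T ×ˢ univ) :=
    fun i => (contDiffOn_pi.1 hf) i
  have hex : ∀ i : Fin 3, ∃ B, 0 ≤ B ∧ ∀ t ∈ Icc 0 T', Fb (m + 2) B (fun x => u t x i) := fun i =>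
    decay_time (f := fun t x => u t x i) (hfi i)
      (fun t ht j x => by simp only [hp t ht j x]) hT (m + 2)
  choose B hB0 hB using hex
  set Z := ∑' k : K3, (if k = 0 then (0 : ℝ) else 1 / (H459R3.NS.N k : ℝ) ^ 4) with hZ
  refine ⟨√(∑ i, (C * B i) ^ 2 * Z), Real.sqrt_nonneg _, fun t ht => ?_⟩
  have htI : t ∈ Ico 0 T := ⟨ht.1, ht.2.trans_lt hT⟩
  have hspv : SPV (u t) := by
    refine sp_spv fun i => ⟨contDiff_slice (f := fun t x => u t x i) (hfi i) htI, ?_⟩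
    intro j x
    simp only [hp t htI j x]
  unfold Hn
  apply Real.sqrt_le_sqrt
  rw [Summable.tsum_finsetSum fun i _ => wt_summable (spv_sp hspv i) s a]
  refine Finset.sum_le_sum fun i _ => ?_
  rw [← tsum_mul_left]
  refine (wt_summable (spv_sp hspv i) s a).tsum_le_tsum (fun k => ?_)
    (summable_N4.mul_left _)
  by_cases hk : k = 0
  · rw [if_pos hk]
    unfold wt
    rw [if_pos hk]
    simp
  · rw [if_neg hk]
    have h1 := hB i t ht k
    have hN := one_le_N hk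
    have h2 := h k
    have h3 : wt s a k * ‖fr (fun x => u t x i) k‖ ≤ C * B i * (1 / (H459R3.NS.N k : ℝ) ^ 2) := by
      calc wt s a k * ‖fr (fun x => u t x i) k‖
          ≤ C * (H459R3.NS.N k : ℝ) ^ m * ‖fr (fun x => u t x i) k‖ :=
            mul_le_mul_of_nonneg_right h2 (norm_nonneg _)
        _ = C * (1 / (H459R3.NS.N k : ℝ) ^ 2) *
            ((H459R3.NS.N k : ℝ) ^ (m + 2) * ‖fr (fun x => u t x i) k‖) := by
            rw [pow_add]
            field_simp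
        _ ≤ C * (1 / (H459R3.NS.N k : ℝ) ^ 2) * B i :=
            mul_le_mul_of_nonneg_left h1 (by positivity)
        _ = _ := by ring
    calc (wt s a k * ‖fr (fun x => u t x i) k‖) ^ 2
        ≤ (C * B i * (1 / (H459R3.NS.N k : ℝ) ^ 2)) ^ 2 :=
          pow_le_pow_left₀ (mul_nonneg (wt_nonneg _ _ _) (norm_nonneg _)) h3 2
      _ = _ := by field_simp

end Pool.Agent.N977.Q
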