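import Pool.Agent.Y37.NE.ABS2

/-!
Quadratic systems with finitely many terms in each equation: the hypotheses of the abstract
well-posedness theorem.
-/

open Set Filter Topology

namespace Pool.Agent.N977.Q

open Pool.Agent.Y5.E

variable {I : Type} {K : ℕ} {A B : Fin K → I → I} {v : Fin K → I → ℝ} {d r : I → ℝ}

open Classical in
/-- kernels with finitely many entries in each row -/
noncomputable def ker (A B : Fin K → I → I) (v : Fin K → I → ℝ) (i a b : I) : ℝ :=
  ∑ k, if (a, b) = (A k i, B k i) then v k i else 0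

theorem hasSum_ker (i : I) (z y : I → ℝ) :
    HasSum (fun p : I × I => ker A B v i p.1 p.2 * z p.1 * y p.2)
      (∑ k, v k i * z (A k i) * y (B k i)) := by
  classical
  have h : ∀ k ∈ (Finset.univ : Finset (Fin K)), HasSum (fun p : I × I =>
      if p = (A k i, B k i) then v k i * z (A k i) * y (B k i) else 0)
      (v k i * z (A k i) * y (B k i)) := fun k _ => hasSum_ite_eq _ _
  have h2 := hasSum_sum h
  convert h2 using 1
  funext p
  unfold ker
  rw [Finset.sum_mul, Finset.sum_mul]
  refine Finset.sum_congr rfl fun k _ => ?_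
  by_cases hp : p = (A k i, B k i)
  · subst hp; simp
  · have : ¬ (p.1, p.2) = (A k i, B k i) := hp
    rw [if_neg this, if_neg hp]; simp

theorem bl_ker (i : I) (z y : I → ℝ) :
    bl (ker A B v) z y i = ∑ k, v k i * z (A k i) * y (B k i) := (hasSum_ker i z y).tsum_eq

theorem Sk_le {k l : ℕ} (hr : ∀ i, 1 ≤ r i) (hkl : k ≤ l) {z : I → ℝ} (h : Sk r l z) :
    Sk r k z := by
  refine Summable.of_nonneg_of_le (fun i => sq_nonneg _) (fun i => ?_) h
  rw [mul_pow, mul_pow]
  apply mul_le_mul_of_nonneg_right _ (sq_nonneg _)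
  exact pow_le_pow_left₀ (by have := hr i; positivity) (pow_le_pow_right₀ (hr i) hkl) 2

theorem nk_nonneg (r : I → ℝ) (k : ℕ) (z : I → ℝ) : 0 ≤ nk r k z := tsum_nonneg fun _ => sq_nonneg _

theorem le_nk {k : ℕ} {z : I → ℝ} (h : Sk r k z) (i : I) : (r i ^ k * z i) ^ 2 ≤ nk r k z :=
  h.le_tsum i fun _ _ => sq_nonneg _

theorem adm_ker (hd : ∀ i, 0 ≤ d i) (hr1 : ∀ i, 1 ≤ r i) (hfin : ∀ R, {i | r i ≤ R}.Finite)
    {ρ : ℝ} (hv : ∀ k i, |v k i| ≤ r (B k i))
    (hrA : ∀ k i, v k i ≠ 0 → r i ≤ ρ * r (A k i))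
    (inj : ∀ k i j, v k i ≠ 0 → v k j ≠ 0 → A k i = A k j → i = j) :
    Adm d r (ker A B v) := by
  classical
  refine ⟨hd, hr1, hfin, fun i z y _ _ => (hasSum_ker i z y).summable, fun i => ?_, fun k => ?_⟩
  · refine ⟨∑ k, |v k i|, fun z y hz hy => ?_⟩
    rw [bl_ker]
    refine (Finset.abs_sum_le_sum_abs _ _).trans ?_
    rw [Finset.sum_mul, Finset.sum_mul]
    refine Finset.sum_le_sum fun k _ => ?_
    have h0 : ∀ z : I → ℝ, Sk r 1 z → ∀ a, |z a| ≤ √(∑' a, z a ^ 2) := by
      intro z hz a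
      have hs : Summable fun a => z a ^ 2 := by
        have := Sk_le hr1 (Nat.zero_le 1) hz
        simpa [Sk] using this
      rw [← Real.sqrt_sq_eq_abs]
      exact Real.sqrt_le_sqrt (hs.le_tsum a fun j _ => sq_nonneg _)
    rw [abs_mul, abs_mul]
    exact mul_le_mul (mul_le_mul_of_nonneg_left (h0 z hz _) (abs_nonneg _)) (h0 y hy _)
      (abs_nonneg _) (by positivity)
  · set m := k + 1 with hm
    refine ⟨K * (K * (ρ ^ m) ^ 2), fun z y hz hy => ?_⟩
    have hy1 : Sk r 1 y := Sk_le hr1 (by omega) hy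
    -- the terms
    set s : Fin K → Set I := fun k => {i | v k i ≠ 0} with hs
    set F : I → ℝ := fun a => (r a ^ m * z a) ^ 2 with hF
    have hFs : Summable F := hz
    have hF0 : ∀ a, 0 ≤ F a := fun a => sq_nonneg _
    have hφ : ∀ k, Function.Injective (fun i : s k => A k i) := fun k i j hij =>
      Subtype.ext (inj k i j i.2 j.2 hij)
    have hsum : ∀ k, Summable ((s k).indicator fun i => F (A k i)) := fun k =>
      summable_subtype_iff_indicator.1 (hFs.comp_injective (hφ k))
    have htsum : ∀ k, ∑' i, (s k).indicator (fun i => F (A k i)) i ≤ nk r m z := fun k => by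
      rw [← tsum_subtype]
      exact tsum_comp_le_tsum_of_inj hFs hF0 (hφ k)
    -- the bound
    have hterm : ∀ k i, (r i ^ m * (v k i * z (A k i) * y (B k i))) ^ 2
        ≤ (ρ ^ m) ^ 2 * nk r 1 y * (s k).indicator (fun i => F (A k i)) i := by
      intro k i
      by_cases hi : v k i = 0
      · rw [hi]
        have h1 : (s k).indicator (fun i => F (A k i)) i = 0 := indicator_of_notMem (by simp [hs, hi]) _
        rw [h1]; simp
      · have h1 : (s k).indicator (fun i => F (A k i)) i = F (A k i) := indicator_of_mem hi _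
        rw [h1]
        have e1 := hrA k i hi
        have e2 := hv k i
        have e3 : r i ^ m ≤ ρ ^ m * r (A k i) ^ m := by
          rw [← mul_pow]
          exact pow_le_pow_left₀ (by linarith [hr1 i]) e1 m
        have e4 : (r (B k i) * y (B k i)) ^ 2 ≤ nk r 1 y := by
          have := le_nk hy1 (B k i)
          rwa [pow_one] at this
        have hr0 : 0 ≤ r i ^ m := by have := hr1 i; positivity
        have hrB : 0 ≤ r (B k i) := by linarith [hr1 (B k i)]
        calc (r i ^ m * (v k i * z (A k i) * y (B k i))) ^ 2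
            = (r i ^ m) ^ 2 * |v k i| ^ 2 * (z (A k i)) ^ 2 * (y (B k i)) ^ 2 := by
              rw [sq_abs]; ring
          _ ≤ (ρ ^ m * r (A k i) ^ m) ^ 2 * r (B k i) ^ 2 * (z (A k i)) ^ 2 * (y (B k i)) ^ 2 := by
              have a1 := pow_le_pow_left₀ hr0 e3 2
              have a2 := pow_le_pow_left₀ (abs_nonneg _) e2 2
              have a3 := mul_le_mul a1 a2 (by positivity) (by positivity)
              have a4 := mul_le_mul_of_nonneg_right a3 (sq_nonneg (z (A k i)))
              exact mul_le_mul_of_nonneg_right a4 (sq_nonneg (y (B k i)))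
          _ = (ρ ^ m) ^ 2 * F (A k i) * (r (B k i) * y (B k i)) ^ 2 := by rw [hF]; ring
          _ ≤ (ρ ^ m) ^ 2 * F (A k i) * nk r 1 y :=
              mul_le_mul_of_nonneg_left e4 (mul_nonneg (sq_nonneg _) (hF0 _))
          _ = _ := by ring
    have hbd : ∀ i, (r i ^ m * bl (ker A B v) z y i) ^ 2 / (1 + d i)
        ≤ K * ∑ k, (ρ ^ m) ^ 2 * nk r 1 y * (s k).indicator (fun i => F (A k i)) i := by
      intro i
      have h1 : (r i ^ m * bl (ker A B v) z y i) ^ 2 / (1 + d i)
          ≤ (r i ^ m * bl (ker A B v) z y i) ^ 2 :=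
        div_le_self (sq_nonneg _) (by linarith [hd i])
      refine h1.trans ?_
      rw [bl_ker, Finset.mul_sum]
      refine (sq_sum_le_card_mul_sum_sq).trans ?_
      rw [Finset.card_univ, Fintype.card_fin]
      exact mul_le_mul_of_nonneg_left (Finset.sum_le_sum fun k _ => hterm k i) (Nat.cast_nonneg K)
    have hS : Summable fun i => (K : ℝ) * ∑ k, (ρ ^ m) ^ 2 * nk r 1 y *
        (s k).indicator (fun i => F (A k i)) i :=
      (summable_sum fun k _ => (hsum k).mul_left _).mul_left _
    have hS1 : Summable fun i => (r i ^ m * bl (ker A B v) z y i) ^ 2 / (1 + d i) :=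
      Summable.of_nonneg_of_le (fun i => div_nonneg (sq_nonneg _) (by linarith [hd i])) hbd hS
    refine ⟨hS1, ?_⟩
    refine (hS1.tsum_le_tsum hbd hS).trans ?_
    rw [tsum_mul_left, Summable.tsum_finsetSum fun k _ => (hsum k).mul_left _]
    have h2 : ∀ k ∈ (Finset.univ : Finset (Fin K)), ∑' i, (ρ ^ m) ^ 2 * nk r 1 y *
        (s k).indicator (fun i => F (A k i)) i ≤ (ρ ^ m) ^ 2 * nk r 1 y * nk r m z := fun k _ => by
      rw [tsum_mul_left]
      exact mul_le_mul_of_nonneg_left (htsum k) (mul_nonneg (sq_nonneg _) (nk_nonneg _ _ _))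
    have h3 := Finset.sum_le_sum h2
    rw [Finset.sum_const, Finset.card_univ, Fintype.card_fin, nsmul_eq_mul] at h3
    have h4 := mul_le_mul_of_nonneg_left h3 (Nat.cast_nonneg K : (0 : ℝ) ≤ K)
    refine h4.trans ?_
    have h5 : 0 ≤ (K : ℝ) * (K * (ρ ^ m) ^ 2) * (nk r 1 z * nk r m y) :=
      mul_nonneg (by positivity) (mul_nonneg (nk_nonneg _ _ _) (nk_nonneg _ _ _))
    nlinarith

end Pool.Agent.N977.Q
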