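import Mathlib

/-!
The frequencies `M n = N * 2 ^ n` and the coupling constants of the cascade.
-/

open Set Filter Topology

namespace Pool.Agent.N977.Q

/-- the frequencies `M n = N * 2 ^ n` -/
def Mn (N n : ℕ) : ℕ := N * 2 ^ n

/-- the coupling constants `α n = θ * (M n) ^ b * (log (M n)) ^ p` -/
noncomputable def al (θ : ℝ) (b : ℕ) (p : ℝ) (N n : ℕ) : ℝ :=
  θ * (Mn N n : ℝ) ^ b * Real.log (Mn N n) ^ p

/-- the coupling constants of the seeds -/
noncomputable def mu (θ : ℝ) (b : ℕ) (p : ℝ) (N n : ℕ) : ℝ :=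
  al θ b p N n / Real.log (Mn N n) ^ 70

theorem log_Mn {N : ℕ} (hN : 0 < N) (n : ℕ) :
    Real.log (Mn N n) = Real.log N + n * Real.log 2 := by
  unfold Mn
  push_cast
  rw [Real.log_mul (by positivity) (by positivity), Real.log_pow]

theorem one_le_log {N : ℕ} (hN : 3 ≤ N) : 1 ≤ Real.log N := by
  rw [Real.le_log_iff_exp_le (by positivity)]
  have h1 : Real.exp 1 < 3 := Real.exp_one_lt_three
  have h2 : (3 : ℝ) ≤ N := by exact_mod_cast hN
  linarith

theorem logN_le {N : ℕ} (hN : 3 ≤ N) (n : ℕ) : Real.log N ≤ Real.log (Mn N n) := by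
  rw [log_Mn (by omega)]
  have : 0 ≤ (n : ℝ) * Real.log 2 := by have := Real.log_nonneg (one_le_two (α := ℝ)); positivity
  linarith

theorem one_le_L {N : ℕ} (hN : 3 ≤ N) (n : ℕ) : 1 ≤ Real.log (Mn N n) :=
  (one_le_log hN).trans (logN_le hN n)

theorem half_le_log2 : 1 / 2 ≤ Real.log 2 := by linarith [Real.log_two_gt_d9]

theorem log2_le_one : Real.log 2 ≤ 1 := by linarith [Real.log_two_lt_d9]

theorem n_le_L {N : ℕ} (hN : 3 ≤ N) (n : ℕ) : ((n : ℝ) + 1) / 2 ≤ Real.log (Mn N n) := by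
  rw [log_Mn (by omega)]
  have h1 := one_le_log hN
  have h2 := half_le_log2
  have h3 : (0 : ℝ) ≤ n := Nat.cast_nonneg n
  nlinarith

/-- the tails of the series are small -/
theorem sum_small {r ε : ℝ} (hr : 1 < r) (hε : 0 < ε) : ∃ N₀ : ℕ, 3 ≤ N₀ ∧ ∀ N : ℕ, N₀ ≤ N →
    ∀ n, ∑ j ∈ Finset.range n, Real.log (Mn N j) ^ (-r) ≤ ε := by
  have hsum : Summable fun j : ℕ => (((j : ℝ) + 1) / 2) ^ (-((r + 1) / 2)) := by
    have h1 : Summable fun j : ℕ => ((j : ℝ)) ^ (-((r + 1) / 2)) :=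
      Real.summable_nat_rpow.2 (by linarith)
    have h2 := (summable_nat_add_iff 1).2 h1
    have h3 := h2.mul_left ((2 : ℝ) ^ ((r + 1) / 2))
    refine h3.congr fun j => ?_
    push_cast
    rw [Real.div_rpow (by positivity) (by norm_num), Real.rpow_neg (by norm_num : (0 : ℝ) ≤ 2)]
    field_simp
  set C := ∑' j : ℕ, (((j : ℝ) + 1) / 2) ^ (-((r + 1) / 2)) with hC
  have hlim : Tendsto (fun N : ℕ => Real.log N ^ (-((r - 1) / 2)) * C) atTop (𝓝 (0 * C)) := by
    apply Tendsto.mul_const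
    have h1 : Tendsto (fun N : ℕ => Real.log N) atTop atTop :=
      Real.tendsto_log_atTop.comp tendsto_natCast_atTop_atTop
    exact (tendsto_rpow_neg_atTop (by linarith : 0 < (r - 1) / 2)).comp h1
  rw [zero_mul] at hlim
  obtain ⟨N₁, hN₁⟩ := (hlim.eventually (gt_mem_nhds hε)).exists_forall_of_atTop
  refine ⟨max N₁ 3, le_max_right _ _, fun N hN n => ?_⟩
  have hN3 : 3 ≤ N := (le_max_right _ _).trans hN
  have h1 := hN₁ N ((le_max_left _ _).trans hN)
  have hlog := one_le_log hN3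
  have h2 : ∀ j ∈ Finset.range n, Real.log (Mn N j) ^ (-r)
      ≤ Real.log N ^ (-((r - 1) / 2)) * (((j : ℝ) + 1) / 2) ^ (-((r + 1) / 2)) := by
    intro j _
    have hL := one_le_L hN3 j
    have e : -r = (-((r - 1) / 2)) + (-((r + 1) / 2)) := by ring
    rw [e, Real.rpow_add (by linarith)]
    apply mul_le_mul
    · exact Real.rpow_le_rpow_of_nonpos (by linarith) (logN_le hN3 j) (by linarith)
    · exact Real.rpow_le_rpow_of_nonpos (by positivity) (n_le_L hN3 j) (by linarith)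
    · positivity
    · positivity
  calc _ ≤ ∑ j ∈ Finset.range n, Real.log N ^ (-((r - 1) / 2)) *
        (((j : ℝ) + 1) / 2) ^ (-((r + 1) / 2)) := Finset.sum_le_sum h2
    _ = Real.log N ^ (-((r - 1) / 2)) *
        ∑ j ∈ Finset.range n, (((j : ℝ) + 1) / 2) ^ (-((r + 1) / 2)) := by rw [Finset.mul_sum]
    _ ≤ Real.log N ^ (-((r - 1) / 2)) * C := by
        apply mul_le_mul_of_nonneg_left _ (by positivity)
        exact hsum.sum_le_tsum _ fun j _ => by positivity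
    _ ≤ ε := h1.le

theorem large_log (B : ℝ) : ∃ N₀ : ℕ, ∀ N : ℕ, N₀ ≤ N → B ≤ Real.log N :=
  ((Real.tendsto_log_atTop.comp tendsto_natCast_atTop_atTop).eventually_ge_atTop
    B).exists_forall_of_atTop

section facts

variable {θ p : ℝ} {b N : ℕ}

theorem Mn_pos (hN : 0 < N) (n : ℕ) : 0 < Mn N n := by unfold Mn; positivity

theorem one_le_Mn (hN : 0 < N) (n : ℕ) : (1 : ℝ) ≤ Mn N n := by
  have := Mn_pos hN n
  exact_mod_cast this

theorem Mn_succ (n : ℕ) : Mn N (n + 1) = 2 * Mn N n := by unfold Mn; ring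

theorem two_pow_le_Mn (hN : 0 < N) (n : ℕ) : (2 : ℝ) ^ n ≤ Mn N n := by
  unfold Mn
  push_cast
  have : (1 : ℝ) ≤ N := by exact_mod_cast hN
  have h2 : (0 : ℝ) ≤ 2 ^ n := by positivity
  nlinarith

theorem al_pos (hθ : 0 < θ) (hN : 3 ≤ N) (n : ℕ) : 0 < al θ b p N n := by
  have h1 := one_le_L hN n
  have h2 : 0 < Mn N n := by unfold Mn; positivity
  unfold al
  positivity

theorem mu_pos (hθ : 0 < θ) (hN : 3 ≤ N) (n : ℕ) : 0 < mu θ b p N n := by
  have := al_pos (p := p) (b := b) hθ hN n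
  have h1 := one_le_L hN n
  unfold mu
  positivity

theorem mu_le_al (hθ : 0 < θ) (hN : 3 ≤ N) (n : ℕ) : mu θ b p N n ≤ al θ b p N n := by
  have := al_pos (p := p) (b := b) hθ hN n
  have h1 := one_le_L hN n
  unfold mu
  exact div_le_self this.le (one_le_pow₀ h1)

theorem L_mono (hN : 3 ≤ N) (n : ℕ) : Real.log (Mn N n) ≤ Real.log (Mn N (n + 1)) := by
  have h4 : 0 < Mn N n := by unfold Mn; positivity
  refine Real.log_le_log (by positivity) ?_
  rw [Mn_succ]; push_cast; linarith [Nat.cast_nonneg (α := ℝ) (Mn N n)]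

theorem L_succ_le (hN : 3 ≤ N) (n : ℕ) : Real.log (Mn N (n + 1)) ≤ 2 * Real.log (Mn N n) := by
  have h1 := one_le_L hN n
  have h4 : 0 < Mn N n := by unfold Mn; positivity
  rw [Mn_succ]; push_cast
  rw [Real.log_mul (by norm_num) (by positivity)]
  linarith [log2_le_one]

theorem al_mono (hθ : 0 < θ) (hp : 0 ≤ p) (hN : 3 ≤ N) (n : ℕ) :
    al θ b p N n ≤ al θ b p N (n + 1) := by
  have h1 := one_le_L hN n
  have h3 : (Mn N n : ℝ) ≤ Mn N (n + 1) := by
    rw [Mn_succ]; push_cast; linarith [Nat.cast_nonneg (α := ℝ) (Mn N n)]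
  unfold al
  apply mul_le_mul
  · exact mul_le_mul_of_nonneg_left (pow_le_pow_left₀ (by positivity) h3 b) hθ.le
  · exact Real.rpow_le_rpow (by linarith) (L_mono hN n) hp
  · positivity
  · positivity

theorem al_succ_le (hθ : 0 < θ) (hp : 0 ≤ p) (hp2 : p ≤ 2) (hb : b ≤ 2) (hN : 3 ≤ N) (n : ℕ) :
    al θ b p N (n + 1) ≤ 16 * al θ b p N n := by
  have h1 := one_le_L hN n
  have h0 : 0 ≤ Real.log (Mn N (n + 1)) := (by linarith [one_le_L hN (n + 1)])
  unfold al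
  have h6 : Real.log (Mn N (n + 1)) ^ p ≤ 4 * Real.log (Mn N n) ^ p := by
    have e1 : Real.log (Mn N (n + 1)) ^ p ≤ 2 ^ p * Real.log (Mn N n) ^ p := by
      rw [← Real.mul_rpow (by norm_num) (by linarith)]
      exact Real.rpow_le_rpow h0 (L_succ_le hN n) hp
    have e2 : (2 : ℝ) ^ p ≤ 4 := by
      have : (2 : ℝ) ^ p ≤ 2 ^ (2 : ℝ) := Real.rpow_le_rpow_of_exponent_le (by norm_num) hp2
      have h2 : (2 : ℝ) ^ (2 : ℝ) = 4 := by norm_num
      linarith
    exact e1.trans (mul_le_mul_of_nonneg_right e2 (by positivity))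
  have h7 : ((Mn N (n + 1) : ℕ) : ℝ) ^ b ≤ 4 * (Mn N n : ℝ) ^ b := by
    rw [Mn_succ]; push_cast
    rw [mul_pow]
    apply mul_le_mul_of_nonneg_right _ (by positivity)
    calc (2 : ℝ) ^ b ≤ 2 ^ 2 := pow_le_pow_right₀ (by norm_num) hb
      _ = 4 := by norm_num
  calc θ * ((Mn N (n + 1) : ℕ) : ℝ) ^ b * Real.log (Mn N (n + 1)) ^ p
      ≤ θ * (4 * (Mn N n : ℝ) ^ b) * (4 * Real.log (Mn N n) ^ p) :=
        mul_le_mul (mul_le_mul_of_nonneg_left h7 hθ.le) h6 (by positivity) (by positivity)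
    _ = _ := by ring

/-- crude bound of the coupling constants -/
theorem al_le (hθ1 : θ ≤ 1) (hp2 : p ≤ 2) (hN : 3 ≤ N) (n : ℕ) :
    al θ b p N n ≤ (Mn N n : ℝ) ^ b * Real.log (Mn N n) ^ 2 := by
  have h1 := one_le_L hN n
  have h2 : Real.log (Mn N n) ^ p ≤ Real.log (Mn N n) ^ 2 := by
    have := Real.rpow_le_rpow_of_exponent_le h1 hp2
    rwa [Real.rpow_two] at this
  unfold al
  have h3 : (0 : ℝ) ≤ (Mn N n : ℝ) ^ b := by positivity
  have h4 : θ * (Mn N n : ℝ) ^ b ≤ (Mn N n : ℝ) ^ b := mul_le_of_le_one_left h3 hθ1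
  exact mul_le_mul h4 h2 (by positivity) h3

end facts

end Pool.Agent.N977.Q
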