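import Pool.Agent.N977.Q.Wp2
import Pool.Agent.N977.Q.Log

/-!
A bound for the solutions of the cascade with a weight of arbitrarily small positive order implies
the bounds of all orders.
-/

open Set Filter Topology

namespace Pool.Agent.N977.Q

/-- barrier for linear equations -/
theorem barrier {T a f : ℝ} {z A F β β' : ℝ → ℝ}
    (hz : ∀ t ∈ Ico 0 T, HasDerivWithinAt z (-(A t * z t) + F t) (Ico 0 T) t)
    (hA : ∀ t ∈ Ico 0 T, a ≤ A t) (hF : ∀ t ∈ Ico 0 T, |F t| ≤ f)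
    (hβ : ∀ t, HasDerivAt β (β' t) t) (hβ0 : ∀ t, 0 ≤ t → 0 < β t)
    (hββ : ∀ t, 0 ≤ t → -(a * β t) + f < β' t) (h0 : |z 0| ≤ β 0) :
    ∀ t ∈ Ico 0 T, |z t| ≤ β t := by
  intro t ht
  have hsub : ∀ s ∈ Icc 0 t, s ∈ Ico 0 T := fun s hs => ⟨hs.1, hs.2.trans_lt ht.2⟩
  have hcont : ContinuousOn (fun s => z s ^ 2) (Icc 0 t) := fun s hs =>
    (((hz s (hsub s hs)).continuousWithinAt).mono (fun r hr => hsub r hr)).pow 2
  have key := image_le_of_deriv_right_lt_deriv_boundary (f := fun s => z s ^ 2)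
    (f' := fun s => 2 * z s * (-(A s * z s) + F s)) (B := fun s => β s ^ 2)
    (B' := fun s => 2 * β s * β' s) (a := 0) (b := t) hcont (fun s hs => by
      have h1 := hz s ⟨hs.1, hs.2.trans ht.2⟩
      have h2 := h1.mono (Ico_subset_Ico_left hs.1)
      have h3 := h2.mono_of_mem_nhdsWithin (Ico_mem_nhdsGE (hs.2.trans ht.2))
      have h4 := h3.pow 2
      refine h4.congr_deriv ?_
      push_cast
      ring)
    (by
      rw [← sq_abs]
      exact pow_le_pow_left₀ (abs_nonneg _) h0 2)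
    (fun s => by
      have h4 := (hβ s).pow 2
      refine h4.congr_deriv ?_
      push_cast
      ring)
    (fun s hs hEq => by
      have hsI : s ∈ Ico 0 T := ⟨hs.1, hs.2.trans ht.2⟩
      have h1 := hββ s hs.1
      have h2 := hβ0 s hs.1
      have h3 := hA s hsI
      have h4 := hF s hsI
      have h5 : |z s| = β s := by
        rw [← sq_abs] at hEq
        exact (sq_eq_sq₀ (abs_nonneg _) h2.le).1 hEq
      have h6 : z s * F s ≤ β s * f := by
        calc z s * F s ≤ |z s * F s| := le_abs_self _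
          _ = |z s| * |F s| := abs_mul _ _
          _ ≤ β s * f := by rw [h5]; exact mul_le_mul_of_nonneg_left h4 h2.le
      have h7 : a * β s ^ 2 ≤ A s * z s ^ 2 := by
        rw [hEq]
        exact mul_le_mul_of_nonneg_right h3 (sq_nonneg _)
      have h8 := mul_lt_mul_of_pos_left h1 h2
      nlinarith)
  have h1 := key (right_mem_Icc.2 ht.1)
  exact abs_le_of_sq_le_sq h1 (hβ0 t ht.1).le

/-- damped case -/
theorem barrier_pos {T a f : ℝ} {z A F : ℝ → ℝ} (ha : 0 < a) (hf : 0 < f)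
    (hz : ∀ t ∈ Ico 0 T, HasDerivWithinAt z (-(A t * z t) + F t) (Ico 0 T) t)
    (hA : ∀ t ∈ Ico 0 T, a ≤ A t) (hF : ∀ t ∈ Ico 0 T, |F t| ≤ f) :
    ∀ t ∈ Ico 0 T, |z t| ≤ |z 0| + 2 * f / a := by
  have h1 : 0 < 2 * f / a := by positivity
  refine barrier (β := fun _ => |z 0| + 2 * f / a) (β' := fun _ => 0) hz hA hF
    (fun t => hasDerivAt_const _ _) (fun t _ => by positivity) (fun t _ => ?_) (by linarith)
  have h2 : a * (2 * f / a) = 2 * f := by field_simp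
  have h3 := mul_nonneg ha.le (abs_nonneg (z 0))
  rw [mul_add, h2]
  linarith

/-- undamped case -/
theorem barrier_neg {T a f : ℝ} {z A F : ℝ → ℝ} (ha : 0 ≤ a) (hf : 0 < f) (hT : T ≤ 1)
    (hz : ∀ t ∈ Ico 0 T, HasDerivWithinAt z (-(A t * z t) + F t) (Ico 0 T) t)
    (hA : ∀ t ∈ Ico 0 T, -a ≤ A t) (hF : ∀ t ∈ Ico 0 T, |F t| ≤ f) :
    ∀ t ∈ Ico 0 T, |z t| ≤ (|z 0| + 3 * f) * Real.exp a := by
  intro t ht
  have h := barrier (β := fun s => (|z 0| + f + 2 * f * s) * Real.exp (a * s))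
    (β' := fun s => 2 * f * Real.exp (a * s) + (|z 0| + f + 2 * f * s) * (Real.exp (a * s) * a))
    hz hA hF (fun s => by
      have e1 : HasDerivAt (fun s => Real.exp (a * s)) (Real.exp (a * s) * a) s := by
        have := ((hasDerivAt_id s).const_mul a).exp
        refine this.congr_deriv ?_
        simp
      have e2 : HasDerivAt (fun s => |z 0| + f + 2 * f * s) (2 * f) s := by
        have := ((hasDerivAt_id s).const_mul (2 * f)).const_add (|z 0| + f)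
        refine this.congr_deriv ?_
        simp
      exact e2.mul e1)
    (fun s hs => by positivity) (fun s hs => by
      have h1 : 1 ≤ Real.exp (a * s) := Real.one_le_exp (by positivity)
      nlinarith) (by simp; linarith) t ht
  refine h.trans ?_
  have h1 : Real.exp (a * t) ≤ Real.exp a := Real.exp_le_exp.2 (by nlinarith [ht.1, ht.2])
  have h2 : |z 0| + f + 2 * f * t ≤ |z 0| + 3 * f := by nlinarith [ht.1, ht.2]
  have h3 : 0 ≤ |z 0| + f + 2 * f * t := by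
    have := ht.1
    positivity
  exact mul_le_mul h2 h1 (Real.exp_pos _).le (by positivity)

variable {T c θ p : ℝ} {b N : ℕ} {r : ℕ → ℝ} {x y : ℕ → ℝ → ℝ}

/-- bounds with a weight -/
def Hb (T : ℝ) (N : ℕ) (x y : ℕ → ℝ → ℝ) (s B : ℝ) : Prop :=
  ∀ n, ∀ t ∈ Ico 0 T, (Mn N n : ℝ) ^ s * |x n t| ≤ B ∧ (Mn N n : ℝ) ^ s * |y n t| ≤ B

theorem Hb.mono {s s' B : ℝ} (hN : 0 < N) (h : Hb T N x y s B) (hs : s' ≤ s) :
    Hb T N x y s' B := by
  intro n t ht
  have h1 := Real.rpow_le_rpow_of_exponent_le (one_le_Mn hN n) hs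
  obtain ⟨h2, h3⟩ := h n t ht
  exact ⟨(mul_le_mul_of_nonneg_right h1 (abs_nonneg _)).trans h2,
    (mul_le_mul_of_nonneg_right h1 (abs_nonneg _)).trans h3⟩

theorem al_le_rpow (hθ1 : θ ≤ 1) (hp2 : p ≤ 2) (hN : 3 ≤ N) {s : ℝ} (hs : 0 < s) (n : ℕ) :
    al θ b p N n ≤ 16 / s ^ 2 * (Mn N n : ℝ) ^ ((b : ℝ) + s / 2) := by
  have hM := one_le_Mn (show 0 < N by omega) n
  have hM0 : (0 : ℝ) < Mn N n := by linarith
  refine (al_le hθ1 hp2 hN n).trans ?_
  have h1 := Real.log_le_rpow_div hM0.le (show 0 < s / 4 by linarith)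
  have h2 : Real.log (Mn N n) ^ 2 ≤ 16 / s ^ 2 * (Mn N n : ℝ) ^ (s / 2) := by
    calc Real.log (Mn N n) ^ 2 ≤ ((Mn N n : ℝ) ^ (s / 4) / (s / 4)) ^ 2 :=
          pow_le_pow_left₀ (Real.log_nonneg hM) h1 2
      _ = 16 / s ^ 2 * ((Mn N n : ℝ) ^ (s / 4) * (Mn N n : ℝ) ^ (s / 4)) := by field_simp; norm_num
      _ = _ := by rw [← Real.rpow_add hM0]; congr 2; ring
  rw [Real.rpow_add hM0, Real.rpow_natCast]
  calc (Mn N n : ℝ) ^ b * Real.log (Mn N n) ^ 2
      ≤ (Mn N n : ℝ) ^ b * (16 / s ^ 2 * (Mn N n : ℝ) ^ (s / 2)) :=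
        mul_le_mul_of_nonneg_left h2 (by positivity)
    _ = _ := by ring

/-- the quadratic terms -/
theorem quad_le {s B : ℝ} (hN : 3 ≤ N) (hH : Hb T N x y s B)
    {α : ℕ → ℝ} {E : ℝ} (hE : 0 ≤ E)
    (hα : ∀ n, α n ≤ E * (Mn N n : ℝ) ^ ((b : ℝ) + s / 2)) (n : ℕ) {t : ℝ} (ht : t ∈ Ico 0 T) :
    α n * y n t ^ 2 ≤ E * B ^ 2 * (Mn N n : ℝ) ^ ((b : ℝ) - 3 * s / 2) := by
  have hM := one_le_Mn (show 0 < N by omega) n
  have hM0 : (0 : ℝ) < Mn N n := by linarith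
  have h1 := (hH n t ht).2
  have hMs : 0 < (Mn N n : ℝ) ^ s := by positivity
  have h2 : |y n t| ≤ B * (Mn N n : ℝ) ^ (-s) := by
    rw [Real.rpow_neg hM0.le, ← div_eq_mul_inv, le_div_iff₀ hMs, mul_comm]
    exact h1
  have h3 : y n t ^ 2 ≤ (B * (Mn N n : ℝ) ^ (-s)) ^ 2 := by
    rw [← sq_abs]
    exact pow_le_pow_left₀ (abs_nonneg _) h2 2
  calc α n * y n t ^ 2 ≤ (E * (Mn N n : ℝ) ^ ((b : ℝ) + s / 2)) * (B * (Mn N n : ℝ) ^ (-s)) ^ 2 :=
        mul_le_mul (hα n) h3 (sq_nonneg _) (by positivity)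
    _ = E * B ^ 2 * ((Mn N n : ℝ) ^ ((b : ℝ) + s / 2) * ((Mn N n : ℝ) ^ (-s) * (Mn N n : ℝ) ^ (-s))) := by
        ring
    _ = _ := by
        rw [← Real.rpow_add hM0, ← Real.rpow_add hM0]
        congr 2
        ring

theorem gf_le {s B : ℝ} (hN : 3 ≤ N) (hH : Hb T N x y s B)
    {α : ℕ → ℝ} {E : ℝ} (hE : 0 ≤ E) (hα0 : ∀ n, 0 ≤ α n)
    (hα : ∀ n, α n ≤ E * (Mn N n : ℝ) ^ ((b : ℝ) + s / 2)) (n : ℕ) {t : ℝ} (ht : t ∈ Ico 0 T) :
    0 ≤ gf α y n t ∧
    gf α y n t ≤ E * B ^ 2 * 2 ^ (3 * s / 2) * (Mn N n : ℝ) ^ ((b : ℝ) - 3 * s / 2) := by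
  cases n with
  | zero =>
    simp only [gf]
    exact ⟨le_rfl, by positivity⟩
  | succ n =>
    have hM := one_le_Mn (show 0 < N by omega) n
    have hM0 : (0 : ℝ) < Mn N n := by linarith
    simp only [gf]
    refine ⟨mul_nonneg (hα0 n) (sq_nonneg _), ?_⟩
    refine (quad_le hN hH hE hα n ht).trans ?_
    rw [mul_assoc (E * B ^ 2)]
    apply mul_le_mul_of_nonneg_left _ (by positivity)
    rw [Mn_succ]
    push_cast
    rw [Real.mul_rpow (by norm_num) hM0.le, ← mul_assoc, ← Real.rpow_add (by norm_num)]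
    have h1 : (1 : ℝ) ≤ 2 ^ (3 * s / 2 + ((b : ℝ) - 3 * s / 2)) := by
      apply Real.one_le_rpow (by norm_num)
      have : (0 : ℝ) ≤ b := Nat.cast_nonneg b
      linarith
    exact le_mul_of_one_le_left (by positivity) h1

/-- the initial data -/
theorem init_le {d D α μ : ℕ → ℝ} (hN : 3 ≤ N) (h : Zs T d D α μ r x y) {w : ℝ} (n : ℕ) :
    (Mn N n : ℝ) ^ w * |x n 0| ≤ (N : ℝ) ^ w ∧ (Mn N n : ℝ) ^ w * |y n 0| ≤ (N : ℝ) ^ w := by
  have hp : (0 : ℝ) ≤ (N : ℝ) ^ w := by positivity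
  cases n with
  | zero =>
    have e : Mn N 0 = N := by unfold Mn; simp
    rw [e, h.x0, h.y0]
    have h1 : |(4 / 5 : ℝ)| ≤ 1 := by rw [abs_of_pos] <;> norm_num
    have h2 : |(3 / 5 : ℝ)| ≤ 1 := by rw [abs_of_pos] <;> norm_num
    exact ⟨mul_le_of_le_one_right hp h1, mul_le_of_le_one_right hp h2⟩
  | succ n =>
    rw [h.xs, h.ys, abs_zero, mul_zero]
    exact ⟨hp, hp⟩

theorem boot (hN : 3 ≤ N) (hθ : 0 < θ) (hθ1 : θ ≤ 1) (hp2 : p ≤ 2)
    (hcb : (0 < c ∧ b = 2) ∨ (c = 0 ∧ b = 0)) (hT : T ≤ 1) {s B : ℝ} (hs : 0 < s) (hB : 0 < B)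
    (h : Zs T (fun n => 4 * (c * (Mn N n : ℝ) ^ 2)) (fun n => 5 * (c * (Mn N n : ℝ) ^ 2))
      (al θ b p N) (mu θ b p N) r x y) (hH : Hb T N x y s B) :
    ∃ B', 0 < B' ∧ Hb T N x y (3 * s / 2) B' := by
  set E : ℝ := 16 / s ^ 2 with hEd
  have hE : 0 < E := by positivity
  have hα0 : ∀ n, 0 ≤ al θ b p N n := fun n => (al_pos hθ hN n).le
  have hμ0 : ∀ n, 0 ≤ mu θ b p N n := fun n => (mu_pos hθ hN n).le
  have hα : ∀ n, al θ b p N n ≤ E * (Mn N n : ℝ) ^ ((b : ℝ) + s / 2) :=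
    fun n => al_le_rpow hθ1 hp2 hN hs n
  have hμ : ∀ n, mu θ b p N n ≤ E * (Mn N n : ℝ) ^ ((b : ℝ) + s / 2) :=
    fun n => (mu_le_al hθ hN n).trans (hα n)
  set κ : ℝ := E * B ^ 2 * 2 ^ (3 * s / 2) + E * B ^ 2 with hκd
  have hκ : 0 < κ := by positivity
  set f : ℕ → ℝ := fun n => κ * (Mn N n : ℝ) ^ ((b : ℝ) - 3 * s / 2) with hf
  have hM : ∀ n, (1 : ℝ) ≤ Mn N n := one_le_Mn (by omega)
  have hM0 : ∀ n, (0 : ℝ) < Mn N n := fun n => by linarith [hM n]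
  have hfp : ∀ n, 0 < f n := fun n => by
    have := hM0 n
    simp only [hf]
    positivity
  have hFx : ∀ n, ∀ t ∈ Ico 0 T, |gf (al θ b p N) y n t - al θ b p N n * y n t ^ 2| ≤ f n := by
    intro n t ht
    obtain ⟨g0, g1⟩ := gf_le hN hH hE.le hα0 hα n ht
    have g2 := quad_le hN hH hE.le hα n ht
    have g3 : 0 ≤ al θ b p N n * y n t ^ 2 := mul_nonneg (hα0 n) (sq_nonneg _)
    have e : f n = E * B ^ 2 * 2 ^ (3 * s / 2) * (Mn N n : ℝ) ^ ((b : ℝ) - 3 * s / 2)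
        + E * B ^ 2 * (Mn N n : ℝ) ^ ((b : ℝ) - 3 * s / 2) := by
      simp only [hf, hκd]; ring
    rw [abs_le, e]
    constructor <;> linarith
  have hFy : ∀ n, ∀ t ∈ Ico 0 T, |gf (mu θ b p N) y n t| ≤ f n := by
    intro n t ht
    obtain ⟨g0, g1⟩ := gf_le hN hH hE.le hμ0 hμ n ht
    have g4 : 0 ≤ E * B ^ 2 * (Mn N n : ℝ) ^ ((b : ℝ) - 3 * s / 2) := by
      have := hM0 n
      positivity
    have e : f n = E * B ^ 2 * 2 ^ (3 * s / 2) * (Mn N n : ℝ) ^ ((b : ℝ) - 3 * s / 2)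
        + E * B ^ 2 * (Mn N n : ℝ) ^ ((b : ℝ) - 3 * s / 2) := by
      simp only [hf, hκd]; ring
    rw [abs_of_nonneg g0, e]
    linarith
  -- the equations
  have hx : ∀ n, ∀ t ∈ Ico 0 T, HasDerivWithinAt (x n)
      (-((4 * (c * (Mn N n : ℝ) ^ 2)) * x n t) + (gf (al θ b p N) y n t
        - al θ b p N n * y n t ^ 2)) (Ico 0 T) t := fun n t ht =>
    (h.xd n t ht).congr_deriv (by ring)
  set A : ℕ → ℝ → ℝ := fun n t => 5 * (c * (Mn N n : ℝ) ^ 2)
    - al θ b p N n * (x n t - x (n + 1) t) + mu θ b p N n * y (n + 1) t with hA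
  have hy : ∀ n, ∀ t ∈ Ico 0 T, HasDerivWithinAt (y n)
      (-(A n t * y n t) + gf (mu θ b p N) y n t) (Ico 0 T) t := fun n t ht =>
    (h.yd n t ht).congr_deriv (by simp only [hA]; ring)
  have hAl : ∀ n, ∀ t ∈ Ico 0 T, 5 * (c * (Mn N n : ℝ) ^ 2)
      - 3 * E * B * (Mn N n : ℝ) ^ ((b : ℝ) - s / 2) ≤ A n t := by
    intro n t ht
    have hMn := hM0 n
    have q : ∀ z, (Mn N n : ℝ) ^ s * |z| ≤ B → |z| ≤ B * (Mn N n : ℝ) ^ (-s) := by
      intro z hz
      rw [Real.rpow_neg hMn.le, ← div_eq_mul_inv, le_div_iff₀ (by positivity), mul_comm]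
      exact hz
    have hmono : (Mn N n : ℝ) ^ s ≤ (Mn N (n + 1) : ℝ) ^ s := by
      apply Real.rpow_le_rpow hMn.le _ hs.le
      rw [Mn_succ]; push_cast; linarith
    have q1 := q _ (hH n t ht).1
    have q2 := q _ ((mul_le_mul_of_nonneg_right hmono (abs_nonneg _)).trans (hH (n + 1) t ht).1)
    have q3 := q _ ((mul_le_mul_of_nonneg_right hmono (abs_nonneg _)).trans (hH (n + 1) t ht).2)
    have e : (Mn N n : ℝ) ^ ((b : ℝ) - s / 2)
        = (Mn N n : ℝ) ^ ((b : ℝ) + s / 2) * (Mn N n : ℝ) ^ (-s) := by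
      rw [← Real.rpow_add hMn]; congr 1; ring
    have r0 : 0 ≤ (Mn N n : ℝ) ^ ((b : ℝ) + s / 2) := by positivity
    have r1 : 0 ≤ (Mn N n : ℝ) ^ (-s) := by positivity
    have p1 : al θ b p N n * (x n t - x (n + 1) t)
        ≤ (E * (Mn N n : ℝ) ^ ((b : ℝ) + s / 2)) * (2 * (B * (Mn N n : ℝ) ^ (-s))) := by
      calc al θ b p N n * (x n t - x (n + 1) t) ≤ al θ b p N n * (|x n t| + |x (n + 1) t|) := by
            apply mul_le_mul_of_nonneg_left _ (hα0 n)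
            linarith [le_abs_self (x n t), neg_abs_le (x (n + 1) t)]
        _ ≤ _ := mul_le_mul (hα n) (by linarith) (by positivity) (by positivity)
    have p2 : -(mu θ b p N n * y (n + 1) t)
        ≤ (E * (Mn N n : ℝ) ^ ((b : ℝ) + s / 2)) * (B * (Mn N n : ℝ) ^ (-s)) := by
      calc -(mu θ b p N n * y (n + 1) t) = mu θ b p N n * (-y (n + 1) t) := by ring
        _ ≤ mu θ b p N n * |y (n + 1) t| := by
            apply mul_le_mul_of_nonneg_left _ (hμ0 n)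
            linarith [neg_abs_le (y (n + 1) t)]
        _ ≤ _ := mul_le_mul (hμ n) q3 (by positivity) (by positivity)
    rw [e]
    simp only [hA]
    nlinarith
  have hW : ∀ n, (Mn N n : ℝ) ^ (3 * s / 2) * f n = κ * (Mn N n : ℝ) ^ b := by
    intro n
    simp only [hf]
    rw [mul_left_comm, ← Real.rpow_add (hM0 n), ← Real.rpow_natCast]
    congr 2
    ring
  have hI : 0 ≤ (N : ℝ) ^ (3 * s / 2) := by positivity
  rcases hcb with ⟨hc, hb⟩ | ⟨hc, hb⟩
  · -- positive viscosity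
    have hfin : ∀ (n : ℕ) (z z0 : ℝ), (Mn N n : ℝ) ^ (3 * s / 2) * z0 ≤ (N : ℝ) ^ (3 * s / 2) →
        z ≤ z0 + 2 * f n / (4 * (c * (Mn N n : ℝ) ^ 2)) →
        (Mn N n : ℝ) ^ (3 * s / 2) * z ≤ (N : ℝ) ^ (3 * s / 2) + κ / (2 * c) := by
      intro n z z0 h0 hz
      have hMn := hM0 n
      have hWn := hW n
      rw [hb] at hWn
      calc (Mn N n : ℝ) ^ (3 * s / 2) * z
          ≤ (Mn N n : ℝ) ^ (3 * s / 2) * (z0 + 2 * f n / (4 * (c * (Mn N n : ℝ) ^ 2))) :=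
            mul_le_mul_of_nonneg_left hz (by positivity)
        _ = (Mn N n : ℝ) ^ (3 * s / 2) * z0
            + 2 * ((Mn N n : ℝ) ^ (3 * s / 2) * f n) / (4 * (c * (Mn N n : ℝ) ^ 2)) := by ring
        _ = (Mn N n : ℝ) ^ (3 * s / 2) * z0 + κ / (2 * c) := by
            rw [hWn]; field_simp; ring
        _ ≤ _ := by linarith
    refine ⟨(N : ℝ) ^ (3 * s / 2) + κ / (2 * c) + 3 * E * B / c * B, by positivity, fun n t ht => ?_⟩
    have hMn := hM0 n
    have ha : 0 < 4 * (c * (Mn N n : ℝ) ^ 2) := by positivity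
    obtain ⟨i1, i2⟩ := init_le hN h (w := 3 * s / 2) n
    have hEB : 0 ≤ 3 * E * B / c * B := by positivity
    have hκc : 0 ≤ κ / (2 * c) := by positivity
    constructor
    · have h1 := barrier_pos ha (hfp n) (hx n) (fun _ _ => le_rfl) (hFx n) t ht
      linarith [hfin n _ _ i1 h1]
    · rcases le_or_gt (3 * E * B / c) ((Mn N n : ℝ) ^ (s / 2)) with hbig | hsmall
      · have h1 := barrier_pos ha (hfp n) (hy n) (fun t ht => by
          refine le_trans ?_ (hAl n t ht)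
          rw [hb, Real.rpow_sub hMn]
          have e2 : (Mn N n : ℝ) ^ (((2 : ℕ) : ℝ)) = (Mn N n : ℝ) ^ 2 := by
            rw [Real.rpow_natCast]
          rw [e2]
          have hs2 : 0 < (Mn N n : ℝ) ^ (s / 2) := by positivity
          have h2 : 3 * E * B * ((Mn N n : ℝ) ^ 2 / (Mn N n : ℝ) ^ (s / 2)) ≤ c * (Mn N n : ℝ) ^ 2 := by
            rw [div_le_iff₀ hc] at hbig
            rw [mul_div_assoc', div_le_iff₀ hs2]
            have := mul_le_mul_of_nonneg_right hbig (sq_nonneg (Mn N n : ℝ))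
            nlinarith
          linarith) (hFy n) t ht
        linarith [hfin n _ _ i2 h1]
      · have h1 := (hH n t ht).2
        have e : (Mn N n : ℝ) ^ (3 * s / 2) = (Mn N n : ℝ) ^ (s / 2) * (Mn N n : ℝ) ^ s := by
          rw [← Real.rpow_add hMn]; congr 1; ring
        rw [e, mul_assoc]
        have := mul_le_mul hsmall.le h1 (by positivity) (by positivity)
        linarith
  · -- zero viscosity
    have hfin : ∀ (n : ℕ) (z z0 a : ℝ), 0 ≤ a →
        (Mn N n : ℝ) ^ (3 * s / 2) * z0 ≤ (N : ℝ) ^ (3 * s / 2) →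
        z ≤ (z0 + 3 * f n) * Real.exp a →
        (Mn N n : ℝ) ^ (3 * s / 2) * z ≤ ((N : ℝ) ^ (3 * s / 2) + 3 * κ) * Real.exp a := by
      intro n z z0 a ha h0 hz
      have hMn := hM0 n
      have hWn := hW n
      rw [hb, pow_zero, mul_one] at hWn
      calc (Mn N n : ℝ) ^ (3 * s / 2) * z
          ≤ (Mn N n : ℝ) ^ (3 * s / 2) * ((z0 + 3 * f n) * Real.exp a) :=
            mul_le_mul_of_nonneg_left hz (by positivity)
        _ = ((Mn N n : ℝ) ^ (3 * s / 2) * z0 + 3 * ((Mn N n : ℝ) ^ (3 * s / 2) * f n))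
            * Real.exp a := by ring
        _ ≤ _ := by
            rw [hWn]
            apply mul_le_mul_of_nonneg_right _ (Real.exp_pos _).le
            linarith
    have hmono : Real.exp 0 ≤ Real.exp (3 * E * B) := Real.exp_le_exp.2 (by positivity)
    refine ⟨((N : ℝ) ^ (3 * s / 2) + 3 * κ) * Real.exp (3 * E * B), by positivity, fun n t ht => ?_⟩
    have hMn := hM0 n
    obtain ⟨i1, i2⟩ := init_le hN h (w := 3 * s / 2) n
    constructor
    · have h1 := barrier_neg (le_refl 0) (hfp n) hT (hx n) (fun _ _ => by rw [hc]; simp) (hFx n) t ht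
      refine (hfin n _ _ 0 le_rfl i1 h1).trans ?_
      exact mul_le_mul_of_nonneg_left hmono (by positivity)
    · have h1 := barrier_neg (a := 3 * E * B) (by positivity) (hfp n) hT (hy n) (fun t ht => by
        refine le_trans ?_ (hAl n t ht)
        rw [hb, hc]
        have h2 : (Mn N n : ℝ) ^ (((0 : ℕ) : ℝ) - s / 2) ≤ 1 := by
          apply Real.rpow_le_one_of_one_le_of_nonpos (hM n)
          push_cast
          linarith
        have h3 := mul_le_mul_of_nonneg_left h2 (show 0 ≤ 3 * E * B by positivity)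
        linarith) (hFy n) t ht
      exact hfin n _ _ _ (by positivity) i2 h1

/-- bounds of all orders -/
theorem boot_all (hN : 3 ≤ N) (hθ : 0 < θ) (hθ1 : θ ≤ 1) (hp2 : p ≤ 2)
    (hcb : (0 < c ∧ b = 2) ∨ (c = 0 ∧ b = 0)) (hT : T ≤ 1) {s B : ℝ} (hs : 0 < s) (hB : 0 < B)
    (h : Zs T (fun n => 4 * (c * (Mn N n : ℝ) ^ 2)) (fun n => 5 * (c * (Mn N n : ℝ) ^ 2))
      (al θ b p N) (mu θ b p N) r x y) (hH : Hb T N x y s B) (m : ℝ) :
    ∃ B', 0 < B' ∧ Hb T N x y m B' := by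
  have hk : ∀ k : ℕ, ∃ B', 0 < B' ∧ Hb T N x y ((3 / 2) ^ k * s) B' := by
    intro k
    induction k with
    | zero => exact ⟨B, hB, by simpa using hH⟩
    | succ k ih =>
      obtain ⟨B', hB', h'⟩ := ih
      obtain ⟨B'', hB'', h''⟩ := boot hN hθ hθ1 hp2 hcb hT (s := (3 / 2) ^ k * s) (by positivity)
        hB' h h'
      refine ⟨B'', hB'', ?_⟩
      have e : (3 / 2 : ℝ) ^ (k + 1) * s = 3 * ((3 / 2) ^ k * s) / 2 := by ring
      rw [e]
      exact h''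
  obtain ⟨k, hk'⟩ := pow_unbounded_of_one_lt (m / s) (show (1 : ℝ) < 3 / 2 by norm_num)
  obtain ⟨B', hB', h'⟩ := hk k
  refine ⟨B', hB', h'.mono (by omega) ?_⟩
  rw [div_lt_iff₀ hs] at hk'
  exact hk'.le

end Pool.Agent.N977.Q
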