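import Pool.Agent.N977.K.Def

/-!
A class of bilinear perturbations of the Navier-Stokes and Euler equations.
-/

open MeasureTheory Set
open scoped ContDiff

namespace Pool.Agent.N977.Q

open H459R3.NS

/-- The Euclidean length `|k|` of a frequency `k ∈ ℤ³`. -/
noncomputable def len (k : K3) : ℝ := √(∑ j, (k j : ℝ) ^ 2)

/-- The weight `|k| ^ s * (log (2 + |k|)) ^ a` for `k ≠ 0`, and `0` for `k = 0`. -/
noncomputable def wt (s a : ℝ) (k : K3) : ℝ :=
  if k = 0 then 0 else len k ^ s * Real.log (2 + len k) ^ a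

/-- The homogeneous Sobolev norm `‖u‖_{s,a} = (∑_{k ≠ 0} |k|^(2s) (log (2 + |k|))^(2a) |û(k)|²)^(1/2)`
of order `s` with a logarithmic weight of order `a`. -/
noncomputable def Hn (s a : ℝ) (u : V → V) : ℝ :=
  √(∑' k : K3, ∑ i, (wt s a k * ‖fr (fun x => u x i) k‖) ^ 2)

/-- The curl. -/
noncomputable def curl (u : V → V) (x : V) : V :=
  ![pd 1 (fun y => u y 2) x - pd 2 (fun y => u y 1) x,
    pd 2 (fun y => u y 0) x - pd 0 (fun y => u y 2) x,
    pd 0 (fun y => u y 1) x - pd 1 (fun y => u y 0) x]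

/-- The class of the perturbations `K(u, v)` of order `σ` (with a logarithm of power `p`) and size
`δ`: bilinear operators mapping pairs of smooth periodic vector fields to smooth periodic vector
fields of divergence zero, such that `K` commutes with all translations, ignores constants (hence
it is Galilean invariant), `K(u, v)` is orthogonal to `v` and to `curl u` (hence `K(u, u)` preserves
the energy and the helicity), and
`|∫ K(u,v)·w| ≤ δ 5^(|s₁|+|s₂|+|s₃|) ‖u‖_{s₁,a₁} ‖v‖_{s₂,a₂} ‖w‖_{s₃,a₃}`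
for all real `s₁ + s₂ + s₃ = σ` and all `a₁, a₂, a₃ ≥ 0` with `a₁ + a₂ + a₃ = p`. -/
structure Low (σ p δ : ℝ) (K : (V → V) → (V → V) → V → V) : Prop where
  smooth : ∀ u v, SPV u → SPV v → SPV (K u v)
  add_left : ∀ u u' v, SPV u → SPV u' → SPV v → K (fun x => u x + u' x) v = fun x => K u v x + K u' v x
  add_right : ∀ u v v', SPV u → SPV v → SPV v' → K u (fun x => v x + v' x) = fun x => K u v x + K u v' x
  smul_left : ∀ (r : ℝ) (u v : V → V), SPV u → SPV v → K (fun x => r • u x) v = fun x => r • K u v x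
  smul_right : ∀ (r : ℝ) (u v : V → V), SPV u → SPV v → K u (fun x => r • v x) = fun x => r • K u v x
  shift : ∀ (a : V) (u v : V → V), SPV u → SPV v →
    K (fun x => u (x + a)) (fun x => v (x + a)) = fun x => K u v (x + a)
  const_left : ∀ (a : V) (u v : V → V), SPV u → SPV v → K (fun x => u x + a) v = K u v
  const_right : ∀ (a : V) (u v : V → V), SPV u → SPV v → K u (fun x => v x + a) = K u v
  divfree : ∀ u v, SPV u → SPV v → ∀ x, ∑ i, pd i (fun y => K u v y i) x = 0
  energy : ∀ u v, SPV u → SPV v → ∑ i, ∫ x in cube, K u v x i * v x i = 0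
  helicity : ∀ u v, SPV u → SPV v → ∑ i, ∫ x in cube, K u v x i * curl u x i = 0
  bound : ∀ u v w, SPV u → SPV v → SPV w → ∀ s₁ s₂ s₃ a₁ a₂ a₃ : ℝ, s₁ + s₂ + s₃ = σ →
    0 ≤ a₁ → 0 ≤ a₂ → 0 ≤ a₃ → a₁ + a₂ + a₃ = p →
    |∑ i, ∫ x in cube, K u v x i * w x i|
      ≤ δ * 5 ^ (|s₁| + |s₂| + |s₃|) * (Hn s₁ a₁ u * Hn s₂ a₂ v * Hn s₃ a₃ w)

/-- The initial datum: a trigonometric polynomial with energy `1`, parallel to the third axis and
independent of the third variable. -/
noncomputable def dat (N : ℕ) (x : V) : V :=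
  ![0, 0, 4 / 5 * (Real.cos (4 * Real.pi * N * x 0) + Real.cos (4 * Real.pi * N * x 1))
    + 3 / (5 * √2) * (Real.cos (2 * Real.pi * N * (2 * x 0 + x 1))
      + Real.cos (2 * Real.pi * N * (2 * x 0 - x 1)) + Real.cos (2 * Real.pi * N * (x 0 + 2 * x 1))
      + Real.cos (2 * Real.pi * N * (x 0 - 2 * x 1)))]

end Pool.Agent.N977.Q
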