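import Pool.Agent.N977.Q.Lift2

/-!
From the solutions of the cascade to solutions of the partial differential equation: the system.
-/

open MeasureTheory Set Filter Topology
open scoped ContDiff

namespace Pool.Agent.N977.Q

open H459R3.NS
open Pool.Agent.N977.K (SolK)

variable {N : ℕ} {T : ℝ} {d D α μ r : ℕ → ℝ} {x y : ℕ → ℝ → ℝ}

theorem pd_two_ww {M : ℕ → ℝ} (hM : Me M) (hMN : M = fun n => (Mn N n : ℝ))
    (hx : ∀ m, Dk T M m x) (hy : ∀ m, Dk T M m y) {t : ℝ} (ht : t ∈ Ico 0 T) (z : V) :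
    pd 2 (ww N x y t) z = 0 := by
  subst hMN
  have hsp : ∀ e ∈ (Finset.univ : Finset (Fin 6)),
      SP (fun y' => Fs Real.cos (fun n => (Mn N n : ℝ)) (lf (ev e)) (AM x y e) (t, y')) := fun e _ =>
    fs_sp hM rfl (fun m => AM_dk hM (hx m) (hy m) e) (ev e) ht
  have h1 := pd_sum (s := Finset.univ) hsp 2 z
  have h2 : pd 2 (ww N x y t) z = pd 2 (fun y' => ∑ e,
      Fs Real.cos (fun n => (Mn N n : ℝ)) (lf (ev e)) (AM x y e) (t, y')) z := rfl
  rw [h2, h1]
  refine Finset.sum_eq_zero fun e _ => ?_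
  rw [fs_pd hM bd_cos (AM_dk hM (hx 1) (hy 1) e) ht, ev_two]
  simp

theorem uu_two (x y : ℕ → ℝ → ℝ) (t : ℝ) : (fun z => uu N x y t z 2) = ww N x y t := by
  funext z; unfold uu; rw [if_pos rfl]

theorem uu_ne (x y : ℕ → ℝ → ℝ) (t : ℝ) {i : Fin 3} (hi : i ≠ 2) :
    (fun z => uu N x y t z i) = fun _ => 0 := by
  funext z; unfold uu; rw [if_neg hi]

theorem pd_zero' (j : Fin 3) (z : V) : pd j (fun _ : V => (0 : ℝ)) z = 0 := by
  unfold pd; simp

theorem uu_sol {ν c G G' : ℝ} {q : ℕ} (hN : 0 < N) (hc : c = (2 * Real.pi) ^ 2 * ν)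
    (h : Zs T (fun n => 4 * (c * (Mn N n : ℝ) ^ 2)) (fun n => 5 * (c * (Mn N n : ℝ) ^ 2)) α μ r x y)
    (hα : ∀ n, |α n| ≤ G * (Mn N n : ℝ) ^ q) (hμ : ∀ n, |μ n| ≤ G * (Mn N n : ℝ) ^ q)
    (hG : Gr PP QQ (cc α μ) N G')
    (hx : ∀ m, Dk T (fun n => (Mn N n : ℝ)) m x) (hy : ∀ m, Dk T (fun n => (Mn N n : ℝ)) m y) :
    SolK ν T (KK PP QQ (cc α μ) N) (uu N x y) (fun _ _ => 0) := by
  have hM : Me (fun n => (Mn N n : ℝ)) := Mn_me hN
  refine ⟨?_, contDiffOn_const, ?_, ?_, ?_, ?_⟩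
  · refine contDiffOn_pi.2 fun i => ?_
    by_cases hi : i = 2
    · subst hi
      refine (ww_smooth hM rfl hx hy).congr fun z hz => ?_
      exact congrFun (uu_two x y z.1) z.2
    · refine (contDiffOn_const (c := (0 : ℝ))).congr fun z hz => ?_
      exact congrFun (uu_ne x y z.1 hi) z.2
  · intro t ht i z
    funext j
    have h1 := (ww_sp hM rfl hx hy ht).per i z
    unfold uu
    by_cases hj : j = 2
    · rw [if_pos hj, if_pos hj]; exact h1
    · rw [if_neg hj, if_neg hj]
  · intro t ht i z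
    rfl
  · intro t ht z
    rw [Fin.sum_univ_three, uu_two, uu_ne x y t (by decide), uu_ne x y t (by decide), pd_zero',
      pd_zero', pd_two_ww hM rfl hx hy ht]
    norm_num
  · intro t ht z i
    by_cases hi : i = 2
    · subst hi
      have h1 := ww_eq hN hc h hα hμ hG hx hy ht z
      have h2 : (fun s => uu N x y s z 2) = fun s => ww N x y s z := by
        funext s; exact congrFun (uu_two x y s) z
      rw [h2, h1.deriv]
      have h3 : ∑ j, uu N x y t z j * pd j (fun z => uu N x y t z 2) z = 0 := by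
        rw [Fin.sum_univ_three, uu_two]
        have e0 : uu N x y t z 0 = 0 := congrFun (uu_ne x y t (by decide)) z
        have e1 : uu N x y t z 1 = 0 := congrFun (uu_ne x y t (by decide)) z
        rw [e0, e1, pd_two_ww hM rfl hx hy (Ioo_subset_Ico_self ht)]
        ring
      rw [h3]
      unfold KK
      rw [uu_two, if_pos rfl, pd_zero']
      unfold lap
      ring
    · have h2 : (fun s => uu N x y s z i) = fun s => 0 := by
        funext s; exact congrFun (uu_ne x y s hi) z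
      rw [h2, uu_ne x y t hi]
      unfold KK
      rw [if_neg hi]
      have h3 : ∀ j, pd j (fun _ : V => (0 : ℝ)) = fun _ => 0 := fun j => funext fun z => pd_zero' j z
      simp only [h3, pd_zero']
      simp

end Pool.Agent.N977.Q
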