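import Pool.Agent.N977.Q.Step
import Pool.Agent.N977.Q.Log

/-!
Choice of the parameters of the cascade.
-/

open Set Filter Topology

namespace Pool.Agent.N977.Q

theorem log_le_three : Real.log 12 ≤ 3 := by
  rw [Real.log_le_iff_le_exp (by norm_num)]
  have h1 : (2.7 : ℝ) ≤ Real.exp 1 := by linarith [Real.exp_one_gt_d9]
  have h2 : Real.exp 3 = Real.exp 1 ^ 3 := by rw [← Real.exp_nat_mul]; norm_num
  rw [h2]
  have := pow_le_pow_left₀ (by norm_num) h1 3
  linarith [show (2.7 : ℝ) ^ 3 = 19.683 by norm_num]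

theorem par_exists {θ p c T : ℝ} {b : ℕ} (hθ : 0 < θ) (hθ1 : θ ≤ 1) (hp : 1 < p) (hp2 : p ≤ 2)
    (hcb : (0 < c ∧ b = 2) ∨ (c = 0 ∧ b = 0)) (hT : 0 < T) (hT1 : T ≤ 1) :
    ∃ N₀ : ℕ, 3 ≤ N₀ ∧ ∀ N : ℕ, N₀ ≤ N → ∃ κ τ q ℓ s ϖ : ℕ → ℝ,
      Par T (fun n => 4 * (c * (Mn N n : ℝ) ^ 2)) (fun n => 5 * (c * (Mn N n : ℝ) ^ 2))
        (al θ b p N) (mu θ b p N) κ τ q ℓ s ϖ := by
  have hc : 0 ≤ c := by rcases hcb with h | h <;> linarith [h.1]
  have hb2 : b ≤ 2 := by rcases hcb with h | h <;> omega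
  set h := (p - 1) / 2 with hh
  have hh0 : 0 < h := by rw [hh]; linarith
  have hh1 : h ≤ 1 := by rw [hh]; linarith
  set r := (p + 1) / 2 with hr
  have hr1 : 1 < r := by rw [hr]; linarith
  have hr2 : r ≤ 3 / 2 := by rw [hr]; linarith
  set C₁ : ℝ := 7 + 142 / h with hC₁
  have hC₁7 : 7 ≤ C₁ := by rw [hC₁]; have : 0 < 142 / h := by positivity
                           linarith
  set C₂ : ℝ := (20 * c * C₁ + 5 * c) / θ + 6 with hC₂
  have hC₂pos : 0 < C₂ := by positivity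
  set C₃ : ℝ := 4 + 1 / (4 * c) with hC₃
  have hC₃pos : 0 < C₃ := by positivity
  set ε : ℝ := min (3 / 10 / C₂) (T / (C₁ / θ)) with hε
  have hεpos : 0 < ε := by rw [hε]; apply lt_min <;> positivity
  set B : ℝ := 3 + 8 / c + 36864 * C₁ + 576 * C₃ + 80 * c * C₁ / θ with hB
  obtain ⟨N₁, hN₁3, hN₁⟩ := sum_small hr1 hεpos
  obtain ⟨N₂, hN₂⟩ := large_log B
  refine ⟨max N₁ N₂, hN₁3.trans (le_max_left _ _), fun N hN => ?_⟩
  have hN3 : 3 ≤ N := hN₁3.trans ((le_max_left _ _).trans hN)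
  have hBN := hN₂ N ((le_max_right _ _).trans hN)
  have hsum := hN₁ N ((le_max_left _ _).trans hN)
  set L : ℕ → ℝ := fun n => Real.log (Mn N n) with hL
  have hLB : ∀ n, B ≤ L n := fun n => hBN.trans (logN_le hN3 n)
  have hc8 : 0 ≤ 8 / c := by positivity
  have hcθ : 0 ≤ 80 * c * C₁ / θ := by positivity
  have hL3 : ∀ n, 3 ≤ L n := fun n => by
    have := hLB n; rw [hB] at this; nlinarith
  have hL0 : ∀ n, 0 < L n := fun n => by linarith [hL3 n]
  have hL1 : ∀ n, 1 ≤ L n := fun n => by linarith [hL3 n]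
  have hLm : ∀ n, L n ≤ L (n + 1) := fun n => L_mono hN3 n
  have hL2 : ∀ n, L (n + 1) ≤ 2 * L n := fun n => L_succ_le hN3 n
  have hα0 : ∀ n, 0 < al θ b p N n := fun n => al_pos hθ hN3 n
  have hμ0 : ∀ n, 0 < mu θ b p N n := fun n => mu_pos hθ hN3 n
  have hα16 : ∀ n, al θ b p N (n + 1) ≤ 16 * al θ b p N n := fun n =>
    al_succ_le hθ (by linarith) hp2 hb2 hN3 n
  have hμα : ∀ n, mu θ b p N n / al θ b p N n = 1 / L n ^ 70 := fun n => by
    have := (hα0 n).ne'
    unfold mu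
    simp only [hL]
    field_simp
  have hMpos : ∀ n, (0 : ℝ) < Mn N n := fun n => by
    have := one_le_Mn (by omega : 0 < N) n; linarith
  -- powers of `L`
  have hLh1 : ∀ n, L n ^ h ≤ L n := fun n => by
    calc L n ^ h ≤ L n ^ (1 : ℝ) := Real.rpow_le_rpow_of_exponent_le (hL1 n) hh1
      _ = L n := Real.rpow_one _
  have hLh0 : ∀ n, 1 ≤ L n ^ h := fun n => Real.one_le_rpow (hL1 n) hh0.le
  have hpow : ∀ k : ℕ, 2 ≤ k → ∀ n, 1 / L n ^ k ≤ L n ^ (-r) := fun k hk n => by
    rw [one_div, ← Real.rpow_natCast, ← Real.rpow_neg (hL0 n).le]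
    apply Real.rpow_le_rpow_of_exponent_le (hL1 n)
    have : (2 : ℝ) ≤ k := by exact_mod_cast hk
    linarith
  -- the times
  set τ : ℕ → ℝ := fun n => C₁ * L n ^ h / al θ b p N n with hτ
  have hτα : ∀ n, al θ b p N n * τ n = C₁ * L n ^ h := fun n => by
    simp only [hτ]; field_simp [(hα0 n).ne']
  have hτ0 : ∀ n, 0 ≤ τ n := fun n => by
    have := hα0 n; have := hL0 n; simp only [hτ]; positivity
  have hα1τ : ∀ n, al θ b p N (n + 1) * τ n ≤ 16 * (C₁ * L n) := fun n => by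
    calc al θ b p N (n + 1) * τ n ≤ (16 * al θ b p N n) * τ n :=
          mul_le_mul_of_nonneg_right (hα16 n) (hτ0 n)
      _ = 16 * (C₁ * L n ^ h) := by rw [← hτα n]; ring
      _ ≤ 16 * (C₁ * L n) := by
          have := mul_le_mul_of_nonneg_left (hLh1 n) (by linarith : 0 ≤ C₁)
          linarith
  -- `M ^ 2 * τ`
  have hcM : ∀ n, c * (Mn N n : ℝ) ^ 2 = c * (Mn N n : ℝ) ^ b := fun n => by
    rcases hcb with h | h
    · rw [h.2]
    · rw [h.1]; simp
  have hMα : ∀ n, (Mn N n : ℝ) ^ b / al θ b p N n = 1 / θ * L n ^ (-p) := fun n => by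
    have h1 : 0 < L n ^ p := Real.rpow_pos_of_pos (hL0 n) p
    have h2 : 0 < (Mn N n : ℝ) ^ b := by have := hMpos n; positivity
    rw [Real.rpow_neg (hL0 n).le]
    unfold al
    simp only [hL] at h1 ⊢
    field_simp
  have hpr : ∀ n, L n ^ (-p) * L n ^ h = L n ^ (-r) := fun n => by
    rw [← Real.rpow_add (hL0 n)]; congr 1; rw [hh, hr]; ring
  have hMτ : ∀ n, (Mn N n : ℝ) ^ b * τ n = C₁ / θ * L n ^ (-r) := fun n => by
    have : (Mn N n : ℝ) ^ b * τ n = C₁ * L n ^ h * ((Mn N n : ℝ) ^ b / al θ b p N n) := by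
      simp only [hτ]; ring
    rw [this, hMα, ← hpr]; ring
  have hcMτ : ∀ n, c * (Mn N n : ℝ) ^ 2 * τ n = c * C₁ / θ * L n ^ (-r) := fun n => by
    rw [hcM, mul_assoc, hMτ]; ring
  have hLr0 : ∀ n, 0 ≤ L n ^ (-r) := fun n => Real.rpow_nonneg (hL0 n).le _
  have hLr1 : ∀ n, L n ^ (-r) ≤ 1 / L n := fun n => by
    rw [one_div, ← Real.rpow_neg_one]
    exact Real.rpow_le_rpow_of_exponent_le (hL1 n) (by linarith)
  have hMsucc : ∀ n, c * (Mn N (n + 1) : ℝ) ^ 2 = 4 * (c * (Mn N n : ℝ) ^ 2) := fun n => by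
    rw [Mn_succ]; push_cast; ring
  have hq' : ∀ n, 1 / L n ^ 4 / 16 ≤ 1 / L (n + 1) ^ 4 := fun n => by
    have h1 := hL0 n
    have h2 := hL0 (n + 1)
    rw [div_div, div_le_div_iff₀ (by positivity) (by positivity)]
    have := pow_le_pow_left₀ h2.le (hL2 n) 4
    nlinarith
  have hqle : ∀ n, 1 / L (n + 1) ^ 4 ≤ 1 / L n ^ 4 := fun n => by
    have h1 := hL0 n
    exact one_div_le_one_div_of_le (by positivity) (pow_le_pow_left₀ h1.le (hLm n) 4)
  have hBC₁ : ∀ n, 36864 * C₁ ≤ L n := fun n => by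
    have := hLB n; rw [hB] at this; nlinarith
  have hBC₃ : ∀ n, 576 * C₃ ≤ L n := fun n => by
    have := hLB n; rw [hB] at this; nlinarith
  have hBθ : ∀ n, 80 * c * C₁ / θ ≤ L n := fun n => by
    have := hLB n; rw [hB] at this; nlinarith
  have hBc : ∀ n, 8 / c ≤ L n := fun n => by
    have := hLB n; rw [hB] at this; nlinarith
  refine ⟨fun n => 1 / L n ^ 2, τ, fun n => 1 / L n ^ 4, fun n => C₂ * L n ^ (-r),
    fun n => 1 / (12 * L n ^ 70), fun n => if c = 0 then 1 else 1 / (4 * (c * (Mn N n : ℝ) ^ 2)),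
    ⟨fun n => by positivity, fun n => ?_, fun n => ?_, hα0, hμ0⟩, hT1,
    fun n => mu_le_al hθ hN3 n, fun n => ?_, fun n => ?_, fun n => ?_, fun n => ?_, fun n => ?_,
    fun n => ?_, fun n => ?_, fun n => ?_, fun n => ?_, fun n => ?_, fun n => ?_, fun n => ?_,
    fun n => ?_, fun n => ?_, fun n => ?_, fun n => ?_, fun n => ?_⟩
  · -- dd
    have := hMsucc n
    have h1 : 0 ≤ c * (Mn N n : ℝ) ^ 2 := by positivity
    linarith
  · have h1 : 0 ≤ c * (Mn N n : ℝ) ^ 2 := by positivity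
    linarith
  · -- κ0
    have := hL0 n; positivity
  · -- κ1
    have h1 := hL3 n
    rw [div_le_div_iff₀ (by positivity) (by norm_num)]
    nlinarith
  · -- s0
    have := hL0 n; positivity
  · -- s1
    have h1 := one_le_pow₀ (hL1 n) (n := 70)
    rw [div_le_div_iff₀ (by positivity) (by norm_num)]
    linarith
  · -- ss
    have h1 := hL0 n
    have e : mu θ b p N n / (12 * al θ b p N n) = 1 / (12 * L n ^ 70) := by
      rw [mul_comm 12, ← div_div, hμα]
      rw [div_div, mul_comm]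
    rw [e]
    exact one_div_le_one_div_of_le (by positivity)
      (mul_le_mul_of_nonneg_left (pow_le_pow_left₀ h1.le (hLm n) 70) (by norm_num))
  · -- τ0
    have h0 := hL0 n
    rw [hτα]
    have e1 : Real.log (1 / (1 / L n ^ 2)) = 2 * Real.log (L n) := by
      rw [one_div_one_div, Real.log_pow]; push_cast; ring
    have e2 : Real.log (1 / (1 / (12 * L n ^ 70))) = Real.log 12 + 70 * Real.log (L n) := by
      rw [one_div_one_div, Real.log_mul (by norm_num) (by positivity), Real.log_pow]; push_cast; ring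
    rw [e1, e2]
    have h1 := Real.log_le_rpow_div h0.le hh0
    have h2 := log_le_three
    have h3 := hLh0 n
    have h4 : 142 * Real.log (L n) ≤ 142 / h * L n ^ h := by
      have : 142 / h * L n ^ h = 142 * (L n ^ h / h) := by ring
      rw [this]; linarith
    rw [hC₁]
    nlinarith
  · -- q0
    have := hL0 n; positivity
  · -- q1
    have h1 := hL3 n
    rw [div_le_div_iff₀ (by positivity) (by norm_num)]
    have : (3 : ℝ) ^ 4 ≤ L n ^ 4 := pow_le_pow_left₀ (by norm_num) h1 4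
    linarith
  · -- qd
    have h0 := hL0 n
    have h1 := hL3 n
    have h2 := al_le (b := b) hθ1 hp2 hN3 (n + 1)
    have h3 : Real.log (Mn N (n + 1)) ^ 2 ≤ 4 * L n ^ 2 := by
      have := pow_le_pow_left₀ (hL0 (n + 1)).le (hL2 n) 2
      calc Real.log (Mn N (n + 1)) ^ 2 = L (n + 1) ^ 2 := rfl
        _ ≤ (2 * L n) ^ 2 := this
        _ = 4 * L n ^ 2 := by ring
    have h4 : (0 : ℝ) ≤ (Mn N (n + 1) : ℝ) ^ b := by positivity
    have h5 : al θ b p N (n + 1) ≤ (Mn N (n + 1) : ℝ) ^ b * (4 * L n ^ 2) :=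
      h2.trans (mul_le_mul_of_nonneg_left h3 h4)
    have h6 : 2 * al θ b p N (n + 1) * (1 / L n ^ 4) ≤ (Mn N (n + 1) : ℝ) ^ b * (8 / L n ^ 2) := by
      calc 2 * al θ b p N (n + 1) * (1 / L n ^ 4)
          ≤ 2 * ((Mn N (n + 1) : ℝ) ^ b * (4 * L n ^ 2)) * (1 / L n ^ 4) := by
            apply mul_le_mul_of_nonneg_right _ (by positivity)
            linarith
        _ = (Mn N (n + 1) : ℝ) ^ b * (8 / L n ^ 2) := by field_simp; ring
    rcases hcb with ⟨hc0, hbb⟩ | ⟨hc0, hbb⟩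
    · have h7 : 8 / L n ^ 2 ≤ c := by
        rw [div_le_iff₀ (by positivity)]
        have e1 := hBc n
        rw [div_le_iff₀ hc0] at e1
        nlinarith
      have h8 := mul_le_mul_of_nonneg_left h7 h4
      subst hbb
      linarith
    · subst hbb
      simp only [hc0, pow_zero, one_mul] at h6 ⊢
      have h7 : 8 / L n ^ 2 ≤ 1 := by
        rw [div_le_one (by positivity)]; nlinarith
      linarith
  · -- qτ
    have h0 := hL0 n
    have h1 := hα1τ n
    have h2 := hBC₁ n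
    have e : 2 * al θ b p N (n + 1) * (1 / L n ^ 4) * τ n
        = 2 * (al θ b p N (n + 1) * τ n) / L n ^ 4 := by ring
    rw [e, div_le_one (by positivity)]
    have h3 : 1 ≤ L n ^ 2 := one_le_pow₀ (hL1 n)
    have h4 : L n ^ 4 = L n * L n * L n ^ 2 := by ring
    rw [h4]
    have h5 : 32 * C₁ * L n ≤ L n * L n := mul_le_mul_of_nonneg_right (by linarith) h0.le
    nlinarith [mul_pos h0 h0]
  · -- qs
    have h0 := hL0 n
    have h1 := hα1τ n
    have h2 := hBC₁ n
    have h2' := hBC₃ n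
    rw [hμα]
    -- the amplification
    have hR : al θ b p N (n + 1) / al θ b p N n ≤ 16 := by
      rw [div_le_iff₀ (hα0 n)]; exact hα16 n
    have e1 : Real.log (1 / (1 / L n ^ 2)) = 2 * Real.log (L n) := by
      rw [one_div_one_div, Real.log_pow]; push_cast; ring
    have hlogL : 0 ≤ Real.log (L n) := Real.log_nonneg (hL1 n)
    have hexp : Real.exp (1 + 2 * (al θ b p N (n + 1) / al θ b p N n) *
        Real.log (1 / (1 / L n ^ 2))) ≤ 3 * L n ^ 64 := by
      rw [e1]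
      have a1 : 1 + 2 * (al θ b p N (n + 1) / al θ b p N n) * (2 * Real.log (L n))
          ≤ 1 + 64 * Real.log (L n) := by nlinarith
      refine (Real.exp_le_exp.2 a1).trans ?_
      rw [Real.exp_add]
      have a2 : Real.exp (64 * Real.log (L n)) = L n ^ 64 := by
        have : (64 : ℝ) * Real.log (L n) = ((64 : ℕ) : ℝ) * Real.log (L n) := by norm_num
        rw [this, Real.exp_nat_mul, Real.exp_log h0]
      rw [a2]
      exact mul_le_mul_of_nonneg_right exp_one_le (by positivity)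
    have hH : 2 * (1 / L n ^ 70) * Real.exp (1 + 2 * (al θ b p N (n + 1) / al θ b p N n) *
        Real.log (1 / (1 / L n ^ 2))) ≤ 6 / L n ^ 6 := by
      calc _ ≤ 2 * (1 / L n ^ 70) * (3 * L n ^ 64) :=
            mul_le_mul_of_nonneg_left hexp (by positivity)
        _ = 6 / L n ^ 6 := by
            have : L n ^ 70 = L n ^ 64 * L n ^ 6 := by ring
            rw [this]; field_simp; norm_num
    have hH2 : (2 * (1 / L n ^ 70) * Real.exp (1 + 2 * (al θ b p N (n + 1) / al θ b p N n) *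
        Real.log (1 / (1 / L n ^ 2)))) ^ 2 ≤ 36 / L n ^ 12 := by
      have := pow_le_pow_left₀ (by positivity) hH 2
      calc _ ≤ _ := this
        _ = _ := by rw [div_pow, ← pow_mul]; norm_num
    have hϖ : al θ b p N (n + 1) * (if c = 0 then 1 else 1 / (4 * (c * (Mn N (n + 2) : ℝ) ^ 2)))
        ≤ C₃ * L n ^ 2 := by
      have a2 := al_le (b := b) hθ1 hp2 hN3 (n + 1)
      have a3 : Real.log (Mn N (n + 1)) ^ 2 ≤ 4 * L n ^ 2 := by
        have := pow_le_pow_left₀ (hL0 (n + 1)).le (hL2 n) 2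
        calc Real.log (Mn N (n + 1)) ^ 2 = L (n + 1) ^ 2 := rfl
          _ ≤ (2 * L n) ^ 2 := this
          _ = 4 * L n ^ 2 := by ring
      rcases hcb with ⟨hc0, hbb⟩ | ⟨hc0, hbb⟩
      · rw [if_neg hc0.ne', mul_one_div, div_le_iff₀ (by have := hMpos (n + 2); positivity)]
        subst hbb
        have a4 : (Mn N (n + 2) : ℝ) ^ 2 = 4 * (Mn N (n + 1) : ℝ) ^ 2 := by
          rw [Mn_succ]; push_cast; ring
        rw [a4]
        have a5 : (0 : ℝ) ≤ (Mn N (n + 1) : ℝ) ^ 2 := by positivity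
        have a6 := a2.trans (mul_le_mul_of_nonneg_left a3 a5)
        refine a6.trans ?_
        have a7 : 1 ≤ C₃ * (4 * c) := by
          rw [hC₃, add_mul, one_div, inv_mul_cancel₀ (by positivity)]
          have : 0 ≤ 4 * (4 * c) := by positivity
          linarith
        have a8 : 0 ≤ L n ^ 2 * (Mn N (n + 1) : ℝ) ^ 2 := by positivity
        nlinarith [mul_le_mul_of_nonneg_right a7 a8]
      · rw [if_pos hc0, mul_one]
        subst hbb
        rw [pow_zero, one_mul] at a2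
        have a4 : (4 : ℝ) ≤ C₃ := by rw [hC₃, hc0]; simp
        have a5 : 0 ≤ L n ^ 2 := by positivity
        nlinarith
    have hϖ' : 2 * al θ b p N (n + 1) * ((3 * (1 / L n ^ 70) * (1 / L n ^ 4)) ^ 2 *
        (if c = 0 then 1 else 1 / (4 * (c * (Mn N (n + 2) : ℝ) ^ 2)))) ≤ 1 / L n ^ 4 / 32 := by
      have a1 : (3 * (1 / L n ^ 70) * (1 / L n ^ 4)) ^ 2 ≤ 9 / L n ^ 7 := by
        have b1 : (3 * (1 / L n ^ 70) * (1 / L n ^ 4)) ^ 2 = 9 / L n ^ 148 := by
          rw [mul_pow, mul_pow]; field_simp; norm_num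
        rw [b1]
        exact div_le_div_of_nonneg_left (by norm_num) (by positivity)
          (pow_le_pow_right₀ (hL1 n) (by norm_num))
      have a2 : 0 ≤ (3 * (1 / L n ^ 70) * (1 / L n ^ 4)) ^ 2 := by positivity
      calc 2 * al θ b p N (n + 1) * ((3 * (1 / L n ^ 70) * (1 / L n ^ 4)) ^ 2 *
          (if c = 0 then 1 else 1 / (4 * (c * (Mn N (n + 2) : ℝ) ^ 2))))
          = 2 * (3 * (1 / L n ^ 70) * (1 / L n ^ 4)) ^ 2 * (al θ b p N (n + 1) *
            (if c = 0 then 1 else 1 / (4 * (c * (Mn N (n + 2) : ℝ) ^ 2)))) := by ring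
        _ ≤ 2 * (9 / L n ^ 7) * (C₃ * L n ^ 2) := by
            apply mul_le_mul (by linarith) hϖ _ (by positivity)
            have : 0 < al θ b p N (n + 1) := hα0 (n + 1)
            split_ifs
            · linarith
            · have := hMpos (n + 2); positivity
        _ = 576 * C₃ / L n * (1 / L n ^ 4 / 32) := by field_simp; ring
        _ ≤ 1 * (1 / L n ^ 4 / 32) := by
            apply mul_le_mul_of_nonneg_right _ (by positivity)
            rw [div_le_one h0]; exact h2'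
        _ = _ := one_mul _
    have hH' : 2 * al θ b p N (n + 1) * ((2 * (1 / L n ^ 70) * Real.exp (1 + 2 *
        (al θ b p N (n + 1) / al θ b p N n) * Real.log (1 / (1 / L n ^ 2)))) ^ 2 * τ n)
        ≤ 1 / L n ^ 4 / 32 := by
      calc 2 * al θ b p N (n + 1) * ((2 * (1 / L n ^ 70) * Real.exp (1 + 2 *
          (al θ b p N (n + 1) / al θ b p N n) * Real.log (1 / (1 / L n ^ 2)))) ^ 2 * τ n)
          = 2 * (2 * (1 / L n ^ 70) * Real.exp (1 + 2 *
          (al θ b p N (n + 1) / al θ b p N n) * Real.log (1 / (1 / L n ^ 2)))) ^ 2 *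
            (al θ b p N (n + 1) * τ n) := by ring
        _ ≤ 2 * (36 / L n ^ 12) * (16 * (C₁ * L n)) := by
            apply mul_le_mul (by linarith) h1 _ (by positivity)
            exact mul_nonneg (hα0 (n + 1)).le (hτ0 n)
        _ = 36864 * C₁ / L n ^ 7 * (1 / L n ^ 4 / 32) := by field_simp; ring
        _ ≤ 1 * (1 / L n ^ 4 / 32) := by
            apply mul_le_mul_of_nonneg_right _ (by positivity)
            rw [div_le_one (by positivity)]
            have h3 : 1 ≤ L n ^ 6 := one_le_pow₀ (hL1 n)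
            calc 36864 * C₁ ≤ L n := h2
              _ ≤ L n * L n ^ 6 := le_mul_of_one_le_right h0.le h3
              _ = L n ^ 7 := by ring
        _ = _ := one_mul _
    have h5 := hq' n
    rw [mul_add]
    have e6 : 1 / L n ^ 4 / 32 + 1 / L n ^ 4 / 32 = 1 / L n ^ 4 / 16 := by ring
    linarith
  · -- ϖ0
    split_ifs
    · norm_num
    · have := hMpos n; positivity
  · -- ϖ1
    by_cases hc0 : c = 0
    · right; rw [if_pos hc0]
    · left
      rw [if_neg hc0]
      have := hMpos n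
      have : 0 < c := lt_of_le_of_ne hc (Ne.symm hc0)
      rw [mul_one_div, div_self (by positivity)]
  · -- sd
    have h0 := hL0 n
    have h1 := hα1τ n
    have h2 := hBC₁ n
    have e1 : 5 * (c * (Mn N (n + 1) : ℝ) ^ 2) * τ n = 20 * (c * C₁ / θ * L n ^ (-r)) := by
      rw [hMsucc, ← hcMτ]; ring
    have e2 : 20 * (c * C₁ / θ * L n ^ (-r)) ≤ 1 / 4 := by
      have a1 := hBθ n
      have a2 : 20 * (c * C₁ / θ * L n ^ (-r)) ≤ 20 * (c * C₁ / θ * (1 / L n)) := by
        have := mul_le_mul_of_nonneg_left (hLr1 n) (by positivity : 0 ≤ c * C₁ / θ)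
        linarith
      refine a2.trans ?_
      have a3 : 20 * (c * C₁ / θ * (1 / L n)) = 80 * c * C₁ / θ / L n * (1 / 4) := by ring
      rw [a3]
      have a4 : 80 * c * C₁ / θ / L n ≤ 1 := by rw [div_le_one h0]; exact a1
      linarith
    have hC₁0 : 0 < C₁ := by linarith
    have e3 : al θ b p N (n + 1) * (1 / L n ^ 4 + 2 * (1 / L (n + 1) ^ 4)) * τ n ≤ 1 / 4 := by
      have a1 := hqle n
      have a2 : 1 / L n ^ 4 + 2 * (1 / L (n + 1) ^ 4) ≤ 3 / L n ^ 4 := by
        have : 3 / L n ^ 4 = 3 * (1 / L n ^ 4) := by ring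
        rw [this]; linarith
      have a3 : 0 ≤ al θ b p N (n + 1) * τ n := mul_nonneg (hα0 (n + 1)).le (hτ0 n)
      calc _ = (1 / L n ^ 4 + 2 * (1 / L (n + 1) ^ 4)) * (al θ b p N (n + 1) * τ n) := by ring
        _ ≤ (3 / L n ^ 4) * (16 * (C₁ * L n)) :=
            mul_le_mul a2 h1 a3 (by positivity)
        _ = 192 * C₁ / L n ^ 3 * (1 / 4) := by field_simp; ring
        _ ≤ 1 * (1 / 4) := by
            apply mul_le_mul_of_nonneg_right _ (by norm_num)
            rw [div_le_one (by positivity)]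
            have h3 : 1 ≤ L n ^ 2 := one_le_pow₀ (hL1 n)
            calc 192 * C₁ ≤ L n := by linarith
              _ ≤ L n * L n ^ 2 := le_mul_of_one_le_right h0.le h3
              _ = L n ^ 3 := by ring
        _ = 1 / 4 := one_mul _
    have e4 : mu θ b p N (n + 1) * τ n ≤ 1 / 4 := by
      have a1 : mu θ b p N (n + 1) ≤ al θ b p N (n + 1) / L n ^ 2 := by
        unfold mu
        apply div_le_div_of_nonneg_left (hα0 (n + 1)).le (by positivity)
        calc L n ^ 2 ≤ L (n + 1) ^ 2 := pow_le_pow_left₀ h0.le (hLm n) 2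
          _ ≤ L (n + 1) ^ 70 := pow_le_pow_right₀ (hL1 (n + 1)) (by norm_num)
      calc mu θ b p N (n + 1) * τ n ≤ al θ b p N (n + 1) / L n ^ 2 * τ n :=
            mul_le_mul_of_nonneg_right a1 (hτ0 n)
        _ = al θ b p N (n + 1) * τ n / L n ^ 2 := by ring
        _ ≤ 16 * (C₁ * L n) / L n ^ 2 := div_le_div_of_nonneg_right h1 (by positivity)
        _ = 64 * C₁ / L n * (1 / 4) := by field_simp; ring
        _ ≤ 1 * (1 / 4) := by
            apply mul_le_mul_of_nonneg_right _ (by norm_num)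
            rw [div_le_one h0]; linarith
        _ = 1 / 4 := one_mul _
    rw [add_mul, add_mul, e1]
    linarith
  · -- ℓ1
    have h0 := hL0 n
    rw [hμα]
    have e1 : (4 * (c * (Mn N n : ℝ) ^ 2) + 4 * (c * (Mn N (n + 1) : ℝ) ^ 2)) * τ n
        = 20 * (c * C₁ / θ * L n ^ (-r)) := by
      rw [hMsucc, ← hcMτ]; ring
    have e2 : 5 * (c * (Mn N n : ℝ) ^ 2) / al θ b p N n ≤ 5 * c / θ * L n ^ (-r) := by
      have a1 : 5 * (c * (Mn N n : ℝ) ^ 2) / al θ b p N n
          = 5 * c * ((Mn N n : ℝ) ^ b / al θ b p N n) := by rw [hcM]; ring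
      rw [a1, hMα]
      have a2 : L n ^ (-p) ≤ L n ^ (-r) :=
        Real.rpow_le_rpow_of_exponent_le (hL1 n) (by rw [hr]; linarith)
      have a3 := mul_le_mul_of_nonneg_left a2 (by positivity : 0 ≤ 5 * c / θ)
      calc 5 * c * (1 / θ * L n ^ (-p)) = 5 * c / θ * L n ^ (-p) := by ring
        _ ≤ _ := a3
    have e3 := hpow 4 (by norm_num) n
    have e4 := (hqle n).trans e3
    have e5 := hpow 70 (by norm_num) n
    have e6 := hpow 2 le_rfl n
    rw [e1, hC₂]
    have e7 : ((20 * c * C₁ + 5 * c) / θ + 6) * L n ^ (-r)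
        = 20 * (c * C₁ / θ * L n ^ (-r)) + 5 * c / θ * L n ^ (-r) + 6 * L n ^ (-r) := by ring
    rw [e7]
    linarith
  · -- ℓs
    rw [← Finset.mul_sum]
    have h1 := hsum n
    have h2 : C₂ * ∑ j ∈ Finset.range n, L j ^ (-r) ≤ C₂ * ε :=
      mul_le_mul_of_nonneg_left h1 hC₂pos.le
    have h3 : C₂ * ε ≤ C₂ * (3 / 10 / C₂) := mul_le_mul_of_nonneg_left (min_le_left _ _) hC₂pos.le
    have h4 : C₂ * (3 / 10 / C₂) = 3 / 10 := by field_simp
    linarith
  · -- τs
    have h1 := hsum n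
    have h2 : ∀ j ∈ Finset.range n, τ j ≤ C₁ / θ * L j ^ (-r) := by
      intro j _
      rw [← hMτ]
      have : (1 : ℝ) ≤ (Mn N j : ℝ) ^ b := one_le_pow₀ (one_le_Mn (by omega) j)
      exact le_mul_of_one_le_left (hτ0 j) this
    have hC₁0 : 0 < C₁ := by linarith
    calc _ ≤ ∑ j ∈ Finset.range n, C₁ / θ * L j ^ (-r) := Finset.sum_le_sum h2
      _ = C₁ / θ * ∑ j ∈ Finset.range n, L j ^ (-r) := by rw [Finset.mul_sum]
      _ ≤ C₁ / θ * ε := mul_le_mul_of_nonneg_left h1 (by positivity)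
      _ ≤ C₁ / θ * (T / (C₁ / θ)) := mul_le_mul_of_nonneg_left (min_le_right _ _) (by positivity)
      _ = T := by field_simp

end Pool.Agent.N977.Q
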