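import Pool.Agent.N977.Q.Nrm
import Pool.Agent.N977.Q.Uniq

/-!
Uniqueness of smooth solutions, for every perturbation of the class.
-/

open MeasureTheory Set Filter Topology
open scoped ContDiff

namespace Pool.Agent.N977.Q

open H459R3.NS
open Pool.Agent.N977.K (SolK cmp)

variable {ν T σ π' δ : ℝ} {u v : ℝ → V → V} {p q : ℝ → V → ℝ} {K : (V → V) → (V → V) → V → V}

/-- the estimate for the difference of two solutions at a fixed time -/
theorem diff_est' (hν : 0 ≤ ν) {U W : Fin 3 → V → ℝ} {R : V → ℝ}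
    (hU : ∀ i, SP (U i)) (hW : ∀ i, SP (W i)) (hQ : SP R)
    (hdU : ∀ x, ∑ i, pd i (U i) x = 0) (hdW : ∀ x, ∑ i, pd i (W i) x = 0)
    {V' : Fin 3 → V → ℝ} (hV : ∀ i, SP (V' i)) {C B : ℝ}
    (hC : ∀ i j, ∀ x ∈ cube, |pd j (V' i) x| ≤ C)
    {Z : Fin 3 → V → ℝ} (hZ : ∀ i, SP (Z i))
    (hB : ∑ i, ∫ x in cube, Z i x * W i x ≤ B * ∑ i, ∫ x in cube, W i x ^ 2)
    (D : Fin 3 → V → ℝ)
    (hD : ∀ i x, D i x = ν * lap (W i) x - (∑ j, U j x * pd j (W i) x)
      - (∑ j, W j x * pd j (V' i) x) - pd i R x + Z i x) :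
    ∑ i, ∫ x in cube, 2 * W i x * D i x ≤ (6 * C + 2 * B) * ∑ i, ∫ x in cube, W i x ^ 2 := by
  have hne : (0 : V) ∈ cube := ⟨le_rfl, fun _ => zero_le_one⟩
  have hC0 : 0 ≤ C := (abs_nonneg _).trans (hC 0 0 0 hne)
  have e1 : ∀ i, ∫ x in cube, 2 * W i x * D i x
      = 2 * (ν * ∫ x in cube, lap (W i) x * W i x)
        - 2 * (∑ j, ∫ x in cube, U j x * (W i x * pd j (W i) x))
        - 2 * (∑ j, ∫ x in cube, W i x * (W j x * pd j (V' i) x))
        - 2 * (∫ x in cube, W i x * pd i R x)
        + 2 * (∫ x in cube, Z i x * W i x) := by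
    intro i
    have i1 : IntegrableOn (fun x => 2 * (ν * (lap (W i) x * W i x))) cube :=
      ((((hW i).lap.mul (hW i)).int.const_mul ν).const_mul 2)
    have i2 : IntegrableOn (fun x => 2 * ∑ j, U j x * (W i x * pd j (W i) x)) cube :=
      (SP.sum fun j _ => (hU j).mul ((hW i).mul ((hW i).pd j))).int.const_mul 2
    have i3 : IntegrableOn (fun x => 2 * ∑ j, W i x * (W j x * pd j (V' i) x)) cube :=
      (SP.sum fun j _ => (hW i).mul ((hW j).mul ((hV i).pd j))).int.const_mul 2
    have i4 : IntegrableOn (fun x => 2 * (W i x * pd i R x)) cube :=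
      ((hW i).mul (hQ.pd i)).int.const_mul 2
    have i5 : IntegrableOn (fun x => 2 * (Z i x * W i x)) cube :=
      (((hZ i).mul (hW i)).int).const_mul 2
    have e : ∀ x, 2 * W i x * D i x = (((2 * (ν * (lap (W i) x * W i x))
        - 2 * ∑ j, U j x * (W i x * pd j (W i) x)) - 2 * ∑ j, W i x * (W j x * pd j (V' i) x))
        - 2 * (W i x * pd i R x)) + 2 * (Z i x * W i x) := by
      intro x
      rw [hD]
      have s1 : ∑ j, U j x * (W i x * pd j (W i) x) = W i x * ∑ j, U j x * pd j (W i) x := by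
        rw [Finset.mul_sum]; exact Finset.sum_congr rfl fun j _ => by ring
      have s2 : ∑ j, W i x * (W j x * pd j (V' i) x) = W i x * ∑ j, W j x * pd j (V' i) x := by
        rw [Finset.mul_sum]
      rw [s1, s2]
      ring
    simp_rw [e]
    rw [integral_add (isub (isub (isub i1 i2) i3) i4) i5, integral_sub (isub (isub i1 i2) i3) i4,
      integral_sub (isub i1 i2) i3, integral_sub i1 i2]
    simp only [integral_const_mul]
    rw [integral_finsetSum _ fun j _ => ((hU j).mul ((hW i).mul ((hW i).pd j))).int,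
      integral_finsetSum _ fun j _ => ((hW i).mul ((hW j).mul ((hV i).pd j))).int]
  simp_rw [e1]
  rw [Finset.sum_add_distrib, Finset.sum_sub_distrib, Finset.sum_sub_distrib,
    Finset.sum_sub_distrib]
  -- viscous term
  have t1 : ∑ i, 2 * (ν * ∫ x in cube, lap (W i) x * W i x) ≤ 0 := by
    refine Finset.sum_nonpos fun i _ => ?_
    rw [int_lap_mul (hW i) (hW i)]
    have : 0 ≤ ∑ j, ∫ x in cube, pd j (W i) x * pd j (W i) x :=
      Finset.sum_nonneg fun j _ => integral_nonneg fun x => mul_self_nonneg _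
    nlinarith [mul_nonneg hν this]
  -- transport
  have t2 : ∑ i, 2 * (∑ j, ∫ x in cube, U j x * (W i x * pd j (W i) x)) = 0 := by
    refine Finset.sum_eq_zero fun i _ => ?_
    rw [transport_zero hU hdU (hW i), mul_zero]
  -- pressure
  have t4 : ∑ i, 2 * (∫ x in cube, W i x * pd i R x) = 0 := by
    rw [← Finset.mul_sum, int_press hW hdW hQ, mul_zero]
  -- stretching
  have hE : ∀ i, 0 ≤ ∫ x in cube, W i x ^ 2 := fun i => integral_nonneg fun x => sq_nonneg _
  have t3 : -(∑ i, 2 * (∑ j, ∫ x in cube, W i x * (W j x * pd j (V' i) x)))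
      ≤ 6 * C * ∑ i, ∫ x in cube, W i x ^ 2 := by
    have h1 : ∀ i j, -(∫ x in cube, W i x * (W j x * pd j (V' i) x))
        ≤ C / 2 * ((∫ x in cube, W i x ^ 2) + ∫ x in cube, W j x ^ 2) := by
      intro i j
      have j1 : IntegrableOn (fun x => W i x ^ 2) cube := integrableOn_cube ((hW i).cont.pow 2)
      have j2 : IntegrableOn (fun x => W j x ^ 2) cube := integrableOn_cube ((hW j).cont.pow 2)
      rw [← integral_neg, ← integral_add j1 j2, ← integral_const_mul]
      refine setIntegral_mono_on ((hW i).mul ((hW j).mul ((hV i).pd j))).int.neg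
        ((iadd j1 j2).const_mul _) measurableSet_Icc fun x hx => ?_
      have h2 := hC i j x hx
      have h3 : |W i x * (W j x * pd j (V' i) x)| ≤ |W i x| * |W j x| * C := by
        rw [abs_mul, abs_mul, ← mul_assoc]
        exact mul_le_mul_of_nonneg_left h2 (by positivity)
      have h4 := neg_abs_le (W i x * (W j x * pd j (V' i) x))
      have h5 : |W i x| * |W j x| ≤ (W i x ^ 2 + W j x ^ 2) / 2 := by
        have := sq_nonneg (|W i x| - |W j x|)
        nlinarith [sq_abs (W i x), sq_abs (W j x)]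
      have h6 := mul_le_mul_of_nonneg_right h5 hC0
      linarith
    have h2 : ∀ i, -(2 * (∑ j, ∫ x in cube, W i x * (W j x * pd j (V' i) x)))
        ≤ ∑ j, C * ((∫ x in cube, W i x ^ 2) + ∫ x in cube, W j x ^ 2) := by
      intro i
      rw [Finset.mul_sum, ← Finset.sum_neg_distrib]
      refine Finset.sum_le_sum fun j _ => ?_
      have := h1 i j
      linarith
    rw [← Finset.sum_neg_distrib]
    refine (Finset.sum_le_sum fun i _ => h2 i).trans (le_of_eq ?_)
    simp only [Fin.sum_univ_three]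
    ring
  have t5 : ∑ i, 2 * (∫ x in cube, Z i x * W i x) = 2 * ∑ i, ∫ x in cube, Z i x * W i x :=
    (Finset.mul_sum _ _ _).symm
  rw [t2, t4, t5]
  linarith

/-- Uniqueness of smooth solutions for every perturbation of the class. -/
theorem sol_unique' (hν : 0 ≤ ν) (hπ : 0 ≤ π') (hδ : 0 ≤ δ) (hK : Low σ π' δ K)
    (hu : SolK ν T K u p) (hv : SolK ν T K v q) (h0 : ∀ x, u 0 x = v 0 x) :
    ∀ t ∈ Ico 0 T, ∀ x, u t x = v t x := by
  intro t ht
  -- bounds on `[0, t]`
  have hCex : ∀ i j, ∃ B, 0 ≤ B ∧ ∀ s ∈ Icc 0 t, ∀ x ∈ cube, |pd j (fun y => v s y i) x| ≤ B :=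
    fun i j => bdd_compact (F := fun s => pd j (fun y => v s y i))
      (contDiffOn_pd (f := fun s y => v s y i) (smooth_c hv i) j).continuousOn ht.2
  choose Cf hCf0 hCf using hCex
  set C := ∑ i, ∑ j, Cf i j with hC
  have hCle : ∀ i j, Cf i j ≤ C := fun i j =>
    (Finset.single_le_sum (f := fun j => Cf i j) (fun j _ => hCf0 i j) (Finset.mem_univ j)).trans
      (Finset.single_le_sum (f := fun i => ∑ j, Cf i j)
        (fun i _ => Finset.sum_nonneg fun j _ => hCf0 i j) (Finset.mem_univ i))
  obtain ⟨B, hB0, hB⟩ := Hn_time hv.smooth_u hv.per_u ht.2 σ π'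
  set B' := δ * 5 ^ (|σ|) * B with hB'
  have hB'0 : 0 ≤ B' := by positivity
  set M := 6 * C + 2 * B' with hM
  have hw : ∀ i, ContDiffOn ℝ ∞ (fun z : ℝ × V => u z.1 z.2 i - v z.1 z.2 i) (Ico 0 T ×ˢ univ) :=
    fun i => (smooth_c hu i).sub (smooth_c hv i)
  set E : ℝ → ℝ := fun s => ∑ i, ∫ x in cube, (u s x i - v s x i) ^ 2 with hE
  have hEc : ContinuousOn E (Icc 0 t) := by
    refine ContinuousOn.mono ?_ (fun s hs => ⟨hs.1, hs.2.trans_lt ht.2⟩ : Icc 0 t ⊆ Ico 0 T)
    exact continuousOn_finsetSum _ fun i _ =>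
      continuousOn_int (F := fun s x => (u s x i - v s x i) ^ 2) ((hw i).continuousOn.pow 2)
  set DD : ℝ → Fin 3 → V → ℝ := fun s i x =>
    (ν * lap (fun y => u s y i) x - conv (fun i y => u s y i) i x - pd i (p s) x
      + K (u s) (u s) x i)
    - (ν * lap (fun y => v s y i) x - conv (fun i y => v s y i) i x - pd i (q s) x
      + K (v s) (v s) x i) with hDD
  have hEd : ∀ s ∈ Ioo 0 t, HasDerivAt E
      (∑ i, ∫ x in cube, 2 * (u s x i - v s x i) * DD s i x) s := by
    intro s hs
    have hs' : s ∈ Ioo 0 T := ⟨hs.1, hs.2.trans ht.2⟩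
    refine HasDerivAt.fun_sum fun i _ => ?_
    have key := hasDerivAt_int (F := fun s x => (u s x i - v s x i) ^ 2)
      (((hw i).of_le (by norm_cast) |>.mono (prod_mono Ioo_subset_Ico_self subset_rfl)).pow 2) hs'
    refine key.congr_deriv ?_
    congr 1
    funext x
    have h1 := (sol_hasDerivAt hu hs' i x).sub (sol_hasDerivAt hv hs' i x)
    have h2 := h1.pow 2
    have h3 : HasDerivAt (fun s => (u s x i - v s x i) ^ 2) _ s := h2
    rw [h3.deriv]
    simp only [hDD]
    push_cast
    simp only [Pi.sub_apply]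
    ring
  have hEle : ∀ s ∈ Ioo 0 t, ∑ i, ∫ x in cube, 2 * (u s x i - v s x i) * DD s i x
      ≤ M * E s := by
    intro s hs
    have hsI : s ∈ Ico 0 T := ⟨hs.1.le, hs.2.trans ht.2⟩
    have hsc : s ∈ Icc 0 t := ⟨hs.1.le, hs.2.le⟩
    have hU : ∀ i, SP (fun y => u s y i) := fun i => sol_sp hu hsI i
    have hV : ∀ i, SP (fun y => v s y i) := fun i => sol_sp hv hsI i
    have hW : ∀ i, SP (fun y => u s y i - v s y i) := fun i => (hU i).sub (hV i)
    have hUs : SPV (u s) := sp_spv hU
    have hVs : SPV (v s) := sp_spv hV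
    have hWs : SPV (fun y => u s y - v s y) := sp_spv (u := fun y => u s y - v s y) hW
    have hdW : ∀ x, ∑ i, pd i (fun y => u s y i - v s y i) x = 0 := fun x => by
      have h1 : ∀ i, pd i (fun y => u s y i - v s y i) x
          = pd i (fun y => u s y i) x - pd i (fun y => v s y i) x := fun i => pd_sub' (hU i) (hV i) i x
      simp_rw [h1]
      rw [Finset.sum_sub_distrib, hu.divfree s hsI x, hv.divfree s hsI x, sub_zero]
    have hK1 := hK.smooth _ _ hUs hWs
    have hK2 := hK.smooth _ _ hWs hVs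
    -- the difference of the nonlinear terms
    have hsplit : ∀ x i, K (u s) (u s) x i - K (v s) (v s) x i
        = K (u s) (fun y => u s y - v s y) x i + K (fun y => u s y - v s y) (v s) x i := by
      intro x i
      have h1 := hK.add_right (u s) (v s) (fun y => u s y - v s y) hUs hVs hWs
      have h2 := hK.add_left (v s) (fun y => u s y - v s y) (v s) hVs hWs hVs
      have e : (fun x => v s x + (u s x - v s x)) = u s := funext fun x => by abel
      rw [e] at h1 h2
      have h3 := congrFun (congrFun h1 x) i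
      have h4 := congrFun (congrFun h2 x) i
      simp only [Pi.add_apply] at h3 h4
      rw [h3, h4]
      ring
    refine diff_est' hν (U := fun i y => u s y i) (W := fun i y => u s y i - v s y i)
      (V' := fun i y => v s y i) (R := fun y => p s y - q s y)
      (Z := fun i y => K (u s) (fun y => u s y - v s y) y i + K (fun y => u s y - v s y) (v s) y i)
      hU hW ((sol_sp_p hu hsI).sub (sol_sp_p hv hsI)) (hu.divfree s hsI) hdW hV
      (fun i j x hx => (hCf i j s hsc x hx).trans (hCle i j))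
      (fun i => (spv_sp hK1 i).add (spv_sp hK2 i)) ?_ (DD s) ?_
    · have e1 : ∀ i, ∫ x in cube, (K (u s) (fun y => u s y - v s y) x i
          + K (fun y => u s y - v s y) (v s) x i) * (u s x i - v s x i)
          = (∫ x in cube, K (u s) (fun y => u s y - v s y) x i * (u s x i - v s x i))
          + ∫ x in cube, K (fun y => u s y - v s y) (v s) x i * (u s x i - v s x i) := by
        intro i
        simp_rw [add_mul]
        exact integral_add ((spv_sp hK1 i).mul (hW i)).int ((spv_sp hK2 i).mul (hW i)).int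
      simp_rw [e1]
      rw [Finset.sum_add_distrib]
      have h1 := hK.energy _ _ hUs hWs
      have h2 := hK.bound _ _ _ hWs hVs hWs 0 σ 0 0 π' 0 (by ring) le_rfl hπ le_rfl (by ring)
      simp only [Pi.sub_apply] at h1 h2
      rw [h1, zero_add]
      refine (le_abs_self _).trans (h2.trans ?_)
      have h3 := Hn_zero_le hWs
      have h4 := hB s hsc
      have h5 : Hn 0 0 (fun y => u s y - v s y) * Hn σ π' (v s) * Hn 0 0 (fun y => u s y - v s y)
          ≤ B * ∑ i, ∫ x in cube, (u s x i - v s x i) ^ 2 := by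
        calc _ = Hn σ π' (v s) * Hn 0 0 (fun y => u s y - v s y) ^ 2 := by ring
          _ ≤ B * Hn 0 0 (fun y => u s y - v s y) ^ 2 :=
              mul_le_mul_of_nonneg_right h4 (sq_nonneg _)
          _ ≤ _ := mul_le_mul_of_nonneg_left h3 hB0
      rw [abs_zero, zero_add, add_zero]
      calc _ ≤ δ * 5 ^ |σ| * (B * ∑ i, ∫ x in cube, (u s x i - v s x i) ^ 2) :=
            mul_le_mul_of_nonneg_left h5 (by positivity)
        _ = _ := by rw [hB']; ring
    · intro i x
      simp only [hDD, conv]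
      rw [lap_sub' (hU i) (hV i), pd_sub' (sol_sp_p hu hsI) (sol_sp_p hv hsI)]
      have h1 : ∀ j, pd j (fun y => u s y i - v s y i) x
          = pd j (fun y => u s y i) x - pd j (fun y => v s y i) x := fun j => pd_sub' (hU i) (hV i) j x
      simp_rw [h1]
      have h2 : (∑ j, u s x j * (pd j (fun y => u s y i) x - pd j (fun y => v s y i) x))
          + ∑ j, (u s x j - v s x j) * pd j (fun y => v s y i) x
          = (∑ j, u s x j * pd j (fun y => u s y i) x) - ∑ j, v s x j * pd j (fun y => v s y i) x := by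
        rw [← Finset.sum_add_distrib, ← Finset.sum_sub_distrib]
        exact Finset.sum_congr rfl fun j _ => by ring
      have h3 := hsplit x i
      linarith
  have hcmp := cmp (f := fun s => E s * Real.exp (-(M * s)))
    (f' := fun s => (∑ i, ∫ x in cube, 2 * (u s x i - v s x i) * DD s i x) * Real.exp (-(M * s))
      + E s * (Real.exp (-(M * s)) * -M)) (g := fun _ => 0) (g' := fun _ => 0) ht.1
    (hEc.mul (by fun_prop)) continuousOn_const
    (fun s hs => by
      have h1 := ((hasDerivAt_id s).const_mul M).neg.exp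
      have h2 : HasDerivAt (fun s => Real.exp (-(M * s))) (Real.exp (-(M * s)) * -M) s := by
        refine h1.congr_deriv ?_
        simp
      exact (hEd s hs).mul h2)
    (fun s _ => hasDerivAt_const _ _)
    (fun s hs => by
      have h1 := hEle s hs
      have h2 := mul_le_mul_of_nonneg_right h1 (Real.exp_pos (-(M * s))).le
      nlinarith)
  have hE0 : E 0 = 0 := by
    simp only [hE]
    refine Finset.sum_eq_zero fun i _ => ?_
    simp [h0]
  simp only [hE0, zero_mul, sub_zero, sub_self] at hcmp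
  have hEt : E t ≤ 0 := by
    by_contra hneg
    push Not at hneg
    have := mul_pos hneg (Real.exp_pos (-(M * t)))
    linarith
  have hnn : ∀ i, 0 ≤ ∫ x in cube, (u t x i - v t x i) ^ 2 := fun i =>
    integral_nonneg fun x => sq_nonneg _
  have hz : ∀ i, ∫ x in cube, (u t x i - v t x i) ^ 2 = 0 := fun i => by
    have h1 := Finset.single_le_sum (f := fun i => ∫ x in cube, (u t x i - v t x i) ^ 2)
      (fun i _ => hnn i) (Finset.mem_univ i)
    exact le_antisymm (h1.trans hEt) (hnn i)
  intro x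
  funext i
  have := eq_zero_of_int_sq ((sol_sp hu ht i).sub (sol_sp hv ht i)) (hz i) x
  linarith

end Pool.Agent.N977.Q
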