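import Pool.Agent.N977.Q.Wp

/-!
Maximal solutions of the cascade system: existence, and blow-up before the time `T`.
-/

open Set Filter Topology

namespace Pool.Agent.N977.Q

open Pool.Agent.Y5.E

variable {T : ℝ} {d D α μ r : ℕ → ℝ} {x y : ℕ → ℝ → ℝ}

theorem zs_of (W : Wt d D α μ r) {z : ℕ ⊕ ℕ → ℝ → ℝ} (h0 : ∀ i, z i 0 = kz i)
    (hz : ASol2 (kd d D) (kr r) (ker kA kB (kv α μ)) T z) (hR : Rapid (kr r) T z) :
    Zs T d D α μ r (fun n => z (Sum.inl n)) (fun n => z (Sum.inr n)) := by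
  refine ⟨fun n t ht => ?_, fun n t ht => ?_, ?_, ?_, fun n => ?_, fun n => ?_, fun k T' hT' => ?_⟩
  · have h := hz.deriv (Sum.inl n) t ht
    rw [bl_inl] at h
    refine h.congr_deriv ?_
    simp only [kd]
    ring
  · have h := hz.deriv (Sum.inr n) t ht
    rw [bl_inr] at h
    refine h.congr_deriv ?_
    simp only [kd]
    ring
  · rw [h0]; rfl
  · rw [h0]; rfl
  · rw [h0]; rfl
  · rw [h0]; rfl
  · obtain ⟨M, hM⟩ := hR k T' hT'
    refine ⟨√M, fun t ht n => ?_⟩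
    obtain ⟨h1, h2⟩ := hM t ht
    have key : ∀ i, kr r i ^ k * |z i t| ≤ √M := by
      intro i
      have hr : 0 ≤ kr r i := by
        rcases i with n | n <;> exact le_trans zero_le_one (W.r1 n)
      have h3 := (le_nk h1 i).trans h2
      have h4 : kr r i ^ k * |z i t| = |kr r i ^ k * z i t| := by
        rw [abs_mul, abs_of_nonneg (by positivity : 0 ≤ kr r i ^ k)]
      rw [h4]
      exact Real.abs_le_sqrt h3
    exact ⟨key (Sum.inl n), key (Sum.inr n)⟩

theorem unb_of (W : Wt d D α μ r) {z : ℕ ⊕ ℕ → ℝ → ℝ}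
    (hn : ¬ ∃ M, ∀ t ∈ Ico 0 T, nk (kr r) 1 (fun a => z a t) ≤ M) (C : ℝ) :
    ∃ t ∈ Ico 0 T, ∃ n, C < r n ^ 2 * (|z (Sum.inl n) t| + |z (Sum.inr n) t|) := by
  by_contra hcon
  push Not at hcon
  apply hn
  refine ⟨∑' i : ℕ ⊕ ℕ, C ^ 2 * Sum.elim (fun n => (1 / 2 : ℝ) ^ n) (fun n => (1 / 2) ^ n) i,
    fun t ht => ?_⟩
  have hs : Summable fun i : ℕ ⊕ ℕ => C ^ 2 *
      Sum.elim (fun n => (1 / 2 : ℝ) ^ n) (fun n => (1 / 2) ^ n) i := by
    apply Summable.mul_left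
    apply Summable.sum
    · exact summable_geometric_two
    · exact summable_geometric_two
  have hC : ∀ n, r n ^ 2 * (|z (Sum.inl n) t| + |z (Sum.inr n) t|) ≤ C := fun n => hcon t ht n
  have key : ∀ n (w : ℝ), |w| ≤ |z (Sum.inl n) t| + |z (Sum.inr n) t| →
      (r n ^ 1 * w) ^ 2 ≤ C ^ 2 * (1 / 2) ^ n := by
    intro n w hw
    have h1 := W.r1 n
    have h2 := W.rg n
    have h3 : r n ^ 2 * |w| ≤ C :=
      (mul_le_mul_of_nonneg_left hw (by positivity)).trans (hC n)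
    have h4 : r n * |w| ≤ C / r n := by
      rw [le_div_iff₀ (by linarith)]
      nlinarith
    have h5 : (r n * |w|) ^ 2 ≤ (C / r n) ^ 2 :=
      pow_le_pow_left₀ (mul_nonneg (by linarith) (abs_nonneg _)) h4 2
    have h6 : (r n ^ 1 * w) ^ 2 = (r n * |w|) ^ 2 := by
      rw [pow_one, mul_pow, mul_pow, sq_abs]
    rw [h6]
    refine h5.trans ?_
    rw [div_pow, div_eq_mul_inv]
    apply mul_le_mul_of_nonneg_left _ (sq_nonneg C)
    rw [one_div, inv_pow]
    apply inv_anti₀ (by positivity)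
    calc (2 : ℝ) ^ n ≤ r n := h2
      _ ≤ r n ^ 2 := by nlinarith
  have hb : ∀ i : ℕ ⊕ ℕ, (kr r i ^ 1 * z i t) ^ 2 ≤ C ^ 2 *
      Sum.elim (fun n => (1 / 2 : ℝ) ^ n) (fun n => (1 / 2) ^ n) i := by
    rintro (n | n)
    · exact key n _ (le_add_of_nonneg_right (abs_nonneg _))
    · exact key n _ (le_add_of_nonneg_left (abs_nonneg _))
  exact Summable.tsum_le_tsum hb (Summable.of_nonneg_of_le (fun i => sq_nonneg _) hb hs) hs

/-- the projection to `[0, T]` -/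
noncomputable def cl (T t : ℝ) : ℝ := max 0 (min t T)

theorem cl_cont (T : ℝ) : Continuous (cl T) := by unfold cl; fun_prop

theorem cl_mem {T : ℝ} (hT : 0 ≤ T) (t : ℝ) : cl T t ∈ Icc 0 T := by
  unfold cl
  exact ⟨le_max_left _ _, max_le hT (min_le_right _ _)⟩

theorem cl_eq {T t : ℝ} (ht : t ∈ Icc 0 T) : cl T t = t := by
  unfold cl
  rw [min_eq_left ht.2, max_eq_right ht.1]

/-- a solution on a longer time interval gives a solution of the cascade in the sense of `Cas` -/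
theorem Zs.cas (W : Wt d D α μ r) {T₁ : ℝ} (h : Zs T₁ d D α μ r x y) (hT : 0 < T) (hT₁ : T < T₁) :
    Cas T d D α μ (fun n t => x n (cl T t)) (fun n t => y n (cl T t)) := by
  have hsub : Icc 0 T ⊆ Ico 0 T₁ := fun t ht => ⟨ht.1, ht.2.trans_lt hT₁⟩
  have hcont : ∀ f : ℝ → ℝ, ContinuousOn f (Ico 0 T₁) → Continuous fun t => f (cl T t) :=
    fun f hf => (hf.mono hsub).comp_continuous (cl_cont T) (cl_mem hT.le)
  have hder : ∀ (f : ℝ → ℝ) (f' t : ℝ), t ∈ Ioo 0 T → HasDerivWithinAt f f' (Ico 0 T₁) t →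
      HasDerivAt (fun s => f (cl T s)) f' t := by
    intro f f' t ht hf
    have h1 : HasDerivAt f f' t := hf.hasDerivAt (Ico_mem_nhds ht.1 (ht.2.trans hT₁))
    refine h1.congr_of_eventuallyEq ?_
    filter_upwards [Ioo_mem_nhds ht.1 ht.2] with s hs
    rw [cl_eq (Ioo_subset_Icc_self hs)]
  have h0 : cl T 0 = 0 := cl_eq ⟨le_rfl, hT.le⟩
  have hgf : ∀ (c : ℕ → ℝ) (n : ℕ) (t : ℝ), gf c (fun n t => y n (cl T t)) n t
      = gf c y n (cl T t) := by
    intro c n t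
    cases n with
    | zero => rfl
    | succ n => rfl
  refine ⟨fun n => hcont _ fun t ht => (h.xd n t ht).continuousWithinAt,
    fun n => hcont _ fun t ht => (h.yd n t ht).continuousWithinAt, fun n t ht => ?_,
    fun n t ht => ?_, ?_, ?_, fun n => ?_, fun n => ?_, fun ε hε => ?_⟩
  · have h1 := hder _ _ t ht (h.xd n t (hsub (Ioo_subset_Icc_self ht)))
    refine h1.congr_deriv ?_
    rw [hgf]
    simp only [cl_eq (Ioo_subset_Icc_self ht)]
  · have h1 := hder _ _ t ht (h.yd n t (hsub (Ioo_subset_Icc_self ht)))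
    refine h1.congr_deriv ?_
    rw [hgf]
    simp only [cl_eq (Ioo_subset_Icc_self ht)]
  · simp only [h0]; exact h.x0
  · simp only [h0]; exact h.y0
  · simp only [h0]; exact h.xs n
  · simp only [h0]; exact h.ys n
  · obtain ⟨C, hC⟩ := h.rap 1 T hT₁
    have hC0 : 0 ≤ C := by
      have := (hC 0 ⟨le_rfl, hT.le⟩ 0).1
      have h2 := W.r1 0
      exact le_trans (by positivity) this
    obtain ⟨J, hJ⟩ : ∃ J : ℕ, (C + 2 * C ^ 3) / ε ≤ 2 ^ J := by
      obtain ⟨J, hJ⟩ := pow_unbounded_of_one_lt ((C + 2 * C ^ 3) / ε) (one_lt_two (α := ℝ))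
      exact ⟨J, hJ.le⟩
    refine ⟨J, fun n hn t ht => ?_⟩
    simp only [cl_eq ht]
    have hr1 := W.r1 n
    have hr2 := W.r1 (n + 1)
    have hrn : (C + 2 * C ^ 3) / ε ≤ r n :=
      (hJ.trans (pow_le_pow_right₀ (by norm_num) hn)).trans (W.rg n)
    rw [div_le_iff₀ hε] at hrn
    have b1 : |x n t| ≤ C / r n := by
      rw [le_div_iff₀ (by linarith), mul_comm]; simpa using (hC t ht n).1
    have b2 : |y n t| ≤ C / r n := by
      rw [le_div_iff₀ (by linarith), mul_comm]; simpa using (hC t ht n).2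
    have b3 : |x (n + 1) t| ≤ C / r n := by
      have h1 : |x (n + 1) t| ≤ C / r (n + 1) := by
        rw [le_div_iff₀ (by linarith), mul_comm]; simpa using (hC t ht (n + 1)).1
      exact h1.trans (div_le_div_of_nonneg_left hC0 (by linarith) (W.rm n))
    have b4 : |y (n + 1) t| ≤ C / r n := by
      have h1 : |y (n + 1) t| ≤ C / r (n + 1) := by
        rw [le_div_iff₀ (by linarith), mul_comm]; simpa using (hC t ht (n + 1)).2
      exact h1.trans (div_le_div_of_nonneg_left hC0 (by linarith) (W.rm n))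
    have hC3 : 0 ≤ C ^ 3 := by positivity
    have b0 : C / r n ≤ ε := by
      rw [div_le_iff₀ (by linarith)]
      linarith
    refine ⟨b1.trans b0, ?_⟩
    have b5 : y n t ^ 2 ≤ (C / r n) ^ 2 := by
      rw [← sq_abs]; exact pow_le_pow_left₀ (abs_nonneg _) b2 2
    have b6 : ∀ (a w : ℝ), |a| ≤ r n → |w| ≤ C / r n → a * y n t ^ 2 * |w| ≤ C ^ 3 / r n ^ 2 := by
      intro a w ha hw
      have c1 : a * y n t ^ 2 ≤ r n * (C / r n) ^ 2 :=
        mul_le_mul ((le_abs_self a).trans ha) b5 (sq_nonneg _) (by linarith)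
      have c2 : a * y n t ^ 2 * |w| ≤ (r n * (C / r n) ^ 2) * (C / r n) :=
        mul_le_mul c1 hw (abs_nonneg _) (by positivity)
      refine c2.trans (le_of_eq ?_)
      have : r n ≠ 0 := by linarith
      field_simp
    have b7 := b6 (α n) (x (n + 1) t) (W.α n) b3
    have b8 := b6 (μ n) (y (n + 1) t) (W.μ n) b4
    have b9 : C ^ 3 / r n ^ 2 + C ^ 3 / r n ^ 2 ≤ ε := by
      rw [← add_div, div_le_iff₀ (by positivity)]
      have e1 : ε * r n ≤ ε * r n ^ 2 := mul_le_mul_of_nonneg_left (by nlinarith) hε.le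
      linarith
    linarith

/-- Existence of a maximal solution, and blow-up before the time `T`. -/
theorem exists_max {κ τ q ℓ s ϖ : ℕ → ℝ} (W : Wt d D α μ r) (P : Par T d D α μ κ τ q ℓ s ϖ)
    (hT : 0 < T) : ∃ T₁ : ℝ, 0 < T₁ ∧ T₁ ≤ T ∧ ∃ x y : ℕ → ℝ → ℝ, Zs T₁ d D α μ r x y ∧
      ∀ C : ℝ, ∃ t ∈ Ico 0 T₁, ∃ n, C < r n ^ 2 * (|x n t| + |y n t|) := by
  have hA := W.adm
  obtain ⟨-, hex⟩ := Pool.Agent.Y37.NE.t_ABS2 (ℕ ⊕ ℕ) (kd d D) (kr r) (ker kA kB (kv α μ)) hA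
  obtain ⟨z, h0, hz⟩ := hex kz (fun k => by
    refine summable_of_ne_finset_zero (s := {Sum.inl 0, Sum.inr 0}) fun i hi => ?_
    rcases i with (_ | n) | (_ | n)
    · simp at hi
    · simp [kz]
    · simp at hi
    · simp [kz])
  have hnot : ∀ T₁, T < T₁ → ASol2 (kd d D) (kr r) (ker kA kB (kv α μ)) T₁ z →
      Rapid (kr r) T₁ z → False := fun T₁ hT₁ ha hr =>
    ((zs_of W h0 ha hr).cas W hT hT₁).false P
  rcases hz with hz | ⟨T₁, hT₁, ha, hr, hn⟩
  · exact absurd (hnot (T + 1) (by linarith) (hz _).1 (hz _).2) id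
  · refine ⟨T₁, hT₁, ?_, _, _, zs_of W h0 ha hr, unb_of W hn⟩
    by_contra hlt
    exact hnot T₁ (not_le.1 hlt) ha hr

end Pool.Agent.N977.Q
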