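import Pool.Agent.N977.Q.Hop3
import Pool.Agent.N977.Q.Lift3
import Pool.Agent.N977.Q.Wp2
import Pool.Agent.N977.Q.Par
import Pool.Agent.N977.Q.UniqL

/-!
The constants of the construction.
-/

open MeasureTheory Set Filter Topology
open scoped ContDiff

namespace Pool.Agent.N977.Q

open H459R3.NS
open Pool.Agent.N977.K (SolK)

section triads

theorem len_le_of {k l : K3} {m : ℕ} (h : ∑ j, k j ^ 2 ≤ (m : ℤ) ^ 2 * ∑ j, l j ^ 2) :
    len k ≤ m * len l := by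
  unfold len
  rw [Real.sqrt_le_left (by positivity), mul_pow, Real.sq_sqrt (Finset.sum_nonneg fun i _ => sq_nonneg _)]
  exact_mod_cast h

theorem len_le_of' {k : K3} {m : ℕ} (h : ∑ j, k j ^ 2 ≤ (m : ℤ) ^ 2) : len k ≤ m := by
  unfold len
  rw [Real.sqrt_le_left (by positivity)]
  exact_mod_cast h

theorem td_i (i : Fin 12) : Td (PP i) (QQ i) where
  p0 := PP_ne i
  q0 := QQ_ne i
  r0 := RR_ne i
  p2 := PP_two i
  q2 := QQ_two i
  lq := by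
    have h : ∑ j, QQ i j ^ 2 ≤ ((2 : ℕ) : ℤ) ^ 2 * ∑ j, PP i j ^ 2 := by
      revert i; unfold PP QQ; decide
    exact_mod_cast len_le_of h
  lr := by
    have h : ∑ j, thd (PP i) (QQ i) j ^ 2 ≤ ((2 : ℕ) : ℤ) ^ 2 * ∑ j, PP i j ^ 2 := by
      revert i; unfold PP QQ thd; decide
    exact_mod_cast len_le_of h

theorem len5 (i : Fin 12) : len (PP i) ≤ 5 ∧ len (QQ i) ≤ 5 ∧ len (thd (PP i) (QQ i)) ≤ 5 := by
  refine ⟨?_, ?_, ?_⟩
  · have h : ∑ j, PP i j ^ 2 ≤ ((5 : ℕ) : ℤ) ^ 2 := by revert i; unfold PP; decide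
    exact_mod_cast len_le_of' h
  · have h : ∑ j, QQ i j ^ 2 ≤ ((5 : ℕ) : ℤ) ^ 2 := by revert i; unfold QQ; decide
    exact_mod_cast len_le_of' h
  · have h : ∑ j, thd (PP i) (QQ i) j ^ 2 ≤ ((5 : ℕ) : ℤ) ^ 2 := by
      revert i; unfold PP QQ thd; decide
    exact_mod_cast len_le_of' h

end triads

variable {θ p c : ℝ} {b N : ℕ}

theorem cc_le {α μ : ℕ → ℝ} {n : ℕ} (hα : 0 ≤ α n) (hμ : 0 ≤ μ n) (hμα : μ n ≤ α n)
    (i : Fin 12) : |cc α μ n i| ≤ 6 * α n := by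
  have h2 : √2 ≤ 3 / 2 := by
    rw [Real.sqrt_le_left (by norm_num)]; norm_num
  have h0 : 0 ≤ √2 := Real.sqrt_nonneg 2
  have h3 : 4 * √2 * μ n ≤ 6 * α n := by nlinarith
  have h4 : 0 ≤ 4 * √2 * μ n := by positivity
  have e1 : |4 * α n| ≤ 6 * α n := by rw [abs_of_nonneg (by positivity)]; linarith
  have e2 : |-(4 * α n)| ≤ 6 * α n := by rw [abs_neg]; exact e1
  have e3 : |4 * √2 * μ n| ≤ 6 * α n := by rw [abs_of_nonneg h4]; exact h3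
  fin_cases i <;> first | exact e1 | exact e2 | exact e3

theorem log_sq_le {M : ℝ} (hM : 1 ≤ M) : Real.log M ^ 2 ≤ 4 * M := by
  have h1 : Real.log M ≤ 2 * √M := by
    have e : Real.log M = 2 * Real.log √M := by
      rw [Real.log_sqrt (by linarith)]; ring
    rw [e]
    have := Real.log_le_sub_one_of_pos (show 0 < √M by positivity)
    linarith
  have h0 := Real.log_nonneg hM
  calc Real.log M ^ 2 ≤ (2 * √M) ^ 2 := pow_le_pow_left₀ h0 h1 2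
    _ = 4 * M := by rw [mul_pow, Real.sq_sqrt (by linarith)]; norm_num

theorem al_le3 (hθ1 : θ ≤ 1) (hp2 : p ≤ 2) (hb : b ≤ 2) (hN : 3 ≤ N) (n : ℕ) :
    al θ b p N n ≤ 4 * (Mn N n : ℝ) ^ 3 := by
  have h1 := al_le (b := b) hθ1 hp2 hN n
  have hM := one_le_Mn (show 0 < N by omega) n
  have h2 := log_sq_le hM
  have h3 : (Mn N n : ℝ) ^ b ≤ (Mn N n : ℝ) ^ 2 := pow_le_pow_right₀ hM hb
  calc al θ b p N n ≤ (Mn N n : ℝ) ^ b * Real.log (Mn N n) ^ 2 := h1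
    _ ≤ (Mn N n : ℝ) ^ 2 * (4 * Mn N n) := mul_le_mul h3 h2 (by positivity) (by positivity)
    _ = _ := by ring

theorem al_le4 (hθ1 : θ ≤ 1) (hp2 : p ≤ 2) (hb : b ≤ 2) (hN : 3 ≤ N) (n : ℕ) :
    al θ b p N n ≤ (Mn N n : ℝ) ^ 4 := by
  have h1 := al_le (b := b) hθ1 hp2 hN n
  have hM := one_le_Mn (show 0 < N by omega) n
  have h2 : Real.log (Mn N n) ^ 2 ≤ (Mn N n : ℝ) ^ 2 :=
    pow_le_pow_left₀ (Real.log_nonneg hM) (by
      have := Real.log_le_sub_one_of_pos (show (0 : ℝ) < Mn N n by linarith)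
      linarith) 2
  have h3 : (Mn N n : ℝ) ^ b ≤ (Mn N n : ℝ) ^ 2 := pow_le_pow_right₀ hM hb
  calc al θ b p N n ≤ (Mn N n : ℝ) ^ b * Real.log (Mn N n) ^ 2 := h1
    _ ≤ (Mn N n : ℝ) ^ 2 * (Mn N n : ℝ) ^ 2 := mul_le_mul h3 h2 (by positivity) (by positivity)
    _ = _ := by ring

theorem cc_al (hθ : 0 < θ) (hN : 3 ≤ N) (n : ℕ) (i : Fin 12) :
    |cc (al θ b p N) (mu θ b p N) n i| ≤ 6 * al θ b p N n :=
  cc_le (al_pos hθ hN n).le (mu_pos hθ hN n).le (mu_le_al hθ hN n) i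

theorem cc_le3 (hθ : 0 < θ) (hθ1 : θ ≤ 1) (hp2 : p ≤ 2) (hb : b ≤ 2) (hN : 3 ≤ N) (n : ℕ)
    (i : Fin 12) : |cc (al θ b p N) (mu θ b p N) n i| ≤ 24 * (Mn N n : ℝ) ^ 3 := by
  have h1 := cc_al (b := b) (p := p) hθ hN n i
  have h2 := al_le3 hθ1 hp2 hb hN n
  linarith

theorem gq (hθ : 0 < θ) (hθ1 : θ ≤ 1) (hp2 : p ≤ 2) (hb : b ≤ 2) (hN : 3 ≤ N) :
    Gq PP QQ (cc (al θ b p N) (mu θ b p N)) N 24 where
  N3 := hN
  G0 := by norm_num
  c := cc_le3 hθ hθ1 hp2 hb hN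
  td := td_i

theorem gr (hθ : 0 < θ) (hθ1 : θ ≤ 1) (hp2 : p ≤ 2) (hb : b ≤ 2) (hN : 3 ≤ N) :
    Gr PP QQ (cc (al θ b p N) (mu θ b p N)) N 24 where
  N0 := by omega
  G0 := by norm_num
  c := cc_le3 hθ hθ1 hp2 hb hN
  P0 := PP_ne
  Q0 := QQ_ne
  R0 := RR_ne
  P2 := PP_two
  Q2 := QQ_two

/-- the class of the perturbation -/
theorem low (hθ : 0 < θ) (hθ1 : θ ≤ 1) {p' : ℝ} (hp' : p ≤ p') (hp2 : p ≤ 2)
    (hb : b ≤ 2) (hN : 3 ≤ N) {δ : ℝ} (hδ : 720 * θ ≤ δ) :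
    Low b p' δ (KH PP QQ (cc (al θ b p N) (mu θ b p N)) N) := by
  refine KH_low (gq hθ hθ1 hp2 hb hN) len5 (g := 6 * θ) (by positivity) (fun n i => ?_) ?_
  · refine (cc_al hθ hN n i).trans ?_
    have h1 := one_le_L hN n
    unfold al
    rw [Real.rpow_natCast]
    have h2 : Real.log (Mn N n) ^ p ≤ Real.log (Mn N n) ^ p' :=
      Real.rpow_le_rpow_of_exponent_le h1 hp'
    have h3 : (0 : ℝ) ≤ (Mn N n : ℝ) ^ b := by positivity
    have h4 := mul_le_mul_of_nonneg_left h2 (mul_nonneg hθ.le h3)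
    linarith
  · simp only [Fintype.card_fin]
    push_cast
    linarith

/-- the conditions on the weights -/
theorem wtc (hc : 0 ≤ c) (hθ : 0 < θ) (hθ1 : θ ≤ 1) (hp2 : p ≤ 2) (hb : b ≤ 2) (hN : 3 ≤ N) :
    Wt (fun n => 4 * (c * (Mn N n : ℝ) ^ 2)) (fun n => 5 * (c * (Mn N n : ℝ) ^ 2))
      (al θ b p N) (mu θ b p N) (fun n => (Mn N n : ℝ) ^ 4) where
  d0 := fun n => by positivity
  D0 := fun n => by positivity
  r1 := fun n => one_le_pow₀ (one_le_Mn (by omega) n)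
  rg := fun n => (two_pow_le_Mn (by omega) n).trans
    (le_self_pow₀ (one_le_Mn (by omega) n) (by norm_num))
  rm := fun n => by
    apply pow_le_pow_left₀ (by positivity)
    rw [Mn_succ]
    push_cast
    linarith [Nat.cast_nonneg (α := ℝ) (Mn N n)]
  rs := ⟨16, by norm_num, fun n => by
    rw [Mn_succ]
    push_cast
    rw [mul_pow]
    norm_num⟩
  α := fun n => by
    rw [abs_of_pos (al_pos hθ hN n)]
    exact al_le4 hθ1 hp2 hb hN n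
  μ := fun n => by
    rw [abs_of_pos (mu_pos hθ hN n)]
    exact (mu_le_al hθ hN n).trans (al_le4 hθ1 hp2 hb hN n)

/-- the solution of the cascade is a solution of the partial differential equation -/
theorem sol_of {ν T : ℝ} {x y : ℕ → ℝ → ℝ} (hν : 0 ≤ ν) (hc : c = (2 * Real.pi) ^ 2 * ν)
    (hθ : 0 < θ) (hθ1 : θ ≤ 1)
    (hp2 : p ≤ 2) (hb : b ≤ 2) (hN : 3 ≤ N)
    (h : Zs T (fun n => 4 * (c * (Mn N n : ℝ) ^ 2)) (fun n => 5 * (c * (Mn N n : ℝ) ^ 2))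
      (al θ b p N) (mu θ b p N) (fun n => (Mn N n : ℝ) ^ 4) x y) :
    (∀ m, Dk T (fun n => (Mn N n : ℝ)) m x ∧ Dk T (fun n => (Mn N n : ℝ)) m y) ∧
    SolK ν T (KH PP QQ (cc (al θ b p N) (mu θ b p N)) N) (uu N x y) (fun _ _ => 0) := by
  have hN0 : 0 < N := by omega
  have hc0 : 0 ≤ c := by rw [hc]; positivity
  have hM : Me (fun n => (Mn N n : ℝ)) := Mn_me hN0
  have hdM : ∀ n, ∀ {z : ℝ}, 0 ≤ z → z ≤ 5 * (c * (Mn N n : ℝ) ^ 2) →
      |z| ≤ (5 * c + 1) * (Mn N n : ℝ) ^ 4 := by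
    intro n z hz hz2
    rw [abs_of_nonneg hz]
    have h1 := one_le_Mn hN0 n
    have h2 : (Mn N n : ℝ) ^ 2 ≤ (Mn N n : ℝ) ^ 4 := pow_le_pow_right₀ h1 (by norm_num)
    have h3 := mul_le_mul_of_nonneg_left h2 hc0
    have h4 : (0 : ℝ) ≤ (Mn N n : ℝ) ^ 4 := by positivity
    nlinarith
  have haM : ∀ n, ∀ {z : ℝ}, 0 ≤ z → z ≤ (Mn N n : ℝ) ^ 4 →
      |z| ≤ (5 * c + 1) * (Mn N n : ℝ) ^ 4 := by
    intro n z hz hz2
    rw [abs_of_nonneg hz]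
    have h4 : (0 : ℝ) ≤ (Mn N n : ℝ) ^ 4 := by positivity
    nlinarith [mul_nonneg hc0 h4]
  have hα : ∀ n, |al θ b p N n| ≤ (5 * c + 1) * (Mn N n : ℝ) ^ 4 := fun n =>
    haM n (al_pos hθ hN n).le (al_le4 hθ1 hp2 hb hN n)
  have hμ : ∀ n, |mu θ b p N n| ≤ (5 * c + 1) * (Mn N n : ℝ) ^ 4 := fun n =>
    haM n (mu_pos hθ hN n).le ((mu_le_al hθ hN n).trans (al_le4 hθ1 hp2 hb hN n))
  have hdk := h.dk hM.toMw (fun n => le_self_pow₀ (one_le_Mn hN0 n) (by norm_num))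
    (fun n => hdM n (by positivity) (by nlinarith [mul_nonneg hc0 (sq_nonneg (Mn N n : ℝ))]))
    (fun n => hdM n (by positivity) le_rfl) hα hμ
  have hgr := gr (b := b) hθ hθ1 hp2 hb hN
  have hs := uu_sol hN0 hc h hα hμ hgr (fun m => (hdk m).1) (fun m => (hdk m).2)
  refine ⟨hdk, hs.smooth_u, hs.smooth_p, hs.per_u, hs.per_p, hs.divfree, ?_⟩
  intro t ht z i
  have hsp : SPV (uu N x y t) := sp_spv fun i => sol_sp hs (Ioo_subset_Ico_self ht) i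
  have hpar : Par3 (uu N x y t) := fun z i hi => congrFun (uu_ne x y t hi) z
  rw [KH_par hgr hsp hpar]
  exact hs.momentum t ht z i

end Pool.Agent.N977.Q
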