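import Pool.Agent.N977.Q.Wp

/-!
Sequences of functions of the time which decay rapidly, together with their derivatives.
-/

open Set Filter Topology

namespace Pool.Agent.N977.Q

/-- rapid decay, locally uniformly in time, with respect to the weights `M` -/
def RT (T : ℝ) (M : ℕ → ℝ) (g : ℕ → ℝ → ℝ) : Prop :=
  ∀ s : ℕ, ∀ T' < T, ∃ C, ∀ t ∈ Icc 0 T', ∀ n, M n ^ s * |g n t| ≤ C

/-- rapid decay of the derivatives of order at most `m` -/
def Dk (T : ℝ) (M : ℕ → ℝ) : ℕ → (ℕ → ℝ → ℝ) → Prop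
  | 0, g => RT T M g ∧ ∀ n, ContinuousOn (g n) (Ico 0 T)
  | m + 1, g => RT T M g ∧ ∃ g' : ℕ → ℝ → ℝ,
      (∀ n, ∀ t ∈ Ico 0 T, HasDerivWithinAt (g n) (g' n t) (Ico 0 T) t) ∧ Dk T M m g'

/-- conditions on the weights -/
structure Mw (M : ℕ → ℝ) : Prop where
  one : ∀ n, 1 ≤ M n
  mono : ∀ n, M n ≤ M (n + 1)
  succ : ∀ n, M (n + 1) ≤ 2 * M n

variable {T : ℝ} {M : ℕ → ℝ} {g h : ℕ → ℝ → ℝ}

theorem Dk.rt {m : ℕ} (hg : Dk T M m g) : RT T M g := by
  cases m with
  | zero => exact hg.1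
  | succ m => exact hg.1

theorem Dk.cont {m : ℕ} (hg : Dk T M m g) (n : ℕ) : ContinuousOn (g n) (Ico 0 T) := by
  cases m with
  | zero => exact hg.2 n
  | succ m =>
    obtain ⟨-, g', h1, -⟩ := hg
    exact fun t ht => (h1 n t ht).continuousWithinAt

theorem Dk.pred {m : ℕ} (hg : Dk T M (m + 1) g) : Dk T M m g := by
  induction m generalizing g with
  | zero => exact ⟨hg.rt, hg.cont⟩
  | succ m ih =>
    obtain ⟨h0, g', h1, h2⟩ := hg
    exact ⟨h0, g', h1, ih h2⟩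

theorem RT.add (hg : RT T M g) (hh : RT T M h) (hM : Mw M) :
    RT T M (fun n t => g n t + h n t) := by
  intro s T' hT'
  obtain ⟨C, hC⟩ := hg s T' hT'
  obtain ⟨D, hD⟩ := hh s T' hT'
  refine ⟨C + D, fun t ht n => ?_⟩
  have h1 := hC t ht n
  have h2 := hD t ht n
  have h3 : 0 ≤ M n ^ s := by have := hM.one n; positivity
  have h4 := mul_le_mul_of_nonneg_left (abs_add_le (g n t) (h n t)) h3
  linarith

theorem RT.mul (hg : RT T M g) (hh : RT T M h) (hM : Mw M) :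
    RT T M (fun n t => g n t * h n t) := by
  intro s T' hT'
  obtain ⟨C, hC⟩ := hg s T' hT'
  obtain ⟨D, hD⟩ := hh 0 T' hT'
  refine ⟨C * D, fun t ht n => ?_⟩
  have h1 := hC t ht n
  have h2 := hD t ht n
  rw [pow_zero, one_mul] at h2
  have h3 : 0 ≤ M n ^ s := by have := hM.one n; positivity
  rw [abs_mul, ← mul_assoc]
  exact mul_le_mul h1 h2 (abs_nonneg _) (le_trans (mul_nonneg h3 (abs_nonneg _)) h1)

theorem RT.coef (hg : RT T M g) (hM : Mw M) {c : ℕ → ℝ} {D : ℝ} {q : ℕ}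
    (hc : ∀ n, |c n| ≤ D * M n ^ q) : RT T M (fun n t => c n * g n t) := by
  intro s T' hT'
  obtain ⟨C, hC⟩ := hg (s + q) T' hT'
  have hD : 0 ≤ D := by
    have h1 := (abs_nonneg _).trans (hc 0)
    have h2 : 0 < M 0 ^ q := by have := hM.one 0; positivity
    exact nonneg_of_mul_nonneg_left h1 h2
  refine ⟨D * C, fun t ht n => ?_⟩
  have h1 := hC t ht n
  have h3 : 0 ≤ M n ^ s := by have := hM.one n; positivity
  calc M n ^ s * |c n * g n t| = M n ^ s * (|c n| * |g n t|) := by rw [abs_mul]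
    _ ≤ M n ^ s * (D * M n ^ q * |g n t|) :=
        mul_le_mul_of_nonneg_left (mul_le_mul_of_nonneg_right (hc n) (abs_nonneg _)) h3
    _ = D * (M n ^ (s + q) * |g n t|) := by rw [pow_add]; ring
    _ ≤ D * C := mul_le_mul_of_nonneg_left h1 hD

theorem RT.next (hg : RT T M g) (hM : Mw M) : RT T M (fun n t => g (n + 1) t) := by
  intro s T' hT'
  obtain ⟨C, hC⟩ := hg s T' hT'
  refine ⟨C, fun t ht n => ?_⟩
  have h3 : M n ^ s ≤ M (n + 1) ^ s := pow_le_pow_left₀ (by linarith [hM.one n]) (hM.mono n) s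
  exact (mul_le_mul_of_nonneg_right h3 (abs_nonneg _)).trans (hC t ht (n + 1))

/-- the shifted sequence -/
def prv (g : ℕ → ℝ → ℝ) : ℕ → ℝ → ℝ
  | 0, _ => 0
  | n + 1, t => g n t

theorem RT.prev (hg : RT T M g) (hM : Mw M) : RT T M (prv g) := by
  intro s T' hT'
  obtain ⟨C, hC⟩ := hg s T' hT'
  refine ⟨max 0 (2 ^ s * C), fun t ht n => ?_⟩
  cases n with
  | zero => simp [prv]
  | succ n =>
    refine le_trans ?_ (le_max_right _ _)
    have h3 : M (n + 1) ^ s ≤ 2 ^ s * M n ^ s := by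
      rw [← mul_pow]
      exact pow_le_pow_left₀ (by linarith [hM.one (n + 1)]) (hM.succ n) s
    calc M (n + 1) ^ s * |prv g (n + 1) t| ≤ (2 ^ s * M n ^ s) * |g n t| :=
          mul_le_mul_of_nonneg_right h3 (abs_nonneg _)
      _ = 2 ^ s * (M n ^ s * |g n t|) := by ring
      _ ≤ 2 ^ s * C := mul_le_mul_of_nonneg_left (hC t ht n) (by positivity)

theorem Dk.add {m : ℕ} (hg : Dk T M m g) (hh : Dk T M m h) (hM : Mw M) :
    Dk T M m (fun n t => g n t + h n t) := by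
  induction m generalizing g h with
  | zero => exact ⟨hg.rt.add hh.rt hM, fun n => (hg.cont n).add (hh.cont n)⟩
  | succ m ih =>
    have h0 := hg.rt.add hh.rt hM
    obtain ⟨-, g', h1, h2⟩ := hg
    obtain ⟨-, h', h3, h4⟩ := hh
    exact ⟨h0, _, fun n t ht => (h1 n t ht).add (h3 n t ht), ih h2 h4⟩

theorem Dk.mul {m : ℕ} (hg : Dk T M m g) (hh : Dk T M m h) (hM : Mw M) :
    Dk T M m (fun n t => g n t * h n t) := by
  induction m generalizing g h with
  | zero => exact ⟨hg.rt.mul hh.rt hM, fun n => (hg.cont n).mul (hh.cont n)⟩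
  | succ m ih =>
    have h0 := hg.rt.mul hh.rt hM
    have hg1 := hg.pred
    have hh1 := hh.pred
    obtain ⟨-, g', h1, h2⟩ := hg
    obtain ⟨-, h', h3, h4⟩ := hh
    exact ⟨h0, _, fun n t ht => (h1 n t ht).mul (h3 n t ht), (ih h2 hh1).add (ih hg1 h4) hM⟩

theorem Dk.coef {m : ℕ} (hg : Dk T M m g) (hM : Mw M) {c : ℕ → ℝ} {D : ℝ} {q : ℕ}
    (hc : ∀ n, |c n| ≤ D * M n ^ q) : Dk T M m (fun n t => c n * g n t) := by
  induction m generalizing g with
  | zero => exact ⟨hg.rt.coef hM hc, fun n => continuousOn_const.mul (hg.cont n)⟩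
  | succ m ih =>
    have h0 := hg.rt.coef hM hc
    obtain ⟨-, g', h1, h2⟩ := hg
    exact ⟨h0, _, fun n t ht => (h1 n t ht).const_mul (c n), ih h2⟩

theorem Dk.next {m : ℕ} (hg : Dk T M m g) (hM : Mw M) : Dk T M m (fun n t => g (n + 1) t) := by
  induction m generalizing g with
  | zero => exact ⟨hg.rt.next hM, fun n => hg.cont (n + 1)⟩
  | succ m ih =>
    have h0 := hg.rt.next hM
    obtain ⟨-, g', h1, h2⟩ := hg
    exact ⟨h0, _, fun n t ht => h1 (n + 1) t ht, ih h2⟩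

theorem Dk.prev {m : ℕ} (hg : Dk T M m g) (hM : Mw M) : Dk T M m (prv g) := by
  induction m generalizing g with
  | zero =>
    refine ⟨hg.rt.prev hM, fun n => ?_⟩
    cases n with
    | zero => exact continuousOn_const
    | succ n => exact hg.cont n
  | succ m ih =>
    have h0 := hg.rt.prev hM
    obtain ⟨-, g', h1, h2⟩ := hg
    refine ⟨h0, prv g', fun n t ht => ?_, ih h2⟩
    cases n with
    | zero => exact hasDerivWithinAt_const _ _ _
    | succ n => exact h1 n t ht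

theorem Dk.congr {m : ℕ} (hg : Dk T M m g) (hh : ∀ n t, h n t = g n t) : Dk T M m h := by
  have : h = g := funext fun n => funext fun t => hh n t
  rwa [this]

/-- time-independent sequences -/
theorem Dk.const {a : ℕ → ℝ} (ha : ∀ s : ℕ, ∃ C, ∀ n, M n ^ s * |a n| ≤ C) (m : ℕ) :
    Dk T M m (fun n _ => a n) := by
  have h0 : RT T M (fun n _ => a n) := fun s T' _ => by
    obtain ⟨C, hC⟩ := ha s
    exact ⟨C, fun _ _ n => hC n⟩
  have h1 : ∀ m, Dk T M m (fun _ _ => (0 : ℝ)) := by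
    intro m
    induction m with
    | zero => exact ⟨fun s T' _ => ⟨0, fun _ _ n => by simp⟩, fun n => continuousOn_const⟩
    | succ m ih =>
      exact ⟨fun s T' _ => ⟨0, fun _ _ n => by simp⟩, _,
        fun n t ht => hasDerivWithinAt_const _ _ _, ih⟩
  cases m with
  | zero => exact ⟨h0, fun n => continuousOn_const⟩
  | succ m => exact ⟨h0, _, fun n t ht => hasDerivWithinAt_const _ _ _, h1 m⟩

theorem gf_prv (c : ℕ → ℝ) (y : ℕ → ℝ → ℝ) (n : ℕ) (t : ℝ) :
    gf c y n t = prv (fun n t => c n * (y n t * y n t)) n t := by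
  cases n with
  | zero => rfl
  | succ n => simp only [gf, prv]; ring

/-- all the derivatives of the solution decay rapidly -/
theorem Zs.dk {d D α μ r : ℕ → ℝ} {x y : ℕ → ℝ → ℝ} (h : Zs T d D α μ r x y) (hM : Mw M)
    (hr : ∀ n, M n ≤ r n) {G : ℝ} {q : ℕ} (hd : ∀ n, |d n| ≤ G * M n ^ q)
    (hD : ∀ n, |D n| ≤ G * M n ^ q)
    (hα : ∀ n, |α n| ≤ G * M n ^ q) (hμ : ∀ n, |μ n| ≤ G * M n ^ q) (m : ℕ) :
    Dk T M m x ∧ Dk T M m y := by
  have hneg : ∀ {c : ℕ → ℝ}, (∀ n, |c n| ≤ G * M n ^ q) → ∀ n, |-c n| ≤ G * M n ^ q :=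
    fun hc n => by rw [abs_neg]; exact hc n
  induction m with
  | zero =>
    refine ⟨⟨fun s T' hT' => ?_, fun n t ht => (h.xd n t ht).continuousWithinAt⟩,
      ⟨fun s T' hT' => ?_, fun n t ht => (h.yd n t ht).continuousWithinAt⟩⟩
    · obtain ⟨C, hC⟩ := h.rap s T' hT'
      exact ⟨C, fun t ht n => (mul_le_mul_of_nonneg_right (pow_le_pow_left₀
        (by linarith [hM.one n]) (hr n) s) (abs_nonneg _)).trans (hC t ht n).1⟩
    · obtain ⟨C, hC⟩ := h.rap s T' hT'
      exact ⟨C, fun t ht n => (mul_le_mul_of_nonneg_right (pow_le_pow_left₀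
        (by linarith [hM.one n]) (hr n) s) (abs_nonneg _)).trans (hC t ht n).2⟩
  | succ m ih =>
    obtain ⟨hx, hy⟩ := ih
    have hyy := hy.mul hy hM
    have hga : Dk T M m (gf α y) := ((hyy.coef hM hα).prev hM).congr fun n t => gf_prv α y n t
    have hgm : Dk T M m (gf μ y) := ((hyy.coef hM hμ).prev hM).congr fun n t => gf_prv μ y n t
    refine ⟨⟨hx.rt, _, h.xd, ?_⟩, ⟨hy.rt, _, h.yd, ?_⟩⟩
    · refine (((hx.coef hM (hneg hd)).add hga hM).add (hyy.coef hM (hneg hα)) hM).congr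
        fun n t => ?_
      ring
    · have hdx : Dk T M m (fun n t => x n t + (-1) * x (n + 1) t) :=
        hx.add ((hx.next hM).coef hM (c := fun _ => -1) (D := 1) (q := 0) (by simp)) hM
      refine ((((hy.coef hM (hneg hD)).add (((hy.mul hdx hM).coef hM hα)) hM).add hgm hM).add
        ((hy.mul (hy.next hM) hM).coef hM (hneg hμ)) hM).congr fun n t => ?_
      ring

end Pool.Agent.N977.Q
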