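import Pool.Agent.N977.Q.Tri

/-!
The operator on the fields of the cascade.
-/

open MeasureTheory Set Filter Topology
open scoped ContDiff

namespace Pool.Agent.N977.Q

open H459R3.NS

/-- direction of the first frequency -/
def tP : Fin 12 → Fin 6 := ![2, 3, 4, 5, 2, 3, 4, 5, 2, 3, 4, 5]

/-- direction of the second frequency -/
def tQ : Fin 12 → Fin 6 := ![1, 1, 0, 0, 0, 0, 1, 1, 2, 3, 4, 5]

/-- direction of the sum -/
def tR : Fin 12 → Fin 6 := ![3, 2, 5, 4, 3, 2, 5, 4, 2, 3, 4, 5]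

/-- level of the second frequency -/
def lQ : Fin 12 → ℕ := ![0, 0, 0, 0, 1, 1, 1, 1, 0, 0, 0, 0]

/-- level of the sum -/
def lR : Fin 12 → ℕ := ![0, 0, 0, 0, 0, 0, 0, 0, 1, 1, 1, 1]

theorem PP_eq (i : Fin 12) : PP i = ev (tP i) := by
  revert i; unfold PP ev tP; decide

theorem QQ_eq (i : Fin 12) : QQ i = ((2 : ℤ) ^ lQ i) • ev (tQ i) ∨
    QQ i = -(((2 : ℤ) ^ lQ i) • ev (tQ i)) := by
  revert i; unfold QQ ev tQ lQ; decide

theorem RR_eq (i : Fin 12) : PP i + QQ i = ((2 : ℤ) ^ lR i) • ev (tR i) ∨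
    PP i + QQ i = -(((2 : ℤ) ^ lR i) • ev (tR i)) := by
  revert i; unfold PP QQ ev tR lR; decide

theorem Mn_add_smul (N n l : ℕ) (k : K3) :
    (Mn N n : ℤ) • (((2 : ℤ) ^ l) • k) = (Mn N (n + l) : ℤ) • k := by
  rw [smul_smul]
  congr 1
  unfold Mn
  push_cast
  ring

theorem pm_smul {N n l : ℕ} {k q : K3} (h : k = ((2 : ℤ) ^ l) • q ∨ k = -(((2 : ℤ) ^ l) • q)) :
    (Mn N n : ℤ) • k = (Mn N (n + l) : ℤ) • q ∨ (Mn N n : ℤ) • k = -((Mn N (n + l) : ℤ) • q) := by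
  rcases h with h | h
  · left; rw [h, Mn_add_smul]
  · right; rw [h, smul_neg, Mn_add_smul]

variable {N : ℕ}

theorem Rm_real (k : K3) (r : ℝ) (x : V) : Rm k (r : ℂ) x = r * Real.cos (2 * Real.pi * ph k x) := by
  rw [Rm_eq]; simp

theorem cos_pm {k : K3} {e : Fin 6} {n : ℕ} (h : k = (Mn N n : ℤ) • ev e ∨
    k = -((Mn N n : ℤ) • ev e)) (x : V) : Real.cos (2 * Real.pi * ph k x) = Cm N e n x := by
  rw [Cm_eq]
  rcases h with h | h
  · rw [h]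
  · rw [h, ph_neg, mul_neg, Real.cos_neg]

theorem Lt_Wf (hN : 0 < N) {a : Fin 6 → ℕ → ℝ} (ha : Sa a) (c : ℕ → Fin 12 → ℝ) (n : ℕ) (x : V) :
    Lt PP QQ c N n (Wf N a) (Wf N a) x
    = ∑ i, c n i * (a (tP i) n * a (tQ i) (n + lQ i) / 4 * Cm N (tR i) (n + lR i) x
      - a (tP i) n * a (tR i) (n + lR i) / 4 * Cm N (tQ i) (n + lQ i) x) := by
  unfold Lt
  refine Finset.sum_congr rfl fun i _ => ?_
  congr 1
  have hP : (Mn N n : ℤ) • PP i = (Mn N n : ℤ) • ev (tP i) := by rw [PP_eq]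
  have hQ := pm_smul (N := N) (n := n) (QQ_eq i)
  have hR := pm_smul (N := N) (n := n) (RR_eq i)
  have hthd : (Mn N n : ℤ) • thd (PP i) (QQ i) = -((Mn N n : ℤ) • (PP i + QQ i)) := by
    unfold thd
    rw [← smul_neg]; congr 1; abel
  have fP := fr_Wf hN ha (tP i) n (Or.inl hP)
  have fQ := fr_Wf hN ha (tQ i) (n + lQ i) hQ
  have hR' : (Mn N n : ℤ) • thd (PP i) (QQ i) = (Mn N (n + lR i) : ℤ) • ev (tR i) ∨
      (Mn N n : ℤ) • thd (PP i) (QQ i) = -((Mn N (n + lR i) : ℤ) • ev (tR i)) := by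
    rw [hthd]
    rcases hR with h | h
    · right; rw [h]
    · left; rw [h, neg_neg]
  have fR := fr_Wf hN ha (tR i) (n + lR i) hR'
  have e1 : (Mn N n : ℤ) • PP i + (Mn N n : ℤ) • QQ i = (Mn N n : ℤ) • (PP i + QQ i) := by
    rw [smul_add]
  have e2 : (Mn N n : ℤ) • PP i + (Mn N n : ℤ) • thd (PP i) (QQ i) = -((Mn N n : ℤ) • QQ i) := by
    rw [smul_add_thd, smul_neg]
  have hQ' : -((Mn N n : ℤ) • QQ i) = (Mn N (n + lQ i) : ℤ) • ev (tQ i) ∨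
      -((Mn N n : ℤ) • QQ i) = -((Mn N (n + lQ i) : ℤ) • ev (tQ i)) := by
    rcases hQ with h | h
    · right; rw [h]
    · left; rw [h, neg_neg]
  unfold Ee
  rw [fP, fQ, fR, e1, e2]
  have g1 : (a (tP i) n : ℂ) / 2 * ((a (tQ i) (n + lQ i) : ℂ) / 2)
      = ((a (tP i) n * a (tQ i) (n + lQ i) / 4 : ℝ) : ℂ) := by push_cast; ring
  have g2 : (a (tP i) n : ℂ) / 2 * ((a (tR i) (n + lR i) : ℂ) / 2)
      = ((a (tP i) n * a (tR i) (n + lR i) / 4 : ℝ) : ℂ) := by push_cast; ring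
  rw [g1, g2, Rm_real, Rm_real, cos_pm hR, cos_pm hQ']

/-- the amplitudes of the fields of the cascade -/
noncomputable def amp (X Y : ℕ → ℝ) : Fin 6 → ℕ → ℝ :=
  ![X, X, fun n => Y n / √2, fun n => Y n / √2, fun n => Y n / √2, fun n => Y n / √2]

/-- the mode of the carriers -/
noncomputable def XM (N n : ℕ) (x : V) : ℝ := Cm N 0 n x + Cm N 1 n x

/-- the amplified mode -/
noncomputable def YM (N n : ℕ) (x : V) : ℝ :=
  (Cm N 2 n x + Cm N 3 n x + Cm N 4 n x + Cm N 5 n x) / √2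

theorem Lt_amp (hN : 0 < N) {X Y : ℕ → ℝ} (ha : Sa (amp X Y)) (α μ : ℕ → ℝ) (n : ℕ) (x : V) :
    Lt PP QQ (cc α μ) N n (Wf N (amp X Y)) (Wf N (amp X Y)) x
    = (-(α n * Y n ^ 2)) * XM N n x
      + (α n * Y n * (X n - X (n + 1)) - μ n * Y n * Y (n + 1)) * YM N n x
      + (α n * Y n ^ 2 * XM N (n + 1) x + μ n * Y n ^ 2 * YM N (n + 1) x) := by
  rw [Lt_Wf hN ha]
  have h2 : √2 * √2 = (2 : ℝ) := Real.mul_self_sqrt (by norm_num)
  have h3 : √2 ≠ 0 := by positivity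
  have h4 : √2 ^ 2 = (2 : ℝ) := by rw [sq, h2]
  simp only [Fin.sum_univ_succ, Fin.sum_univ_zero, cc, amp, tP, tQ, tR, lQ, lR, XM, YM]
  simp
  field_simp
  linear_combination (Y n ^ 2 * α n * (Cm N 0 n x + Cm N 1 n x)
    - Y n ^ 2 * α n * (Cm N 0 (n + 1) x + Cm N 1 (n + 1) x)) * h4

end Pool.Agent.N977.Q
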