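import Pool.Agent.N977.Q.Hel
import Pool.Agent.N977.Q.Uniq

/-!
The perturbation.
-/

open MeasureTheory Set Filter Topology
open scoped ContDiff

namespace Pool.Agent.N977.Q

open H459R3.NS

variable {ι : Type} [Fintype ι]

/-- The perturbation: a sum over the levels `n` and over the triads `(P i, Q i)`, scaled by `M n`. -/
noncomputable def KH (P Q : ι → K3) (c : ℕ → ι → ℝ) (N : ℕ) (u v : V → V) (x : V) : V := fun a =>
  ∑ i, ∑ j, Ls N (fq (P i) (Q i) j)
    (fun n => (c n i : ℂ) * zt ((Mn N n : ℤ) • P i) ((Mn N n : ℤ) • Q i) u v j a) x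

/-- Conditions on the coefficients and on the triads. -/
structure Gq (P Q : ι → K3) (c : ℕ → ι → ℝ) (N : ℕ) (G : ℝ) : Prop where
  N3 : 3 ≤ N
  G0 : 0 ≤ G
  c : ∀ n i, |c n i| ≤ G * (Mn N n : ℝ) ^ 3
  td : ∀ i, Td (P i) (Q i)

variable {P Q : ι → K3} {c : ℕ → ι → ℝ} {N : ℕ} {G : ℝ}

omit [Fintype ι] in
theorem Gq.N0 (h : Gq P Q c N G) : 0 < N := by have := h.N3; omega

theorem len_smul (m : ℕ) (k : K3) : len ((m : ℤ) • k) = m * len k := by
  unfold len
  have e : ∑ j, ((((m : ℤ) • k) j : ℤ) : ℝ) ^ 2 = (m : ℝ) ^ 2 * ∑ j, (k j : ℝ) ^ 2 := by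
    rw [Finset.mul_sum]
    refine Finset.sum_congr rfl fun j _ => ?_
    simp only [Pi.smul_apply, smul_eq_mul]
    push_cast
    ring
  rw [e, Real.sqrt_mul (sq_nonneg _), Real.sqrt_sq (Nat.cast_nonneg _)]

theorem smul_ne {m : ℕ} (hm : 0 < m) {k : K3} (hk : k ≠ 0) : (m : ℤ) • k ≠ 0 := by
  intro h
  apply hk
  funext j
  have h1 := congrFun h j
  simp only [Pi.smul_apply, smul_eq_mul, Pi.zero_apply, mul_eq_zero] at h1
  rcases h1 with h1 | h1
  · omega
  · exact h1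

theorem Td.smul {p q : K3} (h : Td p q) {m : ℕ} (hm : 0 < m) :
    Td ((m : ℤ) • p) ((m : ℤ) • q) where
  p0 := smul_ne hm h.p0
  q0 := smul_ne hm h.q0
  r0 := by rw [← thd_smul]; exact smul_ne hm h.r0
  p2 := by simp [h.p2]
  q2 := by simp [h.q2]
  lq := by
    rw [len_smul, len_smul]
    nlinarith [h.lq, Nat.cast_nonneg (α := ℝ) m]
  lr := by
    rw [← thd_smul, len_smul, len_smul]
    nlinarith [h.lr, Nat.cast_nonneg (α := ℝ) m]

theorem fq_smul (m : ℤ) (p q : K3) (j : Fin 3) : fq (m • p) (m • q) j = m • fq p q j := by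
  fin_cases j <;> simp [fq]

omit [Fintype ι] in
theorem Gq.tdn (h : Gq P Q c N G) (n : ℕ) (i : ι) :
    Td ((Mn N n : ℤ) • P i) ((Mn N n : ℤ) • Q i) := (h.td i).smul (Mn_pos h.N0 n)

omit [Fintype ι] in
/-- decay of the coefficients -/
theorem zc_ld (hG : Gq P Q c N G) {u v : V → V} (hu : SPV u) (hv : SPV v) (i : ι) (j a : Fin 3) :
    Ld N (fun n => (c n i : ℂ) * zt ((Mn N n : ℤ) • P i) ((Mn N n : ℤ) • Q i) u v j a) := by
  intro s
  obtain ⟨A, hA0, hA⟩ := un_decay hu (s + 3)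
  obtain ⟨B, hB0, hB⟩ := un_decay hv (s + 3)
  obtain ⟨A', hA'0, hA'⟩ := un_decay hu 0
  obtain ⟨B', hB'0, hB'⟩ := un_decay hv 0
  refine ⟨G * (4 * (A * B' + B * A')), fun n => ?_⟩
  have hM : (0 : ℝ) < Mn N n := by exact_mod_cast Mn_pos hG.N0 n
  have htd := hG.tdn n i
  have h1 := zt_le htd u v j a
  have key : ∀ {w : V → V} {C : ℝ}, (∀ k, (H459R3.NS.N k : ℝ) ^ (s + 3) * un w k ≤ C) →
      ∀ {d : K3}, d ≠ 0 → (Mn N n : ℝ) ^ (s + 3) * un w ((Mn N n : ℤ) • d) ≤ C := by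
    intro w C hC d hd
    refine le_trans (mul_le_mul_of_nonneg_right ?_ (un_nonneg _ _)) (hC ((Mn N n : ℤ) • d))
    exact pow_le_pow_left₀ (Nat.cast_nonneg _) (by exact_mod_cast natCast_le_N hd) _
  have hAk : ∀ k, un u k ≤ A' := fun k => by simpa using hA' k
  have hBk : ∀ k, un v k ≤ B' := fun k => by simpa using hB' k
  have hthd : thd ((Mn N n : ℤ) • P i) ((Mn N n : ℤ) • Q i) = (Mn N n : ℤ) • thd (P i) (Q i) :=
    (thd_smul _ _ _).symm
  set W := (Mn N n : ℝ) ^ (s + 3) with hW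
  have hW0 : 0 ≤ W := by positivity
  have pr1 : ∀ {d : K3}, d ≠ 0 → ∀ k, W * (un u ((Mn N n : ℤ) • d) * un v k) ≤ A * B' := by
    intro d hd k
    rw [← mul_assoc]
    exact mul_le_mul (key hA hd) (hBk k) (un_nonneg _ _) hA0
  have pr2 : ∀ {d : K3}, d ≠ 0 → ∀ k, W * (un v ((Mn N n : ℤ) • d) * un u k) ≤ B * A' := by
    intro d hd k
    rw [← mul_assoc]
    exact mul_le_mul (key hB hd) (hAk k) (un_nonneg _ _) hB0
  have hbt : W * bt ((Mn N n : ℤ) • P i) ((Mn N n : ℤ) • Q i) u v j ≤ 4 * (A * B' + B * A') := by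
    have hp := (hG.td i).p0
    have hq := (hG.td i).q0
    have hAB : 0 ≤ A * B' := by positivity
    have hBA : 0 ≤ B * A' := by positivity
    fin_cases j
    · simp only [bt, Fin.zero_eta, Matrix.cons_val_zero]
      have e1 := pr1 hp ((Mn N n : ℤ) • Q i)
      have e2 := pr2 hp ((Mn N n : ℤ) • Q i)
      nlinarith
    · simp only [bt, Fin.mk_one, Matrix.cons_val_one, Matrix.cons_val_zero]
      have e1 := pr1 hp (thd ((Mn N n : ℤ) • P i) ((Mn N n : ℤ) • Q i))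
      have e2 := pr2 hp (thd ((Mn N n : ℤ) • P i) ((Mn N n : ℤ) • Q i))
      nlinarith
    · simp only [bt, Fin.reduceFinMk, Matrix.cons_val]
      have e1 := pr1 hq (thd ((Mn N n : ℤ) • P i) ((Mn N n : ℤ) • Q i))
      have e2 := pr2 hq (thd ((Mn N n : ℤ) • P i) ((Mn N n : ℤ) • Q i))
      nlinarith
  rw [norm_mul, Complex.norm_real, Real.norm_eq_abs]
  have hG0 := hG.G0
  calc (Mn N n : ℝ) ^ s * (|c n i| * ‖zt ((Mn N n : ℤ) • P i) ((Mn N n : ℤ) • Q i) u v j a‖)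
      ≤ (Mn N n : ℝ) ^ s * ((G * (Mn N n : ℝ) ^ 3) *
        bt ((Mn N n : ℤ) • P i) ((Mn N n : ℤ) • Q i) u v j) := by
        apply mul_le_mul_of_nonneg_left _ (by positivity)
        exact mul_le_mul (hG.c n i) h1 (norm_nonneg _) (by positivity)
    _ = G * (W * bt ((Mn N n : ℤ) • P i) ((Mn N n : ℤ) • Q i) u v j) := by
        rw [hW, pow_add]; ring
    _ ≤ G * (4 * (A * B' + B * A')) := mul_le_mul_of_nonneg_left hbt hG0

theorem KH_sp (hG : Gq P Q c N G) {u v : V → V} (hu : SPV u) (hv : SPV v) (a : Fin 3) :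
    SP (fun x => KH P Q c N u v x a) :=
  SP.sum fun i _ => SP.sum fun j _ => Ls_sp hG.N0 (zc_ld hG hu hv i j a) _

theorem KH_spv (hG : Gq P Q c N G) {u v : V → V} (hu : SPV u) (hv : SPV v) :
    SPV (KH P Q c N u v) := sp_spv (KH_sp hG hu hv)

/-- testing with a scalar function -/
theorem KH_test (hG : Gq P Q c N G) {u v : V → V} (hu : SPV u) (hv : SPV v) (a : Fin 3)
    {h : V → ℝ} (hh : SP h) :
    HasSum (fun n => ∑ i, c n i * ∑ j, (zt ((Mn N n : ℤ) • P i) ((Mn N n : ℤ) • Q i) u v j a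
      * fr h (-(fq ((Mn N n : ℤ) • P i) ((Mn N n : ℤ) • Q i) j))).re)
      (∫ x in cube, KH P Q c N u v x a * h x) := by
  have h1 : ∀ i j, HasSum (fun n => (((c n i : ℂ) * zt ((Mn N n : ℤ) • P i) ((Mn N n : ℤ) • Q i)
      u v j a) * fr h (-((Mn N n : ℤ) • fq (P i) (Q i) j))).re)
      (∫ x in cube, Ls N (fq (P i) (Q i) j)
    (fun n => (c n i : ℂ) * zt ((Mn N n : ℤ) • P i) ((Mn N n : ℤ) • Q i) u v j a) x * h x) :=
    fun i j => Ls_int hG.N0 (zc_ld hG hu hv i j a) _ hh.cont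
  have h2 := hasSum_sum (s := Finset.univ) fun i (_ : i ∈ Finset.univ) =>
    hasSum_sum (s := Finset.univ) fun j (_ : j ∈ Finset.univ) => h1 i j
  have e : (∫ x in cube, KH P Q c N u v x a * h x) = ∑ i, ∑ j,
      ∫ x in cube, Ls N (fq (P i) (Q i) j)
      (fun n => (c n i : ℂ) * zt ((Mn N n : ℤ) • P i) ((Mn N n : ℤ) • Q i) u v j a) x * h x := by
    have hsp := fun i j => (Ls_sp hG.N0 (zc_ld hG hu hv i j a) (fq (P i) (Q i) j)).mul hh
    unfold KH
    simp_rw [Finset.sum_mul]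
    rw [integral_finsetSum _ fun i _ => (SP.sum fun j _ => hsp i j).int]
    refine Finset.sum_congr rfl fun i _ => ?_
    rw [integral_finsetSum _ fun j _ => (hsp i j).int]
  rw [e]
  convert h2 using 1
  funext n
  refine Finset.sum_congr rfl fun i _ => ?_
  rw [Finset.mul_sum]
  refine Finset.sum_congr rfl fun j _ => ?_
  rw [fq_smul, mul_assoc, Complex.re_ofReal_mul]

/-- the trilinear form -/
theorem KH_tri (hG : Gq P Q c N G) {u v w : V → V} (hu : SPV u) (hv : SPV v) (hw : SPV w) :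
    HasSum (fun n => ∑ i, c n i * Tt ((Mn N n : ℤ) • P i) ((Mn N n : ℤ) • Q i) u v w)
      (∑ a, ∫ x in cube, KH P Q c N u v x a * w x a) := by
  have h1 := hasSum_sum (s := Finset.univ) fun a (_ : a ∈ Finset.univ) =>
    KH_test hG hu hv a (spv_sp hw a)
  convert h1 using 1
  funext n
  rw [Finset.sum_comm]
  refine Finset.sum_congr rfl fun i _ => ?_
  rw [← Finset.mul_sum]
  congr 1
  unfold Tt
  rw [Finset.sum_comm]

theorem KH_energy (hG : Gq P Q c N G) {u v : V → V} (hu : SPV u) (hv : SPV v) :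
    ∑ a, ∫ x in cube, KH P Q c N u v x a * v x a = 0 := by
  have h := KH_tri hG hu hv hv
  simp_rw [Tt_energy, mul_zero, Finset.sum_const_zero] at h
  exact h.unique hasSum_zero

theorem KH_helicity (hG : Gq P Q c N G) {u v : V → V} (hu : SPV u) (hv : SPV v) :
    ∑ a, ∫ x in cube, KH P Q c N u v x a * curl u x a = 0 := by
  have h := KH_tri hG hu hv (curl_spv hu)
  have e : ∀ n i, Tt ((Mn N n : ℤ) • P i) ((Mn N n : ℤ) • Q i) u v (curl u) = 0 :=
    fun n i => Tt_hel (hG.tdn n i) hu v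
  simp_rw [e, mul_zero, Finset.sum_const_zero] at h
  exact h.unique hasSum_zero

theorem KH_divfree (hG : Gq P Q c N G) {u v : V → V} (hu : SPV u) (hv : SPV v) (x : V) :
    ∑ a, pd a (fun y => KH P Q c N u v y a) x = 0 := by
  have hsp := KH_sp hG hu hv
  have hg : SP (fun x => ∑ a, pd a (fun y => KH P Q c N u v y a) x) :=
    SP.sum fun a _ => (hsp a).pd a
  refine eq_zero_of_int_sq hg ?_ x
  set g := fun x => ∑ a, pd a (fun y => KH P Q c N u v y a) x with hgd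
  have e1 : ∫ x in cube, g x ^ 2 = -∑ a, ∫ x in cube, KH P Q c N u v x a * pd a g x := by
    have e2 : ∀ x, g x ^ 2 = ∑ a, pd a (fun y => KH P Q c N u v y a) x * g x := by
      intro x
      rw [← Finset.sum_mul, sq]
    simp_rw [e2]
    rw [integral_finsetSum _ fun a _ => (((hsp a).pd a).mul hg).int, ← Finset.sum_neg_distrib]
    exact Finset.sum_congr rfl fun a _ => ibp (hsp a) hg a
  have h1 := hasSum_sum (s := Finset.univ) fun a (_ : a ∈ Finset.univ) =>
    KH_test hG hu hv a (hg.pd a)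
  have e3 : (fun n => ∑ a, ∑ i, c n i * ∑ j, (zt ((Mn N n : ℤ) • P i) ((Mn N n : ℤ) • Q i) u v j a
      * fr (pd a g) (-(fq ((Mn N n : ℤ) • P i) ((Mn N n : ℤ) • Q i) j))).re) = fun _ => 0 := by
    funext n
    rw [Finset.sum_comm]
    refine Finset.sum_eq_zero fun i _ => ?_
    rw [← Finset.mul_sum, Finset.sum_comm]
    rw [Finset.sum_eq_zero (fun j _ => ?_), mul_zero]
    have h2 := zt_div (hG.tdn n i) u v j
    have e4 : ∀ a, (zt ((Mn N n : ℤ) • P i) ((Mn N n : ℤ) • Q i) u v j a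
        * fr (pd a g) (-(fq ((Mn N n : ℤ) • P i) ((Mn N n : ℤ) • Q i) j))).re
        = (-(2 * Real.pi * Complex.I * fr g (-(fq ((Mn N n : ℤ) • P i) ((Mn N n : ℤ) • Q i) j)))
          * (((fq ((Mn N n : ℤ) • P i) ((Mn N n : ℤ) • Q i) j a : ℤ) : ℂ)
          * zt ((Mn N n : ℤ) • P i) ((Mn N n : ℤ) • Q i) u v j a)).re := by
      intro a
      rw [fr_pd' hg]
      congr 1
      simp only [Pi.neg_apply]
      push_cast
      ring
    simp_rw [e4]
    rw [← Complex.re_sum, ← Finset.mul_sum, h2, mul_zero, Complex.zero_re]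
  rw [e3] at h1
  rw [e1, h1.unique hasSum_zero, neg_zero]

end Pool.Agent.N977.Q
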