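import Pool.Agent.N977.Q.Hop

/-!
The perturbation: bilinearity, symmetries, the restriction to parallel flows and the estimates.
-/

open MeasureTheory Set Filter Topology
open scoped ContDiff

namespace Pool.Agent.N977.Q

open H459R3.NS

variable {ι : Type} [Fintype ι] {P Q : ι → K3} {c : ℕ → ι → ℝ} {N : ℕ} {G : ℝ}

theorem KH_add_left (hG : Gq P Q c N G) {u u' v : V → V} (hu : SPV u) (hu' : SPV u') (hv : SPV v) :
    KH P Q c N (fun x => u x + u' x) v = fun x => KH P Q c N u v x + KH P Q c N u' v x := by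
  funext x a
  unfold KH
  simp only [Pi.add_apply]
  rw [← Finset.sum_add_distrib]
  refine Finset.sum_congr rfl fun i _ => ?_
  rw [← Finset.sum_add_distrib]
  refine Finset.sum_congr rfl fun j _ => ?_
  rw [← Ls_add hG.N0 (zc_ld hG hu hv i j a) (zc_ld hG hu' hv i j a)]
  congr 1
  funext n
  rw [zt_add_left hu hu', mul_add]

theorem KH_add_right (hG : Gq P Q c N G) {u v v' : V → V} (hu : SPV u) (hv : SPV v)
    (hv' : SPV v') :
    KH P Q c N u (fun x => v x + v' x) = fun x => KH P Q c N u v x + KH P Q c N u v' x := by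
  funext x a
  unfold KH
  simp only [Pi.add_apply]
  rw [← Finset.sum_add_distrib]
  refine Finset.sum_congr rfl fun i _ => ?_
  rw [← Finset.sum_add_distrib]
  refine Finset.sum_congr rfl fun j _ => ?_
  rw [← Ls_add hG.N0 (zc_ld hG hu hv i j a) (zc_ld hG hu hv' i j a)]
  congr 1
  funext n
  rw [zt_add_right u hv hv', mul_add]

theorem KH_smul_left (r : ℝ) (u v : V → V) :
    KH P Q c N (fun x => r • u x) v = fun x => r • KH P Q c N u v x := by
  funext x a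
  unfold KH
  simp only [Pi.smul_apply, smul_eq_mul]
  rw [Finset.mul_sum]
  refine Finset.sum_congr rfl fun i _ => ?_
  rw [Finset.mul_sum]
  refine Finset.sum_congr rfl fun j _ => ?_
  rw [← Ls_smul]
  congr 1
  funext n
  rw [zt_smul_left]
  ring

theorem KH_smul_right (r : ℝ) (u v : V → V) :
    KH P Q c N u (fun x => r • v x) = fun x => r • KH P Q c N u v x := by
  funext x a
  unfold KH
  simp only [Pi.smul_apply, smul_eq_mul]
  rw [Finset.mul_sum]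
  refine Finset.sum_congr rfl fun i _ => ?_
  rw [Finset.mul_sum]
  refine Finset.sum_congr rfl fun j _ => ?_
  rw [← Ls_smul]
  congr 1
  funext n
  rw [zt_smul_right]
  ring

theorem KH_shift (b : V) {u v : V → V} (hu : SPV u) (hv : SPV v) :
    KH P Q c N (fun x => u (x + b)) (fun x => v (x + b)) = fun x => KH P Q c N u v (x + b) := by
  funext x a
  unfold KH
  refine Finset.sum_congr rfl fun i _ => Finset.sum_congr rfl fun j _ => ?_
  rw [← Ls_shift]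
  congr 1
  funext n
  rw [zt_shift hu hv, fq_smul]
  ring

theorem KH_const_left (hG : Gq P Q c N G) (b : V) {u : V → V} (hu : SPV u) (v : V → V) :
    KH P Q c N (fun x => u x + b) v = KH P Q c N u v := by
  funext x a
  unfold KH
  refine Finset.sum_congr rfl fun i _ => Finset.sum_congr rfl fun j _ => ?_
  congr 1
  funext n
  rw [zt_const_left (hG.tdn n i) hu]

theorem KH_const_right (hG : Gq P Q c N G) (b : V) (u : V → V) {v : V → V} (hv : SPV v) :
    KH P Q c N u (fun x => v x + b) = KH P Q c N u v := by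
  funext x a
  unfold KH
  refine Finset.sum_congr rfl fun i _ => Finset.sum_congr rfl fun j _ => ?_
  congr 1
  funext n
  rw [zt_const_right (hG.tdn n i) u b hv]

/-! ### parallel flows -/

/-- `u = (0, 0, w)` -/
def Par3 (u : V → V) : Prop := ∀ x i, i ≠ 2 → u x i = 0

theorem fs_par {u : V → V} (hu : Par3 u) (k : K3) : fs u k = 0 := by
  unfold fs
  have h1 : (fun x => u x 1) = fun _ => 0 := funext fun x => hu x 1 (by decide)
  have h0 : (fun x => u x 0) = fun _ => 0 := funext fun x => hu x 0 (by decide)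
  have e : ∀ k, fr (fun _ => (0 : ℝ)) k = 0 := fun k => by unfold fr fc; simp
  rw [h1, h0, e]
  ring

theorem KH_par (hG' : Gr P Q c N G) {u : V → V} (hu : SPV u) (hp : Par3 u) :
    KH P Q c N u u = KK P Q c N u u := by
  have hs : ∀ k, fs u k = 0 := fs_par hp
  have z00 : ∀ p q, yt p q u u = 0 := fun p q => by unfold yt; rw [hs, hs]; ring
  funext x a
  by_cases ha : a = 2
  · subst ha
    unfold KH KK
    rw [if_pos rfl, kk_eq hG' (spv_sp hu 2) (spv_sp hu 2)]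
    refine Finset.sum_congr rfl fun i _ => ?_
    rw [Fin.sum_univ_three]
    have e0 : Ls N (fq (P i) (Q i) 0) (fun n => (c n i : ℂ) *
        zt ((Mn N n : ℤ) • P i) ((Mn N n : ℤ) • Q i) u u 0 2) x
        = ∑' n, Rm ((Mn N n : ℤ) • (P i + Q i)) (ca P Q c N (fun y => u y 2) (fun y => u y 2) i n) x := by
      unfold Ls
      refine tsum_congr fun n => ?_
      congr 1
      simp [zt, ca, hs, fz]
    have e1 : Ls N (fq (P i) (Q i) 1) (fun n => (c n i : ℂ) *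
        zt ((Mn N n : ℤ) • P i) ((Mn N n : ℤ) • Q i) u u 1 2) x
        = -∑' n, Rm ((Mn N n : ℤ) • (-(Q i))) (cb P Q c N (fun y => u y 2) (fun y => u y 2) i n) x := by
      unfold Ls
      rw [← tsum_neg]
      refine tsum_congr fun n => ?_
      have e2 : (c n i : ℂ) * zt ((Mn N n : ℤ) • P i) ((Mn N n : ℤ) • Q i) u u 1 2
          = ((-1 : ℝ) : ℂ) * cb P Q c N (fun y => u y 2) (fun y => u y 2) i n := by
        unfold cb
        rw [thd_smul]
        simp [zt, hs, fz]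
      beta_reduce
      rw [e2, Rm_smul]
      simp only [fq, Matrix.cons_val_one, Matrix.cons_val_zero]
      ring
    have e2 : Ls N (fq (P i) (Q i) 2) (fun n => (c n i : ℂ) *
        zt ((Mn N n : ℤ) • P i) ((Mn N n : ℤ) • Q i) u u 2 2) x = 0 := by
      unfold Ls
      have : ∀ n, Rm ((Mn N n : ℤ) • fq (P i) (Q i) 2) ((c n i : ℂ) *
          zt ((Mn N n : ℤ) • P i) ((Mn N n : ℤ) • Q i) u u 2 2) x = 0 := fun n => by
        simp [zt, Rm]
      simp_rw [this]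
      exact tsum_zero
    rw [e0, e1, e2]
    ring
  · unfold KH KK
    rw [if_neg ha]
    refine Finset.sum_eq_zero fun i _ => Finset.sum_eq_zero fun j _ => ?_
    unfold Ls
    have : ∀ n, Rm ((Mn N n : ℤ) • fq (P i) (Q i) j) ((c n i : ℂ) *
        zt ((Mn N n : ℤ) • P i) ((Mn N n : ℤ) • Q i) u u j a) x = 0 := fun n => by
      have hz : zt ((Mn N n : ℤ) • P i) ((Mn N n : ℤ) • Q i) u u j a = 0 := by
        fin_cases j <;> fin_cases a <;> simp [zt, z00] at ha ⊢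
      rw [hz, mul_zero]
      simp [Rm]
    simp_rw [this]
    exact tsum_zero

/-! ### the estimates -/

theorem len_rpow_ge {x : ℝ} (h1 : 1 ≤ x) (h5 : x ≤ 5) (s : ℝ) : 1 ≤ 5 ^ |s| * x ^ s := by
  have h0 : 0 < x := by linarith
  rcases le_or_gt 0 s with hs | hs
  · rw [abs_of_nonneg hs]
    have a1 : (1 : ℝ) ≤ 5 ^ s := Real.one_le_rpow (by norm_num) hs
    have a2 : 1 ≤ x ^ s := Real.one_le_rpow h1 hs
    nlinarith
  · rw [abs_of_neg hs]
    have a1 : x ^ s = (x ^ (-s))⁻¹ := by rw [← Real.rpow_neg h0.le, neg_neg]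
    have a2 : x ^ (-s) ≤ 5 ^ (-s) := Real.rpow_le_rpow h0.le h5 (by linarith)
    have a3 : 0 < x ^ (-s) := Real.rpow_pos_of_pos h0 _
    rw [a1, ← div_eq_mul_inv, le_div_iff₀ a3, one_mul]
    exact a2

theorem lev {M : ℕ} (hM : 3 ≤ M) {d : K3} (hd : d ≠ 0) (h5 : len d ≤ 5) (s : ℝ) {a : ℝ}
    (ha : 0 ≤ a) : (M : ℝ) ^ s * Real.log M ^ a ≤ 5 ^ |s| * wt s a ((M : ℤ) • d) := by
  have h1 := one_le_len hd
  have hM3 : (3 : ℝ) ≤ M := by exact_mod_cast hM
  have hlog := one_le_log hM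
  unfold wt
  rw [if_neg (smul_ne (by omega) hd), len_smul]
  have e1 := len_rpow_ge h1 h5 s
  have e2 : Real.log M ^ a ≤ Real.log (2 + M * len d) ^ a := by
    apply Real.rpow_le_rpow (by linarith) _ ha
    apply Real.log_le_log (by linarith)
    nlinarith
  rw [Real.mul_rpow (by linarith) (by linarith)]
  have hp : 0 ≤ (M : ℝ) ^ s := by positivity
  have hq : 0 ≤ Real.log M ^ a := by positivity
  calc (M : ℝ) ^ s * Real.log M ^ a ≤ (M : ℝ) ^ s * (5 ^ |s| * len d ^ s) * Real.log M ^ a := by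
        apply mul_le_mul_of_nonneg_right _ hq
        exact le_mul_of_one_le_right hp e1
    _ ≤ (M : ℝ) ^ s * (5 ^ |s| * len d ^ s) * Real.log (2 + M * len d) ^ a := by
        apply mul_le_mul_of_nonneg_left e2
        have : 0 ≤ len d ^ s := by positivity
        positivity
    _ = _ := by ring

theorem smul_inj {d : K3} (hN : 0 < N) (hd : d ≠ 0) :
    Function.Injective fun n => (Mn N n : ℤ) • d := by
  intro n m h
  obtain ⟨j, hj⟩ : ∃ j, d j ≠ 0 := by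
    by_contra hcon
    push Not at hcon
    exact hd (funext hcon)
  have h1 := congrFun h j
  simp only [Pi.smul_apply, smul_eq_mul, mul_eq_mul_right_iff] at h1
  rcases h1 with h1 | h1
  · exact Mn_inj' hN (by exact_mod_cast h1)
  · exact absurd h1 hj
where
  Mn_inj' {N : ℕ} (hN : 0 < N) {n m : ℕ} (h : Mn N n = Mn N m) : n = m := by
    unfold Mn at h
    exact Nat.pow_right_injective le_rfl (Nat.eq_of_mul_eq_mul_left hN h)

/-- the trilinear sums -/
theorem tri_sum (hN : 3 ≤ N) {g : ℝ} (hg : 0 ≤ g) {cn : ℕ → ℝ} {σ p : ℝ}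
    (hcn : ∀ n, |cn n| ≤ g * ((Mn N n : ℝ) ^ σ * Real.log (Mn N n) ^ p))
    {s₁ s₂ s₃ a₁ a₂ a₃ : ℝ} (hs : s₁ + s₂ + s₃ = σ) (h1 : 0 ≤ a₁) (h2 : 0 ≤ a₂) (h3 : 0 ≤ a₃)
    (ha : a₁ + a₂ + a₃ = p) {u v w : V → V} (hu : SPV u) (hv : SPV v) (hw : SPV w)
    {d₁ d₂ d₃ : K3} (hd₁ : d₁ ≠ 0) (hd₂ : d₂ ≠ 0) (hd₃ : d₃ ≠ 0) (l₁ : len d₁ ≤ 5)
    (l₂ : len d₂ ≤ 5) (l₃ : len d₃ ≤ 5) :
    Summable (fun n => |cn n| * (un u ((Mn N n : ℤ) • d₁) * un v ((Mn N n : ℤ) • d₂)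
      * un w ((Mn N n : ℤ) • d₃))) ∧
    ∑' n, |cn n| * (un u ((Mn N n : ℤ) • d₁) * un v ((Mn N n : ℤ) • d₂)
      * un w ((Mn N n : ℤ) • d₃))
      ≤ g * 5 ^ (|s₁| + |s₂| + |s₃|) * (Hn s₁ a₁ u * Hn s₂ a₂ v * Hn s₃ a₃ w) := by
  have hN0 : 0 < N := by omega
  set A : ℕ → ℝ := fun n => wt s₁ a₁ ((Mn N n : ℤ) • d₁) * un u ((Mn N n : ℤ) • d₁) with hA
  set B : ℕ → ℝ := fun n => wt s₂ a₂ ((Mn N n : ℤ) • d₂) * un v ((Mn N n : ℤ) • d₂) with hB
  set C : ℕ → ℝ := fun n => wt s₃ a₃ ((Mn N n : ℤ) • d₃) * un w ((Mn N n : ℤ) • d₃) with hC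
  have hA0 : ∀ n, 0 ≤ A n := fun n => mul_nonneg (wt_nonneg _ _ _) (un_nonneg _ _)
  have hB0 : ∀ n, 0 ≤ B n := fun n => mul_nonneg (wt_nonneg _ _ _) (un_nonneg _ _)
  have hC0 : ∀ n, 0 ≤ C n := fun n => mul_nonneg (wt_nonneg _ _ _) (un_nonneg _ _)
  obtain ⟨b1, b2⟩ := wun_seq hv s₂ a₂ (smul_inj hN0 hd₂)
  obtain ⟨c1, c2⟩ := wun_seq hw s₃ a₃ (smul_inj hN0 hd₃)
  obtain ⟨k1, k2⟩ := cs3 (A := A) (B := B) (C := C) (Hn_nonneg s₁ a₁ u) (Hn_nonneg s₂ a₂ v)
    (Hn_nonneg s₃ a₃ w) (fun n => by rw [abs_of_nonneg (hA0 n)]; exact wun_le hu _ _ _) b1 b2 c1 c2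
  have key : ∀ n, |cn n| * (un u ((Mn N n : ℤ) • d₁) * un v ((Mn N n : ℤ) • d₂)
      * un w ((Mn N n : ℤ) • d₃)) ≤ (g * 5 ^ (|s₁| + |s₂| + |s₃|)) * |A n * B n * C n| := by
    intro n
    have hM3 : 3 ≤ Mn N n := by
      unfold Mn
      have : 1 ≤ 2 ^ n := Nat.one_le_two_pow
      nlinarith
    have hM : (0 : ℝ) < Mn N n := by exact_mod_cast Mn_pos hN0 n
    have hL := one_le_log hM3
    have e1 := lev hM3 hd₁ l₁ s₁ h1
    have e2 := lev hM3 hd₂ l₂ s₂ h2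
    have e3 := lev hM3 hd₃ l₃ s₃ h3
    have hσ : (Mn N n : ℝ) ^ σ * Real.log (Mn N n) ^ p
        = ((Mn N n : ℝ) ^ s₁ * Real.log (Mn N n) ^ a₁) * ((Mn N n : ℝ) ^ s₂ * Real.log (Mn N n) ^ a₂)
          * ((Mn N n : ℝ) ^ s₃ * Real.log (Mn N n) ^ a₃) := by
      rw [← hs, ← ha, Real.rpow_add hM, Real.rpow_add hM, Real.rpow_add (by linarith),
        Real.rpow_add (by linarith)]
      ring
    have u0 := un_nonneg u ((Mn N n : ℤ) • d₁)
    have v0 := un_nonneg v ((Mn N n : ℤ) • d₂)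
    have w0 := un_nonneg w ((Mn N n : ℤ) • d₃)
    have w1 := wt_nonneg s₁ a₁ ((Mn N n : ℤ) • d₁)
    have w2 := wt_nonneg s₂ a₂ ((Mn N n : ℤ) • d₂)
    have w3 := wt_nonneg s₃ a₃ ((Mn N n : ℤ) • d₃)
    rw [abs_of_nonneg (mul_nonneg (mul_nonneg (hA0 n) (hB0 n)) (hC0 n))]
    have m1 : 0 ≤ (Mn N n : ℝ) ^ s₁ * Real.log (Mn N n) ^ a₁ := by positivity
    have m2 : 0 ≤ (Mn N n : ℝ) ^ s₂ * Real.log (Mn N n) ^ a₂ := by positivity
    have m3 : 0 ≤ (Mn N n : ℝ) ^ s₃ * Real.log (Mn N n) ^ a₃ := by positivity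
    have hprod : (Mn N n : ℝ) ^ σ * Real.log (Mn N n) ^ p
        ≤ (5 ^ |s₁| * wt s₁ a₁ ((Mn N n : ℤ) • d₁)) * (5 ^ |s₂| * wt s₂ a₂ ((Mn N n : ℤ) • d₂))
          * (5 ^ |s₃| * wt s₃ a₃ ((Mn N n : ℤ) • d₃)) := by
      rw [hσ]
      exact mul_le_mul (mul_le_mul e1 e2 m2 (by positivity)) e3 m3 (by positivity)
    calc _ ≤ (g * ((Mn N n : ℝ) ^ σ * Real.log (Mn N n) ^ p)) * (un u ((Mn N n : ℤ) • d₁)
          * un v ((Mn N n : ℤ) • d₂) * un w ((Mn N n : ℤ) • d₃)) :=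
          mul_le_mul_of_nonneg_right (hcn n) (by positivity)
      _ ≤ (g * ((5 ^ |s₁| * wt s₁ a₁ ((Mn N n : ℤ) • d₁)) * (5 ^ |s₂| * wt s₂ a₂ ((Mn N n : ℤ) • d₂))
          * (5 ^ |s₃| * wt s₃ a₃ ((Mn N n : ℤ) • d₃)))) * (un u ((Mn N n : ℤ) • d₁)
          * un v ((Mn N n : ℤ) • d₂) * un w ((Mn N n : ℤ) • d₃)) :=
          mul_le_mul_of_nonneg_right (mul_le_mul_of_nonneg_left hprod hg) (by positivity)
      _ = _ := by
          simp only [hA, hB, hC]
          rw [Real.rpow_add (by norm_num), Real.rpow_add (by norm_num)]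
          ring
  have hsum := Summable.of_nonneg_of_le (fun n => mul_nonneg (abs_nonneg _)
    (mul_nonneg (mul_nonneg (un_nonneg u _) (un_nonneg v _)) (un_nonneg w _))) key
    (k1.mul_left (g * 5 ^ (|s₁| + |s₂| + |s₃|)))
  refine ⟨hsum, (hsum.tsum_le_tsum key (k1.mul_left _)).trans ?_⟩
  rw [tsum_mul_left]
  exact mul_le_mul_of_nonneg_left k2 (by positivity)

end Pool.Agent.N977.Q
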