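import Pool.Agent.N977.Q.Hop2

/-!
The perturbation belongs to the class.
-/

open MeasureTheory Set Filter Topology
open scoped ContDiff

namespace Pool.Agent.N977.Q

open H459R3.NS

variable {ι : Type} [Fintype ι] {P Q : ι → K3} {c : ℕ → ι → ℝ} {N : ℕ} {G : ℝ}

theorem KH_bound (hG : Gq P Q c N G)
    (hl : ∀ i, len (P i) ≤ 5 ∧ len (Q i) ≤ 5 ∧ len (thd (P i) (Q i)) ≤ 5) {g σ p : ℝ} (hg : 0 ≤ g)
    (hcn : ∀ n i, |c n i| ≤ g * ((Mn N n : ℝ) ^ σ * Real.log (Mn N n) ^ p))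
    {s₁ s₂ s₃ a₁ a₂ a₃ : ℝ} (hs : s₁ + s₂ + s₃ = σ) (h1 : 0 ≤ a₁) (h2 : 0 ≤ a₂) (h3 : 0 ≤ a₃)
    (ha : a₁ + a₂ + a₃ = p) {u v w : V → V} (hu : SPV u) (hv : SPV v) (hw : SPV w) :
    |∑ a, ∫ x in cube, KH P Q c N u v x a * w x a|
      ≤ (Fintype.card ι * (10 * g)) * 5 ^ (|s₁| + |s₂| + |s₃|)
        * (Hn s₁ a₁ u * Hn s₂ a₂ v * Hn s₃ a₃ w) := by
  have hN := hG.N3
  set R := g * 5 ^ (|s₁| + |s₂| + |s₃|) * (Hn s₁ a₁ u * Hn s₂ a₂ v * Hn s₃ a₃ w) with hR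
  have X : ∀ i {d₁ d₂ d₃ : K3}, d₁ ≠ 0 → d₂ ≠ 0 → d₃ ≠ 0 → len d₁ ≤ 5 → len d₂ ≤ 5 → len d₃ ≤ 5 →
      Summable (fun n => |c n i| * (un u ((Mn N n : ℤ) • d₁) * un v ((Mn N n : ℤ) • d₂)
        * un w ((Mn N n : ℤ) • d₃))) ∧
      ∑' n, |c n i| * (un u ((Mn N n : ℤ) • d₁) * un v ((Mn N n : ℤ) • d₂)
        * un w ((Mn N n : ℤ) • d₃)) ≤ R := fun i _ _ _ k1 k2 k3 l1 l2 l3 =>
    tri_sum hN hg (fun n => hcn n i) hs h1 h2 h3 ha hu hv hw k1 k2 k3 l1 l2 l3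
  -- the bound for one triad
  set Y : ι → ℕ → ℝ := fun i n => |c n i| * |Tt ((Mn N n : ℤ) • P i) ((Mn N n : ℤ) • Q i) u v w| with hY
  have hYs : ∀ i, Summable (Y i) ∧ ∑' n, Y i n ≤ 10 * R := by
    intro i
    have hp := (hG.td i).p0
    have hq := (hG.td i).q0
    have hr := (hG.td i).r0
    obtain ⟨lp, lq, lr⟩ := hl i
    obtain ⟨x1, y1⟩ := X i hp hq hr lp lq lr
    obtain ⟨x2, y2⟩ := X i hq hp hr lq lp lr
    obtain ⟨x3, y3⟩ := X i hp hr hq lp lr lq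
    obtain ⟨x4, y4⟩ := X i hr hp hq lr lp lq
    obtain ⟨x5, y5⟩ := X i hq hr hp lq lr lp
    obtain ⟨x6, y6⟩ := X i hr hq hp lr lq lp
    have hle : ∀ n, Y i n ≤ (((((|c n i| * (un u ((Mn N n : ℤ) • P i) * un v ((Mn N n : ℤ) • Q i)
          * un w ((Mn N n : ℤ) • thd (P i) (Q i))))
        + 2 * (|c n i| * (un u ((Mn N n : ℤ) • Q i) * un v ((Mn N n : ℤ) • P i)
          * un w ((Mn N n : ℤ) • thd (P i) (Q i)))))
        + (|c n i| * (un u ((Mn N n : ℤ) • P i) * un v ((Mn N n : ℤ) • thd (P i) (Q i))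
          * un w ((Mn N n : ℤ) • Q i))))
        + 2 * (|c n i| * (un u ((Mn N n : ℤ) • thd (P i) (Q i)) * un v ((Mn N n : ℤ) • P i)
          * un w ((Mn N n : ℤ) • Q i))))
        + 2 * (|c n i| * (un u ((Mn N n : ℤ) • Q i) * un v ((Mn N n : ℤ) • thd (P i) (Q i))
          * un w ((Mn N n : ℤ) • P i))))
        + 2 * (|c n i| * (un u ((Mn N n : ℤ) • thd (P i) (Q i)) * un v ((Mn N n : ℤ) • Q i)
          * un w ((Mn N n : ℤ) • P i))) := by
      intro n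
      have hT := Tt_le (hG.tdn n i) u v w
      have hthd : thd ((Mn N n : ℤ) • P i) ((Mn N n : ℤ) • Q i) = (Mn N n : ℤ) • thd (P i) (Q i) :=
        (thd_smul _ _ _).symm
      simp only [bt, Matrix.cons_val_zero, Matrix.cons_val_one, Matrix.cons_val, hthd] at hT
      have := mul_le_mul_of_nonneg_left hT (abs_nonneg (c n i))
      simp only [hY]
      refine this.trans (le_of_eq ?_)
      ring
    have hs1 := ((((x1.add (x2.mul_left 2)).add x3).add (x4.mul_left 2)).add (x5.mul_left 2)).add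
      (x6.mul_left 2)
    have hYsum : Summable (Y i) := Summable.of_nonneg_of_le
      (fun n => mul_nonneg (abs_nonneg _) (abs_nonneg _)) hle hs1
    refine ⟨hYsum, (hYsum.tsum_le_tsum hle hs1).trans ?_⟩
    rw [((((x1.add (x2.mul_left 2)).add x3).add (x4.mul_left 2)).add (x5.mul_left 2)).tsum_add
      (x6.mul_left 2), (((x1.add (x2.mul_left 2)).add x3).add (x4.mul_left 2)).tsum_add
      (x5.mul_left 2), ((x1.add (x2.mul_left 2)).add x3).tsum_add (x4.mul_left 2),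
      (x1.add (x2.mul_left 2)).tsum_add x3, x1.tsum_add (x2.mul_left 2), tsum_mul_left,
      tsum_mul_left, tsum_mul_left, tsum_mul_left]
    linarith
  have hsum := hasSum_sum (s := Finset.univ) fun i (_ : i ∈ Finset.univ) => (hYs i).1.hasSum
  have key := KH_tri hG hu hv hw
  have h4 := tsum_of_norm_bounded (f := fun n => ∑ i, c n i *
    Tt ((Mn N n : ℤ) • P i) ((Mn N n : ℤ) • Q i) u v w) hsum (fun n => by
      rw [Real.norm_eq_abs]
      refine (Finset.abs_sum_le_sum_abs _ _).trans (le_of_eq ?_)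
      exact Finset.sum_congr rfl fun i _ => abs_mul _ _)
  rw [key.tsum_eq, Real.norm_eq_abs] at h4
  refine h4.trans ?_
  calc ∑ i, ∑' n, Y i n ≤ ∑ _i : ι, 10 * R := Finset.sum_le_sum fun i _ => (hYs i).2
    _ = _ := by
        rw [Finset.sum_const, Finset.card_univ, nsmul_eq_mul, hR]
        ring

/-- the perturbation belongs to the class -/
theorem KH_low (hG : Gq P Q c N G)
    (hl : ∀ i, len (P i) ≤ 5 ∧ len (Q i) ≤ 5 ∧ len (thd (P i) (Q i)) ≤ 5) {g σ p δ : ℝ} (hg : 0 ≤ g)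
    (hcn : ∀ n i, |c n i| ≤ g * ((Mn N n : ℝ) ^ σ * Real.log (Mn N n) ^ p))
    (hδ : Fintype.card ι * (10 * g) ≤ δ) : Low σ p δ (KH P Q c N) where
  smooth := fun _ _ hu hv => KH_spv hG hu hv
  add_left := fun _ _ _ hu hu' hv => KH_add_left hG hu hu' hv
  add_right := fun _ _ _ hu hv hv' => KH_add_right hG hu hv hv'
  smul_left := fun r u v _ _ => KH_smul_left r u v
  smul_right := fun r u v _ _ => KH_smul_right r u v
  shift := fun b _ _ hu hv => KH_shift b hu hv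
  const_left := fun b _ v hu _ => KH_const_left hG b hu v
  const_right := fun b u _ _ hv => KH_const_right hG b u hv
  divfree := fun _ _ hu hv x => KH_divfree hG hu hv x
  energy := fun _ _ hu hv => KH_energy hG hu hv
  helicity := fun _ _ hu hv => KH_helicity hG hu hv
  bound := fun u v w hu hv hw s₁ s₂ s₃ a₁ a₂ a₃ hs h1 h2 h3 ha => by
    refine (KH_bound hG hl hg hcn hs h1 h2 h3 ha hu hv hw).trans ?_
    have hH := mul_nonneg (mul_nonneg (Hn_nonneg s₁ a₁ u) (Hn_nonneg s₂ a₂ v)) (Hn_nonneg s₃ a₃ w)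
    exact mul_le_mul_of_nonneg_right (mul_le_mul_of_nonneg_right hδ (by positivity)) hH

end Pool.Agent.N977.Q
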