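import Pool.Agent.N977.Q.Nrm

/-!
Lacunary Fourier series.
-/

open MeasureTheory Set Filter Topology
open scoped ContDiff

namespace Pool.Agent.N977.Q

open H459R3.NS

/-- rapidly decreasing sequences of coefficients -/
def Ld (N : ℕ) (z : ℕ → ℂ) : Prop := ∀ s : ℕ, ∃ C, ∀ n, (Mn N n : ℝ) ^ s * ‖z n‖ ≤ C

/-- the lacunary series in the direction `k` -/
noncomputable def Ls (N : ℕ) (k : K3) (z : ℕ → ℂ) (x : V) : ℝ :=
  ∑' n, Rm ((Mn N n : ℤ) • k) (z n) x

variable {N : ℕ} {z z' : ℕ → ℂ} {k : K3}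

theorem Ld.summable (hN : 0 < N) (h : Ld N z) : Summable fun n => ‖z n‖ := by
  obtain ⟨C, hC⟩ := h 1
  refine Summable.of_nonneg_of_le (fun n => norm_nonneg _) (fun n => ?_)
    (summable_geometric_two.mul_left C)
  have hM : (0 : ℝ) < Mn N n := by exact_mod_cast Mn_pos hN n
  have h1 := hC n
  have h2 := two_pow_le_Mn hN n
  rw [pow_one] at h1
  have hC0 : 0 ≤ C := le_trans (by positivity) h1
  calc ‖z n‖ ≤ C / Mn N n := by rw [le_div_iff₀ hM, mul_comm]; exact h1
    _ ≤ C / 2 ^ n := div_le_div_of_nonneg_left hC0 (by positivity) h2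
    _ = C * (1 / 2) ^ n := by rw [one_div_pow]; ring

theorem Ld.sum (hN : 0 < N) (h : Ld N z) (k : K3) (x : V) :
    Summable fun n => Rm ((Mn N n : ℤ) • k) (z n) x :=
  Summable.of_norm_bounded (g := fun n => ‖z n‖) (h.summable hN) fun n => abs_Rm_le _ _ _

theorem Ls_add (hN : 0 < N) (h : Ld N z) (h' : Ld N z') (x : V) :
    Ls N k (fun n => z n + z' n) x = Ls N k z x + Ls N k z' x := by
  unfold Ls
  rw [← (h.sum hN k x).tsum_add (h'.sum hN k x)]
  exact tsum_congr fun n => Rm_add _ _ _ _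

theorem Ls_smul (r : ℝ) (x : V) : Ls N k (fun n => (r : ℂ) * z n) x = r * Ls N k z x := by
  unfold Ls
  rw [← tsum_mul_left]
  exact tsum_congr fun n => Rm_smul _ _ _ _

theorem Rm_shift (k : K3) (a : ℂ) (x b : V) : Rm k (ee k b * a) x = Rm k a (x + b) := by
  unfold Rm
  rw [ee_add]
  congr 1
  ring

theorem Ls_shift (b : V) (x : V) :
    Ls N k (fun n => ee ((Mn N n : ℤ) • k) b * z n) x = Ls N k z (x + b) := by
  unfold Ls
  exact tsum_congr fun n => Rm_shift _ _ _ _

theorem Ls_sp (hN : 0 < N) (h : Ld N z) (k : K3) : SP (Ls N k z) where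
  smooth := Rm_series_smooth hN k h
  per := by
    intro i x
    unfold Ls
    exact tsum_congr fun n => by rw [Rm_per _ _ i x]

theorem Ls_int (hN : 0 < N) (h : Ld N z) (k : K3) {f : V → ℝ} (hf : Continuous f) :
    HasSum (fun n => (z n * fr f (-((Mn N n : ℤ) • k))).re) (∫ x in cube, Ls N k z x * f x) := by
  have hint : ∀ n, Integrable (fun x => Rm ((Mn N n : ℤ) • k) (z n) x * f x)
      (volume.restrict cube) := fun n => integrableOn_cube ((Rm_cont _ _).mul hf)
  have hhi : IntegrableOn (fun x => |f x|) cube := integrableOn_cube hf.abs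
  have hs : Summable fun n => ∫ x in cube, ‖Rm ((Mn N n : ℤ) • k) (z n) x * f x‖ := by
    refine Summable.of_nonneg_of_le (f := fun n : ℕ => ‖z n‖ * ∫ x in cube, |f x|)
      (fun n => integral_nonneg fun x => norm_nonneg _) (fun n => ?_)
      ((h.summable hN).mul_right _)
    rw [← integral_const_mul]
    refine integral_mono (hint n).norm (hhi.const_mul _) fun x => ?_
    simp only [norm_mul, Real.norm_eq_abs]
    exact mul_le_mul_of_nonneg_right (abs_Rm_le _ _ _) (abs_nonneg _)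
  have key := hasSum_integral_of_summable_integral_norm hint hs
  simp_rw [int_Rm_mul _ _ hf] at key
  have e : (∫ x in cube, ∑' n, Rm ((Mn N n : ℤ) • k) (z n) x * f x)
      = ∫ x in cube, Ls N k z x * f x := by
    congr 1
    funext x
    unfold Ls
    rw [tsum_mul_right]
  rwa [e] at key

/-! ### Fourier coefficients of vector fields -/

/-- the length of the Fourier coefficient -/
noncomputable def un (u : V → V) (k : K3) : ℝ := √(∑ i, ‖fr (fun x => u x i) k‖ ^ 2)

theorem un_nonneg (u : V → V) (k : K3) : 0 ≤ un u k := Real.sqrt_nonneg _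

theorem un_sq (u : V → V) (k : K3) : un u k ^ 2 = ∑ i, ‖fr (fun x => u x i) k‖ ^ 2 :=
  Real.sq_sqrt (Finset.sum_nonneg fun i _ => sq_nonneg _)

theorem fr_le_un (u : V → V) (k : K3) (i : Fin 3) : ‖fr (fun x => u x i) k‖ ≤ un u k := by
  apply Real.le_sqrt_of_sq_le
  exact Finset.single_le_sum (f := fun i => ‖fr (fun x => u x i) k‖ ^ 2)
    (fun i _ => sq_nonneg _) (Finset.mem_univ i)

theorem un_le_sum (u : V → V) (k : K3) : un u k ≤ ∑ i, ‖fr (fun x => u x i) k‖ := by
  unfold un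
  rw [Real.sqrt_le_left (Finset.sum_nonneg fun i _ => norm_nonneg _)]
  simp only [Fin.sum_univ_three]
  nlinarith [norm_nonneg (fr (fun x => u x 0) k), norm_nonneg (fr (fun x => u x 1) k),
    norm_nonneg (fr (fun x => u x 2) k),
    mul_nonneg (norm_nonneg (fr (fun x => u x 0) k)) (norm_nonneg (fr (fun x => u x 1) k)),
    mul_nonneg (norm_nonneg (fr (fun x => u x 0) k)) (norm_nonneg (fr (fun x => u x 2) k)),
    mul_nonneg (norm_nonneg (fr (fun x => u x 1) k)) (norm_nonneg (fr (fun x => u x 2) k))]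

theorem un_decay {u : V → V} (hu : SPV u) (s : ℕ) :
    ∃ C, 0 ≤ C ∧ ∀ k, (H459R3.NS.N k : ℝ) ^ s * un u k ≤ C := by
  choose B hB0 hB using fun i => exists_Fb (spv_sp hu i) s
  refine ⟨∑ i, B i, Finset.sum_nonneg fun i _ => hB0 i, fun k => ?_⟩
  refine (mul_le_mul_of_nonneg_left (un_le_sum u k) (by positivity)).trans ?_
  rw [Finset.mul_sum]
  exact Finset.sum_le_sum fun i _ => hB i k

theorem un_decay' {u : V → V} (hu : SPV u) (s : ℕ) {d : K3} (hd : d ≠ 0) :
    ∃ C, 0 ≤ C ∧ ∀ M : ℕ, (M : ℝ) ^ s * un u ((M : ℤ) • d) ≤ C := by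
  obtain ⟨C, hC0, hC⟩ := un_decay hu s
  refine ⟨C, hC0, fun M => ?_⟩
  refine le_trans (mul_le_mul_of_nonneg_right ?_ (un_nonneg _ _)) (hC ((M : ℤ) • d))
  exact pow_le_pow_left₀ (Nat.cast_nonneg _) (by exact_mod_cast natCast_le_N hd) s

theorem Hn_sq_un (s a : ℝ) (u : V → V) : Hn s a u ^ 2 = ∑' k, (wt s a k * un u k) ^ 2 := by
  rw [Hn_sq]
  refine tsum_congr fun k => ?_
  rw [mul_pow, un_sq, Finset.mul_sum]
  exact Finset.sum_congr rfl fun i _ => by ring

theorem wun_summable {u : V → V} (hu : SPV u) (s a : ℝ) :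
    Summable fun k => (wt s a k * un u k) ^ 2 := by
  refine (Hn_summable hu s a).congr fun k => ?_
  rw [mul_pow, un_sq, Finset.mul_sum]
  exact Finset.sum_congr rfl fun i _ => by ring

theorem wun_seq {u : V → V} (hu : SPV u) (s a : ℝ) {k : ℕ → K3} (hk : Function.Injective k) :
    Summable (fun n => (wt s a (k n) * un u (k n)) ^ 2) ∧
    ∑' n, (wt s a (k n) * un u (k n)) ^ 2 ≤ Hn s a u ^ 2 := by
  have h1 := wun_summable hu s a
  refine ⟨h1.comp_injective hk, ?_⟩
  rw [Hn_sq_un]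
  exact tsum_comp_le_tsum_of_inj h1 (fun k => sq_nonneg _) hk

theorem wun_le {u : V → V} (hu : SPV u) (s a : ℝ) (k : K3) : wt s a k * un u k ≤ Hn s a u := by
  have h1 := (wun_summable hu s a).le_tsum k fun _ _ => sq_nonneg _
  rw [← Hn_sq_un] at h1
  exact (sq_le_sq₀ (mul_nonneg (wt_nonneg _ _ _) (un_nonneg _ _)) (Hn_nonneg _ _ _)).1 h1

end Pool.Agent.N977.Q
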