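import Pool.Agent.N977.Q.Eval
import Pool.Agent.N977.Q.Uniq

/-!
From the solutions of the cascade to solutions of the partial differential equation.
-/

open MeasureTheory Set Filter Topology
open scoped ContDiff

namespace Pool.Agent.N977.Q

open H459R3.NS

section deriv

variable {T : ℝ} {M : ℕ → ℝ} {g g' : ℕ → ℝ → ℝ} {φ : ℝ → ℝ} {ℓ : V →L[ℝ] ℝ}

theorem fs_hasDerivAt_time (hM : Me M) (hφ : Bd φ) (hg : RT T M g) (hg' : RT T M g')
    (hd : ∀ n, ∀ t ∈ Ico 0 T, HasDerivWithinAt (g n) (g' n t) (Ico 0 T) t) {t : ℝ}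
    (ht : t ∈ Ioo 0 T) (x : V) :
    HasDerivAt (fun s => Fs φ M ℓ g (s, x)) (Fs φ M ℓ g' (t, x)) t := by
  have h1 := fs_hasFDerivWithinAt (ℓ := ℓ) hM hφ hg hg' hd (z := (t, x))
    ⟨Ioo_subset_Ico_self ht, mem_univ _⟩
  have hn : Ico 0 T ×ˢ (univ : Set V) ∈ 𝓝 (t, x) :=
    prod_mem_nhds (Ico_mem_nhds ht.1 ht.2) univ_mem
  have h2 := h1.hasFDerivAt hn
  have h3 : HasDerivAt (fun s : ℝ => (s, x)) ((1 : ℝ), (0 : V)) t :=
    (hasDerivAt_id t).prodMk (hasDerivAt_const t x)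
  have h4 := h2.comp_hasDerivAt t h3
  refine h4.congr_deriv ?_
  simp

theorem fs_hasFDerivAt_space (hM : Me M) (hφ : Bd φ) (hg : Dk T M 1 g) {t : ℝ}
    (ht : t ∈ Ico 0 T) (x : V) :
    HasFDerivAt (fun y => Fs φ M ℓ g (t, y))
      (Fs (deriv φ) M ℓ (fun n t => M n * g n t) (t, x) • ℓ) x := by
  obtain ⟨h0, g', hd, h2⟩ := hg
  have h1 := fs_hasFDerivWithinAt (ℓ := ℓ) hM hφ h0 h2.rt hd (z := (t, x)) ⟨ht, mem_univ _⟩
  have h3 : HasFDerivWithinAt (fun y : V => (t, y)) (ContinuousLinearMap.inr ℝ ℝ V) univ x :=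
    (hasFDerivAt_prodMk_right t x).hasFDerivWithinAt
  have h4 := h1.comp x h3 (fun y _ => ⟨ht, mem_univ _⟩)
  have h5 := hasFDerivWithinAt_univ.1 h4
  refine h5.congr_fderiv ?_
  ext v
  simp

theorem lf_single (k : K3) (j : Fin 3) : lf k (Pi.single j 1) = 2 * Real.pi * (k j : ℝ) := by
  rw [lf_apply, ph_single, mul_one]

theorem fs_pd (hM : Me M) (hφ : Bd φ) (hg : Dk T M 1 g) {t : ℝ} (ht : t ∈ Ico 0 T) (k : K3)
    (j : Fin 3) (x : V) : pd j (fun y => Fs φ M (lf k) g (t, y)) x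
      = 2 * Real.pi * (k j : ℝ) * Fs (deriv φ) M (lf k) (fun n t => M n * g n t) (t, x) := by
  unfold pd
  rw [(fs_hasFDerivAt_space hM hφ hg ht x).fderiv]
  rw [smul_apply, lf_single, smul_eq_mul, mul_comm]

theorem Dk.mulM {m : ℕ} (hM : Me M) (hg : Dk T M m g) : Dk T M m (fun n t => M n * g n t) :=
  hg.coef hM.toMw (D := 1) (q := 1) (fun n => by
    rw [one_mul, pow_one, abs_of_nonneg (by linarith [hM.one n])])

theorem fs_smul (r : ℝ) (g : ℕ → ℝ → ℝ) (z : ℝ × V) :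
    Fs φ M ℓ (fun n t => r * g n t) z = r * Fs φ M ℓ g z := by
  unfold Fs
  rw [← tsum_mul_left]
  exact tsum_congr fun n => by ring

theorem fs_neg_fun (g : ℕ → ℝ → ℝ) (z : ℝ × V) :
    Fs (fun s => -φ s) M ℓ g z = -Fs φ M ℓ g z := by
  unfold Fs
  rw [← tsum_neg]
  exact tsum_congr fun n => by ring

theorem fs_lap (hM : Me M) (hg : Dk T M 1 g) {t : ℝ} (ht : t ∈ Ico 0 T) (k : K3) (x : V) :
    lap (fun y => Fs Real.cos M (lf k) g (t, y)) x
      = -((2 * Real.pi) ^ 2 * ∑ j, (k j : ℝ) ^ 2) *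
        Fs Real.cos M (lf k) (fun n t => M n * (M n * g n t)) (t, x) := by
  unfold lap
  have h1 : ∀ j, pd j (pd j (fun y => Fs Real.cos M (lf k) g (t, y))) x
      = -((2 * Real.pi * (k j : ℝ)) ^ 2 *
        Fs Real.cos M (lf k) (fun n t => M n * (M n * g n t)) (t, x)) := by
    intro j
    have e1 : pd j (fun y => Fs Real.cos M (lf k) g (t, y)) = fun y =>
        Fs (deriv Real.cos) M (lf k) (fun n t => 2 * Real.pi * (k j : ℝ) * (M n * g n t)) (t, y) := by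
      funext y
      rw [fs_pd hM bd_cos hg ht, fs_smul]
    have hg2 : Dk T M 1 (fun n t => 2 * Real.pi * (k j : ℝ) * (M n * g n t)) :=
      (hg.mulM hM).coef hM.toMw (c := fun _ => 2 * Real.pi * (k j : ℝ))
        (D := |2 * Real.pi * (k j : ℝ)|) (q := 0) (fun n => by simp)
    rw [e1, fs_pd hM bd_cos.deriv hg2 ht]
    have e2 : deriv (deriv Real.cos) = fun s => -Real.cos s := by
      rw [Real.deriv_cos']
      funext s
      simp
    rw [e2, fs_neg_fun]
    have e3 : Fs Real.cos M (lf k) (fun n t => M n * (2 * Real.pi * (k j : ℝ) * (M n * g n t))) (t, x)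
        = 2 * Real.pi * (k j : ℝ) *
          Fs Real.cos M (lf k) (fun n t => M n * (M n * g n t)) (t, x) := by
      rw [← fs_smul]
      unfold Fs
      exact tsum_congr fun n => by ring
    rw [e3]
    ring
  simp_rw [h1]
  rw [Finset.sum_neg_distrib, ← Finset.sum_mul, Finset.mul_sum]
  simp_rw [mul_pow]
  ring

end deriv

variable {N : ℕ} {T : ℝ}

/-- the amplitudes -/
noncomputable def AM (x y : ℕ → ℝ → ℝ) : Fin 6 → ℕ → ℝ → ℝ :=
  ![x, x, fun n t => y n t / √2, fun n t => y n t / √2, fun n t => y n t / √2,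
    fun n t => y n t / √2]

theorem AM_amp (x y : ℕ → ℝ → ℝ) (e : Fin 6) (n : ℕ) (t : ℝ) :
    AM x y e n t = amp (fun n => x n t) (fun n => y n t) e n := by
  fin_cases e <;> rfl

/-- the solution of the scalar equation -/
noncomputable def ww (N : ℕ) (x y : ℕ → ℝ → ℝ) (t : ℝ) (z : V) : ℝ :=
  ∑ e, Fs Real.cos (fun n => (Mn N n : ℝ)) (lf (ev e)) (AM x y e) (t, z)

/-- the velocity -/
noncomputable def uu (N : ℕ) (x y : ℕ → ℝ → ℝ) (t : ℝ) (z : V) : V := fun i =>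
  if i = 2 then ww N x y t z else 0

theorem ww_eq_Wf (x y : ℕ → ℝ → ℝ) (t : ℝ) :
    ww N x y t = Wf N (amp (fun n => x n t) (fun n => y n t)) := by
  funext z
  unfold ww Wf Fs Cm
  refine Finset.sum_congr rfl fun e _ => tsum_congr fun n => ?_
  rw [AM_amp]

theorem sqrt2_inv_le (n : ℕ) (w : ℕ → ℝ) : |1 / √2| ≤ 1 * w n ^ 0 := by
  have h1 : (1 : ℝ) ≤ √2 := by rw [Real.one_le_sqrt]; norm_num
  rw [abs_of_nonneg (by positivity), pow_zero, mul_one, div_le_one (by positivity)]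
  exact h1

theorem AM_dk {M : ℕ → ℝ} (hM : Me M) {x y : ℕ → ℝ → ℝ} {m : ℕ} (hx : Dk T M m x)
    (hy : Dk T M m y) (e : Fin 6) : Dk T M m (AM x y e) := by
  have h1 : Dk T M m (fun n t => y n t / √2) :=
    (hy.coef hM.toMw (c := fun _ => 1 / √2) (D := 1) (q := 0)
      (fun n => sqrt2_inv_le n M)).congr fun n t => by ring
  fin_cases e
  · exact hx
  · exact hx
  · exact h1
  · exact h1
  · exact h1
  · exact h1

theorem AM_der {x y x' y' : ℕ → ℝ → ℝ} {s : Set ℝ} {t : ℝ} (n : ℕ)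
    (hx : HasDerivWithinAt (x n) (x' n t) s t) (hy : HasDerivWithinAt (y n) (y' n t) s t)
    (e : Fin 6) : HasDerivWithinAt (AM x y e n) (AM x' y' e n t) s t := by
  fin_cases e
  · exact hx
  · exact hx
  · exact hy.div_const _
  · exact hy.div_const _
  · exact hy.div_const _
  · exact hy.div_const _

theorem sa_amp {M : ℕ → ℝ} (hM : Me M) {x y : ℕ → ℝ → ℝ} {m : ℕ} (hx : Dk T M m x)
    (hy : Dk T M m y) {t : ℝ} (ht : t ∈ Ico 0 T) : Sa (amp (fun n => x n t) (fun n => y n t)) := by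
  intro e
  have h1 := (AM_dk hM hx hy e).rt
  obtain ⟨C, hC0, hC⟩ := h1.half hM 0 ht.2
  refine Summable.of_nonneg_of_le (fun n => abs_nonneg _) (fun n => ?_)
    (summable_geometric_two.mul_left C)
  have h2 := hC t ⟨ht.1, le_rfl⟩ n
  rw [pow_zero, one_mul, AM_amp] at h2
  exact h2

theorem Wf_hasSum {X Y : ℕ → ℝ} (ha : Sa (amp X Y)) (z : V) :
    HasSum (fun n => X n * XM N n z + Y n * YM N n z) (Wf N (amp X Y) z) := by
  have h1 := hasSum_sum (s := Finset.univ) fun e (_ : e ∈ Finset.univ) => (ha.summable (N := N) e z).hasSum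
  have h2 : (fun n => ∑ e, amp X Y e n * Cm N e n z)
      = fun n => X n * XM N n z + Y n * YM N n z := by
    funext n
    rw [Fin.sum_univ_six]
    simp only [amp, XM, YM]
    simp
    ring
  rw [h2] at h1
  exact h1

end Pool.Agent.N977.Q
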