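import Pool.Agent.N977.Q.Lift

/-!
From the solutions of the cascade to solutions of the partial differential equation: the equation.
-/

open MeasureTheory Set Filter Topology
open scoped ContDiff

namespace Pool.Agent.N977.Q

open H459R3.NS
open Pool.Agent.N977.K (SolK)

variable {N : ℕ} {T : ℝ} {d D α μ r : ℕ → ℝ} {x y : ℕ → ℝ → ℝ}

theorem hs_congr {f g : ℕ → ℝ} {a : ℝ} (h : HasSum f a) (e : ∀ n, g n = f n) : HasSum g a := by
  rw [show g = f from funext e]
  exact h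

theorem fs_per {M : ℕ → ℝ} (hM : ∃ m : ℕ → ℕ, ∀ n, M n = m n) (k : K3) (g : ℕ → ℝ → ℝ) (t : ℝ) :
    Per fun z => Fs Real.cos M (lf k) g (t, z) := by
  obtain ⟨m, hm⟩ := hM
  intro i z
  unfold Fs
  refine tsum_congr fun n => ?_
  simp only
  have h1 : (M n) * lf k (z + Pi.single i 1) = M n * lf k z + ((m n : ℤ) * k i : ℤ) * (2 * Real.pi) := by
    rw [map_add, lf_single, hm]
    push_cast
    ring
  rw [h1, Real.cos_add_int_mul_two_pi]

theorem ww_smooth {M : ℕ → ℝ} (hM : Me M) (hMN : M = fun n => (Mn N n : ℝ))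
    (hx : ∀ m, Dk T M m x) (hy : ∀ m, Dk T M m y) :
    ContDiffOn ℝ ∞ (fun z : ℝ × V => ww N x y z.1 z.2) (Ico 0 T ×ˢ univ) := by
  unfold ww
  refine ContDiffOn.sum fun e _ => ?_
  subst hMN
  exact fs_smooth hM (fun m => AM_dk hM (hx m) (hy m) e) bd_cos

theorem ww_sp {M : ℕ → ℝ} (hM : Me M) (hMN : M = fun n => (Mn N n : ℝ))
    (hx : ∀ m, Dk T M m x) (hy : ∀ m, Dk T M m y) {t : ℝ} (ht : t ∈ Ico 0 T) :
    SP (ww N x y t) where
  smooth := contDiff_slice (f := fun t z => ww N x y t z) (ww_smooth hM hMN hx hy) ht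
  per := by
    intro i z
    unfold ww
    exact Finset.sum_congr rfl fun e _ => fs_per ⟨fun n => Mn N n, fun n => rfl⟩ (ev e) _ t i z

theorem fs_sp {M : ℕ → ℝ} (hM : Me M) (hMN : M = fun n => (Mn N n : ℝ)) {g : ℕ → ℝ → ℝ}
    (hg : ∀ m, Dk T M m g) (k : K3) {t : ℝ} (ht : t ∈ Ico 0 T) :
    SP fun z => Fs Real.cos M (lf k) g (t, z) where
  smooth := contDiff_slice (f := fun t z => Fs Real.cos M (lf k) g (t, z))
    (fs_smooth hM hg bd_cos) ht
  per := fs_per ⟨fun n => Mn N n, fun n => by rw [hMN]⟩ k g t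

theorem ev_sq (e : Fin 6) : ∑ j, (ev e j : ℝ) ^ 2 = if e = 0 ∨ e = 1 then 4 else 5 := by
  fin_cases e <;> simp [ev, Fin.sum_univ_three] <;> norm_num

/-- the derivatives of the amplitudes -/
noncomputable def dx (d α : ℕ → ℝ) (x y : ℕ → ℝ → ℝ) (n : ℕ) (t : ℝ) : ℝ :=
  -(d n * x n t) + gf α y n t - α n * y n t ^ 2

noncomputable def dy (D α μ : ℕ → ℝ) (x y : ℕ → ℝ → ℝ) (n : ℕ) (t : ℝ) : ℝ :=
  -(D n * y n t) + α n * y n t * (x n t - x (n + 1) t) + gf μ y n t - μ n * y n t * y (n + 1) t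

/-- the scalar equation -/
theorem ww_eq {ν c G G' : ℝ} {q : ℕ} (hN : 0 < N) (hc : c = (2 * Real.pi) ^ 2 * ν)
    (h : Zs T (fun n => 4 * (c * (Mn N n : ℝ) ^ 2)) (fun n => 5 * (c * (Mn N n : ℝ) ^ 2)) α μ r x y)
    (hα : ∀ n, |α n| ≤ G * (Mn N n : ℝ) ^ q) (hμ : ∀ n, |μ n| ≤ G * (Mn N n : ℝ) ^ q)
    (hG : Gr PP QQ (cc α μ) N G')
    (hx : ∀ m, Dk T (fun n => (Mn N n : ℝ)) m x) (hy : ∀ m, Dk T (fun n => (Mn N n : ℝ)) m y)
    {t : ℝ} (ht : t ∈ Ioo 0 T) (z : V) :
    HasDerivAt (fun s => ww N x y s z) (ν * lap (ww N x y t) z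
      + kk PP QQ (cc α μ) N (ww N x y t) (ww N x y t) z) t := by
  set M : ℕ → ℝ := fun n => (Mn N n : ℝ) with hMdef
  have hM : Me M := Mn_me hN
  have htI : t ∈ Ico 0 T := Ioo_subset_Ico_self ht
  set x' := dx (fun n => 4 * (c * (Mn N n : ℝ) ^ 2)) α x y with hx'
  set y' := dy (fun n => 5 * (c * (Mn N n : ℝ) ^ 2)) α μ x y with hy'
  -- the derivatives decay rapidly
  have hyy := (hy 0).mul (hy 0) hM.toMw
  have hga : Dk T M 0 (gf α y) :=
    ((hyy.coef hM.toMw hα).prev hM.toMw).congr fun n t => gf_prv α y n t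
  have hgm : Dk T M 0 (gf μ y) :=
    ((hyy.coef hM.toMw hμ).prev hM.toMw).congr fun n t => gf_prv μ y n t
  have hneg : ∀ {c : ℕ → ℝ}, (∀ n, |c n| ≤ G * M n ^ q) → ∀ n, |-c n| ≤ G * M n ^ q :=
    fun hc n => by rw [abs_neg]; exact hc n
  have hcM : ∀ (b : ℝ) (n : ℕ), |-(b * (c * (Mn N n : ℝ) ^ 2))| ≤ |b * c| * M n ^ 2 := by
    intro b n
    rw [abs_neg, ← mul_assoc, abs_mul, abs_of_nonneg (by positivity : (0 : ℝ) ≤ (Mn N n : ℝ) ^ 2)]
  have hx'd : Dk T M 0 x' := by
    refine ((((hx 0).coef hM.toMw (hcM 4)).add hga hM.toMw).add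
      (hyy.coef hM.toMw (hneg hα)) hM.toMw).congr fun n t => ?_
    simp only [hx', dx]
    ring
  have hy'd : Dk T M 0 y' := by
    have hdx : Dk T M 0 (fun n t => x n t + (-1) * x (n + 1) t) :=
      (hx 0).add (((hx 0).next hM.toMw).coef hM.toMw (c := fun _ => -1) (D := 1) (q := 0)
        (by simp)) hM.toMw
    refine (((((hy 0).coef hM.toMw (hcM 5)).add ((((hy 0).mul hdx hM.toMw).coef hM.toMw hα))
      hM.toMw).add hgm hM.toMw).add (((hy 0).mul ((hy 0).next hM.toMw) hM.toMw).coef hM.toMw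
        (hneg hμ)) hM.toMw).congr fun n t => ?_
    simp only [hy', dy]
    ring
  -- the time derivative
  have hder : HasDerivAt (fun s => ww N x y s z)
      (∑ e, Fs Real.cos M (lf (ev e)) (AM x' y' e) (t, z)) t := by
    unfold ww
    refine HasDerivAt.fun_sum fun e _ => ?_
    exact fs_hasDerivAt_time hM bd_cos (AM_dk hM (hx 0) (hy 0) e).rt (AM_dk hM hx'd hy'd e).rt
      (fun n s hs => AM_der n (h.xd n s hs) (h.yd n s hs) e) ht z
  have hW' : (∑ e, Fs Real.cos M (lf (ev e)) (AM x' y' e) (t, z))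
      = Wf N (amp (fun n => x' n t) (fun n => y' n t)) z := by
    have := congrFun (ww_eq_Wf (N := N) x' y' t) z
    exact this
  have hsum' := Wf_hasSum (N := N) (sa_amp hM hx'd hy'd htI) z
  rw [← hW'] at hsum'
  -- the Laplacian
  have hMM : ∀ e, Dk T M 0 (fun n t => M n * (M n * AM x y e n t)) := fun e =>
    ((AM_dk hM (hx 0) (hy 0) e).mulM hM).mulM hM
  have hlap : HasSum (fun n => -((2 * Real.pi) ^ 2 * (M n ^ 2 *
      (4 * (x n t * XM N n z) + 5 * (y n t * YM N n z))))) (lap (ww N x y t) z) := by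
    have e1 : lap (ww N x y t) z = ∑ e, lap (fun y' => Fs Real.cos M (lf (ev e)) (AM x y e) (t, y')) z := by
      unfold lap
      rw [Finset.sum_comm]
      refine Finset.sum_congr rfl fun j _ => ?_
      have hsp : ∀ e ∈ (Finset.univ : Finset (Fin 6)),
          SP (fun y' => Fs Real.cos M (lf (ev e)) (AM x y e) (t, y')) := fun e _ =>
        fs_sp hM rfl (fun m => AM_dk hM (hx m) (hy m) e) (ev e) htI
      have e2 : pd j (ww N x y t) = fun y' => ∑ e, pd j (fun y' =>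
          Fs Real.cos M (lf (ev e)) (AM x y e) (t, y')) y' := by
        funext v
        have := pd_sum (s := Finset.univ) hsp j v
        exact this
      rw [e2, pd_sum (s := Finset.univ) (fun e he => (hsp e he).pd j) j z]
    rw [e1]
    have e3 : ∀ e, HasSum (fun n => -((2 * Real.pi) ^ 2 * ∑ j, (ev e j : ℝ) ^ 2) *
        (M n * (M n * AM x y e n t) * Real.cos (M n * lf (ev e) z)))
        (lap (fun y' => Fs Real.cos M (lf (ev e)) (AM x y e) (t, y')) z) := by
      intro e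
      rw [fs_lap hM (AM_dk hM (hx 1) (hy 1) e) htI]
      exact (fs_summable (ℓ := lf (ev e)) hM (hMM e).rt bd_cos.le htI z).hasSum.mul_left _
    have e4 := hasSum_sum (s := Finset.univ) fun e (_ : e ∈ Finset.univ) => e3 e
    refine hs_congr e4 fun n => ?_
    rw [Fin.sum_univ_six]
    simp only [ev_sq]
    simp [AM, XM, YM, Cm, hMdef]
    ring
  -- the operator
  have hsp := ww_sp hM rfl hx hy htI
  have hkk : HasSum (fun n => Lt PP QQ (cc α μ) N n (ww N x y t) (ww N x y t) z)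
      (kk PP QQ (cc α μ) N (ww N x y t) (ww N x y t) z) := (Lt_summable hG hsp hsp z).hasSum
  have hsa := sa_amp hM (hx 0) (hy 0) htI
  have hLt : ∀ n, Lt PP QQ (cc α μ) N n (ww N x y t) (ww N x y t) z
      = ((-(α n * y n t ^ 2)) * XM N n z
      + (α n * y n t * (x n t - x (n + 1) t) - μ n * y n t * y (n + 1) t) * YM N n z)
      + (gf α y (n + 1) t * XM N (n + 1) z + gf μ y (n + 1) t * YM N (n + 1) z) := by
    intro n
    rw [ww_eq_Wf]
    exact Lt_amp hN hsa α μ n z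
  simp_rw [hLt] at hkk
  have hB := Wf_hasSum (N := N) (sa_amp hM hga hgm htI) z
  set SB := Wf N (amp (fun n => gf α y n t) (fun n => gf μ y n t)) z with hSB
  have hB1 : HasSum (fun n => gf α y (n + 1) t * XM N (n + 1) z
      + gf μ y (n + 1) t * YM N (n + 1) z) SB := by
    have := (hasSum_nat_add_iff (f := fun n => gf α y n t * XM N n z + gf μ y n t * YM N n z)
      (g := SB) 1).2 (by simpa [gf] using hB)
    exact this
  have hA := hkk.sub hB1
  have htot := (hlap.mul_left ν).add (hA.add hB)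
  have hfin : HasSum (fun n => x' n t * XM N n z + y' n t * YM N n z)
      (ν * lap (ww N x y t) z + kk PP QQ (cc α μ) N (ww N x y t) (ww N x y t) z) := by
    have e5 : ν * lap (ww N x y t) z + (kk PP QQ (cc α μ) N (ww N x y t) (ww N x y t) z - SB + SB)
        = ν * lap (ww N x y t) z + kk PP QQ (cc α μ) N (ww N x y t) (ww N x y t) z := by ring
    rw [e5] at htot
    refine hs_congr htot fun n => ?_
    simp only [hx', hy', dx, dy, hMdef, hc]
    ring
  rw [hsum'.unique hfin] at hder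
  exact hder

end Pool.Agent.N977.Q
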