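import Pool.Agent.N977.Q.Cst
import Pool.Agent.N977.Q.Boot

/-!
Finite time blow-up.
-/

open MeasureTheory Set Filter Topology
open scoped ContDiff

namespace Pool.Agent.N977.Q

open H459R3.NS
open Pool.Agent.N977.K (SolK)

theorem ww_zero {N : ℕ} {T : ℝ} {d D α μ r : ℕ → ℝ} {x y : ℕ → ℝ → ℝ} (h : Zs T d D α μ r x y)
    (z : V) : ww N x y 0 z = dat N z 2 := by
  have e0 : Mn N 0 = N := by unfold Mn; simp
  have h1 : ww N x y 0 z = ∑ e, amp (fun n => x n 0) (fun n => y n 0) e 0 * Cm N e 0 z := by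
    rw [ww_eq_Wf]
    unfold Wf
    refine Finset.sum_congr rfl fun e _ => ?_
    refine tsum_eq_single 0 fun n hn => ?_
    obtain ⟨m, rfl⟩ := Nat.exists_eq_succ_of_ne_zero hn
    have : amp (fun n => x n 0) (fun n => y n 0) e (m + 1) = 0 := by
      fin_cases e <;> simp [amp, h.xs, h.ys]
    rw [Nat.succ_eq_add_one, this, zero_mul]
  rw [h1]
  unfold Cm dat
  simp only [e0, lf_apply, ph, ev, Fin.sum_univ_six, Fin.sum_univ_three, amp]
  simp
  have a1 : ∀ c : ℝ, (N : ℝ) * (2 * Real.pi * c) = 2 * Real.pi * N * c := fun c => by ring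
  have a2 : (N : ℝ) * (2 * Real.pi * (2 * z 0)) = 4 * Real.pi * N * z 0 := by ring
  have a3 : (N : ℝ) * (2 * Real.pi * (2 * z 1)) = 4 * Real.pi * N * z 1 := by ring
  rw [a2, a3]
  simp only [a1]
  have b1 : 2 * z 0 + -z 1 = 2 * z 0 - z 1 := by ring
  have b2 : z 0 + -(2 * z 1) = z 0 - 2 * z 1 := by ring
  rw [b1, b2, h.x0, h.y0]
  field_simp
  ring

theorem uu_zero {N : ℕ} {T : ℝ} {d D α μ r : ℕ → ℝ} {x y : ℕ → ℝ → ℝ} (h : Zs T d D α μ r x y)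
    (z : V) : uu N x y 0 z = dat N z := by
  funext i
  by_cases hi : i = 2
  · subst hi
    exact (congrFun (uu_two x y 0) z).trans (ww_zero h z)
  · rw [congrFun (uu_ne x y 0 hi) z]
    fin_cases i
    · rfl
    · rfl
    · exact absurd rfl hi

theorem sol_restrict {ν T T' : ℝ} {K : (V → V) → (V → V) → V → V} {u : ℝ → V → V} {p : ℝ → V → ℝ}
    (h : SolK ν T K u p) (hT : T' ≤ T) : SolK ν T' K u p where
  smooth_u := h.smooth_u.mono (prod_mono (Ico_subset_Ico_right hT) subset_rfl)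
  smooth_p := h.smooth_p.mono (prod_mono (Ico_subset_Ico_right hT) subset_rfl)
  per_u := fun t ht => h.per_u t (Ico_subset_Ico_right hT ht)
  per_p := fun t ht => h.per_p t (Ico_subset_Ico_right hT ht)
  divfree := fun t ht => h.divfree t (Ico_subset_Ico_right hT ht)
  momentum := fun t ht => h.momentum t (Ioo_subset_Ioo_right hT ht)

/-- the Fourier coefficients of the solution -/
theorem fr_uu {N : ℕ} {T : ℝ} (hN : 0 < N) {x y : ℕ → ℝ → ℝ}
    (hx : Dk T (fun n => (Mn N n : ℝ)) 0 x) (hy : Dk T (fun n => (Mn N n : ℝ)) 0 y) {t : ℝ}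
    (ht : t ∈ Ico 0 T) (n : ℕ) :
    ‖fr (fun z => uu N x y t z 2) ((Mn N n : ℤ) • ev 0)‖ = |x n t| / 2 ∧
    ‖fr (fun z => uu N x y t z 2) ((Mn N n : ℤ) • ev 2)‖ = |y n t| / √2 / 2 := by
  have hM : Me (fun n => (Mn N n : ℝ)) := Mn_me hN
  have hsa := sa_amp hM hx hy ht
  have e : (fun z => uu N x y t z 2) = Wf N (amp (fun n => x n t) (fun n => y n t)) := by
    rw [uu_two, ww_eq_Wf]
  rw [e, fr_Wf hN hsa 0 n (Or.inl rfl), fr_Wf hN hsa 2 n (Or.inl rfl)]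
  constructor
  · rw [norm_div, Complex.norm_real, Complex.norm_ofNat]
    simp [amp]
  · rw [norm_div, Complex.norm_real, Complex.norm_ofNat]
    simp [amp, abs_of_nonneg (Real.sqrt_nonneg 2)]

theorem ev_ne (e : Fin 6) : ev e ≠ 0 := by revert e; unfold ev; decide

theorem le_of_half {M a b B : ℝ} (hB : 0 ≤ B) (h1 : M * (|a| / 2) ≤ B)
    (h2 : M * (|b| / √2 / 2) ≤ B) : M * |a| ≤ 3 * B ∧ M * |b| ≤ 3 * B := by
  have h3 : √2 ≤ 3 / 2 := by rw [Real.sqrt_le_left (by norm_num)]; norm_num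
  have h0 : 0 < √2 := by positivity
  have e2 : M * (|b| / √2 / 2) = (M * |b|) / (2 * √2) := by field_simp
  rw [e2, div_le_iff₀ (by positivity)] at h2
  exact ⟨by linarith, by nlinarith⟩

/-- bounds of the amplitudes by the norm of the solution -/
theorem hb_of {N : ℕ} {T : ℝ} (hN : 0 < N) {x y : ℕ → ℝ → ℝ}
    (hx : Dk T (fun n => (Mn N n : ℝ)) 0 x) (hy : Dk T (fun n => (Mn N n : ℝ)) 0 y)
    (hsp : ∀ t ∈ Ico 0 T, SPV (uu N x y t)) {s C : ℝ} (hs : 0 < s) (hC : 0 ≤ C)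
    (h : ∀ t ∈ Ico 0 T, Hn s 0 (uu N x y t) ≤ C) : Hb T N x y s (3 * C) := by
  intro n t ht
  obtain ⟨e1, e2⟩ := fr_uu hN hx hy ht n
  have hM0 : (0 : ℝ) < Mn N n := by exact_mod_cast Mn_pos hN n
  have hw : ∀ e, (Mn N n : ℝ) ^ s ≤ wt s 0 ((Mn N n : ℤ) • ev e) := by
    intro e
    unfold wt
    rw [if_neg (smul_ne (Mn_pos hN n) (ev_ne e)), Real.rpow_zero, mul_one, len_smul]
    apply Real.rpow_le_rpow hM0.le _ hs.le
    nlinarith [one_le_len (ev_ne e)]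
  have key : ∀ e, (Mn N n : ℝ) ^ s * ‖fr (fun z => uu N x y t z 2) ((Mn N n : ℤ) • ev e)‖ ≤ C :=
    fun e => ((mul_le_mul_of_nonneg_right (hw e) (norm_nonneg _)).trans
      (Hn_le_val (hsp t ht) s 0 2 _)).trans (h t ht)
  have k1 := key 0
  have k2 := key 2
  rw [e1] at k1
  rw [e2] at k2
  exact le_of_half hC k1 k2

/-- **Finite time blow-up** for the equations with a perturbation of the class. -/
theorem main {ν p δ T : ℝ} {b : ℕ} (hνb : (0 < ν ∧ b = 2) ∨ (ν = 0 ∧ b = 0)) (hp : 1 < p)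
    (hδ : 0 < δ) (hT : 0 < T) :
    ∃ N₀ : ℕ, ∀ N : ℕ, N₀ ≤ N → ∃ K : (V → V) → (V → V) → V → V, Low b p δ K ∧
      ∃ T₁ : ℝ, 0 < T₁ ∧ T₁ ≤ T ∧ ∃ u : ℝ → V → V, SolK ν T₁ K u (fun _ _ => 0) ∧
        (∀ x, u 0 x = dat N x) ∧
        (∀ s : ℝ, 0 < s → ∀ C : ℝ, ∃ t ∈ Ico 0 T₁, C < Hn s 0 (u t)) ∧
        ∀ (T₂ : ℝ) (v : ℝ → V → V) (q : ℝ → V → ℝ), SolK ν T₂ K v q → (∀ x, v 0 x = dat N x) →
          T₂ ≤ T₁ ∧ ∀ t ∈ Ico 0 T₂, ∀ x, v t x = u t x := by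
  have hν : 0 ≤ ν := by rcases hνb with h | h <;> linarith [h.1]
  have hb : b ≤ 2 := by rcases hνb with h | h <;> omega
  set c := (2 * Real.pi) ^ 2 * ν with hc
  have hc0 : 0 ≤ c := by positivity
  have hcb : (0 < c ∧ b = 2) ∨ (c = 0 ∧ b = 0) := by
    rcases hνb with h | h
    · left
      have := h.1
      exact ⟨by positivity, h.2⟩
    · right
      exact ⟨by rw [hc, h.1, mul_zero], h.2⟩
  set p₀ := min p 2 with hp₀
  have hp1 : 1 < p₀ := lt_min hp (by norm_num)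
  have hp2 : p₀ ≤ 2 := min_le_right _ _
  set θ := min 1 (δ / 720) with hθd
  have hθ : 0 < θ := lt_min one_pos (by positivity)
  have hθ1 : θ ≤ 1 := min_le_left _ _
  have hθδ : 720 * θ ≤ δ := by
    have : θ ≤ δ / 720 := min_le_right _ _
    linarith
  set T' := min T 1 with hT'
  have hT'0 : 0 < T' := lt_min hT one_pos
  obtain ⟨N₀, hN₀3, hN₀⟩ := par_exists (θ := θ) (p := p₀) (c := c) (T := T') (b := b) hθ hθ1 hp1 hp2
    hcb hT'0 (min_le_right _ _)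
  refine ⟨N₀, fun N hN => ?_⟩
  have hN3 : 3 ≤ N := hN₀3.trans hN
  have hNp : 0 < N := by omega
  obtain ⟨κ, τ, q, ℓ, s, ϖ, P⟩ := hN₀ N hN
  obtain ⟨T₁, hT₁, hT₁T, x, y, hz, hunb⟩ := exists_max (wtc hc0 hθ hθ1 hp2 hb hN3) P hT'0
  obtain ⟨hdk, hsol⟩ := sol_of hν hc hθ hθ1 hp2 hb hN3 hz
  have hlow : Low b p δ (KH PP QQ (cc (al θ b p₀ N) (mu θ b p₀ N)) N) :=
    low hθ hθ1 (min_le_left _ _) hp2 hb hN3 hθδ
  have hsp : ∀ t ∈ Ico 0 T₁, SPV (uu N x y t) := fun t ht => sp_spv fun i => sol_sp hsol ht i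
  -- blow-up of the norms
  have hblow : ∀ s : ℝ, 0 < s → ∀ C : ℝ, ∃ t ∈ Ico 0 T₁, C < Hn s 0 (uu N x y t) := by
    intro s hs C
    by_contra hcon
    push Not at hcon
    have h1 := hb_of hNp (hdk 0).1 (hdk 0).2 hsp hs (show 0 ≤ max C 1 by positivity)
      (fun t ht => (hcon t ht).trans (le_max_left _ _))
    obtain ⟨B', hB', h2⟩ := boot_all hN3 hθ hθ1 hp2 hcb (hT₁T.trans (min_le_right _ _)) hs
      (show 0 < 3 * max C 1 by positivity) hz h1 8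
    obtain ⟨t, ht, n, hlt⟩ := hunb (2 * B')
    obtain ⟨h3, h4⟩ := h2 n t ht
    have e : (Mn N n : ℝ) ^ (8 : ℝ) = ((Mn N n : ℝ) ^ 4) ^ 2 := by
      rw [← pow_mul, ← Real.rpow_natCast]; norm_num
    rw [e] at h3 h4
    rw [mul_add] at hlt
    linarith
  refine ⟨_, hlow, T₁, hT₁, hT₁T.trans (min_le_left _ _), uu N x y, hsol, uu_zero hz, hblow, ?_⟩
  intro T₂ v q hv hv0
  have h00 : ∀ x', v 0 x' = uu N x y 0 x' := fun x' => by rw [hv0, uu_zero hz]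
  have hle : T₂ ≤ T₁ := by
    by_contra hlt
    push Not at hlt
    have huniq := sol_unique' hν (by linarith) hδ.le hlow (sol_restrict hv hlt.le) hsol h00
    obtain ⟨B, hB0, hB⟩ := Hn_time hv.smooth_u hv.per_u hlt 1 0
    obtain ⟨t, ht, hlt'⟩ := hblow 1 one_pos B
    have e : uu N x y t = v t := funext fun x' => (huniq t ht x').symm
    rw [e] at hlt'
    exact absurd (hB t ⟨ht.1, ht.2.le⟩) (not_le.2 hlt')
  exact ⟨hle, sol_unique' hν (by linarith) hδ.le hlow hv (sol_restrict hsol hle) h00⟩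

end Pool.Agent.N977.Q
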