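import Pool.Agent.N977.Q.Sh

/-!
Finite time blow-up with one perturbation for all viscosities and all amplitudes.
-/

open MeasureTheory Set Filter Topology
open scoped ContDiff

namespace Pool.Agent.N977.Q

open H459R3.NS
open Pool.Agent.N977.K (SolK)

variable {θ p c : ℝ} {b N : ℕ}

/-- the solutions of the cascade solve the scalar equation -/
theorem eq_of {ν T : ℝ} {x y : ℕ → ℝ → ℝ} (hν : 0 ≤ ν) (hc : c = (2 * Real.pi) ^ 2 * ν)
    (hθ : 0 < θ) (hθ1 : θ ≤ 1) (hp2 : p ≤ 2) (hb : b ≤ 2) (hN : 3 ≤ N)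
    (h : Zs T (fun n => 4 * (c * (Mn N n : ℝ) ^ 2)) (fun n => 5 * (c * (Mn N n : ℝ) ^ 2))
      (al θ b p N) (mu θ b p N) (fun n => (Mn N n : ℝ) ^ 4) x y) :
    (∀ m, Dk T (fun n => (Mn N n : ℝ)) m x ∧ Dk T (fun n => (Mn N n : ℝ)) m y) ∧
    ∀ t ∈ Ioo 0 T, ∀ z, HasDerivAt (fun s => ww N x y s z) (ν * lap (ww N x y t) z
      + kk PP QQ (cc (al θ b p N) (mu θ b p N)) N (ww N x y t) (ww N x y t) z) t := by
  have hN0 : 0 < N := by omega
  have hc0 : 0 ≤ c := by rw [hc]; positivity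
  have haM : ∀ n, ∀ {z : ℝ}, 0 ≤ z → z ≤ (Mn N n : ℝ) ^ 4 →
      |z| ≤ (5 * c + 1) * (Mn N n : ℝ) ^ 4 := by
    intro n z hz hz2
    rw [abs_of_nonneg hz]
    have h4 : (0 : ℝ) ≤ (Mn N n : ℝ) ^ 4 := by positivity
    nlinarith [mul_nonneg hc0 h4]
  have hα : ∀ n, |al θ b p N n| ≤ (5 * c + 1) * (Mn N n : ℝ) ^ 4 := fun n =>
    haM n (al_pos hθ hN n).le (al_le4 hθ1 hp2 hb hN n)
  have hμ : ∀ n, |mu θ b p N n| ≤ (5 * c + 1) * (Mn N n : ℝ) ^ 4 := fun n =>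
    haM n (mu_pos hθ hN n).le ((mu_le_al hθ hN n).trans (al_le4 hθ1 hp2 hb hN n))
  have hdk := (sol_of hν hc hθ hθ1 hp2 hb hN h).1
  exact ⟨hdk, fun t ht z => ww_eq hN0 hc h hα hμ (gr hθ hθ1 hp2 hb hN) (fun m => (hdk m).1)
    (fun m => (hdk m).2) ht z⟩

/-- bounds of the amplitudes by the norm of the solution -/
theorem hb_of' {N : ℕ} {T ρ : ℝ} (hρ : 0 < ρ) (hN : 0 < N) {x y : ℕ → ℝ → ℝ}
    (hx : Dk T (fun n => (Mn N n : ℝ)) 0 x) (hy : Dk T (fun n => (Mn N n : ℝ)) 0 y)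
    (hsp : ∀ t ∈ Ico 0 T, SPV (pf (fun t z => ρ * ww N x y t z) t)) {s C : ℝ} (hs : 0 < s)
    (hC : 0 ≤ C) (h : ∀ t ∈ Ico 0 T, Hn s 0 (pf (fun t z => ρ * ww N x y t z) t) ≤ C) :
    Hb T N x y s (3 * (C / ρ)) := by
  intro n t ht
  obtain ⟨e1, e2⟩ := fr_uu hN hx hy ht n
  have hM0 : (0 : ℝ) < Mn N n := by exact_mod_cast Mn_pos hN n
  have hw : ∀ e, (Mn N n : ℝ) ^ s ≤ wt s 0 ((Mn N n : ℤ) • ev e) := by
    intro e
    unfold wt
    rw [if_neg (smul_ne (Mn_pos hN n) (ev_ne e)), Real.rpow_zero, mul_one, len_smul]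
    apply Real.rpow_le_rpow hM0.le _ hs.le
    nlinarith [one_le_len (ev_ne e)]
  have key : ∀ e, (Mn N n : ℝ) ^ s * ‖fr (fun z => uu N x y t z 2) ((Mn N n : ℤ) • ev e)‖
      ≤ C / ρ := by
    intro e
    have h1 := ((mul_le_mul_of_nonneg_right (hw e) (norm_nonneg _)).trans
      (Hn_le_val (hsp t ht) s 0 2 _)).trans (h t ht)
    have h2 : fr (fun z => pf (fun t z => ρ * ww N x y t z) t z 2) ((Mn N n : ℤ) • ev e)
        = ρ * fr (fun z => uu N x y t z 2) ((Mn N n : ℤ) • ev e) := by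
      rw [pf_two, uu_two]
      exact fr_smul ρ _ _
    rw [h2, norm_mul, Complex.norm_real, Real.norm_eq_abs, abs_of_pos hρ] at h1
    rw [le_div_iff₀ hρ]
    linarith
  have k1 := key 0
  have k2 := key 2
  rw [e1] at k1
  rw [e2] at k2
  exact le_of_half (by positivity) k1 k2

/-- **Finite time blow-up**, with one perturbation for all viscosities, all amplitudes and all
times. -/
theorem main2 {p δ : ℝ} {b : ℕ} (hb : b ≤ 2) (hp : 1 < p) (hδ : 0 < δ) :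
    ∃ K : (V → V) → (V → V) → V → V, Low b p δ K ∧
      ∀ ν : ℝ, ((0 < ν ∧ b = 2) ∨ (ν = 0 ∧ b = 0)) → ∀ ε T : ℝ, 0 < ε → ε ≤ 1 → 0 < T →
      ∃ j₀ : ℕ, ∀ j : ℕ, j₀ ≤ j →
      ∃ T₁ : ℝ, 0 < T₁ ∧ T₁ ≤ T ∧ ∃ u : ℝ → V → V, SolK ν T₁ K u (fun _ _ => 0) ∧
        (∀ x, u 0 x = ε • dat (2 ^ j) x) ∧
        (∀ t ∈ Ico 0 T₁, ∀ x i, ∑ j, u t x j * pd j (fun y => u t y i) x = 0) ∧
        (∀ s : ℝ, 0 < s → ∀ C : ℝ, ∃ t ∈ Ico 0 T₁, C < Hn s 0 (u t)) ∧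
        ∀ (T₂ : ℝ) (v : ℝ → V → V) (q : ℝ → V → ℝ), SolK ν T₂ K v q →
          (∀ x, v 0 x = ε • dat (2 ^ j) x) → T₂ ≤ T₁ ∧ ∀ t ∈ Ico 0 T₂, ∀ x, v t x = u t x := by
  set p₀ := min p 2 with hp₀
  have hp1 : 1 < p₀ := lt_min hp (by norm_num)
  have hp2 : p₀ ≤ 2 := min_le_right _ _
  set θ := min 1 (δ / 720) with hθd
  have hθ : 0 < θ := lt_min one_pos (by positivity)
  have hθ1 : θ ≤ 1 := min_le_left _ _
  have hθδ : 720 * θ ≤ δ := by
    have : θ ≤ δ / 720 := min_le_right _ _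
    linarith
  have hlow : Low b p δ (KH PP QQ (cc (al θ b p₀ 4) (mu θ b p₀ 4)) 4) :=
    low hθ hθ1 (min_le_left _ _) hp2 hb (by norm_num) hθδ
  refine ⟨_, hlow, fun ν hνb ε T hε hε1 hT => ?_⟩
  have hν : 0 ≤ ν := by rcases hνb with h | h <;> linarith [h.1]
  set c := (2 * Real.pi) ^ 2 * ν with hc
  have hc0 : 0 ≤ c := by positivity
  have hcb : (0 < c ∧ b = 2) ∨ (c = 0 ∧ b = 0) := by
    rcases hνb with h | h
    · left
      have := h.1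
      exact ⟨by positivity, h.2⟩
    · right
      exact ⟨by rw [hc, h.1, mul_zero], h.2⟩
  set θ' := ε * θ with hθ'
  have hθ'0 : 0 < θ' := by positivity
  have hθ'1 : θ' ≤ 1 := mul_le_one₀ hε1 hθ.le hθ1
  set T' := min T 1 with hT'
  have hT'0 : 0 < T' := lt_min hT one_pos
  obtain ⟨N₀, hN₀3, hN₀⟩ := par_exists (θ := θ') (p := p₀) (c := c) (T := T') (b := b) hθ'0 hθ'1
    hp1 hp2 hcb hT'0 (min_le_right _ _)
  obtain ⟨j₀, hj₀⟩ := pow_unbounded_of_one_lt (N₀ : ℝ) (one_lt_two (α := ℝ))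
  refine ⟨j₀ + 2, fun j hj => ?_⟩
  obtain ⟨i, rfl⟩ : ∃ i, j = i + 2 := ⟨j - 2, by omega⟩
  have hN4 : 4 * 2 ^ i = 2 ^ (i + 2) := by rw [pow_add]; ring
  set N := 4 * 2 ^ i with hN
  have hNN₀ : N₀ ≤ N := by
    have h1 : (2 : ℝ) ^ j₀ ≤ 2 ^ (i + 2) := pow_le_pow_right₀ (by norm_num) (by omega)
    have h2 : (N₀ : ℝ) ≤ 2 ^ (i + 2) := by linarith
    rw [hN4]
    exact_mod_cast h2
  have hN3 : 3 ≤ N := hN₀3.trans hNN₀
  have hNp : 0 < N := by omega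
  obtain ⟨κ, τ, q, ℓ, s, ϖ, P⟩ := hN₀ N hNN₀
  obtain ⟨T₁, hT₁, hT₁T, x, y, hz, hunb⟩ := exists_max (wtc hc0 hθ'0 hθ'1 hp2 hb hN3) P hT'0
  obtain ⟨hdk, heq⟩ := eq_of hν hc hθ'0 hθ'1 hp2 hb hN3 hz
  have hM : Me (fun n => (Mn N n : ℝ)) := Mn_me hNp
  -- the solution
  set w : ℝ → V → ℝ := fun t z => ε * ww N x y t z with hw
  have hwsp : ∀ t ∈ Ico 0 T₁, SP (ww N x y t) := fun t ht =>
    ww_sp hM rfl (fun m => (hdk m).1) (fun m => (hdk m).2) ht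
  have hsmul : ∀ {f : V → ℝ}, SP f → SP (fun z => ε * f z) := fun hf =>
    ⟨contDiff_const.mul hf.smooth, fun i z => by simp only [hf.per i z]⟩
  have hpd : ∀ t ∈ Ico 0 T₁, ∀ z, pd 2 (w t) z = 0 := fun t ht z => by
    simp only [hw]
    rw [pd_mul' (hwsp t ht), pd_two_ww hM rfl (fun m => (hdk m).1) (fun m => (hdk m).2) ht, mul_zero]
  have hsol : SolK ν T₁ (KH PP QQ (cc (al θ b p₀ 4) (mu θ b p₀ 4)) 4) (pf w) (fun _ _ => 0) := by
    refine pf_sol ?_ (fun t ht => hsmul (hwsp t ht)) (fun t ht z => ?_) (gr hθ hθ1 hp2 hb (by norm_num))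
      (fun t ht z => ?_)
    · exact contDiffOn_const.mul (ww_smooth hM rfl (fun m => (hdk m).1) (fun m => (hdk m).2))
    · exact hpd t ht z
    · have htI := Ioo_subset_Ico_self ht
      have h1 := (heq t ht z).const_mul ε
      refine h1.congr_deriv ?_
      simp only [hw]
      rw [lap_mul' (hwsp t htI)]
      have hsa := sa_amp hM (hdk 0).1 (hdk 0).2 htI
      have h2 := kk_shift (b := b) (p := p₀) (N := 4) (j := i) (hsmul (hwsp t htI))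
        (gr hθ hθ1 hp2 hb (by norm_num)) (fun n hn i' => by
          rw [fr_smul, ww_eq_Wf, fr_Wf_low (by norm_num) hsa hn i', mul_zero]) z
      rw [h2, kk_scale]
      ring
  have hsp : ∀ t ∈ Ico 0 T₁, SPV (pf w t) := fun t ht => pf_spv (hsmul (hwsp t ht))
  have h0 : ∀ z, pf w 0 z = ε • dat (2 ^ (i + 2)) z := by
    intro z
    funext k
    rw [← hN4]
    have h1 := ww_zero (N := N) hz z
    by_cases hk : k = 2
    · subst hk
      rw [congrFun (pf_two w 0) z]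
      simp only [hw, Pi.smul_apply, smul_eq_mul]
      rw [h1]
    · rw [congrFun (pf_ne w 0 hk) z]
      fin_cases k
      · simp [dat]
      · simp [dat]
      · exact absurd rfl hk
  -- blow-up of the norms
  have hblow : ∀ s : ℝ, 0 < s → ∀ C : ℝ, ∃ t ∈ Ico 0 T₁, C < Hn s 0 (pf w t) := by
    intro s hs C
    by_contra hcon
    push Not at hcon
    have h1 := hb_of' hε hNp (hdk 0).1 (hdk 0).2 hsp hs (show 0 ≤ max C 1 by positivity)
      (fun t ht => (hcon t ht).trans (le_max_left _ _))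
    obtain ⟨B', hB', h2⟩ := boot_all hN3 hθ'0 hθ'1 hp2 hcb (hT₁T.trans (min_le_right _ _)) hs
      (show 0 < 3 * (max C 1 / ε) by positivity) hz h1 8
    obtain ⟨t, ht, n, hlt⟩ := hunb (2 * B')
    obtain ⟨h3, h4⟩ := h2 n t ht
    have e : (Mn N n : ℝ) ^ (8 : ℝ) = ((Mn N n : ℝ) ^ 4) ^ 2 := by
      rw [← pow_mul, ← Real.rpow_natCast]; norm_num
    rw [e] at h3 h4
    rw [mul_add] at hlt
    linarith
  refine ⟨T₁, hT₁, hT₁T.trans (min_le_left _ _), pf w, hsol, h0,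
    fun t ht x i => pf_conv (hpd t ht) x i, hblow, ?_⟩
  intro T₂ v q hv hv0
  have h00 : ∀ x', v 0 x' = pf w 0 x' := fun x' => by rw [hv0, h0]
  have hle : T₂ ≤ T₁ := by
    by_contra hlt
    push Not at hlt
    have huniq := sol_unique' hν (by linarith) hδ.le hlow (sol_restrict hv hlt.le) hsol h00
    obtain ⟨B, hB0, hB⟩ := Hn_time hv.smooth_u hv.per_u hlt 1 0
    obtain ⟨t, ht, hlt'⟩ := hblow 1 one_pos B
    have e : pf w t = v t := funext fun x' => (huniq t ht x').symm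
    rw [e] at hlt'
    exact absurd (hB t ⟨ht.1, ht.2.le⟩) (not_le.2 hlt')
  exact ⟨hle, sol_unique' hν (by linarith) hδ.le hlow hv (sol_restrict hsol hle) h00⟩

end Pool.Agent.N977.Q
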