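import Pool.Agent.N977.Q.Stage

/-!
The cascade: an infinite system of ordinary differential equations whose solutions transfer their
energy to arbitrarily high modes in finite time.
-/

open Set Filter Topology

namespace Pool.Agent.N977.Q

open Pool.Agent.N977.K (cmp)

/-- the flux into the level `n` -/
noncomputable def gf (c : ℕ → ℝ) (y : ℕ → ℝ → ℝ) : ℕ → ℝ → ℝ
  | 0, _ => 0
  | n + 1, t => c n * y n t ^ 2

/-- The cascade system on `(0, T)`. -/
structure Cas (T : ℝ) (d D α μ : ℕ → ℝ) (x y : ℕ → ℝ → ℝ) : Prop where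
  xc : ∀ n, Continuous (x n)
  yc : ∀ n, Continuous (y n)
  xd : ∀ n, ∀ t ∈ Ioo 0 T, HasDerivAt (x n)
    (-(d n * x n t) + gf α y n t - α n * y n t ^ 2) t
  yd : ∀ n, ∀ t ∈ Ioo 0 T, HasDerivAt (y n)
    (-(D n * y n t) + α n * y n t * (x n t - x (n + 1) t) + gf μ y n t
      - μ n * y n t * y (n + 1) t) t
  x0 : x 0 0 = 4 / 5
  y0 : y 0 0 = 3 / 5
  xs : ∀ n, x (n + 1) 0 = 0
  ys : ∀ n, y (n + 1) 0 = 0
  dec : ∀ ε : ℝ, 0 < ε → ∃ J : ℕ, ∀ n ≥ J, ∀ t ∈ Icc 0 T,
    |x n t| ≤ ε ∧ α n * y n t ^ 2 * |x (n + 1) t| + μ n * y n t ^ 2 * |y (n + 1) t| ≤ ε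

/-- Sign and monotonicity conditions for the coefficients. -/
structure Sgn (d D α μ : ℕ → ℝ) : Prop where
  d0 : ∀ n, 0 ≤ d n
  dd : ∀ n, d n ≤ d (n + 1)
  dD : ∀ n, d n ≤ D n
  α0 : ∀ n, 0 < α n
  μ0 : ∀ n, 0 < μ n

variable {T : ℝ} {d D α μ c : ℕ → ℝ} {x y : ℕ → ℝ → ℝ}

theorem Sgn.dmono (S : Sgn d D α μ) {m j : ℕ} (h : m ≤ j) : d m ≤ d j :=
  monotone_nat_of_le_succ S.dd h

theorem Sgn.D0 (S : Sgn d D α μ) (n : ℕ) : 0 ≤ D n := (S.d0 n).trans (S.dD n)

theorem gf_nonneg (hc : ∀ n, 0 ≤ c n) (n : ℕ) (t : ℝ) : 0 ≤ gf c y n t := by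
  cases n with
  | zero => exact le_rfl
  | succ n => exact mul_nonneg (hc n) (sq_nonneg _)

theorem gf_cont (hy : ∀ n, Continuous (y n)) (c : ℕ → ℝ) (n : ℕ) : Continuous (gf c y n) := by
  cases n with
  | zero => exact continuous_const
  | succ n => exact continuous_const.mul ((hy n).pow 2)

/-- the total flux of energy -/
noncomputable def ff (α μ : ℕ → ℝ) (y : ℕ → ℝ → ℝ) : ℕ → ℝ → ℝ := gf (fun n => α n + μ n) y

theorem ff_eq (n : ℕ) (t : ℝ) : ff α μ y n t = gf α y n t + gf μ y n t := by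
  cases n with
  | zero => simp [ff, gf]
  | succ n => simp only [ff, gf]; ring

/-- the undamped integral -/
noncomputable def Ig (d α μ : ℕ → ℝ) (y : ℕ → ℝ → ℝ) (m : ℕ) (t : ℝ) : ℝ :=
  ∫ s in (0 : ℝ)..t, Real.exp (d m * s) * ff α μ y m s

/-- the damped inflow into the level `m` -/
noncomputable def sg (d α μ : ℕ → ℝ) (y : ℕ → ℝ → ℝ) (m : ℕ) (t : ℝ) : ℝ :=
  Real.exp (-(d m * t)) * Ig d α μ y m t

theorem Cas.ffc (h : Cas T d D α μ x y) (m : ℕ) : Continuous (ff α μ y m) := gf_cont h.yc _ m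

theorem Cas.Igd (h : Cas T d D α μ x y) (m : ℕ) (t : ℝ) :
    HasDerivAt (Ig d α μ y m) (Real.exp (d m * t) * ff α μ y m t) t := by
  have hc : Continuous fun s => Real.exp (d m * s) * ff α μ y m s :=
    (Real.continuous_exp.comp (by fun_prop)).mul (h.ffc m)
  exact (hc.integral_hasStrictDerivAt 0 t).hasDerivAt

theorem Cas.Igc (h : Cas T d D α μ x y) (m : ℕ) : Continuous (Ig d α μ y m) :=
  continuous_iff_continuousAt.2 fun t => (h.Igd m t).continuousAt

theorem Ig_zero (m : ℕ) : Ig d α μ y m 0 = 0 := by simp [Ig]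

theorem sg_zero (m : ℕ) : sg d α μ y m 0 = 0 := by simp [sg, Ig_zero]

theorem Ig_lev0 (t : ℝ) : Ig d α μ y 0 t = 0 := by simp [Ig, ff, gf]

theorem sg_lev0 (t : ℝ) : sg d α μ y 0 t = 0 := by simp [sg, Ig_lev0]

theorem Cas.sgc (h : Cas T d D α μ x y) (m : ℕ) : Continuous (sg d α μ y m) :=
  (Real.continuous_exp.comp (by fun_prop)).mul (h.Igc m)

theorem Cas.sgd (h : Cas T d D α μ x y) (m : ℕ) (t : ℝ) :
    HasDerivAt (sg d α μ y m) (-(d m * sg d α μ y m t) + ff α μ y m t) t := by
  have h1 : HasDerivAt (fun s => Real.exp (-(d m * s))) (Real.exp (-(d m * t)) * -(d m)) t := by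
    have := ((hasDerivAt_id t).const_mul (d m)).neg.exp
    refine this.congr_deriv ?_
    simp
  refine (h1.mul (h.Igd m t)).congr_deriv ?_
  unfold sg
  have e : Real.exp (-(d m * t)) * Real.exp (d m * t) = 1 := by
    rw [← Real.exp_add]; simp
  rw [← mul_assoc (Real.exp (-(d m * t))) (Real.exp (d m * t)), e]
  ring

theorem Cas.Ig_nonneg (h : Cas T d D α μ x y) (S : Sgn d D α μ) (m : ℕ) {t : ℝ} (ht : 0 ≤ t) :
    0 ≤ Ig d α μ y m t := by
  have := cmp (f := fun _ => 0) (f' := fun _ => 0) (g := Ig d α μ y m)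
    (g' := fun t => Real.exp (d m * t) * ff α μ y m t) ht
    continuousOn_const (h.Igc m).continuousOn (fun s hs => hasDerivAt_const _ _)
    (fun u hu => h.Igd m u) (fun u _ => mul_nonneg (Real.exp_pos _).le
      (gf_nonneg (fun n => (add_pos (S.α0 n) (S.μ0 n)).le) m u))
  rw [Ig_zero] at this
  linarith

theorem Cas.sg_nonneg (h : Cas T d D α μ x y) (S : Sgn d D α μ) (m : ℕ) {t : ℝ} (ht : 0 ≤ t) :
    0 ≤ sg d α μ y m t := mul_nonneg (Real.exp_pos _).le (h.Ig_nonneg S m ht)

theorem ff_nonneg (S : Sgn d D α μ) (m : ℕ) (t : ℝ) : 0 ≤ ff α μ y m t :=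
  gf_nonneg (fun n => (add_pos (S.α0 n) (S.μ0 n)).le) m t

/-- initial value of the square root of the energy of the levels `≥ m` -/
noncomputable def e0 (m : ℕ) : ℝ := if m = 0 then 1 else 0

theorem e0_nonneg (m : ℕ) : 0 ≤ e0 m := by unfold e0; split_ifs <;> norm_num

/-- energy of the levels `m, …, m + J` -/
noncomputable def En (x y : ℕ → ℝ → ℝ) (m J : ℕ) (t : ℝ) : ℝ :=
  ∑ i ∈ Finset.range (J + 1), (x (m + i) t ^ 2 + y (m + i) t ^ 2)

theorem En_nonneg (m J : ℕ) (t : ℝ) : 0 ≤ En x y m J t :=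
  Finset.sum_nonneg fun i _ => by positivity

theorem Cas.En_zero (h : Cas T d D α μ x y) (m J : ℕ) : En x y m J 0 = e0 m ^ 2 := by
  unfold En e0
  rw [Finset.sum_range_succ']
  have h1 : ∀ i, x (m + (i + 1)) 0 ^ 2 + y (m + (i + 1)) 0 ^ 2 = 0 := by
    intro i
    rw [← add_assoc, h.xs, h.ys]; norm_num
  simp only [h1, Finset.sum_const_zero, zero_add, add_zero]
  cases m with
  | zero => rw [h.x0, h.y0]; norm_num
  | succ m => rw [h.xs, h.ys]; norm_num

theorem Cas.En_deriv (h : Cas T d D α μ x y) (m J : ℕ) {t : ℝ} (ht : t ∈ Ioo 0 T) :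
    HasDerivAt (En x y m J)
      (-(2 * ∑ i ∈ Finset.range (J + 1), (d (m + i) * x (m + i) t ^ 2 + D (m + i) * y (m + i) t ^ 2))
        + 2 * ((x m t * gf α y m t + y m t * gf μ y m t)
          - (x (m + J + 1) t * gf α y (m + J + 1) t + y (m + J + 1) t * gf μ y (m + J + 1) t))) t := by
  have h1 : HasDerivAt (En x y m J) (∑ i ∈ Finset.range (J + 1),
      (2 * x (m + i) t * (-(d (m + i) * x (m + i) t) + gf α y (m + i) t
        - α (m + i) * y (m + i) t ^ 2)
      + 2 * y (m + i) t * (-(D (m + i) * y (m + i) t) + α (m + i) * y (m + i) t *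
        (x (m + i) t - x (m + i + 1) t) + gf μ y (m + i) t
          - μ (m + i) * y (m + i) t * y (m + i + 1) t))) t := by
    unfold En
    apply HasDerivAt.fun_sum
    intro i _
    have a1 := (h.xd (m + i) t ht).pow 2
    have a2 := (h.yd (m + i) t ht).pow 2
    refine (a1.add a2).congr_deriv ?_
    simp only [Nat.cast_ofNat, Nat.add_one_sub_one, pow_one]
  refine h1.congr_deriv ?_
  have h2 : ∀ i, (2 * x (m + i) t * (-(d (m + i) * x (m + i) t) + gf α y (m + i) t
        - α (m + i) * y (m + i) t ^ 2)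
      + 2 * y (m + i) t * (-(D (m + i) * y (m + i) t) + α (m + i) * y (m + i) t *
        (x (m + i) t - x (m + i + 1) t) + gf μ y (m + i) t
          - μ (m + i) * y (m + i) t * y (m + i + 1) t))
      = -(2 * (d (m + i) * x (m + i) t ^ 2 + D (m + i) * y (m + i) t ^ 2))
        + 2 * ((x (m + i) t * gf α y (m + i) t + y (m + i) t * gf μ y (m + i) t)
          - (x (m + (i + 1)) t * gf α y (m + (i + 1)) t
            + y (m + (i + 1)) t * gf μ y (m + (i + 1)) t)) := by
    intro i
    rw [← add_assoc]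
    simp only [gf]
    ring
  rw [Finset.sum_congr rfl fun i _ => h2 i, Finset.sum_add_distrib, ← Finset.mul_sum,
    Finset.sum_neg_distrib, ← Finset.mul_sum,
    Finset.sum_range_sub' (fun i => x (m + i) t * gf α y (m + i) t + y (m + i) t * gf μ y (m + i) t)]
  simp only [add_zero, ← add_assoc]

theorem Cas.tail (h : Cas T d D α μ x y) (S : Sgn d D α μ) {m j : ℕ} (hmj : m ≤ j) {t : ℝ}
    (ht : t ∈ Icc 0 T) :
    |x j t| ≤ e0 m + sg d α μ y m t ∧ |y j t| ≤ e0 m + sg d α μ y m t := by
  have hT : 0 ≤ T := ht.1.trans ht.2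
  have hdm := S.d0 m
  have key : ∀ ε : ℝ, 0 < ε → Real.exp (d m * t) * √(x j t ^ 2 + y j t ^ 2)
      ≤ e0 m + Ig d α μ y m t + ε * (1 + T) := by
    intro ε hε
    obtain ⟨J0, hJ0⟩ := h.dec (ε ^ 2 * Real.exp (-(2 * (d m * T)))) (by positivity)
    set J := max J0 j with hJ
    have hb : ∀ s ∈ Icc 0 T, gf α y (m + J + 1) s * |x (m + J + 1) s|
        + gf μ y (m + J + 1) s * |y (m + J + 1) s| ≤ ε ^ 2 * Real.exp (-(2 * (d m * T))) :=
      fun s hs => (hJ0 (m + J) (by omega) s hs).2
    have hEnn : ∀ s, 0 ≤ En x y m J s := fun s => En_nonneg m J s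
    set F : ℝ → ℝ := fun s => Real.exp (2 * (d m * s)) * En x y m J s with hF
    have hFnn : ∀ s, 0 ≤ F s := fun s => mul_nonneg (Real.exp_pos _).le (hEnn s)
    have hpos : ∀ s, 0 < F s + ε ^ 2 := fun s => by have := hFnn s; positivity
    have hxy : ∀ s, √(x m s ^ 2 + y m s ^ 2) * Real.exp (d m * s) ≤ √(F s + ε ^ 2) := by
      intro s
      apply Real.le_sqrt_of_sq_le
      rw [mul_pow, Real.sq_sqrt (by positivity), ← Real.exp_nat_mul]
      have h1 : x m s ^ 2 + y m s ^ 2 ≤ En x y m J s := by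
        have := Finset.single_le_sum (s := Finset.range (J + 1))
          (f := fun i => x (m + i) s ^ 2 + y (m + i) s ^ 2) (fun i _ => by positivity)
          (Finset.mem_range.2 (Nat.succ_pos J))
        simpa [En] using this
      have h2 := mul_le_mul_of_nonneg_right h1 (Real.exp_pos (2 * (d m * s))).le
      simp only [hF]
      push_cast
      nlinarith [sq_nonneg ε]
    have hEc : Continuous (En x y m J) := by
      unfold En
      exact continuous_finsetSum _ fun i _ => ((h.xc _).pow 2).add ((h.yc _).pow 2)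
    have hFc : Continuous F := (Real.continuous_exp.comp (by fun_prop)).mul hEc
    have hcmp := cmp (f := fun s => √(F s + ε ^ 2))
      (f' := fun s => (Real.exp (2 * (d m * s)) * (2 * d m) * En x y m J s
        + Real.exp (2 * (d m * s)) * (-(2 * ∑ i ∈ Finset.range (J + 1),
          (d (m + i) * x (m + i) s ^ 2 + D (m + i) * y (m + i) s ^ 2))
        + 2 * ((x m s * gf α y m s + y m s * gf μ y m s)
          - (x (m + J + 1) s * gf α y (m + J + 1) s
            + y (m + J + 1) s * gf μ y (m + J + 1) s)))) / (2 * √(F s + ε ^ 2)))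
      (g := fun s => Ig d α μ y m s + ε * s)
      (g' := fun s => Real.exp (d m * s) * ff α μ y m s + ε) ht.1
      ((hFc.add continuous_const).sqrt.continuousOn)
      (((h.Igc m).add (by fun_prop)).continuousOn)
      (fun s hs => by
        have h1 : HasDerivAt (fun s => Real.exp (2 * (d m * s)))
            (Real.exp (2 * (d m * s)) * (2 * d m)) s := by
          have := (((hasDerivAt_id s).const_mul (d m)).const_mul 2).exp
          refine this.congr_deriv ?_
          simp
        exact (((h1.mul (h.En_deriv m J ⟨hs.1, hs.2.trans_le ht.2⟩)).add_const (ε ^ 2)).sqrt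
          (hpos s).ne'))
      (fun s hs => by
        have := (h.Igd m s).add ((hasDerivAt_id s).const_mul ε)
        exact this.congr_deriv (by simp))
      (fun s hs => by
        have hs' : s ∈ Icc 0 T := ⟨hs.1.le, hs.2.le.trans ht.2⟩
        have hr : 0 < √(F s + ε ^ 2) := Real.sqrt_pos.2 (hpos s)
        rw [div_le_iff₀ (by positivity)]
        have h1 := hxy s
        have h2 := ff_nonneg (y := y) S m s
        have h3 := hb s hs'
        have hE2 : (0 : ℝ) < Real.exp (2 * (d m * s)) := Real.exp_pos _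
        have h4 : d m * En x y m J s ≤ ∑ i ∈ Finset.range (J + 1),
            (d (m + i) * x (m + i) s ^ 2 + D (m + i) * y (m + i) s ^ 2) := by
          unfold En
          rw [Finset.mul_sum]
          refine Finset.sum_le_sum fun i _ => ?_
          have e1 : d m ≤ d (m + i) := S.dmono (by omega)
          have e2 : d m ≤ D (m + i) := e1.trans (S.dD _)
          nlinarith [mul_le_mul_of_nonneg_right e1 (sq_nonneg (x (m + i) s)),
            mul_le_mul_of_nonneg_right e2 (sq_nonneg (y (m + i) s))]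
        -- the inflow
        have hga := gf_nonneg (c := α) (y := y) (fun n => (S.α0 n).le) m s
        have hgm := gf_nonneg (c := μ) (y := y) (fun n => (S.μ0 n).le) m s
        have hx1 : x m s ≤ √(x m s ^ 2 + y m s ^ 2) := by
          refine (le_abs_self _).trans ?_
          rw [← Real.sqrt_sq_eq_abs]
          exact Real.sqrt_le_sqrt (by linarith [sq_nonneg (y m s)])
        have hy1 : y m s ≤ √(x m s ^ 2 + y m s ^ 2) := by
          refine (le_abs_self _).trans ?_
          rw [← Real.sqrt_sq_eq_abs]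
          exact Real.sqrt_le_sqrt (by linarith [sq_nonneg (x m s)])
        have h5 : x m s * gf α y m s + y m s * gf μ y m s
            ≤ √(x m s ^ 2 + y m s ^ 2) * ff α μ y m s := by
          rw [ff_eq]
          nlinarith [mul_le_mul_of_nonneg_right hx1 hga, mul_le_mul_of_nonneg_right hy1 hgm]
        have h5' : Real.exp (2 * (d m * s)) * (x m s * gf α y m s + y m s * gf μ y m s)
            ≤ √(F s + ε ^ 2) * (Real.exp (d m * s) * ff α μ y m s) := by
          have e1 := mul_le_mul_of_nonneg_left h5 hE2.le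
          have e2 : Real.exp (2 * (d m * s)) = Real.exp (d m * s) * Real.exp (d m * s) := by
            rw [← Real.exp_add]; congr 1; ring
          have e3 := mul_le_mul_of_nonneg_right h1
            (mul_nonneg (Real.exp_pos (d m * s)).le h2)
          calc _ ≤ _ := e1
            _ = √(x m s ^ 2 + y m s ^ 2) * Real.exp (d m * s) *
                (Real.exp (d m * s) * ff α μ y m s) := by rw [e2]; ring
            _ ≤ _ := e3
        have h6 : -(x (m + J + 1) s * gf α y (m + J + 1) s + y (m + J + 1) s * gf μ y (m + J + 1) s)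
            ≤ ε ^ 2 * Real.exp (-(2 * (d m * T))) := by
          refine le_trans ?_ h3
          have e1 := gf_nonneg (c := α) (y := y) (fun n => (S.α0 n).le) (m + J + 1) s
          have e2 := gf_nonneg (c := μ) (y := y) (fun n => (S.μ0 n).le) (m + J + 1) s
          nlinarith [mul_le_mul_of_nonneg_left (neg_abs_le (x (m + J + 1) s)) e1,
            mul_le_mul_of_nonneg_left (neg_abs_le (y (m + J + 1) s)) e2]
        have h6' : Real.exp (2 * (d m * s)) * (-(x (m + J + 1) s * gf α y (m + J + 1) s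
            + y (m + J + 1) s * gf μ y (m + J + 1) s)) ≤ ε ^ 2 := by
          have e1 := mul_le_mul_of_nonneg_left h6 hE2.le
          have e2 : Real.exp (2 * (d m * s)) * (ε ^ 2 * Real.exp (-(2 * (d m * T))))
              = ε ^ 2 * Real.exp (2 * (d m * s) - 2 * (d m * T)) := by
            rw [sub_eq_add_neg, Real.exp_add]; ring
          have e3 : Real.exp (2 * (d m * s) - 2 * (d m * T)) ≤ 1 := by
            rw [Real.exp_le_one_iff]
            have := mul_le_mul_of_nonneg_left hs'.2 hdm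
            linarith
          rw [e2] at e1
          have := mul_le_mul_of_nonneg_left e3 (sq_nonneg ε)
          linarith
        have h7 : ε ≤ √(F s + ε ^ 2) := by
          apply Real.le_sqrt_of_sq_le
          linarith [hFnn s]
        have h8 := mul_le_mul_of_nonneg_left h4 hE2.le
        nlinarith)
    have hF0 : √(F 0 + ε ^ 2) ≤ e0 m + ε := by
      simp only [hF]
      rw [h.En_zero]
      apply Real.sqrt_le_iff.2
      have := e0_nonneg m
      simp only [mul_zero, Real.exp_zero, one_mul]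
      exact ⟨by positivity, by nlinarith⟩
    have hj : Real.exp (d m * t) * √(x j t ^ 2 + y j t ^ 2) ≤ √(F t + ε ^ 2) := by
      apply Real.le_sqrt_of_sq_le
      rw [mul_pow, Real.sq_sqrt (by positivity), ← Real.exp_nat_mul]
      have h1 : x j t ^ 2 + y j t ^ 2 ≤ En x y m J t := by
        have := Finset.single_le_sum (s := Finset.range (J + 1))
          (f := fun i => x (m + i) t ^ 2 + y (m + i) t ^ 2) (fun i _ => by positivity)
          (a := j - m) (Finset.mem_range.2 (by omega))
        simpa [En, Nat.add_sub_cancel' hmj] using this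
      have h2 := mul_le_mul_of_nonneg_left h1 (Real.exp_pos (2 * (d m * t))).le
      simp only [hF]
      push_cast
      nlinarith [sq_nonneg ε]
    simp only [Ig_zero, mul_zero, add_zero] at hcmp
    have : ε * t ≤ ε * T := mul_le_mul_of_nonneg_left ht.2 hε.le
    linarith
  have key2 : Real.exp (d m * t) * √(x j t ^ 2 + y j t ^ 2) ≤ e0 m + Ig d α μ y m t := by
    apply le_of_forall_pos_le_add
    intro δ hδ
    have := key (δ / (1 + T)) (by positivity)
    rwa [div_mul_cancel₀ _ (by positivity)] at this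
  have key3 : √(x j t ^ 2 + y j t ^ 2) ≤ e0 m + sg d α μ y m t := by
    have e1 := mul_le_mul_of_nonneg_left key2 (Real.exp_pos (-(d m * t))).le
    rw [← mul_assoc, ← Real.exp_add, neg_add_cancel, Real.exp_zero, one_mul, mul_add] at e1
    have e2 : Real.exp (-(d m * t)) * e0 m ≤ e0 m := by
      have : Real.exp (-(d m * t)) ≤ 1 := by
        rw [Real.exp_le_one_iff]
        have := mul_nonneg hdm ht.1
        linarith
      exact mul_le_of_le_one_left (e0_nonneg m) this
    unfold sg
    linarith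
  constructor
  · refine le_trans ?_ key3
    rw [← Real.sqrt_sq_eq_abs]
    exact Real.sqrt_le_sqrt (by linarith [sq_nonneg (y j t)])
  · refine le_trans ?_ key3
    rw [← Real.sqrt_sq_eq_abs]
    exact Real.sqrt_le_sqrt (by linarith [sq_nonneg (x j t)])

theorem Cas.le_one (h : Cas T d D α μ x y) (S : Sgn d D α μ) (j : ℕ) {t : ℝ} (ht : t ∈ Icc 0 T) :
    |x j t| ≤ 1 ∧ |y j t| ≤ 1 := by
  have := h.tail S (Nat.zero_le j) ht
  simpa [e0, sg_lev0] using this

theorem Cas.tail' (h : Cas T d D α μ x y) (S : Sgn d D α μ) {m j : ℕ} (hmj : m + 1 ≤ j) {t : ℝ}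
    (ht : t ∈ Icc 0 T) : |x j t| ≤ sg d α μ y (m + 1) t ∧ |y j t| ≤ sg d α μ y (m + 1) t := by
  have := h.tail S hmj ht
  simpa [e0] using this

/-- the amplified modes are nonnegative -/
theorem Cas.ynonneg (h : Cas T d D α μ x y) (S : Sgn d D α μ) (n : ℕ) {t : ℝ}
    (ht : t ∈ Icc 0 T) : 0 ≤ y n t := by
  have hgc : Continuous fun s => α n * (x n s - x (n + 1) s) - D n - μ n * y (n + 1) s :=
    ((continuous_const.mul ((h.xc n).sub (h.xc (n + 1)))).sub continuous_const).sub
      (continuous_const.mul (h.yc (n + 1)))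
  have hG : ∀ s, HasDerivAt (fun r => ∫ u in (0 : ℝ)..r, (α n * (x n u - x (n + 1) u) - D n
      - μ n * y (n + 1) u)) (α n * (x n s - x (n + 1) s) - D n - μ n * y (n + 1) s) s := fun s =>
    (hgc.integral_hasStrictDerivAt 0 s).hasDerivAt
  set G : ℝ → ℝ := fun r => ∫ u in (0 : ℝ)..r, (α n * (x n u - x (n + 1) u) - D n
      - μ n * y (n + 1) u) with hGdef
  have hGc : Continuous G := continuous_iff_continuousAt.2 fun s => (hG s).continuousAt
  have hcmp := cmp (f := fun _ => 0) (f' := fun _ => 0) (g := fun s => y n s * Real.exp (-G s))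
    (g' := fun s => gf μ y n s * Real.exp (-G s)) ht.1 continuousOn_const
    ((h.yc n).mul (Real.continuous_exp.comp hGc.neg)).continuousOn
    (fun s _ => hasDerivAt_const _ _)
    (fun s hs => by
      have h1 := h.yd n s ⟨hs.1, hs.2.trans_le ht.2⟩
      have h2 := (hG s).neg.exp
      refine (h1.mul h2).congr_deriv ?_
      simp only [Pi.neg_apply]
      ring)
    (fun s _ => mul_nonneg (gf_nonneg (fun n => (S.μ0 n).le) n s) (Real.exp_pos _).le)
  have hy0 : 0 ≤ y n 0 := by
    cases n with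
    | zero => rw [h.y0]; norm_num
    | succ n => rw [h.ys]
  have hy0' : 0 ≤ y n 0 * Real.exp (-G 0) := mul_nonneg hy0 (Real.exp_pos _).le
  by_contra hneg
  push Not at hneg
  have := mul_neg_of_neg_of_pos hneg (Real.exp_pos (-G t))
  linarith

end Pool.Agent.N977.Q
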