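import Pool.Agent.N977.Q.Dk
import Pool.Agent.H459R3.NS.Defs

/-!
Joint smoothness in space and time of series of modes.
-/

open Set Filter Topology
open scoped ContDiff

namespace Pool.Agent.N977.Q

open H459R3.NS (V)

theorem hasFDerivWithinAt_tsum' {E F : Type*} [NormedAddCommGroup E]
    [NormedSpace ℝ E] [NormedAddCommGroup F] [NormedSpace ℝ F] [CompleteSpace F] {K : Set E}
    (hK : Convex ℝ K) (f : ℕ → E → F) (f' : ℕ → E → E →L[ℝ] F) (u : ℕ → ℝ) (hu : Summable u)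
    (hf : ∀ i, ∀ x ∈ K, HasFDerivWithinAt (f i) (f' i x) K x)
    (hf' : ∀ i, ∀ x ∈ K, ‖f' i x‖ ≤ u i)
    (hs : ∀ x ∈ K, Summable fun i => f i x) (x : E) (hx : x ∈ K) :
    HasFDerivWithinAt (fun y => ∑' i, f i y) (∑' i, f' i x) K x := by
  have hs' : Summable fun i => f' i x := Summable.of_norm_bounded hu fun i => hf' i x hx
  rw [hasFDerivWithinAt_iff_isLittleO, Asymptotics.isLittleO_iff]
  intro c hc
  obtain ⟨N, hN⟩ := ((tendsto_sum_nat_add u).eventually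
    (gt_mem_nhds (show (0:ℝ) < c / 4 by positivity))).exists
  have hfin : HasFDerivWithinAt (fun y => ∑ i ∈ Finset.range N, f i y)
      (∑ i ∈ Finset.range N, f' i x) K x := HasFDerivWithinAt.fun_sum fun i _ => hf i x hx
  rw [hasFDerivWithinAt_iff_isLittleO, Asymptotics.isLittleO_iff] at hfin
  have h1 := hfin (show (0:ℝ) < c / 2 by positivity)
  filter_upwards [h1, self_mem_nhdsWithin] with y hy1 hyK
  have hu' : Summable fun i => u (i + N) := (summable_nat_add_iff N).2 hu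
  have hy2 : Summable fun i => f (i + N) y := (summable_nat_add_iff N).2 (hs y hyK)
  have hx2 : Summable fun i => f (i + N) x := (summable_nat_add_iff N).2 (hs x hx)
  have hx3 : Summable fun i => f' (i + N) x := (summable_nat_add_iff N).2 hs'
  have e1 : ∑' i, f i y = ∑ i ∈ Finset.range N, f i y + ∑' i, f (i + N) y :=
    ((hs y hyK).sum_add_tsum_nat_add N).symm
  have e2 : ∑' i, f i x = ∑ i ∈ Finset.range N, f i x + ∑' i, f (i + N) x :=
    ((hs x hx).sum_add_tsum_nat_add N).symm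
  have e3 : ∑' i, f' i x = ∑ i ∈ Finset.range N, f' i x + ∑' i, f' (i + N) x :=
    (hs'.sum_add_tsum_nat_add N).symm
  have e4 : (∑' i, f' (i + N) x) (y - x) = ∑' i, f' (i + N) x (y - x) :=
    (ContinuousLinearMap.apply ℝ F (y - x)).map_tsum hx3
  have hs4 : Summable fun i => f' (i + N) x (y - x) :=
    (ContinuousLinearMap.apply ℝ F (y - x)).summable hx3
  have e5 : ∑' i, f (i + N) y - ∑' i, f (i + N) x - (∑' i, f' (i + N) x) (y - x) =
      ∑' i, (f (i + N) y - f (i + N) x - f' (i + N) x (y - x)) := by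
    rw [e4, (hy2.sub hx2).tsum_sub hs4, hy2.tsum_sub hx2]
  have hb : ∀ i, ‖f (i + N) y - f (i + N) x - f' (i + N) x (y - x)‖ ≤
      u (i + N) * (2 * ‖y - x‖) := by
    intro i
    have b1 : ‖f (i + N) y - f (i + N) x‖ ≤ u (i + N) * ‖y - x‖ :=
      hK.norm_image_sub_le_of_norm_hasFDerivWithin_le (fun z hz => hf (i + N) z hz)
        (fun z hz => hf' (i + N) z hz) hx hyK
    have b2 : ‖f' (i + N) x (y - x)‖ ≤ u (i + N) * ‖y - x‖ :=
      ((f' (i + N) x).le_opNorm _).trans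
        (mul_le_mul_of_nonneg_right (hf' (i + N) x hx) (norm_nonneg _))
    calc ‖f (i + N) y - f (i + N) x - f' (i + N) x (y - x)‖
        ≤ ‖f (i + N) y - f (i + N) x‖ + ‖f' (i + N) x (y - x)‖ := norm_sub_le _ _
      _ ≤ u (i + N) * (2 * ‖y - x‖) := by linarith
  have hb2 : ‖∑' i, f (i + N) y - ∑' i, f (i + N) x - (∑' i, f' (i + N) x) (y - x)‖ ≤
      c / 2 * ‖y - x‖ := by
    rw [e5]
    have hsum : Summable fun i => u (i + N) * (2 * ‖y - x‖) := hu'.mul_right _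
    refine (tsum_of_norm_bounded hsum.hasSum hb).trans ?_
    rw [tsum_mul_right]
    have := mul_le_mul_of_nonneg_right hN.le (show 0 ≤ 2 * ‖y - x‖ by positivity)
    linarith
  have e6 : ∑' i, f i y - ∑' i, f i x - (∑' i, f' i x) (y - x) =
      (∑ i ∈ Finset.range N, f i y - ∑ i ∈ Finset.range N, f i x -
        (∑ i ∈ Finset.range N, f' i x) (y - x)) +
      (∑' i, f (i + N) y - ∑' i, f (i + N) x - (∑' i, f' (i + N) x) (y - x)) := by
    rw [e1, e2, e3, add_apply]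
    abel
  rw [e6]
  refine (norm_add_le _ _).trans ?_
  linarith

/-- Smooth functions all of whose derivatives are bounded by `1`. -/
structure Bd (φ : ℝ → ℝ) : Prop where
  smooth : ContDiff ℝ ∞ φ
  bd : ∀ k x, |iteratedDeriv k φ x| ≤ 1

theorem bd_cos : Bd Real.cos := ⟨Real.contDiff_cos, fun k x => Real.abs_iteratedDeriv_cos_le_one k x⟩

theorem bd_sin : Bd Real.sin := ⟨Real.contDiff_sin, fun k x => Real.abs_iteratedDeriv_sin_le_one k x⟩

theorem Bd.deriv {φ : ℝ → ℝ} (h : Bd φ) : Bd (deriv φ) := by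
  refine ⟨?_, fun k x => ?_⟩
  · exact (contDiff_infty_iff_deriv.1 h.smooth).2
  · rw [← iteratedDeriv_succ']; exact h.bd (k + 1) x

theorem Bd.le {φ : ℝ → ℝ} (h : Bd φ) (x : ℝ) : |φ x| ≤ 1 := by
  have := h.bd 0 x
  rwa [iteratedDeriv_zero] at this

theorem Bd.hasDerivAt {φ : ℝ → ℝ} (h : Bd φ) (x : ℝ) : HasDerivAt φ (_root_.deriv φ x) x :=
  ((h.smooth.differentiable (by simp)) x).hasDerivAt

/-- the series of the modes `φ (M n * ℓ x)` -/
noncomputable def Fs (φ : ℝ → ℝ) (M : ℕ → ℝ) (ℓ : V →L[ℝ] ℝ) (g : ℕ → ℝ → ℝ) (z : ℝ × V) : ℝ :=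
  ∑' n, g n z.1 * φ (M n * ℓ z.2)

variable {T : ℝ} {M : ℕ → ℝ} {g g' : ℕ → ℝ → ℝ} {φ : ℝ → ℝ} {ℓ : V →L[ℝ] ℝ}

/-- the weights grow exponentially -/
structure Me (M : ℕ → ℝ) : Prop extends Mw M where
  two : ∀ n, 2 ^ n ≤ M n

theorem RT.half (hg : RT T M g) (hM : Me M) (s : ℕ) {T' : ℝ} (hT' : T' < T) :
    ∃ C, 0 ≤ C ∧ ∀ t ∈ Icc 0 T', ∀ n, M n ^ s * |g n t| ≤ C * (1 / 2) ^ n := by
  obtain ⟨C, hC⟩ := hg (s + 1) T' hT'
  refine ⟨max C 0, le_max_right _ _, fun t ht n => ?_⟩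
  have h1 := hC t ht n
  have h2 := hM.two n
  have h3 := hM.one n
  rw [pow_succ] at h1
  have h4 : 0 ≤ M n ^ s * |g n t| := by positivity
  have h5 : M n ^ s * |g n t| * 2 ^ n ≤ max C 0 := by
    calc M n ^ s * |g n t| * 2 ^ n ≤ M n ^ s * |g n t| * M n := mul_le_mul_of_nonneg_left h2 h4
      _ = M n ^ s * M n * |g n t| := by ring
      _ ≤ C := h1
      _ ≤ _ := le_max_left _ _
  rw [one_div, inv_pow, ← div_eq_mul_inv, le_div_iff₀ (by positivity)]
  exact h5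

theorem fs_summable (hM : Me M) (hg : RT T M g) (hφ : ∀ x, |φ x| ≤ 1) {t : ℝ} (ht : t ∈ Ico 0 T)
    (x : V) : Summable fun n => g n t * φ (M n * ℓ x) := by
  obtain ⟨C, hC0, hC⟩ := hg.half hM 0 ht.2
  refine Summable.of_norm_bounded (g := fun n => C * (1 / 2) ^ n)
    (summable_geometric_two.mul_left C) fun n => ?_
  have h1 := hC t ⟨ht.1, le_rfl⟩ n
  rw [pow_zero, one_mul] at h1
  rw [norm_mul, Real.norm_eq_abs, Real.norm_eq_abs]
  calc |g n t| * |φ (M n * ℓ x)| ≤ (C * (1 / 2) ^ n) * 1 :=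
        mul_le_mul h1 (hφ _) (abs_nonneg _) (by positivity)
    _ = _ := mul_one _

theorem fs_hasFDerivWithinAt (hM : Me M) (hφ : Bd φ) (hg : RT T M g) (hg' : RT T M g')
    (hd : ∀ n, ∀ t ∈ Ico 0 T, HasDerivWithinAt (g n) (g' n t) (Ico 0 T) t) {z : ℝ × V}
    (hz : z ∈ Ico 0 T ×ˢ (univ : Set V)) :
    HasFDerivWithinAt (Fs φ M ℓ g)
      (Fs φ M ℓ g' z • ContinuousLinearMap.fst ℝ ℝ V
        + Fs (deriv φ) M ℓ (fun n t => M n * g n t) z • ℓ.comp (ContinuousLinearMap.snd ℝ ℝ V))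
      (Ico 0 T ×ˢ univ) z := by
  obtain ⟨T', h1, h2⟩ := exists_between hz.1.2
  set K : Set (ℝ × V) := Icc 0 T' ×ˢ univ with hK
  have hKc : Convex ℝ K := (convex_Icc 0 T').prod convex_univ
  have hKT : ∀ w ∈ K, w.1 ∈ Ico 0 T := fun w hw => ⟨hw.1.1, hw.1.2.trans_lt h2⟩
  have hzK : z ∈ K := ⟨⟨hz.1.1, h1.le⟩, mem_univ _⟩
  have hgM : RT T M (fun n t => M n * g n t) :=
    hg.coef hM.toMw (D := 1) (q := 1) (fun n => by
      rw [one_mul, pow_one, abs_of_nonneg (by linarith [hM.one n])])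
  obtain ⟨C1, hC10, hC1⟩ := hg'.half hM 0 h2
  obtain ⟨C2, hC20, hC2⟩ := hgM.half hM 0 h2
  have key := hasFDerivWithinAt_tsum' hKc (fun n (w : ℝ × V) => g n w.1 * φ (M n * ℓ w.2))
    (fun n w => (g' n w.1 * φ (M n * ℓ w.2)) • ContinuousLinearMap.fst ℝ ℝ V
      + (M n * g n w.1 * deriv φ (M n * ℓ w.2)) • ℓ.comp (ContinuousLinearMap.snd ℝ ℝ V))
    (fun n => (C1 + C2 * ‖ℓ‖) * (1 / 2) ^ n) (summable_geometric_two.mul_left _)
    (fun n w hw => by
      have a1 : HasFDerivWithinAt (fun w : ℝ × V => g n w.1)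
          (g' n w.1 • ContinuousLinearMap.fst ℝ ℝ V) K w :=
        HasDerivWithinAt.comp_hasFDerivWithinAt (t := Ico 0 T) w (hd n w.1 (hKT w hw))
          (hasFDerivWithinAt_fst) (fun v hv => hKT v hv)
      have a2 : HasFDerivAt (fun w : ℝ × V => M n * ℓ w.2)
          (M n • ℓ.comp (ContinuousLinearMap.snd ℝ ℝ V)) w :=
        ((ℓ.comp (ContinuousLinearMap.snd ℝ ℝ V)).hasFDerivAt).const_mul (M n)
      have a3 : HasFDerivWithinAt (fun w : ℝ × V => φ (M n * ℓ w.2))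
          (deriv φ (M n * ℓ w.2) • (M n • ℓ.comp (ContinuousLinearMap.snd ℝ ℝ V))) K w :=
        ((hφ.hasDerivAt (M n * ℓ w.2)).comp_hasFDerivAt w a2).hasFDerivWithinAt
      refine (a1.mul a3).congr_fderiv ?_
      ext v <;> simp <;> ring)
    (fun n w hw => by
      have b1 := hC1 w.1 hw.1 n
      have b2 := hC2 w.1 hw.1 n
      rw [pow_zero, one_mul] at b1 b2
      have c1 : ‖(g' n w.1 * φ (M n * ℓ w.2)) • ContinuousLinearMap.fst ℝ ℝ V‖
          ≤ C1 * (1 / 2) ^ n := by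
        rw [norm_smul, Real.norm_eq_abs, abs_mul]
        calc |g' n w.1| * |φ (M n * ℓ w.2)| * ‖ContinuousLinearMap.fst ℝ ℝ V‖
            ≤ (C1 * (1 / 2) ^ n) * 1 * 1 :=
              mul_le_mul (mul_le_mul b1 (hφ.le _) (abs_nonneg _) (by positivity))
                (ContinuousLinearMap.norm_fst_le _ _ _) (norm_nonneg _) (by positivity)
          _ = _ := by ring
      have c2 : ‖(M n * g n w.1 * deriv φ (M n * ℓ w.2)) •
          ℓ.comp (ContinuousLinearMap.snd ℝ ℝ V)‖ ≤ C2 * (1 / 2) ^ n * ‖ℓ‖ := by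
        rw [norm_smul, Real.norm_eq_abs, abs_mul]
        have c3 : ‖ℓ.comp (ContinuousLinearMap.snd ℝ ℝ V)‖ ≤ ‖ℓ‖ := by
          refine (ContinuousLinearMap.opNorm_comp_le _ _).trans ?_
          calc ‖ℓ‖ * ‖ContinuousLinearMap.snd ℝ ℝ V‖ ≤ ‖ℓ‖ * 1 :=
                mul_le_mul_of_nonneg_left (ContinuousLinearMap.norm_snd_le _ _ _) (norm_nonneg _)
            _ = ‖ℓ‖ := mul_one _
        calc |M n * g n w.1| * |deriv φ (M n * ℓ w.2)| *
              ‖ℓ.comp (ContinuousLinearMap.snd ℝ ℝ V)‖ ≤ (C2 * (1 / 2) ^ n) * 1 * ‖ℓ‖ :=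
              mul_le_mul (mul_le_mul b2 (hφ.deriv.le _) (abs_nonneg _) (by positivity)) c3
                (norm_nonneg _) (by positivity)
          _ = _ := by ring
      refine (norm_add_le _ _).trans ?_
      calc _ ≤ C1 * (1 / 2) ^ n + C2 * (1 / 2) ^ n * ‖ℓ‖ := add_le_add c1 c2
        _ = _ := by ring)
    (fun w hw => fs_summable hM hg hφ.le (hKT w hw) w.2) z hzK
  have hsum : (∑' n, ((g' n z.1 * φ (M n * ℓ z.2)) • ContinuousLinearMap.fst ℝ ℝ V
      + (M n * g n z.1 * deriv φ (M n * ℓ z.2)) • ℓ.comp (ContinuousLinearMap.snd ℝ ℝ V)))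
      = Fs φ M ℓ g' z • ContinuousLinearMap.fst ℝ ℝ V
        + Fs (deriv φ) M ℓ (fun n t => M n * g n t) z • ℓ.comp (ContinuousLinearMap.snd ℝ ℝ V) := by
    have s1 := (fs_summable (ℓ := ℓ) hM hg' hφ.le hz.1 z.2).hasSum.smul_const
      (ContinuousLinearMap.fst ℝ ℝ V)
    have s2 := (fs_summable (ℓ := ℓ) hM hgM hφ.deriv.le hz.1 z.2).hasSum.smul_const
      (ℓ.comp (ContinuousLinearMap.snd ℝ ℝ V))
    exact (s1.add s2).tsum_eq
  rw [hsum] at key
  have hnh : K ∈ 𝓝[Ico 0 T ×ˢ (univ : Set V)] z := by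
    have : {w : ℝ × V | w.1 < T'} ∈ 𝓝 z := (isOpen_lt continuous_fst continuous_const).mem_nhds h1
    filter_upwards [mem_nhdsWithin_of_mem_nhds this, self_mem_nhdsWithin] with w hw hw2
    exact ⟨⟨hw2.1.1, le_of_lt hw⟩, mem_univ _⟩
  exact HasFDerivWithinAt.mono_of_mem_nhdsWithin key hnh

theorem uniqueDiffOn_slab {T : ℝ} : UniqueDiffOn ℝ (Ico 0 T ×ˢ (univ : Set V)) :=
  (uniqueDiffOn_Ico 0 T).prod uniqueDiffOn_univ

theorem fs_continuousOn (hM : Me M) (hφ : Bd φ) (hg : RT T M g)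
    (hgc : ∀ n, ContinuousOn (g n) (Ico 0 T)) :
    ContinuousOn (Fs φ M ℓ g) (Ico 0 T ×ˢ (univ : Set V)) := by
  intro z hz
  obtain ⟨T', h1, h2⟩ := exists_between hz.1.2
  obtain ⟨C, hC0, hC⟩ := hg.half hM 0 h2
  have hc : ContinuousOn (Fs φ M ℓ g) (Icc 0 T' ×ˢ (univ : Set V)) := by
    unfold Fs
    refine continuousOn_tsum (u := fun n => C * (1 / 2) ^ n) (fun n => ?_)
      (summable_geometric_two.mul_left C) (fun n w hw => ?_)
    · have a1 : ContinuousOn (fun w : ℝ × V => g n w.1) (Icc 0 T' ×ˢ (univ : Set V)) :=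
        (hgc n).comp continuousOn_fst fun w hw => ⟨hw.1.1, hw.1.2.trans_lt h2⟩
      have a2 : Continuous fun w : ℝ × V => φ (M n * ℓ w.2) :=
        hφ.smooth.continuous.comp (continuous_const.mul (ℓ.continuous.comp continuous_snd))
      exact a1.mul a2.continuousOn
    · have b1 := hC w.1 hw.1 n
      rw [pow_zero, one_mul] at b1
      rw [norm_mul, Real.norm_eq_abs, Real.norm_eq_abs]
      calc |g n w.1| * |φ (M n * ℓ w.2)| ≤ (C * (1 / 2) ^ n) * 1 :=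
            mul_le_mul b1 (hφ.le _) (abs_nonneg _) (by positivity)
        _ = _ := mul_one _
  have hnh : Icc 0 T' ×ˢ (univ : Set V) ∈ 𝓝[Ico 0 T ×ˢ (univ : Set V)] z := by
    have : {w : ℝ × V | w.1 < T'} ∈ 𝓝 z := (isOpen_lt continuous_fst continuous_const).mem_nhds h1
    filter_upwards [mem_nhdsWithin_of_mem_nhds this, self_mem_nhdsWithin] with w hw hw2
    exact ⟨⟨hw2.1.1, le_of_lt hw⟩, mem_univ _⟩
  exact (hc z ⟨⟨hz.1.1, h1.le⟩, mem_univ _⟩).mono_of_mem_nhdsWithin hnh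

theorem fs_contDiffOn (hM : Me M) (m : ℕ) : ∀ (g : ℕ → ℝ → ℝ) (φ : ℝ → ℝ), Dk T M m g → Bd φ →
    ContDiffOn ℝ m (Fs φ M ℓ g) (Ico 0 T ×ˢ (univ : Set V)) := by
  induction m with
  | zero =>
    intro g φ hg hφ
    rw [Nat.cast_zero, contDiffOn_zero]
    exact fs_continuousOn hM hφ hg.rt hg.cont
  | succ m ih =>
    intro g φ hg hφ
    have hgM : Dk T M m (fun n t => M n * g n t) :=
      hg.pred.coef hM.toMw (D := 1) (q := 1) (fun n => by
        rw [one_mul, pow_one, abs_of_nonneg (by linarith [hM.one n])])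
    obtain ⟨h0, g', h1, h2⟩ := hg
    have hder : ∀ z ∈ Ico 0 T ×ˢ (univ : Set V), HasFDerivWithinAt (Fs φ M ℓ g)
        (Fs φ M ℓ g' z • ContinuousLinearMap.fst ℝ ℝ V
          + Fs (deriv φ) M ℓ (fun n t => M n * g n t) z • ℓ.comp (ContinuousLinearMap.snd ℝ ℝ V))
        (Ico 0 T ×ˢ univ) z := fun z hz => fs_hasFDerivWithinAt hM hφ h0 h2.rt h1 hz
    have e : ((m + 1 : ℕ) : WithTop ℕ∞) = (m : WithTop ℕ∞) + 1 := by push_cast; rfl
    rw [e, contDiffOn_succ_iff_fderivWithin uniqueDiffOn_slab]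
    refine ⟨fun z hz => (hder z hz).differentiableWithinAt, by simp, ?_⟩
    have h3 : ContDiffOn ℝ m (fun z => Fs φ M ℓ g' z • ContinuousLinearMap.fst ℝ ℝ V
          + Fs (deriv φ) M ℓ (fun n t => M n * g n t) z • ℓ.comp (ContinuousLinearMap.snd ℝ ℝ V))
        (Ico 0 T ×ˢ (univ : Set V)) :=
      ((ih g' φ h2 hφ).smul contDiffOn_const).add
        ((ih _ (deriv φ) hgM hφ.deriv).smul contDiffOn_const)
    exact h3.congr fun z hz => (hder z hz).fderivWithin (uniqueDiffOn_slab z hz)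

theorem fs_smooth (hM : Me M) (hg : ∀ m, Dk T M m g) (hφ : Bd φ) :
    ContDiffOn ℝ ∞ (Fs φ M ℓ g) (Ico 0 T ×ˢ (univ : Set V)) :=
  contDiffOn_infty.2 fun m => fs_contDiffOn hM m g φ (hg m) hφ

end Pool.Agent.N977.Q
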