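import Pool.Agent.H459R3.NS.High2
import Pool.Agent.N977.K.Modes
import Pool.Agent.N977.Q.Log
import Pool.Agent.N977.Q.Ser

/-!
Sparse bilinear Fourier multipliers.
-/

open MeasureTheory Set Filter Topology
open scoped ContDiff

namespace Pool.Agent.N977.Q

open H459R3.NS
open Pool.Agent.N977.K (re_integral)

/-! ### characters -/

/-- the real part of a multiple of a character -/
noncomputable def Rm (k : K3) (a : ℂ) (x : V) : ℝ := (a * ee k x).re

theorem Rm_cont (k : K3) (a : ℂ) : Continuous (Rm k a) :=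
  Complex.continuous_re.comp (continuous_const.mul (ee_continuous k))

theorem abs_Rm_le (k : K3) (a : ℂ) (x : V) : |Rm k a x| ≤ ‖a‖ := by
  unfold Rm
  refine (Complex.abs_re_le_norm _).trans ?_
  rw [norm_mul, norm_ee, mul_one]

theorem Rm_per (k : K3) (a : ℂ) : Per (Rm k a) := fun i x => by unfold Rm; rw [ee_per k i x]

theorem ee_eq (k : K3) (x : V) : ee k x = (Real.cos (2 * Real.pi * ph k x) : ℝ)
    + (Real.sin (2 * Real.pi * ph k x) : ℝ) * Complex.I := by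
  unfold ee
  have : 2 * Real.pi * Complex.I * (ph k x : ℂ) = ((2 * Real.pi * ph k x : ℝ) : ℂ) * Complex.I := by
    push_cast; ring
  rw [this, Complex.exp_mul_I, Complex.ofReal_cos, Complex.ofReal_sin]

theorem Rm_eq (k : K3) (a : ℂ) (x : V) : Rm k a x = a.re * Real.cos (2 * Real.pi * ph k x)
    - a.im * Real.sin (2 * Real.pi * ph k x) := by
  unfold Rm
  rw [ee_eq]
  simp [-Complex.ofReal_cos, -Complex.ofReal_sin]

theorem Rm_smul (k : K3) (r : ℝ) (a : ℂ) (x : V) : Rm k (r * a) x = r * Rm k a x := by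
  unfold Rm
  rw [mul_assoc, Complex.re_ofReal_mul]

theorem Rm_add (k : K3) (a b : ℂ) (x : V) : Rm k (a + b) x = Rm k a x + Rm k b x := by
  unfold Rm
  rw [add_mul, Complex.add_re]

theorem Rm_sub (k : K3) (a b : ℂ) (x : V) : Rm k (a - b) x = Rm k a x - Rm k b x := by
  unfold Rm
  rw [sub_mul, Complex.sub_re]

theorem int_Rm_mul (k : K3) (a : ℂ) {h : V → ℝ} (hh : Continuous h) :
    ∫ x in cube, Rm k a x * h x = (a * fr h (-k)).re := by
  have hc : Continuous fun x => ee k x * (h x : ℂ) :=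
    (ee_continuous k).mul (Complex.continuous_ofReal.comp hh)
  have e1 : fr h (-k) = ∫ x in cube, ee k x * (h x : ℂ) := by
    unfold fr fc; rw [neg_neg]
  have hc2 : Continuous fun x => a * (ee k x * (h x : ℂ)) := continuous_const.mul hc
  rw [e1, ← integral_const_mul, re_integral hc2]
  congr 1
  funext x
  unfold Rm
  rw [← mul_assoc, Complex.re_mul_ofReal]

/-! ### the operator -/

/-- The elementary operator: `f̂(p) ĝ(q) e^{2 π i (p + q) x}` (real part). -/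
noncomputable def Ee (p q : K3) (f g : V → ℝ) (x : V) : ℝ := Rm (p + q) (fr f p * fr g q) x

/-- Its trilinear form. -/
noncomputable def Tf (p q : K3) (f g h : V → ℝ) : ℝ := (fr f p * fr g q * fr h (-p - q)).re

variable {ι : Type} [Fintype ι]

/-- the third frequency of the triad -/
def thd (p q : K3) : K3 := -p - q

/-- The `n`-th summand of the operator: `∑ c (E(p,q) - E(p,-p-q))` over the triads of the level. -/
noncomputable def Lt (P Q : ι → K3) (c : ℕ → ι → ℝ) (N n : ℕ) (f g : V → ℝ) (x : V) : ℝ :=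
  ∑ i, c n i * (Ee ((Mn N n : ℤ) • P i) ((Mn N n : ℤ) • Q i) f g x
    - Ee ((Mn N n : ℤ) • P i) ((Mn N n : ℤ) • thd (P i) (Q i)) f g x)

/-- The operator on scalar functions. -/
noncomputable def kk (P Q : ι → K3) (c : ℕ → ι → ℝ) (N : ℕ) (f g : V → ℝ) (x : V) : ℝ :=
  ∑' n, Lt P Q c N n f g x

/-- The operator on vector fields: it acts on the third components. -/
noncomputable def KK (P Q : ι → K3) (c : ℕ → ι → ℝ) (N : ℕ) (u v : V → V) (x : V) : V := fun i =>
  if i = 2 then kk P Q c N (fun y => u y 2) (fun y => v y 2) x else 0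

/-- The trilinear form of the `n`-th summand. -/
noncomputable def Fm (P Q : ι → K3) (c : ℕ → ι → ℝ) (N n : ℕ) (f g h : V → ℝ) : ℝ :=
  ∑ i, c n i * (Tf ((Mn N n : ℤ) • P i) ((Mn N n : ℤ) • Q i) f g h
    - Tf ((Mn N n : ℤ) • P i) ((Mn N n : ℤ) • Q i) f h g)

/-- Conditions on the coefficients and on the triads. -/
structure Gr (P Q : ι → K3) (c : ℕ → ι → ℝ) (N : ℕ) (G : ℝ) : Prop where
  N0 : 0 < N
  G0 : 0 ≤ G
  c : ∀ n i, |c n i| ≤ G * (Mn N n : ℝ) ^ 3
  P0 : ∀ i, P i ≠ 0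
  Q0 : ∀ i, Q i ≠ 0
  R0 : ∀ i, thd (P i) (Q i) ≠ 0
  P2 : ∀ i, P i 2 = 0
  Q2 : ∀ i, Q i 2 = 0

variable {P Q : ι → K3} {c : ℕ → ι → ℝ} {N : ℕ} {G : ℝ}

theorem int_Ee (p q : K3) (f g : V → ℝ) {h : V → ℝ} (hh : Continuous h) :
    ∫ x in cube, Ee p q f g x * h x = Tf p q f g h := by
  unfold Ee Tf
  rw [int_Rm_mul _ _ hh, neg_add, sub_eq_add_neg]

theorem Tf_thd (p q : K3) (f g h : V → ℝ) : Tf p (thd p q) f g h = Tf p q f h g := by
  unfold Tf thd
  have e : -p - (-p - q) = q := by abel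
  rw [e]
  congr 1
  ring

theorem Lt_cont (n : ℕ) (f g : V → ℝ) : Continuous (Lt P Q c N n f g) := by
  unfold Lt
  exact continuous_finsetSum _ fun i _ =>
    continuous_const.mul ((Rm_cont _ _).sub (Rm_cont _ _))

theorem thd_smul (m : ℤ) (p q : K3) : m • thd p q = thd (m • p) (m • q) := by
  unfold thd
  rw [smul_sub, smul_neg]

theorem int_Lt (n : ℕ) (f g : V → ℝ) {h : V → ℝ} (hh : Continuous h) :
    ∫ x in cube, Lt P Q c N n f g x * h x = Fm P Q c N n f g h := by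
  unfold Lt Fm
  simp_rw [Finset.sum_mul]
  have hcont : ∀ p q : K3, Continuous fun x => Ee p q f g x * h x := fun p q =>
    (Rm_cont _ _).mul hh
  have hcc : ∀ i, Continuous fun x => c n i * (Ee ((Mn N n : ℤ) • P i) ((Mn N n : ℤ) • Q i) f g x
      - Ee ((Mn N n : ℤ) • P i) ((Mn N n : ℤ) • thd (P i) (Q i)) f g x) * h x := fun i =>
    (continuous_const.mul ((Rm_cont _ _).sub (Rm_cont _ _))).mul hh
  rw [integral_finsetSum _ fun i _ => integrableOn_cube (hcc i)]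
  refine Finset.sum_congr rfl fun i _ => ?_
  have e : ∀ x, c n i * (Ee ((Mn N n : ℤ) • P i) ((Mn N n : ℤ) • Q i) f g x
      - Ee ((Mn N n : ℤ) • P i) ((Mn N n : ℤ) • thd (P i) (Q i)) f g x) * h x
      = c n i * (Ee ((Mn N n : ℤ) • P i) ((Mn N n : ℤ) • Q i) f g x * h x
      - Ee ((Mn N n : ℤ) • P i) ((Mn N n : ℤ) • thd (P i) (Q i)) f g x * h x) := fun x => by ring
  simp_rw [e]
  rw [integral_const_mul, integral_sub (integrableOn_cube (hcont _ _))
    (integrableOn_cube (hcont _ _)), int_Ee _ _ _ _ hh, int_Ee _ _ _ _ hh, thd_smul, Tf_thd]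

/-! ### decay -/

theorem natCast_le_N {M : ℕ} {p : K3} (hp : p ≠ 0) : M ≤ H459R3.NS.N ((M : ℤ) • p) := by
  obtain ⟨j, hj⟩ : ∃ j, p j ≠ 0 := by
    by_contra hcon
    push Not at hcon
    exact hp (funext hcon)
  have h1 := (N_le_iff ((M : ℤ) • p) (H459R3.NS.N ((M : ℤ) • p))).1 le_rfl j
  have h2 : |((M : ℤ) • p) j| = (M : ℤ) * |p j| := by
    simp [abs_mul]
  rw [h2] at h1
  have h3 : 1 ≤ |p j| := Int.one_le_abs hj
  have h4 : (M : ℤ) ≤ (M : ℤ) * |p j| := le_mul_of_one_le_right (by positivity) h3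
  exact_mod_cast h4.trans h1

/-- `B` bounds the coefficients of `f`, with the weight `|k| ^ s` -/
def Fb (s : ℕ) (B : ℝ) (f : V → ℝ) : Prop := ∀ k, (H459R3.NS.N k : ℝ) ^ s * ‖fr f k‖ ≤ B

theorem Fb.nonneg {s : ℕ} {B : ℝ} {f : V → ℝ} (h : Fb s B f) : 0 ≤ B :=
  le_trans (by positivity) (h 0)

theorem Fb.le {s : ℕ} {B : ℝ} {f : V → ℝ} (h : Fb s B f) {M : ℕ} {p : K3} (hp : p ≠ 0) :
    (M : ℝ) ^ s * ‖fr f ((M : ℤ) • p)‖ ≤ B := by
  refine le_trans (mul_le_mul_of_nonneg_right ?_ (norm_nonneg _)) (h _)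
  exact pow_le_pow_left₀ (Nat.cast_nonneg _) (by exact_mod_cast natCast_le_N hp) s

theorem exists_Fb {f : V → ℝ} (hf : SP f) (s : ℕ) : ∃ B, 0 ≤ B ∧ Fb s B f := by
  obtain ⟨C, hC⟩ := N_pow_fr hf s
  exact ⟨C, le_trans (by positivity) (hC 0), hC⟩

/-- the coefficients of the modes of the operator -/
noncomputable def ca (P Q : ι → K3) (c : ℕ → ι → ℝ) (N : ℕ) (f g : V → ℝ) (i : ι) (n : ℕ) : ℂ :=
  (c n i : ℂ) * (fr f ((Mn N n : ℤ) • P i) * fr g ((Mn N n : ℤ) • Q i))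

noncomputable def cb (P Q : ι → K3) (c : ℕ → ι → ℝ) (N : ℕ) (f g : V → ℝ) (i : ι) (n : ℕ) : ℂ :=
  (c n i : ℂ) * (fr f ((Mn N n : ℤ) • P i) * fr g ((Mn N n : ℤ) • thd (P i) (Q i)))

theorem smul_add_thd (m : ℤ) (p q : K3) : m • p + m • thd p q = m • (-q) := by
  rw [← smul_add]; congr 1; unfold thd; abel

theorem Lt_eq (n : ℕ) (f g : V → ℝ) (x : V) : Lt P Q c N n f g x
    = ∑ i, (Rm ((Mn N n : ℤ) • (P i + Q i)) (ca P Q c N f g i n) x
      - Rm ((Mn N n : ℤ) • (-(Q i))) (cb P Q c N f g i n) x) := by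
  unfold Lt
  refine Finset.sum_congr rfl fun i _ => ?_
  unfold Ee ca cb
  rw [Rm_smul, Rm_smul, smul_add_thd, smul_add]
  ring

omit [Fintype ι] in
theorem coef_decay (hG : Gr P Q c N G) {f g : V → ℝ} {B1 B2 : ℝ} {s : ℕ} (hf : Fb (s + 4) B1 f)
    (hg : Fb 0 B2 g) (i : ι) (n : ℕ) {q : K3} :
    (Mn N n : ℝ) ^ s * ‖(c n i : ℂ) * (fr f ((Mn N n : ℤ) • P i) * fr g q)‖
      ≤ G * B1 * B2 * (1 / 2) ^ n := by
  have hM : (0 : ℝ) < Mn N n := by exact_mod_cast Mn_pos hG.N0 n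
  have h1 := hf.le (M := Mn N n) (hG.P0 i)
  have h2 : ‖fr g q‖ ≤ B2 := by have := hg q; simpa using this
  have h3 := hG.c n i
  have hB1 := hf.nonneg
  have hB2 := hg.nonneg
  have hG0 := hG.G0
  rw [norm_mul, norm_mul, Complex.norm_real, Real.norm_eq_abs]
  have h4 : ‖fr f ((Mn N n : ℤ) • P i)‖ ≤ B1 / (Mn N n : ℝ) ^ (s + 4) := by
    rw [le_div_iff₀ (by positivity), mul_comm]; exact h1
  calc (Mn N n : ℝ) ^ s * (|c n i| * (‖fr f ((Mn N n : ℤ) • P i)‖ * ‖fr g q‖))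
      ≤ (Mn N n : ℝ) ^ s * ((G * (Mn N n : ℝ) ^ 3) * ((B1 / (Mn N n : ℝ) ^ (s + 4)) * B2)) := by
        apply mul_le_mul_of_nonneg_left _ (by positivity)
        exact mul_le_mul h3 (mul_le_mul h4 h2 (norm_nonneg _) (by positivity)) (by positivity)
          (by positivity)
    _ = G * B1 * B2 * (1 / (Mn N n : ℝ)) := by
        field_simp
        ring
    _ ≤ G * B1 * B2 * (1 / 2) ^ n := by
        apply mul_le_mul_of_nonneg_left _ (by positivity)
        rw [one_div_pow]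
        exact one_div_le_one_div_of_le (by positivity) (two_pow_le_Mn hG.N0 n)

omit [Fintype ι] in
theorem Rm_summable (hG : Gr P Q c N G) {f g : V → ℝ} (hf : SP f) (hg : SP g) (i : ι) (q : ℕ → K3)
    (k : ℕ → K3) (x : V) : Summable fun n =>
      Rm (k n) ((c n i : ℂ) * (fr f ((Mn N n : ℤ) • P i) * fr g (q n))) x := by
  obtain ⟨B1, hB1, h1⟩ := exists_Fb hf (0 + 4)
  obtain ⟨B2, hB2, h2⟩ := exists_Fb hg 0
  refine Summable.of_norm_bounded (g := fun n => G * B1 * B2 * (1 / 2) ^ n)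
    (summable_geometric_two.mul_left _) fun n => ?_
  have h3 := coef_decay hG h1 h2 i n (q := q n)
  rw [pow_zero, one_mul] at h3
  exact (abs_Rm_le _ _ _).trans h3

theorem Lt_bound (hG : Gr P Q c N G) {f g : V → ℝ} (hf : SP f) (hg : SP g) :
    ∃ B, 0 ≤ B ∧ ∀ n x, |Lt P Q c N n f g x| ≤ B * (1 / 2) ^ n := by
  obtain ⟨B1, hB1, h1⟩ := exists_Fb hf (0 + 4)
  obtain ⟨B2, hB2, h2⟩ := exists_Fb hg 0
  have hG0 := hG.G0
  refine ⟨∑ _i : ι, 2 * (G * B1 * B2), Finset.sum_nonneg fun i _ => by positivity, fun n x => ?_⟩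
  rw [Lt_eq]
  refine (Finset.abs_sum_le_sum_abs _ _).trans ?_
  rw [Finset.sum_mul]
  refine Finset.sum_le_sum fun i _ => ?_
  have h3 := coef_decay hG h1 h2 i n (q := (Mn N n : ℤ) • Q i)
  have h4 := coef_decay hG h1 h2 i n (q := (Mn N n : ℤ) • thd (P i) (Q i))
  rw [pow_zero, one_mul] at h3 h4
  refine (abs_sub _ _).trans ?_
  have h5 := (abs_Rm_le ((Mn N n : ℤ) • (P i + Q i)) (ca P Q c N f g i n) x).trans h3
  have h6 := (abs_Rm_le ((Mn N n : ℤ) • (-(Q i))) (cb P Q c N f g i n) x).trans h4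
  linarith

theorem Lt_summable (hG : Gr P Q c N G) {f g : V → ℝ} (hf : SP f) (hg : SP g) (x : V) :
    Summable fun n => Lt P Q c N n f g x := by
  obtain ⟨B, hB, h⟩ := Lt_bound hG hf hg
  exact Summable.of_norm_bounded (g := fun n => B * (1 / 2) ^ n)
    (summable_geometric_two.mul_left B) fun n => h n x

/-- the trilinear form of the operator -/
theorem int_kk (hG : Gr P Q c N G) {f g h : V → ℝ} (hf : SP f) (hg : SP g) (hh : Continuous h) :
    HasSum (fun n => Fm P Q c N n f g h) (∫ x in cube, kk P Q c N f g x * h x) := by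
  obtain ⟨B, hB, hb⟩ := Lt_bound hG hf hg
  have hint : ∀ n, Integrable (fun x => Lt P Q c N n f g x * h x) (volume.restrict cube) :=
    fun n => integrableOn_cube ((Lt_cont n f g).mul hh)
  have hhi : IntegrableOn (fun x => |h x|) cube := integrableOn_cube hh.abs
  have hs : Summable fun n => ∫ x in cube, ‖Lt P Q c N n f g x * h x‖ := by
    refine Summable.of_nonneg_of_le (f := fun n : ℕ => (B * ∫ x in cube, |h x|) * (1 / 2) ^ n)
      (fun n => integral_nonneg fun x => norm_nonneg _) (fun n => ?_)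
      (summable_geometric_two.mul_left _)
    calc ∫ x in cube, ‖Lt P Q c N n f g x * h x‖ ≤ ∫ x in cube, (B * (1 / 2) ^ n) * |h x| := by
          refine integral_mono (hint n).norm (hhi.const_mul _) fun x => ?_
          simp only [norm_mul, Real.norm_eq_abs]
          exact mul_le_mul_of_nonneg_right (hb n x) (abs_nonneg _)
      _ = (B * ∫ x in cube, |h x|) * (1 / 2) ^ n := by rw [integral_const_mul]; ring
  have key := hasSum_integral_of_summable_integral_norm hint hs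
  simp_rw [int_Lt _ f g hh] at key
  have e : (∫ x in cube, ∑' n, Lt P Q c N n f g x * h x)
      = ∫ x in cube, kk P Q c N f g x * h x := by
    congr 1
    funext x
    unfold kk
    rw [tsum_mul_right]
  rwa [e] at key

theorem Fm_skew (n : ℕ) (f g : V → ℝ) : Fm P Q c N n f g g = 0 := by
  unfold Fm
  exact Finset.sum_eq_zero fun i _ => by rw [sub_self, mul_zero]

theorem int_kk_self (hG : Gr P Q c N G) {f g : V → ℝ} (hf : SP f) (hg : SP g) :
    ∫ x in cube, kk P Q c N f g x * g x = 0 := by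
  have h := int_kk hG hf hg hg.cont
  simp_rw [Fm_skew] at h
  exact h.unique hasSum_zero

/-! ### smoothness -/

/-- the linear form `2 π k · x` -/
noncomputable def lf (k : K3) : V →L[ℝ] ℝ :=
  ∑ j, (2 * Real.pi * (k j : ℝ)) • ContinuousLinearMap.proj (R := ℝ) (φ := fun _ : Fin 3 => ℝ) j

theorem lf_apply (k : K3) (x : V) : lf k x = 2 * Real.pi * ph k x := by
  unfold lf ph
  rw [sum_apply, Finset.mul_sum]
  refine Finset.sum_congr rfl fun j _ => ?_
  simp only [smul_apply, ContinuousLinearMap.proj_apply, smul_eq_mul]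
  ring

theorem ph_smul (m : ℤ) (k : K3) (x : V) : ph (m • k) x = m * ph k x := by
  unfold ph
  rw [Finset.mul_sum]
  refine Finset.sum_congr rfl fun j _ => ?_
  simp only [Pi.smul_apply, smul_eq_mul]
  push_cast
  ring

theorem arg_eq (m : ℕ) (k : K3) (x : V) : 2 * Real.pi * ph ((m : ℤ) • k) x = (m : ℝ) * lf k x := by
  rw [ph_smul, lf_apply]
  push_cast
  ring

theorem Mn_me {N : ℕ} (hN : 0 < N) : Me (fun n => (Mn N n : ℝ)) where
  one := one_le_Mn hN
  mono := fun n => by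
    rw [Mn_succ]; push_cast; linarith [one_le_Mn hN n]
  succ := fun n => by rw [Mn_succ]; push_cast; exact le_rfl
  two := two_pow_le_Mn hN

theorem Rm_series_smooth {N : ℕ} (hN : 0 < N) (k : K3) {a : ℕ → ℂ}
    (ha : ∀ s : ℕ, ∃ C, ∀ n, (Mn N n : ℝ) ^ s * ‖a n‖ ≤ C) :
    ContDiff ℝ ∞ fun x => ∑' n, Rm ((Mn N n : ℤ) • k) (a n) x := by
  set M : ℕ → ℝ := fun n => (Mn N n : ℝ) with hM
  have hMe : Me M := Mn_me hN
  have h1 : ∀ m, Dk 1 M m (fun n _ => (a n).re) := Dk.const fun s => by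
    obtain ⟨C, hC⟩ := ha s
    exact ⟨C, fun n => (mul_le_mul_of_nonneg_left (Complex.abs_re_le_norm _)
      (by positivity)).trans (hC n)⟩
  have h2 : ∀ m, Dk 1 M m (fun n _ => (a n).im) := Dk.const fun s => by
    obtain ⟨C, hC⟩ := ha s
    exact ⟨C, fun n => (mul_le_mul_of_nonneg_left (Complex.abs_im_le_norm _)
      (by positivity)).trans (hC n)⟩
  have hz : ∀ x : V, ((0 : ℝ), x) ∈ Ico (0 : ℝ) 1 ×ˢ (univ : Set V) := fun x =>
    ⟨⟨le_rfl, zero_lt_one⟩, mem_univ _⟩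
  have e : (fun x => ∑' n, Rm ((Mn N n : ℤ) • k) (a n) x)
      = fun x => Fs Real.cos M (lf k) (fun n _ => (a n).re) (0, x)
        - Fs Real.sin M (lf k) (fun n _ => (a n).im) (0, x) := by
    funext x
    unfold Fs
    rw [← (fs_summable hMe (h1 0).rt bd_cos.le (hz x).1 x).tsum_sub
      (fs_summable hMe (h2 0).rt bd_sin.le (hz x).1 x)]
    refine tsum_congr fun n => ?_
    rw [Rm_eq, arg_eq]
  rw [e]
  have hp : ContDiff ℝ ∞ fun x : V => ((0 : ℝ), x) := contDiff_const.prodMk contDiff_id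
  have c1 := (fs_smooth (ℓ := lf k) hMe h1 bd_cos).comp_contDiff hp hz
  have c2 := (fs_smooth (ℓ := lf k) hMe h2 bd_sin).comp_contDiff hp hz
  exact c1.sub c2

theorem kk_eq (hG : Gr P Q c N G) {f g : V → ℝ} (hf : SP f) (hg : SP g) (x : V) :
    kk P Q c N f g x = ∑ i, ((∑' n, Rm ((Mn N n : ℤ) • (P i + Q i)) (ca P Q c N f g i n) x)
      - ∑' n, Rm ((Mn N n : ℤ) • (-(Q i))) (cb P Q c N f g i n) x) := by
  have s1 : ∀ i, Summable fun n => Rm ((Mn N n : ℤ) • (P i + Q i)) (ca P Q c N f g i n) x :=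
    fun i => Rm_summable hG hf hg i _ _ x
  have s2 : ∀ i, Summable fun n => Rm ((Mn N n : ℤ) • (-(Q i))) (cb P Q c N f g i n) x :=
    fun i => Rm_summable hG hf hg i _ _ x
  unfold kk
  simp_rw [Lt_eq]
  rw [Summable.tsum_finsetSum fun i _ => (s1 i).sub (s2 i)]
  exact Finset.sum_congr rfl fun i _ => (s1 i).tsum_sub (s2 i)

theorem kk_smooth (hG : Gr P Q c N G) {f g : V → ℝ} (hf : SP f) (hg : SP g) :
    ContDiff ℝ ∞ (kk P Q c N f g) := by
  have e : kk P Q c N f g = fun x => ∑ i,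
      ((∑' n, Rm ((Mn N n : ℤ) • (P i + Q i)) (ca P Q c N f g i n) x)
      - ∑' n, Rm ((Mn N n : ℤ) • (-(Q i))) (cb P Q c N f g i n) x) := funext (kk_eq hG hf hg)
  rw [e]
  have hdec : ∀ (i : ι) (q : ℕ → K3) (s : ℕ), ∃ C, ∀ n, (Mn N n : ℝ) ^ s *
      ‖(c n i : ℂ) * (fr f ((Mn N n : ℤ) • P i) * fr g (q n))‖ ≤ C := by
    intro i q s
    obtain ⟨B1, hB1, h1⟩ := exists_Fb hf (s + 4)
    obtain ⟨B2, hB2, h2⟩ := exists_Fb hg 0
    have hG0 := hG.G0
    refine ⟨G * B1 * B2, fun n => (coef_decay hG h1 h2 i n).trans ?_⟩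
    exact mul_le_of_le_one_right (by positivity) (pow_le_one₀ (by norm_num) (by norm_num))
  refine ContDiff.sum fun i _ => ?_
  exact (Rm_series_smooth hG.N0 _ (hdec i _)).sub (Rm_series_smooth hG.N0 _ (hdec i _))

theorem Lt_per (n : ℕ) (f g : V → ℝ) : Per (Lt P Q c N n f g) := by
  intro i x
  rw [Lt_eq, Lt_eq]
  exact Finset.sum_congr rfl fun j _ => by rw [Rm_per _ _ i x, Rm_per _ _ i x]

theorem kk_per (f g : V → ℝ) : Per (kk P Q c N f g) := by
  intro i x
  unfold kk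
  exact tsum_congr fun n => Lt_per n f g i x

theorem kk_sp (hG : Gr P Q c N G) {f g : V → ℝ} (hf : SP f) (hg : SP g) : SP (kk P Q c N f g) :=
  ⟨kk_smooth hG hf hg, kk_per f g⟩

end Pool.Agent.N977.Q
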