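import Pool.Agent.N977.Q.Main

/-!
Scaling of the solutions and shift of the levels: one perturbation for all viscosities and all
amplitudes.
-/

open MeasureTheory Set Filter Topology
open scoped ContDiff

namespace Pool.Agent.N977.Q

open H459R3.NS
open Pool.Agent.N977.K (SolK)

variable {θ p : ℝ} {b N j : ℕ}

theorem Mn_shift (N j n : ℕ) : Mn (N * 2 ^ j) n = Mn N (n + j) := by
  unfold Mn
  rw [pow_add]
  ring

theorem al_shift (n : ℕ) : al θ b p (N * 2 ^ j) n = al θ b p N (n + j) := by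
  unfold al
  rw [Mn_shift]

theorem mu_shift (n : ℕ) : mu θ b p (N * 2 ^ j) n = mu θ b p N (n + j) := by
  unfold mu
  rw [al_shift, Mn_shift]

theorem cc_shift (n : ℕ) (i : Fin 12) : cc (al θ b p (N * 2 ^ j)) (mu θ b p (N * 2 ^ j)) n i
    = cc (al θ b p N) (mu θ b p N) (n + j) i := by
  unfold cc
  rw [al_shift, mu_shift]

theorem al_scale (r : ℝ) (n : ℕ) : al (r * θ) b p N n = r * al θ b p N n := by
  unfold al; ring

theorem mu_scale (r : ℝ) (n : ℕ) : mu (r * θ) b p N n = r * mu θ b p N n := by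
  unfold mu; rw [al_scale]; ring

theorem cc_scale (r : ℝ) (n : ℕ) (i : Fin 12) : cc (al (r * θ) b p N) (mu (r * θ) b p N) n i
    = r * cc (al θ b p N) (mu θ b p N) n i := by
  unfold cc
  rw [al_scale, mu_scale]
  fin_cases i <;> simp <;> ring

theorem Ee_zero {p q : K3} {f g : V → ℝ} (h : fr f p = 0) (x : V) : Ee p q f g x = 0 := by
  unfold Ee Rm
  rw [h]
  simp

theorem kk_shift {G : ℝ} {f : V → ℝ} (hf : SP f)
    (hG : Gr PP QQ (cc (al θ b p N) (mu θ b p N)) N G)
    (h0 : ∀ n < j, ∀ i, fr f ((Mn N n : ℤ) • PP i) = 0) (x : V) :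
    kk PP QQ (cc (al θ b p N) (mu θ b p N)) N f f x
      = kk PP QQ (cc (al θ b p (N * 2 ^ j)) (mu θ b p (N * 2 ^ j))) (N * 2 ^ j) f f x := by
  unfold kk
  rw [← (Lt_summable hG hf hf x).sum_add_tsum_nat_add j]
  rw [Finset.sum_eq_zero (fun n hn => ?_), zero_add]
  · refine tsum_congr fun n => ?_
    unfold Lt
    refine Finset.sum_congr rfl fun i _ => ?_
    rw [cc_shift, Mn_shift]
  · unfold Lt
    refine Finset.sum_eq_zero fun i _ => ?_
    have h1 := h0 n (Finset.mem_range.1 hn) i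
    rw [Ee_zero h1, Ee_zero h1, sub_zero, mul_zero]

theorem kk_scale (r : ℝ) {f : V → ℝ} (x : V) :
    kk PP QQ (cc (al θ b p N) (mu θ b p N)) N (fun z => r * f z) (fun z => r * f z) x
      = r * kk PP QQ (cc (al (r * θ) b p N) (mu (r * θ) b p N)) N f f x := by
  unfold kk
  rw [← tsum_mul_left]
  refine tsum_congr fun n => ?_
  unfold Lt
  rw [Finset.mul_sum]
  refine Finset.sum_congr rfl fun i _ => ?_
  rw [cc_scale]
  unfold Ee
  have e : ∀ p q : K3, fr (fun z => r * f z) p * fr (fun z => r * f z) q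
      = ((r * r : ℝ) : ℂ) * (fr f p * fr f q) := fun p q => by
    rw [fr_smul, fr_smul]
    push_cast
    ring
  rw [e, e, Rm_smul, Rm_smul]
  ring

/-- the coefficients of the field vanish at all other frequencies -/
theorem fr_Wf_zero {a : Fin 6 → ℕ → ℝ} (ha : Sa a) {k : K3}
    (hk : ∀ e m, k ≠ (Mn N m : ℤ) • ev e ∧ k ≠ -((Mn N m : ℤ) • ev e)) :
    fr (Wf N a) k = 0 := by
  have h1 : fr (Wf N a) k = ∑ e', ∑' m, (a e' m : ℂ) * fr (Cm N e' m) k := by
    have : Wf N a = fun x => ∑ e ∈ Finset.univ, ∑' n, a e n * Cm N e n x := rfl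
    rw [this, fr_sum (fun e' => term_cont ha e')]
    exact Finset.sum_congr rfl fun e' _ => (hasSum_fr ha e' k).tsum_eq.symm
  rw [h1]
  refine Finset.sum_eq_zero fun e' _ => ?_
  have h2 : ∀ m, (a e' m : ℂ) * fr (Cm N e' m) k = 0 := by
    intro m
    rw [fr_Cm, if_neg (hk e' m).1, if_neg (hk e' m).2]
    simp
  simp_rw [h2]
  exact tsum_zero

theorem fr_Wf_low {a : Fin 6 → ℕ → ℝ} (hN : 0 < N) (ha : Sa a) {n : ℕ} (hn : n < j) (i : Fin 12) :
    fr (Wf (N * 2 ^ j) a) ((Mn N n : ℤ) • PP i) = 0 := by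
  refine fr_Wf_zero ha fun e m => ?_
  have h1 : (0 : ℤ) < Mn N n := by exact_mod_cast Mn_pos hN n
  have h2 : (0 : ℤ) < Mn (N * 2 ^ j) m := by exact_mod_cast Mn_pos (by positivity) m
  rw [PP_eq]
  constructor
  · intro h
    have h3 := (smul_ev_eq h1 h2 _ _ h).2
    rw [Mn_shift] at h3
    have h4 : n = m + j := Mn_inj hN (by exact_mod_cast h3)
    omega
  · intro h
    exact smul_ev_ne_neg h1 h2 _ _ h

/-- parallel flows -/
noncomputable def pf (w : ℝ → V → ℝ) (t : ℝ) (z : V) : V := fun i => if i = 2 then w t z else 0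

theorem pf_two (w : ℝ → V → ℝ) (t : ℝ) : (fun z => pf w t z 2) = w t := by
  funext z; unfold pf; rw [if_pos rfl]

theorem pf_ne (w : ℝ → V → ℝ) (t : ℝ) {i : Fin 3} (hi : i ≠ 2) :
    (fun z => pf w t z i) = fun _ => 0 := by
  funext z; unfold pf; rw [if_neg hi]

theorem pf_spv {w : ℝ → V → ℝ} {t : ℝ} (h : SP (w t)) : SPV (pf w t) := by
  refine sp_spv fun i => ?_
  by_cases hi : i = 2
  · subst hi; rw [pf_two]; exact h
  · rw [pf_ne w t hi]; exact ⟨contDiff_const, fun _ _ => rfl⟩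

/-- the convection term of a parallel flow vanishes -/
theorem pf_conv {w : ℝ → V → ℝ} {t : ℝ} (h2 : ∀ z, pd 2 (w t) z = 0) (z : V) (i : Fin 3) :
    ∑ j, pf w t z j * pd j (fun y => pf w t y i) z = 0 := by
  have e0 : pf w t z 0 = 0 := congrFun (pf_ne w t (by decide)) z
  have e1 : pf w t z 1 = 0 := congrFun (pf_ne w t (by decide)) z
  rw [Fin.sum_univ_three, e0, e1]
  by_cases hi : i = 2
  · subst hi
    rw [pf_two, h2]
    ring
  · rw [pf_ne w t hi]
    simp only [pd_zero', mul_zero, add_zero]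

/-- parallel flows which solve the system -/
theorem pf_sol {ν T G : ℝ} {w : ℝ → V → ℝ} {c : ℕ → Fin 12 → ℝ}
    (hs : ContDiffOn ℝ ∞ (fun z : ℝ × V => w z.1 z.2) (Ico 0 T ×ˢ univ))
    (hsp : ∀ t ∈ Ico 0 T, SP (w t)) (h2 : ∀ t ∈ Ico 0 T, ∀ z, pd 2 (w t) z = 0)
    (hG : Gr PP QQ c N G)
    (hd : ∀ t ∈ Ioo 0 T, ∀ z, HasDerivAt (fun s => w s z)
      (ν * lap (w t) z + kk PP QQ c N (w t) (w t) z) t) :
    SolK ν T (KH PP QQ c N) (pf w) (fun _ _ => 0) := by
  refine ⟨?_, contDiffOn_const, fun t ht => (pf_spv (hsp t ht)).2, fun t ht i z => rfl, ?_, ?_⟩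
  · refine contDiffOn_pi.2 fun i => ?_
    by_cases hi : i = 2
    · subst hi
      exact hs.congr fun z hz => congrFun (pf_two w z.1) z.2
    · exact (contDiffOn_const (c := (0 : ℝ))).congr fun z hz => congrFun (pf_ne w z.1 hi) z.2
  · intro t ht z
    rw [Fin.sum_univ_three, pf_two, pf_ne w t (by decide), pf_ne w t (by decide), pd_zero',
      pd_zero', h2 t ht]
    norm_num
  · intro t ht z i
    have htI := Ioo_subset_Ico_self ht
    have hpar : Par3 (pf w t) := fun z i hi => congrFun (pf_ne w t hi) z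
    rw [KH_par hG (pf_spv (hsp t htI)) hpar]
    by_cases hi : i = 2
    · subst hi
      have e2 : (fun s => pf w s z 2) = fun s => w s z := by
        funext s; exact congrFun (pf_two w s) z
      rw [e2, (hd t ht z).deriv]
      have h3 : ∑ j, pf w t z j * pd j (fun z => pf w t z 2) z = 0 := by
        rw [Fin.sum_univ_three, pf_two]
        have e0 : pf w t z 0 = 0 := congrFun (pf_ne w t (by decide)) z
        have e1 : pf w t z 1 = 0 := congrFun (pf_ne w t (by decide)) z
        rw [e0, e1, h2 t htI]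
        ring
      rw [h3]
      unfold KK
      rw [pf_two, if_pos rfl, pd_zero']
      unfold lap
      ring
    · have e2 : (fun s => pf w s z i) = fun s => 0 := by
        funext s; exact congrFun (pf_ne w s hi) z
      rw [e2, pf_ne w t hi]
      unfold KK
      rw [if_neg hi]
      have h3 : ∀ j, pd j (fun _ : V => (0 : ℝ)) = fun _ => 0 := fun j => funext fun z => pd_zero' j z
      simp only [h3, pd_zero']
      simp

theorem pd_mul' {f : V → ℝ} (hf : SP f) (r : ℝ) (j : Fin 3) (x : V) :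
    pd j (fun y => r * f y) x = r * pd j f x := by
  unfold pd
  rw [fderiv_const_mul (hf.diff x)]
  rfl

theorem lap_mul' {f : V → ℝ} (hf : SP f) (r : ℝ) (x : V) :
    lap (fun y => r * f y) x = r * lap f x := by
  unfold lap
  rw [Finset.mul_sum]
  refine Finset.sum_congr rfl fun j _ => ?_
  have h1 : pd j (fun y => r * f y) = fun y => r * pd j f y := funext fun y => pd_mul' hf r j y
  rw [h1, pd_mul' (hf.pd j)]

end Pool.Agent.N977.Q
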