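import Pool.Agent.N977.Q.Ode

/-!
The induction over the stages: the cascade reaches all levels before the time `T`.
-/

open Set Filter Topology

namespace Pool.Agent.N977.Q

open Pool.Agent.N977.K (cmp)

/-- Parameters for which the cascade reaches all levels before the time `T`. -/
structure Par (T : ℝ) (d D α μ κ τ q ℓ s ϖ : ℕ → ℝ) : Prop where
  S : Sgn d D α μ
  T1 : T ≤ 1
  με : ∀ n, μ n ≤ α n
  κ0 : ∀ n, 0 < κ n
  κ1 : ∀ n, κ n ≤ 1 / 2
  s0 : ∀ n, 0 < s n
  s1 : ∀ n, s n ≤ 3 / 5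
  ss : ∀ n, s (n + 1) ≤ μ n / (12 * α n)
  τ0 : ∀ n, 1 + Real.log (1 / κ n) + 2 * Real.log (1 / s n) ≤ α n * τ n
  q0 : ∀ n, 0 ≤ q n
  q1 : ∀ n, q n ≤ 1 / 3
  qd : ∀ n, 2 * α (n + 1) * q n ≤ D (n + 1) - d (n + 1) + 1
  qτ : ∀ n, 2 * α (n + 1) * q n * τ n ≤ 1
  qs : ∀ n, 2 * α (n + 1) * ((3 * (μ n / α n) * q n) ^ 2 * ϖ (n + 2)
    + (2 * (μ n / α n) * Real.exp (1 + 2 * (α (n + 1) / α n) * Real.log (1 / κ n))) ^ 2 * τ n)
    ≤ q (n + 1)
  ϖ0 : ∀ n, 0 ≤ ϖ n
  ϖ1 : ∀ n, 1 ≤ d n * ϖ n ∨ 1 ≤ ϖ n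
  sd : ∀ n, (D (n + 1) + α (n + 1) * (q n + 2 * q (n + 1)) + μ (n + 1)) * τ n ≤ 1
  ℓ1 : ∀ n, (d n + d (n + 1)) * τ n + 2 * q n + q (n + 1) + D n / α n + 2 * (μ n / α n) + κ n
    ≤ ℓ n
  ℓs : ∀ n, ∑ j ∈ Finset.range n, ℓ j ≤ 3 / 10
  τs : ∀ n, ∑ j ∈ Finset.range n, τ j ≤ T

variable {T : ℝ} {d D α μ κ τ q ℓ s ϖ : ℕ → ℝ} {x y : ℕ → ℝ → ℝ}

theorem Par.log_κ (P : Par T d D α μ κ τ q ℓ s ϖ) (n : ℕ) : 0 ≤ Real.log (1 / κ n) :=
  Real.log_nonneg (by rw [le_div_iff₀ (P.κ0 n)]; linarith [P.κ1 n])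

theorem Par.τ_nonneg (P : Par T d D α μ κ τ q ℓ s ϖ) (n : ℕ) : 0 ≤ τ n := by
  have h1 := P.τ0 n
  have h2 := P.log_κ n
  have h3 : 0 ≤ Real.log (1 / s n) := Real.log_nonneg (by
    rw [le_div_iff₀ (P.s0 n)]; linarith [P.s1 n])
  have h4 : 0 ≤ α n * τ n := by linarith
  exact nonneg_of_mul_nonneg_right h4 (P.S.α0 n)

theorem Par.ℓ_nonneg (P : Par T d D α μ κ τ q ℓ s ϖ) (n : ℕ) : 0 ≤ ℓ n := by
  refine le_trans ?_ (P.ℓ1 n)
  have h1 := P.τ_nonneg n
  have h2 := P.S.d0 n
  have h3 := P.S.d0 (n + 1)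
  have h4 := (P.S.μ0 n).le
  have h6 := P.q0 n
  have h7 := P.q0 (n + 1)
  have h8 := P.S.D0 n
  have h9 := (P.S.α0 n).le
  have h10 := (P.κ0 n).le
  positivity

/-- bound for the damped inflow, if the flux is bounded -/
theorem Cas.sg_le (h : Cas T d D α μ x y) (S : Sgn d D α μ) (hT1 : T ≤ 1) (m : ℕ) {F w t0 : ℝ}
    (ht0 : t0 ∈ Icc 0 T) (hw0 : 0 ≤ w) (hw : 1 ≤ d m * w ∨ 1 ≤ w) (hF0 : 0 ≤ F)
    (hF : ∀ t ∈ Icc 0 t0, ff α μ y m t ≤ F) {t : ℝ} (ht : t ∈ Icc 0 t0) :
    sg d α μ y m t ≤ F * w := by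
  have hexp : ∀ t, HasDerivAt (fun s => Real.exp (d m * s)) (Real.exp (d m * t) * d m) t := by
    intro t
    have := ((hasDerivAt_id t).const_mul (d m)).exp
    refine this.congr_deriv ?_
    simp
  have hdm := S.d0 m
  have key : Ig d α μ y m t ≤ F * w * Real.exp (d m * t) := by
    rcases hw with hw | hw
    · have hcmp := cmp (f := Ig d α μ y m) (f' := fun t => Real.exp (d m * t) * ff α μ y m t)
        (g := fun s => F * w * Real.exp (d m * s))
        (g' := fun s => F * w * (Real.exp (d m * s) * d m)) ht.1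
        (h.Igc m).continuousOn ((continuous_const.mul (Real.continuous_exp.comp
          (by fun_prop))).continuousOn) (fun s _ => h.Igd m s)
        (fun s _ => (hexp s).const_mul (F * w))
        (fun s hs => by
          have h1 := hF s ⟨hs.1.le, hs.2.le.trans ht.2⟩
          have h2 := Real.exp_pos (d m * s)
          have h3 : F ≤ F * (d m * w) := le_mul_of_one_le_right hF0 hw
          nlinarith [mul_le_mul_of_nonneg_left (h1.trans h3) h2.le])
      have : 0 ≤ F * w := mul_nonneg hF0 hw0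
      simp only [Ig_zero, mul_zero, Real.exp_zero, mul_one, sub_zero] at hcmp
      linarith
    · have hcmp := cmp (f := Ig d α μ y m) (f' := fun t => Real.exp (d m * t) * ff α μ y m t)
        (g := fun s => F * (s * Real.exp (d m * s)))
        (g' := fun s => F * (1 * Real.exp (d m * s) + s * (Real.exp (d m * s) * d m))) ht.1
        (h.Igc m).continuousOn ((continuous_const.mul (continuous_id.mul (Real.continuous_exp.comp
          (by fun_prop)))).continuousOn) (fun s _ => h.Igd m s)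
        (fun s _ => ((hasDerivAt_id s).mul (hexp s)).const_mul F)
        (fun s hs => by
          have h1 := hF s ⟨hs.1.le, hs.2.le.trans ht.2⟩
          have h2 := Real.exp_pos (d m * s)
          have h3 : 0 ≤ F * (s * (Real.exp (d m * s) * d m)) := by have := hs.1.le; positivity
          nlinarith [mul_le_mul_of_nonneg_left h1 h2.le])
      simp only [Ig_zero, zero_mul, mul_zero, sub_zero] at hcmp
      refine hcmp.trans ?_
      have h1 : t ≤ w := (ht.2.trans (ht0.2.trans hT1)).trans hw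
      have h2 := Real.exp_pos (d m * t)
      have h3 : t * Real.exp (d m * t) ≤ w * Real.exp (d m * t) :=
        mul_le_mul_of_nonneg_right h1 h2.le
      have := mul_le_mul_of_nonneg_left h3 hF0
      linarith
  unfold sg
  have e1 := mul_le_mul_of_nonneg_left key (Real.exp_pos (-(d m * t))).le
  have e2 : Real.exp (-(d m * t)) * (F * w * Real.exp (d m * t)) = F * w := by
    have : Real.exp (-(d m * t)) * Real.exp (d m * t) = 1 := by rw [← Real.exp_add]; simp
    linear_combination (F * w) * this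
  linarith

theorem exp_one_le : Real.exp 1 ≤ 3 := Real.exp_one_lt_three.le

/-- before the stage, the seeds are controlled by the damped inflow -/
theorem Cas.pre (h : Cas T d D α μ x y) (P : Par T d D α μ κ τ q ℓ s ϖ) (n : ℕ) {tn : ℝ}
    (htn : tn ∈ Icc 0 T) (hS : ∀ t ∈ Icc 0 tn, sg d α μ y (n + 1) t ≤ q n) {t : ℝ}
    (ht : t ∈ Icc 0 tn) : y (n + 1) t ≤ 3 * (μ n / α n) * sg d α μ y (n + 1) t := by
  have S := P.S
  have hαn := S.α0 n
  have hμn := S.μ0 n
  set ε := μ n / α n with hε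
  have hε0 : 0 < ε := by positivity
  have hεα : ε * α n = μ n := by rw [hε]; field_simp
  set dd := d (n + 1) with hdd
  have htT : t ∈ Icc 0 T := ⟨ht.1, ht.2.trans htn.2⟩
  -- comparison
  have hc := cmp
    (f := fun r => Real.exp (dd * r) * (y (n + 1) r * Real.exp (-r) - ε * sg d α μ y (n + 1) r))
    (f' := fun r => Real.exp (dd * r) * dd *
        (y (n + 1) r * Real.exp (-r) - ε * sg d α μ y (n + 1) r)
      + Real.exp (dd * r) * ((-(D (n + 1) * y (n + 1) r) + α (n + 1) * y (n + 1) r *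
        (x (n + 1) r - x (n + 1 + 1) r) + gf μ y (n + 1) r - μ (n + 1) * y (n + 1) r *
        y (n + 1 + 1) r) * Real.exp (-r) + y (n + 1) r * (Real.exp (-r) * -1)
        - ε * (-(d (n + 1) * sg d α μ y (n + 1) r) + ff α μ y (n + 1) r)))
    (g := fun _ => 0) (g' := fun _ => 0) ht.1
    ((Real.continuous_exp.comp (by fun_prop)).mul (((h.yc (n + 1)).mul
      (Real.continuous_exp.comp (by fun_prop))).sub
        (continuous_const.mul (h.sgc (n + 1))))).continuousOn
    continuousOn_const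
    (fun r hr => by
      have hr' : r ∈ Ioo 0 T := ⟨hr.1, hr.2.trans_le htT.2⟩
      have h1 : HasDerivAt (fun s => Real.exp (dd * s)) (Real.exp (dd * r) * dd) r := by
        have := ((hasDerivAt_id r).const_mul dd).exp
        refine this.congr_deriv ?_
        simp
      have h2 : HasDerivAt (fun s : ℝ => Real.exp (-s)) (Real.exp (-r) * -1) r :=
        (hasDerivAt_neg r).exp
      exact h1.mul (((h.yd (n + 1) r hr').mul h2).sub ((h.sgd (n + 1) r).const_mul ε)))
    (fun r _ => hasDerivAt_const _ _)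
    (fun r hr => by
      have hr' : r ∈ Icc 0 T := ⟨hr.1.le, hr.2.le.trans htT.2⟩
      have hr2 : r ∈ Icc 0 tn := ⟨hr.1.le, hr.2.le.trans ht.2⟩
      have hE := Real.exp_pos (dd * r)
      have hE2 := Real.exp_pos (-r)
      have e1 := h.tail' S (le_refl (n + 1)) hr'
      have e2 := h.tail' S (Nat.le_succ (n + 1)) hr'
      have e3 := h.ynonneg S (n + 1) hr'
      have e4 := h.ynonneg S (n + 1 + 1) hr'
      have e5 : x (n + 1) r - x (n + 1 + 1) r ≤ 2 * q n := by
        have := le_abs_self (x (n + 1) r)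
        have := neg_abs_le (x (n + 1 + 1) r)
        linarith [hS r hr2, e1.1, e2.1]
      have e6 : α (n + 1) * y (n + 1) r * (x (n + 1) r - x (n + 1 + 1) r)
          ≤ y (n + 1) r * (D (n + 1) - dd + 1) := by
        have a1 := mul_le_mul_of_nonneg_left e5 (mul_nonneg (S.α0 (n + 1)).le e3)
        have a2 := mul_le_mul_of_nonneg_left (P.qd n) e3
        nlinarith
      have e7 : 0 ≤ μ (n + 1) * y (n + 1) r * y (n + 1 + 1) r :=
        mul_nonneg (mul_nonneg (S.μ0 (n + 1)).le e3) e4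
      have e8 : gf μ y (n + 1) r = μ n * y n r ^ 2 := rfl
      have e9 : ff α μ y (n + 1) r = (α n + μ n) * y n r ^ 2 := rfl
      have e10 : Real.exp (-r) ≤ 1 := by rw [Real.exp_le_one_iff]; linarith [hr.1]
      have e11 : 0 ≤ μ n * y n r ^ 2 := by positivity
      have e12 : μ n * y n r ^ 2 * Real.exp (-r) ≤ μ n * y n r ^ 2 := mul_le_of_le_one_right e11 e10
      have e13 : ε * ((α n + μ n) * y n r ^ 2) = μ n * y n r ^ 2 + ε * (μ n * y n r ^ 2) := by
        rw [add_mul, mul_add, ← mul_assoc ε, hεα]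
      have e14 : 0 ≤ ε * (μ n * y n r ^ 2) := by positivity
      have e15 : (-(D (n + 1) * y (n + 1) r) + α (n + 1) * y (n + 1) r *
        (x (n + 1) r - x (n + 1 + 1) r) + gf μ y (n + 1) r - μ (n + 1) * y (n + 1) r *
        y (n + 1 + 1) r) * Real.exp (-r) ≤ (-(dd * y (n + 1) r) + y (n + 1) r
          + μ n * y n r ^ 2) * Real.exp (-r) := by
        apply mul_le_mul_of_nonneg_right _ hE2.le
        rw [e8]
        linarith
      have e16 : dd * (y (n + 1) r * Real.exp (-r) - ε * sg d α μ y (n + 1) r)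
          + ((-(D (n + 1) * y (n + 1) r) + α (n + 1) * y (n + 1) r *
        (x (n + 1) r - x (n + 1 + 1) r) + gf μ y (n + 1) r - μ (n + 1) * y (n + 1) r *
        y (n + 1 + 1) r) * Real.exp (-r) + y (n + 1) r * (Real.exp (-r) * -1)
        - ε * (-(d (n + 1) * sg d α μ y (n + 1) r) + ff α μ y (n + 1) r)) ≤ 0 := by
        rw [e9]
        nlinarith
      calc _ = Real.exp (dd * r) * (dd * (y (n + 1) r * Real.exp (-r)
            - ε * sg d α μ y (n + 1) r)
          + ((-(D (n + 1) * y (n + 1) r) + α (n + 1) * y (n + 1) r *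
        (x (n + 1) r - x (n + 1 + 1) r) + gf μ y (n + 1) r - μ (n + 1) * y (n + 1) r *
        y (n + 1 + 1) r) * Real.exp (-r) + y (n + 1) r * (Real.exp (-r) * -1)
        - ε * (-(d (n + 1) * sg d α μ y (n + 1) r) + ff α μ y (n + 1) r))) := by ring
        _ ≤ 0 := mul_nonpos_of_nonneg_of_nonpos hE.le e16)
  simp only [h.ys, sg_zero, mul_zero, zero_mul, sub_zero, sub_self] at hc
  have hE := Real.exp_pos (dd * t)
  have h1 : y (n + 1) t * Real.exp (-t) ≤ ε * sg d α μ y (n + 1) t := by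
    by_contra hneg
    push Not at hneg
    have : 0 < Real.exp (dd * t) * (y (n + 1) t * Real.exp (-t) - ε * sg d α μ y (n + 1) t) :=
      mul_pos hE (by linarith)
    linarith
  have h2 : Real.exp t ≤ 3 := by
    have : t ≤ 1 := htT.2.trans P.T1
    exact (Real.exp_le_exp.2 this).trans exp_one_le
  have h3 := h.sg_nonneg S (n + 1) ht.1
  have h4 := mul_le_mul_of_nonneg_right h1 (Real.exp_pos t).le
  rw [mul_assoc, ← Real.exp_add, neg_add_cancel, Real.exp_zero, mul_one] at h4
  have h5 : ε * sg d α μ y (n + 1) t * Real.exp t ≤ ε * sg d α μ y (n + 1) t * 3 :=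
    mul_le_mul_of_nonneg_left h2 (by positivity)
  linarith

/-- one step of the induction -/
theorem Cas.step (h : Cas T d D α μ x y) (P : Par T d D α μ κ τ q ℓ s ϖ) (n : ℕ) {A tn : ℝ}
    (htn : 0 ≤ tn) (htT : tn + τ n ≤ T) (hA1 : A ≤ 1) (hA : 1 / 2 ≤ A - ℓ n)
    (hx : A ≤ x n tn) (hy : s n ≤ y n tn) (hS : ∀ t ∈ Icc 0 tn, sg d α μ y (n + 1) t ≤ q n) :
    ∃ t1 ∈ Icc tn (tn + τ n), A - ℓ n ≤ x (n + 1) t1 ∧ s (n + 1) ≤ y (n + 1) t1 ∧
      ∀ t ∈ Icc 0 t1, sg d α μ y (n + 2) t ≤ q (n + 1) := by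
  have S := P.S
  have hτ := P.τ_nonneg n
  have hdn := S.d0 n
  have hdn1 := S.d0 (n + 1)
  have hμn := S.μ0 n
  have hμn1 := S.μ0 (n + 1)
  have hqn := P.q0 n
  have hqn1 := P.q0 (n + 1)
  have hDn := S.D0 n
  have hDn1 := S.D0 (n + 1)
  have hαn := S.α0 n
  have hαn1 := S.α0 (n + 1)
  have hκn := P.κ0 n
  have hκn1 := P.κ1 n
  have hℓ := P.ℓ1 n
  have hlogκ := P.log_κ n
  have hDα : 0 ≤ D n / α n := div_nonneg hDn hαn.le
  set ε := μ n / α n with hε
  have hε0 : 0 < ε := by positivity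
  have hε1 : ε ≤ 1 := by rw [hε, div_le_one hαn]; exact P.με n
  have hεα : ε * α n = μ n := by rw [hε]; field_simp
  set a := A - d n * τ n - q n - D n / α n - 2 * ε with ha
  have h0 : 0 ≤ d (n + 1) * τ n := by positivity
  have h0' : 0 ≤ d n * τ n := by positivity
  have ha2 : A - ℓ n + d (n + 1) * τ n + q n + q (n + 1) + κ n ≤ a := by
    rw [ha]; linarith
  have ha12 : 1 / 2 ≤ a := by linarith
  have ha1 : a ≤ 1 := by rw [ha]; linarith
  have hT0 : ∀ t, t ∈ Icc tn (tn + τ n) → t ∈ Icc 0 T := fun t ht =>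
    ⟨htn.trans ht.1, ht.2.trans htT⟩
  have hT0' : ∀ t, t ∈ Ioo tn (tn + τ n) → t ∈ Ioo 0 T := fun t ht =>
    ⟨htn.trans_lt ht.1, ht.2.trans_le htT⟩
  have htnT : tn ∈ Icc 0 T := ⟨htn, by linarith⟩
  -- the transferred energy
  have hZd0 : ∀ t, HasDerivAt (fun r => ∫ u in (0 : ℝ)..r, α n * y n u ^ 2) (α n * y n t ^ 2) t :=
    fun t => ((continuous_const.mul ((h.yc n).pow 2)).integral_hasStrictDerivAt 0 t).hasDerivAt
  set Z : ℝ → ℝ := fun t => (∫ u in (0 : ℝ)..t, α n * y n u ^ 2)
    - ∫ u in (0 : ℝ)..tn, α n * y n u ^ 2 with hZ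
  have hZd : ∀ t, HasDerivAt Z (α n * y n t ^ 2) t := fun t => (hZd0 t).sub_const _
  have hZc : Continuous Z := continuous_iff_continuousAt.2 fun t => (hZd t).continuousAt
  have hZ0 : Z tn = 0 := by simp [hZ]
  have hZmono : ∀ r r', r ≤ r' → Z r ≤ Z r' := fun r r' hrr => by
    have := cmp (f := fun _ => 0) (f' := fun _ => 0) (g := Z) (g' := fun t => α n * y n t ^ 2)
      hrr continuousOn_const hZc.continuousOn (fun s hs => hasDerivAt_const _ _)
      (fun u hu => hZd u) (fun u _ => by positivity)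
    linarith
  have hZnn : ∀ t, tn ≤ t → 0 ≤ Z t := fun t ht => by
    have := hZmono tn t ht
    rwa [hZ0] at this
  -- the inflow during the stage
  have hsg : ∀ t, tn ≤ t → sg d α μ y (n + 1) t ≤ q n + (1 + ε) * Z t := by
    intro t ht
    have hc := cmp (f := sg d α μ y (n + 1))
      (f' := fun t => -(d (n + 1) * sg d α μ y (n + 1) t) + ff α μ y (n + 1) t)
      (g := fun t => (1 + ε) * Z t) (g' := fun t => (1 + ε) * (α n * y n t ^ 2)) ht
      (h.sgc (n + 1)).continuousOn (by fun_prop) (fun r _ => h.sgd (n + 1) r)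
      (fun r _ => (hZd r).const_mul (1 + ε))
      (fun r hr => by
        have e1 := h.sg_nonneg S (n + 1) (htn.trans hr.1.le)
        have e2 : ff α μ y (n + 1) r = (α n + μ n) * y n r ^ 2 := rfl
        have e3 : (1 + ε) * (α n * y n r ^ 2) = (α n + μ n) * y n r ^ 2 := by
          rw [← hεα]; ring
        have e4 := mul_nonneg hdn1 e1
        rw [e2, e3]
        linarith)
    have := hS tn ⟨htn, le_rfl⟩
    rw [hZ0] at hc
    linarith
  -- lower bound for the carrier
  have hxl : ∀ t ∈ Icc tn (tn + τ n), A - d n * τ n - Z t ≤ x n t := by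
    intro t ht
    have hc := cmp (f := fun s => -(d n * s) - Z s)
      (f' := fun s => -(d n) - α n * y n s ^ 2) (g := x n)
      (g' := fun s => -(d n * x n s) + gf α y n s - α n * y n s ^ 2)
      ht.1 (by fun_prop) (h.xc n).continuousOn
      (fun s _ => by
        have h1 := (((hasDerivAt_id s).const_mul (d n)).neg).sub (hZd s)
        exact h1.congr_deriv (by simp))
      (fun s hs => h.xd n s (hT0' s ⟨hs.1, hs.2.trans_le ht.2⟩))
      (fun s hs => by
        have hs' : s ∈ Icc 0 T := hT0 s ⟨hs.1.le, hs.2.le.trans ht.2⟩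
        obtain ⟨e1, e2⟩ := h.le_one S n hs'
        have e3 := gf_nonneg (y := y) (fun n => (S.α0 n).le) n s
        have e4 : d n * x n s ≤ d n := by nlinarith [le_abs_self (x n s)]
        linarith)
    have e : d n * (t - tn) ≤ d n * τ n :=
      mul_le_mul_of_nonneg_left (by linarith [ht.2]) hdn
    simp only [hZ0] at hc
    nlinarith
  -- upper bound for the next carrier
  have hxu : ∀ t ∈ Icc tn (tn + τ n), x (n + 1) t ≤ q n + (1 + ε) * Z t := by
    intro t ht
    have := (h.tail' S (le_refl (n + 1)) (hT0 t ht)).1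
    exact ((le_abs_self _).trans this).trans (hsg t ht.1)
  have hyn : ∀ n, ∀ t ∈ Icc 0 T, 0 ≤ y n t := fun n t ht => h.ynonneg S n ht
  have hyl : ∀ t ∈ Ioo tn (tn + τ n), Z t ≤ a →
      α n * y n t * (a - 2 * Z t)
        ≤ -(D n * y n t) + α n * y n t * (x n t - x (n + 1) t) + gf μ y n t
          - μ n * y n t * y (n + 1) t := by
    intro t ht hZa
    have ht' := Ioo_subset_Icc_self ht
    have e1 := hxl t ht'
    have e2 := hxu t ht'
    have e3 := hyn n t (hT0 t ht')
    have e3' := (h.le_one S (n + 1) (hT0 t ht')).2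
    have e3'' : y (n + 1) t ≤ 1 := (le_abs_self _).trans e3'
    have hZt := hZnn t ht'.1
    have e4 : a - 2 * Z t ≤ x n t - x (n + 1) t - D n / α n - ε := by
      have : ε * Z t ≤ ε * 1 := mul_le_mul_of_nonneg_left (hZa.trans ha1) hε0.le
      rw [ha]; linarith
    have e5 := mul_le_mul_of_nonneg_left e4 (mul_nonneg hαn.le e3)
    have e6 : α n * y n t * (x n t - x (n + 1) t - D n / α n - ε)
        = -(D n * y n t) + α n * y n t * (x n t - x (n + 1) t) - μ n * y n t := by
      rw [← hεα]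
      field_simp
      ring
    have e7 := gf_nonneg (y := y) (fun n => (S.μ0 n).le) n t
    have e8 : μ n * y n t * y (n + 1) t ≤ μ n * y n t * 1 :=
      mul_le_mul_of_nonneg_left e3'' (mul_nonneg hμn.le e3)
    linarith
  have hend := stage_end (Z := Z) (y := y n) (t0 := tn) (t1 := tn + τ n) (a := a) (α := α n)
    (s := s n) (κ := κ n) ha12 ha1 hαn (P.s0 n) (by linarith [P.s1 n]) hκn hκn1 hZc (h.yc n) hZ0
    (fun t _ => hZd t) (fun t ht => h.yd n t (hT0' t ht))
    (fun t ht => hyn n t (hT0 t ht)) hy hyl (by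
      have := P.τ0 n
      rw [add_sub_cancel_left]; exact this)
  obtain ⟨t1, ht1, hZt1⟩ : ∃ t1 ∈ Icc tn (tn + τ n), Z t1 = a * (1 - κ n) := by
    have h1 := intermediate_value_Icc (by linarith : tn ≤ tn + τ n) hZc.continuousOn
    have h2 : a * (1 - κ n) ∈ Icc (Z tn) (Z (tn + τ n)) :=
      ⟨by rw [hZ0]; nlinarith, hend⟩
    obtain ⟨t1, ht1, e⟩ := h1 h2
    exact ⟨t1, ht1, e⟩
  have ht1T := hT0 t1 ht1
  have hT1 := P.T1
  have hZa1 : Z t1 ≤ a := by rw [hZt1]; nlinarith
  have hZ4 : 1 / 4 ≤ Z t1 := by rw [hZt1]; nlinarith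
  -- the action
  have hJd : ∀ s, HasDerivAt (fun t => ∫ u in (0 : ℝ)..t, Z u) (Z s) s := fun s =>
    (hZc.integral_hasStrictDerivAt 0 s).hasDerivAt
  set J : ℝ → ℝ := fun t => ∫ u in (0 : ℝ)..t, Z u with hJ
  have hJc : Continuous J := continuous_iff_continuousAt.2 fun s => (hJd s).continuousAt
  have hJmono : ∀ r, tn ≤ r → J tn ≤ J r := by
    intro r hr
    have := cmp (f := fun _ => 0) (f' := fun _ => 0) (g := J) (g' := Z) hr
      continuousOn_const hJc.continuousOn (fun s hs => hasDerivAt_const _ _)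
      (fun u _ => hJd u) (fun u hu => hZnn u hu.1.le)
    linarith
  have hJ2 : α n * (J t1 - J tn) ≤ Real.log (1 / κ n) / 2 :=
    stage_int (Z := Z) (y := y n) (t0 := tn) (t1 := t1) (a := a) (α := α n)
      (s := s n) (κ := κ n) (y' := fun t => -(D n * y n t) + α n * y n t * (x n t - x (n + 1) t)
        + gf μ y n t - μ n * y n t * y (n + 1) t) ha12 hαn (P.s0 n).le hκn ht1.1 hZc (h.yc n) hZ0
      (fun t _ => hZd t) (fun t ht => h.yd n t (hT0' t ⟨ht.1, ht.2.trans_le ht1.2⟩))
      (fun t ht => hyn n t (hT0 t ⟨ht.1, ht.2.trans ht1.2⟩)) hy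
      (fun t ht => hyl t ⟨ht.1, ht.2.trans_le ht1.2⟩) hZt1 hJc (fun s _ => hJd s)
  -- the seeds of the next level stay small
  set H := 2 * ε * Real.exp (1 + 2 * (α (n + 1) / α n) * Real.log (1 / κ n)) with hH
  have hH0 : 0 < H := by positivity
  have hpre : ∀ t ∈ Icc 0 tn, y (n + 1) t ≤ 3 * ε * q n := fun t ht =>
    (h.pre P n htnT hS ht).trans (mul_le_mul_of_nonneg_left (hS t ht) (by positivity))
  have hyu : ∀ t ∈ Icc tn t1, y (n + 1) t ≤ H := by
    intro t ht
    have htT' : t ∈ Icc 0 T := ⟨htn.trans ht.1, ht.2.trans ht1T.2⟩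
    set G : ℝ → ℝ := fun r => 2 * α (n + 1) * (q n * (r - tn) + (1 + ε) * (J r - J tn)) with hG
    have hGc : Continuous G := by simp only [hG]; fun_prop
    have hGd : ∀ r, HasDerivAt G (2 * α (n + 1) * (q n + (1 + ε) * Z r)) r := by
      intro r
      have h1 := (((hasDerivAt_id r).sub_const tn).const_mul (q n)).add
        (((hJd r).sub_const (J tn)).const_mul (1 + ε))
      have h2 := h1.const_mul (2 * α (n + 1))
      refine h2.congr_deriv ?_
      simp
    have hc := cmp (f := fun r => y (n + 1) r * Real.exp (-G r))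
      (f' := fun r => (-(D (n + 1) * y (n + 1) r) + α (n + 1) * y (n + 1) r *
          (x (n + 1) r - x (n + 1 + 1) r) + gf μ y (n + 1) r
          - μ (n + 1) * y (n + 1) r * y (n + 1 + 1) r) * Real.exp (-G r)
          + y (n + 1) r * (Real.exp (-G r) * -(2 * α (n + 1) * (q n + (1 + ε) * Z r))))
      (g := fun r => ε * Z r) (g' := fun r => ε * (α n * y n r ^ 2)) ht.1
      (((h.yc (n + 1)).mul (Real.continuous_exp.comp hGc.neg)).continuousOn) (by fun_prop)
      (fun r hr => by
        have h1 := h.yd (n + 1) r ⟨htn.trans_lt hr.1, hr.2.trans_le htT'.2⟩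
        exact h1.mul (hGd r).neg.exp)
      (fun r _ => (hZd r).const_mul ε)
      (fun r hr => by
        have hr' : r ∈ Icc 0 T := ⟨htn.trans hr.1.le, hr.2.le.trans htT'.2⟩
        have hE := Real.exp_pos (-G r)
        have e1 := h.tail' S (le_refl (n + 1)) hr'
        have e2 := h.tail' S (Nat.le_succ (n + 1)) hr'
        have e3 := hyn (n + 1) r hr'
        have e3' := hyn (n + 1 + 1) r hr'
        have e4 := hsg r hr.1.le
        have e5 : x (n + 1) r - x (n + 1 + 1) r ≤ 2 * (q n + (1 + ε) * Z r) := by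
          have := le_abs_self (x (n + 1) r)
          have := neg_abs_le (x (n + 1 + 1) r)
          linarith [e1.1, e2.1]
        have e6 := mul_le_mul_of_nonneg_left e5 (mul_nonneg hαn1.le e3)
        have e7 : 0 ≤ μ (n + 1) * y (n + 1) r * y (n + 1 + 1) r := by positivity
        have e8 : gf μ y (n + 1) r = μ n * y n r ^ 2 := rfl
        have e9 : 0 ≤ D (n + 1) * y (n + 1) r := mul_nonneg hDn1 e3
        have e10 : Real.exp (-G r) ≤ 1 := by
          rw [Real.exp_le_one_iff]
          have h1 := hJmono r hr.1.le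
          have h2 : 0 ≤ G r := by
            simp only [hG]
            have h3 : 0 ≤ q n * (r - tn) := mul_nonneg hqn (by linarith [hr.1])
            have h4 : 0 ≤ (1 + ε) * (J r - J tn) := mul_nonneg (by linarith) (by linarith)
            positivity
          linarith
        have e11 : μ n * y n r ^ 2 * Real.exp (-G r) ≤ μ n * y n r ^ 2 :=
          mul_le_of_le_one_right (by positivity) e10
        have e12 : ε * (α n * y n r ^ 2) = μ n * y n r ^ 2 := by rw [← hεα]; ring
        have e13 : -(D (n + 1) * y (n + 1) r) + α (n + 1) * y (n + 1) r *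
          (x (n + 1) r - x (n + 1 + 1) r) + gf μ y (n + 1) r
          - μ (n + 1) * y (n + 1) r * y (n + 1 + 1) r
          - y (n + 1) r * (2 * α (n + 1) * (q n + (1 + ε) * Z r)) ≤ μ n * y n r ^ 2 := by
          rw [e8]; linarith
        have e14 := mul_le_mul_of_nonneg_right e13 hE.le
        rw [e12]
        linarith)
    have hyt : y (n + 1) tn ≤ 3 * ε * q n := hpre tn ⟨htn, le_rfl⟩
    have hGtn : G tn = 0 := by simp [hG]
    simp only [hGtn, hZ0, mul_zero, sub_zero, neg_zero, Real.exp_zero, mul_one] at hc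
    have hZt : Z t ≤ 1 := (hZmono t t1 ht.2).trans (hZa1.trans ha1)
    have e1 : y (n + 1) t * Real.exp (-G t) ≤ 2 * ε := by
      have : ε * Z t ≤ ε * 1 := mul_le_mul_of_nonneg_left hZt hε0.le
      have h2 : 3 * ε * q n ≤ ε := by nlinarith [P.q1 n]
      linarith
    have e2 := mul_le_mul_of_nonneg_right e1 (Real.exp_pos (G t)).le
    rw [mul_assoc, ← Real.exp_add, neg_add_cancel, Real.exp_zero, mul_one] at e2
    refine e2.trans ?_
    rw [hH]
    apply mul_le_mul_of_nonneg_left _ (by positivity)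
    apply Real.exp_le_exp.2
    simp only [hG]
    have hJt : J t ≤ J t1 := by
      have := cmp (f := fun _ => 0) (f' := fun _ => 0) (g := J) (g' := Z) ht.2
        continuousOn_const hJc.continuousOn (fun s hs => hasDerivAt_const _ _)
        (fun u _ => hJd u) (fun u hu => hZnn u (ht.1.trans hu.1.le))
      linarith
    have e3 : J t - J tn ≤ Real.log (1 / κ n) / (2 * α n) := by
      rw [le_div_iff₀ (by positivity)]
      nlinarith
    have hJ0 : 0 ≤ J t - J tn := by linarith [hJmono t ht.1]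
    have e4 : (1 + ε) * (J t - J tn) ≤ 2 * (Real.log (1 / κ n) / (2 * α n)) :=
      mul_le_mul (by linarith) e3 hJ0 (by norm_num)
    have e5 : q n * (t - tn) ≤ q n * τ n :=
      mul_le_mul_of_nonneg_left (by linarith [ht.2, ht1.2]) hqn
    have e6 := P.qτ n
    have e7 : 2 * α (n + 1) * (q n * (t - tn) + (1 + ε) * (J t - J tn))
        ≤ 2 * α (n + 1) * (q n * τ n + 2 * (Real.log (1 / κ n) / (2 * α n))) :=
      mul_le_mul_of_nonneg_left (by linarith) (by positivity)
    have e8 : 2 * α (n + 1) * (q n * τ n + 2 * (Real.log (1 / κ n) / (2 * α n)))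
        = 2 * α (n + 1) * q n * τ n + 2 * (α (n + 1) / α n) * Real.log (1 / κ n) := by
      field_simp
    linarith
  -- the next inflow stays small
  have hϖ := P.ϖ0 (n + 2)
  have hqs := P.qs n
  rw [← hε] at hqs
  rw [← hH] at hqs
  have hff2 : ∀ t, ff α μ y (n + 2) t = (α (n + 1) + μ (n + 1)) * y (n + 1) t ^ 2 := fun t => rfl
  have hαμ : α (n + 1) + μ (n + 1) ≤ 2 * α (n + 1) := by linarith [P.με (n + 1)]
  set F0 := 2 * α (n + 1) * (3 * ε * q n) ^ 2 with hF0
  have hF00 : 0 ≤ F0 := by positivity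
  have hs1 : ∀ t ∈ Icc 0 tn, sg d α μ y (n + 2) t ≤ F0 * ϖ (n + 2) := by
    intro t ht
    refine h.sg_le S hT1 (n + 2) htnT hϖ (P.ϖ1 (n + 2)) hF00 (fun r hr => ?_) ht
    rw [hff2, hF0]
    have e1 := hpre r hr
    have e2 := hyn (n + 1) r ⟨hr.1, hr.2.trans htnT.2⟩
    exact mul_le_mul hαμ (pow_le_pow_left₀ e2 e1 2) (by positivity) (by positivity)
  have hHτ : 0 ≤ 2 * α (n + 1) * (H ^ 2 * τ n) := by positivity
  have hs2 : ∀ t ∈ Icc tn t1, sg d α μ y (n + 2) t ≤ q (n + 1) := by
    intro t ht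
    have hc := cmp (f := sg d α μ y (n + 2))
      (f' := fun t => -(d (n + 2) * sg d α μ y (n + 2) t) + ff α μ y (n + 2) t)
      (g := fun r => 2 * α (n + 1) * H ^ 2 * r) (g' := fun _ => 2 * α (n + 1) * H ^ 2) ht.1
      (h.sgc (n + 2)).continuousOn (by fun_prop) (fun r _ => h.sgd (n + 2) r)
      (fun r _ => by simpa using (hasDerivAt_id r).const_mul (2 * α (n + 1) * H ^ 2))
      (fun r hr => by
        have e1 := h.sg_nonneg S (n + 2) (htn.trans hr.1.le)
        have e2 := hyu r ⟨hr.1.le, hr.2.le.trans ht.2⟩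
        have e3 := hyn (n + 1) r ⟨htn.trans hr.1.le, hr.2.le.trans (ht.2.trans ht1T.2)⟩
        have e4 := mul_nonneg (S.d0 (n + 2)) e1
        have e5 : (α (n + 1) + μ (n + 1)) * y (n + 1) r ^ 2 ≤ 2 * α (n + 1) * H ^ 2 :=
          mul_le_mul hαμ (pow_le_pow_left₀ e3 e2 2) (by positivity) (by positivity)
        rw [hff2]
        linarith)
    have e1 := hs1 tn ⟨htn, le_rfl⟩
    have e2 : 2 * α (n + 1) * H ^ 2 * t - 2 * α (n + 1) * H ^ 2 * tn
        ≤ 2 * α (n + 1) * (H ^ 2 * τ n) := by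
      have : t - tn ≤ τ n := by linarith [ht.2, ht1.2]
      have := mul_le_mul_of_nonneg_left this (by positivity : 0 ≤ 2 * α (n + 1) * H ^ 2)
      nlinarith
    have e3 : F0 * ϖ (n + 2) = 2 * α (n + 1) * ((3 * ε * q n) ^ 2 * ϖ (n + 2)) := by
      rw [hF0]; ring
    rw [mul_add] at hqs
    linarith
  have hsall : ∀ t ∈ Icc 0 t1, sg d α μ y (n + 2) t ≤ q (n + 1) := by
    intro t ht
    rcases le_total t tn with htt | htt
    · refine (hs1 t ⟨ht.1, htt⟩).trans ?_
      have e3 : F0 * ϖ (n + 2) = 2 * α (n + 1) * ((3 * ε * q n) ^ 2 * ϖ (n + 2)) := by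
        rw [hF0]; ring
      rw [mul_add] at hqs
      linarith
    · exact hs2 t ⟨htt, ht.2⟩
  have hαH : α (n + 1) * H ^ 2 * τ n ≤ q (n + 1) := by
    rw [mul_add] at hqs
    have e1 : 0 ≤ 2 * α (n + 1) * ((3 * ε * q n) ^ 2 * ϖ (n + 2)) := by positivity
    nlinarith
  have hx1 : -q n ≤ x (n + 1) tn := by
    have h1 := (h.tail' S (le_refl (n + 1)) htnT).1
    have h2 := neg_abs_le (x (n + 1) tn)
    linarith [hS tn ⟨htn, le_rfl⟩]
  refine ⟨t1, ht1, ?_, ?_, hsall⟩
  · -- the next carrier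
    have hc := cmp (f := fun s => -((d (n + 1) + α (n + 1) * H ^ 2) * s) + Z s)
      (f' := fun s => -(d (n + 1) + α (n + 1) * H ^ 2) + α n * y n s ^ 2) (g := x (n + 1))
      (g' := fun s => -(d (n + 1) * x (n + 1) s) + gf α y (n + 1) s
        - α (n + 1) * y (n + 1) s ^ 2)
      ht1.1 (Continuous.add (by fun_prop) hZc).continuousOn
      (h.xc (n + 1)).continuousOn
      (fun s _ => by
        have h1 := ((((hasDerivAt_id s).const_mul (d (n + 1) + α (n + 1) * H ^ 2)).neg).add (hZd s))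
        exact h1.congr_deriv (by simp))
      (fun s hs => h.xd (n + 1) s (hT0' s ⟨hs.1, hs.2.trans_le ht1.2⟩))
      (fun s hs => by
        have hs' : s ∈ Icc 0 T := hT0 s ⟨hs.1.le, hs.2.le.trans ht1.2⟩
        obtain ⟨e1, e2⟩ := h.le_one S (n + 1) hs'
        have e4 : d (n + 1) * x (n + 1) s ≤ d (n + 1) := by nlinarith [le_abs_self (x (n + 1) s)]
        have e5 := hyn (n + 1) s hs'
        have e6 := hyu s ⟨hs.1.le, hs.2.le⟩
        have e7 := mul_le_mul_of_nonneg_left (pow_le_pow_left₀ e5 e6 2) hαn1.le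
        have e8 : gf α y (n + 1) s = α n * y n s ^ 2 := rfl
        rw [e8]
        linarith)
    simp only [hZ0, hZt1] at hc
    have e1 : (d (n + 1) + α (n + 1) * H ^ 2) * (t1 - tn) ≤ d (n + 1) * τ n + q (n + 1) := by
      have e2 : (d (n + 1) + α (n + 1) * H ^ 2) * (t1 - tn)
          ≤ (d (n + 1) + α (n + 1) * H ^ 2) * τ n :=
        mul_le_mul_of_nonneg_left (by linarith [ht1.2]) (by positivity)
      linarith
    have e2 : a * (1 - κ n) ≥ a - κ n := by nlinarith
    nlinarith
  · -- the next seed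
    have hxlow : ∀ t ∈ Icc tn t1, -(q n + q (n + 1)) ≤ x (n + 1) t := by
      intro t ht
      have hc := cmp (f := fun _ => 0) (f' := fun _ => 0)
        (g := fun r => Real.exp (d (n + 1) * r) *
          (x (n + 1) r + (q n + α (n + 1) * H ^ 2 * (r - tn))))
        (g' := fun r => Real.exp (d (n + 1) * r) * d (n + 1) *
          (x (n + 1) r + (q n + α (n + 1) * H ^ 2 * (r - tn)))
          + Real.exp (d (n + 1) * r) * (-(d (n + 1) * x (n + 1) r) + gf α y (n + 1) r
        - α (n + 1) * y (n + 1) r ^ 2 + α (n + 1) * H ^ 2)) ht.1 continuousOn_const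
        (((Real.continuous_exp.comp (by fun_prop)).mul ((h.xc (n + 1)).add
          (by fun_prop))).continuousOn)
        (fun r _ => hasDerivAt_const _ _)
        (fun r hr => by
          have h1 : HasDerivAt (fun s => Real.exp (d (n + 1) * s))
              (Real.exp (d (n + 1) * r) * d (n + 1)) r := by
            have := ((hasDerivAt_id r).const_mul (d (n + 1))).exp
            refine this.congr_deriv ?_
            simp
          have h2 := h.xd (n + 1) r (hT0' r ⟨hr.1, hr.2.trans_le (ht.2.trans ht1.2)⟩)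
          have h3 : HasDerivAt (fun s => q n + α (n + 1) * H ^ 2 * (s - tn))
              (α (n + 1) * H ^ 2) r := by
            have := (((hasDerivAt_id r).sub_const tn).const_mul (α (n + 1) * H ^ 2)).const_add (q n)
            refine this.congr_deriv ?_
            simp
          exact h1.mul (h2.add h3))
        (fun r hr => by
          have hE := Real.exp_pos (d (n + 1) * r)
          have hr' : r ∈ Icc tn t1 := ⟨hr.1.le, hr.2.le.trans ht.2⟩
          have e1 := hyn (n + 1) r ⟨htn.trans hr'.1, hr'.2.trans ht1T.2⟩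
          have e2 := mul_le_mul_of_nonneg_left (pow_le_pow_left₀ e1 (hyu r hr') 2) hαn1.le
          have e3 : gf α y (n + 1) r = α n * y n r ^ 2 := rfl
          have e4 : 0 ≤ α n * y n r ^ 2 := by positivity
          have e5 : 0 ≤ d (n + 1) * (q n + α (n + 1) * H ^ 2 * (r - tn)) := by
            have : 0 ≤ r - tn := by linarith [hr.1]
            positivity
          have e6 : 0 ≤ d (n + 1) * (x (n + 1) r + (q n + α (n + 1) * H ^ 2 * (r - tn)))
            + (-(d (n + 1) * x (n + 1) r) + gf α y (n + 1) r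
            - α (n + 1) * y (n + 1) r ^ 2 + α (n + 1) * H ^ 2) := by
            rw [e3]; linarith
          have := mul_nonneg hE.le e6
          linarith)
      simp only [sub_self, mul_zero, add_zero] at hc
      have h1 : 0 ≤ Real.exp (d (n + 1) * tn) * (x (n + 1) tn + q n) :=
        mul_nonneg (Real.exp_pos _).le (by linarith)
      have h2 : 0 ≤ x (n + 1) t + (q n + α (n + 1) * H ^ 2 * (t - tn)) := by
        by_contra hneg
        push Not at hneg
        have := mul_neg_of_pos_of_neg (Real.exp_pos (d (n + 1) * t)) hneg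
        linarith
      have h3 : α (n + 1) * H ^ 2 * (t - tn) ≤ α (n + 1) * H ^ 2 * τ n :=
        mul_le_mul_of_nonneg_left (by linarith [ht.2, ht1.2]) (by positivity)
      linarith
    set lam := D (n + 1) + α (n + 1) * (q n + 2 * q (n + 1)) + μ (n + 1) with hlam
    have hlam0 : 0 ≤ lam := by positivity
    have hc := cmp (f := fun r => ε * Z r) (f' := fun r => ε * (α n * y n r ^ 2))
      (g := fun r => y (n + 1) r * Real.exp (lam * (r - tn)))
      (g' := fun r => (-(D (n + 1) * y (n + 1) r) + α (n + 1) * y (n + 1) r *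
          (x (n + 1) r - x (n + 1 + 1) r) + gf μ y (n + 1) r
          - μ (n + 1) * y (n + 1) r * y (n + 1 + 1) r) * Real.exp (lam * (r - tn))
          + y (n + 1) r * (Real.exp (lam * (r - tn)) * lam)) ht1.1 (by fun_prop)
      (((h.yc (n + 1)).mul (Real.continuous_exp.comp (by fun_prop))).continuousOn)
      (fun r _ => (hZd r).const_mul ε)
      (fun r hr => by
        have h1 := h.yd (n + 1) r (hT0' r ⟨hr.1, hr.2.trans_le ht1.2⟩)
        have h2 : HasDerivAt (fun s => Real.exp (lam * (s - tn)))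
            (Real.exp (lam * (r - tn)) * lam) r := by
          have := (((hasDerivAt_id r).sub_const tn).const_mul lam).exp
          refine this.congr_deriv ?_
          simp
        exact h1.mul h2)
      (fun r hr => by
        have hr' : r ∈ Icc tn t1 := ⟨hr.1.le, hr.2.le⟩
        have hrT : r ∈ Icc 0 T := ⟨htn.trans hr'.1, hr'.2.trans ht1T.2⟩
        have e1 := hyn (n + 1) r hrT
        have e2 := hxlow r hr'
        have e3 := (h.tail' S (le_refl (n + 2)) hrT).1
        have e4 := hs2 r hr'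
        have e5 : x (n + 2) r ≤ q (n + 1) := ((le_abs_self _).trans e3).trans e4
        have e6 := (h.le_one S (n + 2) hrT).2
        have e7 : y (n + 2) r ≤ 1 := (le_abs_self _).trans e6
        have e8 : -(q n + 2 * q (n + 1)) ≤ x (n + 1) r - x (n + 1 + 1) r := by
          have : x (n + 1 + 1) r = x (n + 2) r := rfl
          rw [this]; linarith
        have e9 := mul_le_mul_of_nonneg_left e8 (mul_nonneg hαn1.le e1)
        have e10 : μ (n + 1) * y (n + 1) r * y (n + 1 + 1) r ≤ μ (n + 1) * y (n + 1) r * 1 :=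
          mul_le_mul_of_nonneg_left e7 (mul_nonneg hμn1.le e1)
        have e11 : gf μ y (n + 1) r = μ n * y n r ^ 2 := rfl
        have e12 : ε * (α n * y n r ^ 2) = μ n * y n r ^ 2 := by rw [← hεα]; ring
        have e13 : μ n * y n r ^ 2 ≤ -(D (n + 1) * y (n + 1) r) + α (n + 1) * y (n + 1) r *
          (x (n + 1) r - x (n + 1 + 1) r) + gf μ y (n + 1) r
          - μ (n + 1) * y (n + 1) r * y (n + 1 + 1) r + y (n + 1) r * lam := by
          rw [e11, hlam]; linarith
        have e14 : 1 ≤ Real.exp (lam * (r - tn)) := by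
          apply Real.one_le_exp
          exact mul_nonneg hlam0 (by linarith [hr.1])
        have e15 : 0 ≤ μ n * y n r ^ 2 := by positivity
        have e16 : μ n * y n r ^ 2 ≤ (-(D (n + 1) * y (n + 1) r) + α (n + 1) * y (n + 1) r *
          (x (n + 1) r - x (n + 1 + 1) r) + gf μ y (n + 1) r
          - μ (n + 1) * y (n + 1) r * y (n + 1 + 1) r + y (n + 1) r * lam) *
          Real.exp (lam * (r - tn)) :=
          e13.trans (le_mul_of_one_le_right (e15.trans e13) e14)
        rw [e12]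
        linarith)
    simp only [hZ0, mul_zero, sub_zero, sub_self, Real.exp_zero, mul_one] at hc
    have h1 := hyn (n + 1) tn htnT
    have h2 : lam * (t1 - tn) ≤ 1 := by
      have e1 : lam * (t1 - tn) ≤ lam * τ n :=
        mul_le_mul_of_nonneg_left (by linarith [ht1.2]) hlam0
      exact e1.trans (P.sd n)
    have h3 : Real.exp (lam * (t1 - tn)) ≤ 3 := (Real.exp_le_exp.2 h2).trans exp_one_le
    have h4 := hyn (n + 1) t1 ht1T
    have h5 : y (n + 1) t1 * Real.exp (lam * (t1 - tn)) ≤ y (n + 1) t1 * 3 :=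
      mul_le_mul_of_nonneg_left h3 h4
    have h6 : ε * (1 / 4) ≤ ε * Z t1 := mul_le_mul_of_nonneg_left hZ4 hε0.le
    have h7 := P.ss n
    have h8 : μ n / (12 * α n) = ε / 12 := by rw [hε]; field_simp
    rw [h8] at h7
    linarith

/-- The cascade system has no solution on `[0, T]`. -/
theorem Cas.false (h : Cas T d D α μ x y) (P : Par T d D α μ κ τ q ℓ s ϖ) : False := by
  have key : ∀ n : ℕ, ∃ t, 0 ≤ t ∧ t ≤ ∑ j ∈ Finset.range n, τ j ∧
      4 / 5 - ∑ j ∈ Finset.range n, ℓ j ≤ x n t ∧ s n ≤ y n t ∧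
      ∀ r ∈ Icc 0 t, sg d α μ y (n + 1) r ≤ q n := by
    intro n
    induction n with
    | zero =>
      refine ⟨0, le_rfl, by simp, by simp [h.x0], ?_, ?_⟩
      · rw [h.y0]; exact P.s1 0
      · intro r hr
        have : r = 0 := le_antisymm hr.2 hr.1
        rw [this, sg_zero]; exact P.q0 0
    | succ n ih =>
      obtain ⟨t, h0, h1, h2, h3, h3'⟩ := ih
      have hτ := P.τs (n + 1)
      have hℓ := P.ℓs (n + 1)
      rw [Finset.sum_range_succ] at hτ hℓ
      have hnn : 0 ≤ ∑ j ∈ Finset.range n, ℓ j := Finset.sum_nonneg fun j _ => P.ℓ_nonneg j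
      obtain ⟨t1, ht1, h4, h5, h6⟩ := h.step P n (A := 4 / 5 - ∑ j ∈ Finset.range n, ℓ j) h0
        (by linarith) (by linarith) (by linarith) h2 h3 h3'
      refine ⟨t1, h0.trans ht1.1, ?_, ?_, h5, h6⟩
      · rw [Finset.sum_range_succ]; linarith [ht1.2]
      · rw [Finset.sum_range_succ]; linarith
  obtain ⟨J, hJ⟩ := h.dec (1 / 4) (by norm_num)
  obtain ⟨t, h0, h1, h2, -⟩ := key J
  have h3 := (hJ J le_rfl t ⟨h0, h1.trans (P.τs J)⟩).1
  have h4 := P.ℓs J
  have h5 := le_abs_self (x J t)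
  linarith

end Pool.Agent.N977.Q
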