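import Pool.Agent.N977.Q.Hel
import Pool.Agent.N977.Q.UniqL

/-!
The evolution of the Fourier coefficients of the solutions.
-/

open MeasureTheory Set Filter Topology
open scoped ContDiff ComplexConjugate

namespace Pool.Agent.N977.Q

open H459R3.NS
open Pool.Agent.N977.K (SolK re_integral im_integral)

theorem fr_re {f : V → ℝ} (hf : Continuous f) (k : K3) :
    (fr f k).re = ∫ x in cube, Real.cos (2 * Real.pi * ph k x) * f x := by
  unfold fr fc
  rw [re_integral (fr_cont hf k)]
  congr 1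
  funext x
  rw [Complex.re_mul_ofReal, ee_neg, Complex.conj_re, ee_eq]
  simp [-Complex.ofReal_cos, -Complex.ofReal_sin]

theorem fr_im {f : V → ℝ} (hf : Continuous f) (k : K3) :
    (fr f k).im = -∫ x in cube, Real.sin (2 * Real.pi * ph k x) * f x := by
  unfold fr fc
  rw [im_integral (fr_cont hf k), ← integral_neg]
  congr 1
  funext x
  rw [Complex.im_mul_ofReal, ee_neg, Complex.conj_im, ee_eq]
  simp [-Complex.ofReal_cos, -Complex.ofReal_sin]

theorem ph_smooth (k : K3) {n : WithTop ℕ∞} : ContDiff ℝ n fun z : ℝ × V => 2 * Real.pi * ph k z.2 :=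
  contDiff_const.mul ((ph_contDiff k).comp contDiff_snd)

theorem fr_deriv {T : ℝ} {f : ℝ → V → ℝ} {g : V → ℝ}
    (hf : ContDiffOn ℝ ∞ (fun z : ℝ × V => f z.1 z.2) (Ico 0 T ×ˢ univ)) {t : ℝ}
    (ht : t ∈ Ioo 0 T) (hd : ∀ x, HasDerivAt (fun s => f s x) (g x) t) (hg : Continuous g)
    (k : K3) : HasDerivAt (fun s => ‖fr (f s) k‖ ^ 2)
      (2 * (conj (fr (f t) k) * fr g k).re) t := by
  have hc : ∀ s ∈ Ioo 0 T, Continuous (f s) := fun s hs =>
    (contDiff_slice hf (Ioo_subset_Ico_self hs)).continuous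
  have hev : (fun s => ‖fr (f s) k‖ ^ 2) =ᶠ[𝓝 t] fun s =>
      (∫ x in cube, Real.cos (2 * Real.pi * ph k x) * f s x) ^ 2
        + (∫ x in cube, Real.sin (2 * Real.pi * ph k x) * f s x) ^ 2 := by
    filter_upwards [Ioo_mem_nhds ht.1 ht.2] with s hs
    rw [Complex.sq_norm, Complex.normSq_apply, fr_re (hc s hs), fr_im (hc s hs)]
    ring
  have hC : ContDiffOn ℝ 1 (fun z : ℝ × V => Real.cos (2 * Real.pi * ph k z.2) * f z.1 z.2)
      (Ioo 0 T ×ˢ univ) :=
    ((Real.contDiff_cos.comp (ph_smooth k)).contDiffOn).mul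
      (mono_Ioo (f := f) hf (by norm_cast))
  have hS : ContDiffOn ℝ 1 (fun z : ℝ × V => Real.sin (2 * Real.pi * ph k z.2) * f z.1 z.2)
      (Ioo 0 T ×ˢ univ) :=
    ((Real.contDiff_sin.comp (ph_smooth k)).contDiffOn).mul
      (mono_Ioo (f := f) hf (by norm_cast))
  have h1 := hasDerivAt_int (F := fun s x => Real.cos (2 * Real.pi * ph k x) * f s x) hC ht
  have h2 := hasDerivAt_int (F := fun s x => Real.sin (2 * Real.pi * ph k x) * f s x) hS ht
  have e1 : ∀ x, deriv (fun s => Real.cos (2 * Real.pi * ph k x) * f s x) t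
      = Real.cos (2 * Real.pi * ph k x) * g x := fun x => ((hd x).const_mul _).deriv
  have e2 : ∀ x, deriv (fun s => Real.sin (2 * Real.pi * ph k x) * f s x) t
      = Real.sin (2 * Real.pi * ph k x) * g x := fun x => ((hd x).const_mul _).deriv
  simp_rw [e1] at h1
  simp_rw [e2] at h2
  refine (((h1.pow 2).add (h2.pow 2)).congr_of_eventuallyEq hev).congr_deriv ?_
  rw [Complex.mul_re, Complex.conj_re, Complex.conj_im, fr_re (hc t ht), fr_im (hc t ht), fr_re hg,
    fr_im hg]
  push_cast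
  ring

theorem fr_continuousOn {T : ℝ} {f : ℝ → V → ℝ}
    (hf : ContDiffOn ℝ ∞ (fun z : ℝ × V => f z.1 z.2) (Ico 0 T ×ˢ univ)) (k : K3) :
    ContinuousOn (fun s => ‖fr (f s) k‖ ^ 2) (Ico 0 T) := by
  have hc : ∀ s ∈ Ico 0 T, Continuous (f s) := fun s hs => (contDiff_slice hf hs).continuous
  have hev : ∀ s ∈ Ico 0 T, ‖fr (f s) k‖ ^ 2 =
      (∫ x in cube, Real.cos (2 * Real.pi * ph k x) * f s x) ^ 2
        + (∫ x in cube, Real.sin (2 * Real.pi * ph k x) * f s x) ^ 2 := by
    intro s hs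
    rw [Complex.sq_norm, Complex.normSq_apply, fr_re (hc s hs), fr_im (hc s hs)]
    ring
  refine ContinuousOn.congr ?_ hev
  have h1 := continuousOn_int (F := fun s x => Real.cos (2 * Real.pi * ph k x) * f s x)
    (((Real.continuous_cos.comp (ph_smooth k (n := 0)).continuous).continuousOn).mul hf.continuousOn)
  have h2 := continuousOn_int (F := fun s x => Real.sin (2 * Real.pi * ph k x) * f s x)
    (((Real.continuous_sin.comp (ph_smooth k (n := 0)).continuous).continuousOn).mul hf.continuousOn)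
  exact (h1.pow 2).add (h2.pow 2)

theorem fr_add3 {f g h : V → ℝ} (hf : Continuous f) (hg : Continuous g) (hh : Continuous h) (k : K3) :
    fr (fun x => f x + g x + h x) k = fr f k + fr g k + fr h k := by
  have h1 : Continuous fun x => f x + g x := hf.add hg
  rw [fr_add h1 hh, fr_add hf hg]

theorem fr_lap {f : V → ℝ} (hf : SP f) (k : K3) :
    fr (lap f) k = -((2 * Real.pi) ^ 2 * len k ^ 2 : ℝ) * fr f k := by
  have h1 : fr (lap f) k = ∑ j, fr (pd j (pd j f)) k := by
    have e : lap f = fun x => ∑ j, pd j (pd j f) x := rfl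
    rw [e]
    simp only [Fin.sum_univ_three]
    exact fr_add3 ((hf.pd 0).pd 0).cont ((hf.pd 1).pd 1).cont ((hf.pd 2).pd 2).cont k
  rw [h1, len_sq]
  have h2 : ∀ j, fr (pd j (pd j f)) k = -((2 * Real.pi) ^ 2 * (k j : ℝ) ^ 2 : ℝ) * fr f k := by
    intro j
    rw [fr_pd' (hf.pd j), fr_pd' hf]
    push_cast
    linear_combination (2 * Real.pi * (k j : ℂ)) ^ 2 * fr f k * Complex.I_sq
  simp_rw [h2]
  rw [← Finset.sum_mul]
  congr 1
  push_cast
  rw [Finset.mul_sum, Finset.sum_neg_distrib]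

/-- the transfer of energy to the mode `k` -/
noncomputable def tk (K : (V → V) → (V → V) → V → V) (u : V → V) (k : K3) : ℝ :=
  ∑ i, (conj (fr (fun x => u x i) k) * fr (fun x => K u u x i) k).re

variable {ν T σ π' δ : ℝ} {u : ℝ → V → V} {q : ℝ → V → ℝ} {K : (V → V) → (V → V) → V → V}

theorem sum_k_fr {v : V → V} (hv : SPV v) (hdiv : ∀ x, ∑ i, pd i (fun y => v y i) x = 0) (k : K3) :
    ∑ i, (k i : ℂ) * fr (fun x => v x i) k = 0 := by
  have h1 : fr (fun x => ∑ i, pd i (fun y => v y i) x) k = 0 := by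
    simp_rw [hdiv]
    unfold fr fc
    simp
  have h := fun i => spv_sp hv i
  have h2 : fr (fun x => ∑ i, pd i (fun y => v y i) x) k
      = 2 * Real.pi * Complex.I * ∑ i, (k i : ℂ) * fr (fun x => v x i) k := by
    simp only [Fin.sum_univ_three]
    rw [fr_add3 ((h 0).pd 0).cont ((h 1).pd 1).cont ((h 2).pd 2).cont, fr_pd' (h 0), fr_pd' (h 1),
      fr_pd' (h 2)]
    ring
  rw [h2] at h1
  have h3 : (2 * Real.pi * Complex.I : ℂ) ≠ 0 := by
    simp [Real.pi_ne_zero]
  exact (mul_eq_zero.1 h1).resolve_left h3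

/-- the evolution of the energy of a mode -/
theorem un_deriv (hK : Low σ π' δ K) (hs : SolK ν T K u q)
    (hg : ∀ t ∈ Ioo 0 T, ∃ P : V → ℝ, SP P ∧ ∀ i x, conv (fun i y => u t y i) i x = pd i P x)
    {t : ℝ} (ht : t ∈ Ioo 0 T) (k : K3) :
    HasDerivAt (fun s => un (u s) k ^ 2)
      (-(2 * ν * (2 * Real.pi) ^ 2 * (len k ^ 2 * un (u t) k ^ 2)) + 2 * tk K (u t) k) t := by
  have htI := Ioo_subset_Ico_self ht
  obtain ⟨P, hP, hPe⟩ := hg t ht
  have hU : ∀ i, SP (fun y => u t y i) := fun i => sol_sp hs htI i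
  have hUs : SPV (u t) := sp_spv hU
  have hKs := hK.smooth _ _ hUs hUs
  have hq := sol_sp_p hs htI
  set g : Fin 3 → V → ℝ := fun i x => ν * lap (fun y => u t y i) x
      - conv (fun i y => u t y i) i x - pd i (q t) x + K (u t) (u t) x i with hgdef
  have hcv : ∀ i, SP (conv (fun i y => u t y i) i) := fun i => sp_conv hU i
  have hgc : ∀ i, Continuous (g i) := fun i =>
    ((((continuous_const.mul (hU i).lap.cont).sub (hcv i).cont).sub (hq.pd i).cont).add
      (spv_sp hKs i).cont)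
  have h1 : ∀ i, HasDerivAt (fun s => ‖fr (fun x => u s x i) k‖ ^ 2)
      (2 * (conj (fr (fun x => u t x i) k) * fr (g i) k).re) t := fun i =>
    fr_deriv (f := fun s x => u s x i) (smooth_c hs i) ht
      (fun x => sol_hasDerivAt hs ht i x) (hgc i) k
  have h2 := HasDerivAt.fun_sum (u := Finset.univ) fun i (_ : i ∈ Finset.univ) => h1 i
  have e0 : (fun s => un (u s) k ^ 2) = fun s => ∑ i, ‖fr (fun x => u s x i) k‖ ^ 2 :=
    funext fun s => un_sq _ _
  rw [e0]
  refine h2.congr_deriv ?_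
  have e1 : ∀ i, fr (g i) k = -(ν * ((2 * Real.pi) ^ 2 * len k ^ 2) : ℝ) * fr (fun x => u t x i) k
      - 2 * Real.pi * Complex.I * (k i : ℂ) * (fr P k + fr (q t) k)
      + fr (fun x => K (u t) (u t) x i) k := by
    intro i
    have c1 : Continuous fun x => ν * lap (fun y => u t y i) x := continuous_const.mul (hU i).lap.cont
    have e2 : fr (conv (fun i y => u t y i) i) k = 2 * Real.pi * Complex.I * (k i : ℂ) * fr P k := by
      rw [show conv (fun i y => u t y i) i = pd i P from funext (hPe i), fr_pd' hP]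
    have c2 : Continuous fun x => ν * lap (fun y => u t y i) x
      - conv (fun i y => u t y i) i x := c1.sub (hcv i).cont
    have c3 : Continuous fun x => ν * lap (fun y => u t y i) x
      - conv (fun i y => u t y i) i x - pd i (q t) x := c2.sub (hq.pd i).cont
    simp only [hgdef]
    rw [fr_add c3 (spv_sp hKs i).cont, fr_sub c2 (hq.pd i).cont, fr_sub c1 (hcv i).cont]
    rw [fr_smul, fr_lap (hU i), e2, fr_pd' hq]
    push_cast
    ring
  have e3 := sum_k_fr hUs (hs.divfree t htI) k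
  have e4 : ∀ i, (conj (fr (fun x => u t x i) k) * fr (g i) k).re
      = -(ν * ((2 * Real.pi) ^ 2 * len k ^ 2)) * ‖fr (fun x => u t x i) k‖ ^ 2
        - (2 * Real.pi * Complex.I * (fr P k + fr (q t) k)
          * conj ((k i : ℂ) * fr (fun x => u t x i) k)).re
        + (conj (fr (fun x => u t x i) k) * fr (fun x => K (u t) (u t) x i) k).re := by
    intro i
    have e5 : conj (fr (fun x => u t x i) k) * fr (g i) k
        = ((-(ν * ((2 * Real.pi) ^ 2 * len k ^ 2)) * ‖fr (fun x => u t x i) k‖ ^ 2 : ℝ) : ℂ)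
        - 2 * Real.pi * Complex.I * (fr P k + fr (q t) k)
          * conj ((k i : ℂ) * fr (fun x => u t x i) k)
        + conj (fr (fun x => u t x i) k) * fr (fun x => K (u t) (u t) x i) k := by
      rw [e1, map_mul, map_intCast]
      have e6 : ((‖fr (fun x => u t x i) k‖ ^ 2 : ℝ) : ℂ)
          = fr (fun x => u t x i) k * conj (fr (fun x => u t x i) k) := by
        rw [Complex.mul_conj, Complex.normSq_eq_norm_sq]
      push_cast at e6 ⊢
      linear_combination (ν * ((2 * Real.pi) ^ 2 * (len k : ℂ) ^ 2)) * e6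
    rw [e5, Complex.add_re, Complex.sub_re, Complex.ofReal_re]
  simp_rw [e4]
  have e7 : ∑ i, (2 * Real.pi * Complex.I * (fr P k + fr (q t) k)
      * conj ((k i : ℂ) * fr (fun x => u t x i) k)).re = 0 := by
    rw [← Complex.re_sum, ← Finset.mul_sum, ← map_sum, e3, map_zero, mul_zero, Complex.zero_re]
  rw [← Finset.mul_sum, Finset.sum_add_distrib, Finset.sum_sub_distrib, e7, ← Finset.mul_sum,
    ← un_sq]
  unfold tk
  ring

end Pool.Agent.N977.Q
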