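import Pool.Agent.N977.Q.Th2

/-!
The estimate of the flux of energy.
-/

open MeasureTheory Set Filter Topology
open scoped ContDiff ComplexConjugate

namespace Pool.Agent.N977.Q

open H459R3.NS

variable {u : V → V} {n M h : ℕ}

/-- low-frequency part of the local dissipation -/
noncomputable def XX (n M h : ℕ) (u : V → V) : ℝ :=
  ∑ k ∈ Bl n, (len k / 2 ^ n) ^ (2 * M) * len k ^ (2 * h) * un u k ^ 2

open Classical in
/-- high-frequency part of the local dissipation -/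
noncomputable def ZZ (n M h : ℕ) (u : V → V) : ℝ :=
  ∑' k, if k ∈ Bl n then 0 else (2 ^ n / len k) ^ (2 * M + 2) * len k ^ (2 * h) * un u k ^ 2

/-- the energy and its moments -/
noncomputable def EE (h : ℕ) (u : V → V) : ℝ := ∑' k, len k ^ (2 * h) * un u k ^ 2

theorem EE_summable (hu : SPV u) (h : ℕ) : Summable fun k => len k ^ (2 * h) * un u k ^ 2 := by
  obtain ⟨C, hC0, hC⟩ := un_decay hu (h + 2)
  refine Summable.of_nonneg_of_le (fun k => mul_nonneg (pow_nonneg (len_nonneg k) _) (sq_nonneg _))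
    (f := fun k => (4 ^ h * C ^ 2) * (if k = 0 then (0 : ℝ) else 1 / (H459R3.NS.N k : ℝ) ^ 4)
      + (if k = 0 then un u 0 ^ 2 else 0)) (fun k => ?_) ?_
  · by_cases hk : k = 0
    · subst hk
      rw [if_pos rfl, if_pos rfl, mul_zero, zero_add]
      have h1 : len (0 : K3) = 0 := by unfold len; simp
      rw [h1]
      have h2 : (0 : ℝ) ^ (2 * h) ≤ 1 := pow_le_one₀ le_rfl zero_le_one
      exact mul_le_of_le_one_left (sq_nonneg _) h2
    · rw [if_neg hk, if_neg hk, add_zero]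
      have hN := one_le_N hk
      have h1 := hC k
      have h2 : un u k ≤ C / (H459R3.NS.N k : ℝ) ^ (h + 2) := by
        rw [le_div_iff₀ (by positivity), mul_comm]; exact h1
      have h3 : len k ^ (2 * h) ≤ (2 * (H459R3.NS.N k : ℝ)) ^ (2 * h) :=
        pow_le_pow_left₀ (len_nonneg k) (len_le_N k) _
      calc len k ^ (2 * h) * un u k ^ 2
          ≤ (2 * (H459R3.NS.N k : ℝ)) ^ (2 * h) * (C / (H459R3.NS.N k : ℝ) ^ (h + 2)) ^ 2 :=
            mul_le_mul h3 (pow_le_pow_left₀ (un_nonneg _ _) h2 2) (sq_nonneg _) (by positivity)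
        _ = _ := by
            rw [mul_pow, pow_mul 2 2 h, show (2 : ℝ) ^ 2 = 4 by norm_num, div_pow, ← pow_mul]
            have e : (h + 2) * 2 = 2 * h + 4 := by ring
            rw [e, pow_add]
            field_simp
  · refine (summable_N4.mul_left _).add (summable_of_ne_finset_zero (s := {0}) fun k hk => ?_)
    rw [if_neg (by simpa using hk)]

theorem zz_term_le {k : K3} (hk : k ∉ Bl n) (hM : h ≤ M + 1) (u : V → V) :
    (2 ^ n / len k) ^ (2 * M + 2) * len k ^ (2 * h) * un u k ^ 2 ≤ 4 ^ (n * h) * un u k ^ 2 := by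
  rw [mem_Bl, not_lt] at hk
  have h2n : (0 : ℝ) < 2 ^ n := by positivity
  have hl : 0 < len k := by linarith
  apply mul_le_mul_of_nonneg_right _ (sq_nonneg _)
  have h1 : 2 ^ n / len k ≤ 1 := by rw [div_le_one hl]; exact hk
  have h0 : 0 ≤ 2 ^ n / len k := by positivity
  have e : (2 ^ n / len k) ^ (2 * M + 2) ≤ (2 ^ n / len k) ^ (2 * h) :=
    pow_le_pow_of_le_one h0 h1 (by omega)
  calc (2 ^ n / len k) ^ (2 * M + 2) * len k ^ (2 * h)
      ≤ (2 ^ n / len k) ^ (2 * h) * len k ^ (2 * h) := mul_le_mul_of_nonneg_right e (by positivity)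
    _ = 4 ^ (n * h) := by
        rw [← mul_pow, div_mul_cancel₀ _ hl.ne', ← pow_mul]
        have : (4 : ℝ) = 2 ^ 2 := by norm_num
        rw [this, ← pow_mul]
        congr 1
        ring

open Classical in
theorem ZZ_summable (hu : SPV u) (hM : h ≤ M + 1) : Summable fun k => if k ∈ Bl n then 0 else
    (2 ^ n / len k) ^ (2 * M + 2) * len k ^ (2 * h) * un u k ^ 2 := by
  have h1 := (EE_summable hu 0).mul_left (4 ^ (n * h))
  refine Summable.of_nonneg_of_le (fun k => ?_) (fun k => ?_) h1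
  · split_ifs
    · exact le_rfl
    · have := len_nonneg k
      positivity
  · split_ifs with hk
    · have := len_nonneg k
      positivity
    · have := zz_term_le (n := n) hk hM u
      simpa using this

theorem ZZ_nonneg : 0 ≤ ZZ n M h u := by
  classical
  refine tsum_nonneg fun k => ?_
  split_ifs
  · exact le_rfl
  · have := len_nonneg k
    positivity

theorem XX_nonneg : 0 ≤ XX n M h u := Finset.sum_nonneg fun k _ => by
  have := len_nonneg k
  positivity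

theorem ZZ_le (hu : SPV u) (hM : h ≤ M + 1) : ZZ n M h u ≤ 4 ^ (n * h) * EE 0 u := by
  classical
  unfold ZZ EE
  rw [← tsum_mul_left]
  refine (ZZ_summable hu hM).tsum_le_tsum (fun k => ?_) ((EE_summable hu 0).mul_left _)
  split_ifs with hk
  · have := len_nonneg k
    positivity
  · have := zz_term_le (n := n) hk hM u
    simpa using this

theorem XX_le (hu : SPV u) : XX n M h u ≤ 4 ^ (n * h) * EE 0 u := by
  unfold XX EE
  rw [← tsum_mul_left]
  refine le_trans (Finset.sum_le_sum fun k hk => ?_)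
    (((EE_summable hu 0).mul_left (4 ^ (n * h))).sum_le_tsum (Bl n) fun k _ => ?_)
  · rw [mem_Bl] at hk
    have hl := len_nonneg k
    have h2n : (0 : ℝ) < 2 ^ n := by positivity
    have e1 : (len k / 2 ^ n) ^ (2 * M) ≤ 1 :=
      pow_le_one₀ (by positivity) (by rw [div_le_one h2n]; exact hk.le)
    have e2 : len k ^ (2 * h) ≤ 4 ^ (n * h) := by
      calc len k ^ (2 * h) ≤ (2 ^ n) ^ (2 * h) := pow_le_pow_left₀ hl hk.le _
        _ = 4 ^ (n * h) := by
          have : (4 : ℝ) = 2 ^ 2 := by norm_num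
          rw [this, ← pow_mul, ← pow_mul]
          congr 1
          ring
    simp only [mul_zero, pow_zero, one_mul]
    apply mul_le_mul_of_nonneg_right _ (sq_nonneg _)
    calc (len k / 2 ^ n) ^ (2 * M) * len k ^ (2 * h) ≤ 1 * 4 ^ (n * h) :=
          mul_le_mul e1 e2 (by positivity) zero_le_one
      _ = _ := one_mul _
  · have := len_nonneg k
    positivity

/-- the logarithm at the level -/
noncomputable def LL (n : ℕ) : ℝ := Real.log (2 + 2 ^ n)

theorem one_le_LL (n : ℕ) : 1 ≤ LL n := one_le_log3 (one_le_pow₀ (by norm_num))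

/-- norms of the low-frequency part -/
theorem Hn_Pn (hu : SPV u) {p : ℝ} (hp : 0 ≤ p) :
    Hn ((M + h : ℕ) : ℝ) p (Pn n u) ≤ LL n ^ p * (2 ^ n) ^ M * √(XX n M h u) := by
  classical
  have hL := one_le_LL n
  have hx : 0 ≤ LL n ^ p * (2 ^ n) ^ M := by positivity
  rw [show LL n ^ p * (2 ^ n) ^ M * √(XX n M h u) = √((LL n ^ p * (2 ^ n) ^ M) ^ 2 * XX n M h u) by
    rw [Real.sqrt_mul (sq_nonneg _), Real.sqrt_sq hx]]
  rw [← Real.sqrt_sq (Hn_nonneg _ _ (Pn n u))]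
  apply Real.sqrt_le_sqrt
  rw [Hn_sq_un]
  have e1 : ∀ k, (wt ((M + h : ℕ) : ℝ) p k * un (Pn n u) k) ^ 2
      = if k ∈ Bl n then (wt ((M + h : ℕ) : ℝ) p k * un u k) ^ 2 else 0 := by
    intro k
    rw [un_Pn hu]
    split_ifs <;> simp
  simp_rw [e1]
  rw [tsum_eq_sum (s := Bl n) (fun k hk => if_neg hk)]
  unfold XX
  rw [Finset.mul_sum]
  refine Finset.sum_le_sum fun k hk => ?_
  rw [if_pos hk]
  rw [mem_Bl] at hk
  have hl := len_nonneg k
  have h2n : (0 : ℝ) < 2 ^ n := by positivity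
  have hw : wt ((M + h : ℕ) : ℝ) p k ≤ len k ^ (M + h) * LL n ^ p := by
    unfold wt
    split_ifs with h0
    · positivity
    · rw [Real.rpow_natCast]
      apply mul_le_mul_of_nonneg_left _ (by positivity)
      apply Real.rpow_le_rpow (Real.log_nonneg (by linarith)) _ hp
      unfold LL
      exact Real.log_le_log (by linarith) (by linarith)
  rw [mul_pow]
  calc wt ((M + h : ℕ) : ℝ) p k ^ 2 * un u k ^ 2
      ≤ (len k ^ (M + h) * LL n ^ p) ^ 2 * un u k ^ 2 :=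
        mul_le_mul_of_nonneg_right (pow_le_pow_left₀ (wt_nonneg _ _ _) hw 2) (sq_nonneg _)
    _ = (LL n ^ p * (2 ^ n) ^ M) ^ 2 * ((len k / 2 ^ n) ^ (2 * M) * len k ^ (2 * h) * un u k ^ 2) := by
        have e2 : (len k / 2 ^ n) ^ (2 * M) * ((2 : ℝ) ^ n) ^ (2 * M) = len k ^ (2 * M) := by
          rw [← mul_pow, div_mul_cancel₀ _ h2n.ne']
        have e3 : (len k ^ (M + h) * LL n ^ p) ^ 2 = (LL n ^ p) ^ 2 * (len k ^ (2 * M) * len k ^ (2 * h)) := by
          rw [mul_pow, ← pow_mul, ← pow_add]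
          have : (M + h) * 2 = 2 * M + 2 * h := by ring
          rw [this]; ring
        rw [e3, ← e2]
        ring

/-- norms of the low-frequency part, with a higher weight -/
theorem Hn_Pn2 (hu : SPV u) {p : ℝ} (hp : 0 ≤ p) :
    Hn ((M + h + 2 : ℕ) : ℝ) p (Pn n u) ≤ LL n ^ p * (2 ^ n) ^ (M + 2) * √(XX n M h u) := by
  have h1 := Hn_Pn (M := M + 2) (h := h) (n := n) hu hp
  have e : M + 2 + h = M + h + 2 := by ring
  rw [e] at h1
  refine h1.trans ?_
  have hL := one_le_LL n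
  apply mul_le_mul_of_nonneg_left _ (by positivity)
  apply Real.sqrt_le_sqrt
  unfold XX
  refine Finset.sum_le_sum fun k hk => ?_
  rw [mem_Bl] at hk
  have hl := len_nonneg k
  have h2n : (0 : ℝ) < 2 ^ n := by positivity
  have e1 : (len k / 2 ^ n) ^ (2 * (M + 2)) ≤ (len k / 2 ^ n) ^ (2 * M) :=
    pow_le_pow_of_le_one (by positivity) (by rw [div_le_one h2n]; exact hk.le) (by omega)
  exact mul_le_mul_of_nonneg_right (mul_le_mul_of_nonneg_right e1 (by positivity)) (sq_nonneg _)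

/-- norms of the high-frequency part -/
theorem Hn_Qn (hu : SPV u) (hM : h ≤ M + 1) :
    Hn (-((M + 1 - h : ℕ) : ℝ)) 0 (Qn n u) * (2 ^ n) ^ (M + 1) = √(ZZ n M h u) := by
  classical
  have h2n : (0 : ℝ) < 2 ^ n := by positivity
  rw [← Real.sqrt_sq (mul_nonneg (Hn_nonneg _ _ _) (by positivity))]
  congr 1
  rw [mul_pow, Hn_sq_un]
  unfold ZZ
  rw [← tsum_mul_right]
  refine tsum_congr fun k => ?_
  rw [un_Qn hu]
  split_ifs with hk
  · simp
  · rw [mem_Bl, not_lt] at hk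
    have hl : 0 < len k := by linarith
    have hk0 : k ≠ 0 := by
      intro h0
      rw [h0] at hl
      unfold len at hl
      simp at hl
    unfold wt
    rw [if_neg hk0, Real.rpow_zero, mul_one, Real.rpow_neg hl.le, Real.rpow_natCast]
    obtain ⟨e, he⟩ : ∃ e, M + 1 = e + h := ⟨M + 1 - h, by omega⟩
    have e1 : M + 1 - h = e := by omega
    have e2 : 2 * M + 2 = 2 * e + 2 * h := by omega
    have e3 : M + 1 = e + h := he
    rw [e1, e2, e3, div_pow, mul_pow, inv_pow, ← pow_mul, ← pow_mul]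
    have e4 : e * 2 = 2 * e := by ring
    have e5 : (2 : ℝ) ^ n ≠ 0 := h2n.ne'
    rw [pow_add (len k), e4]
    have e6 : (e + h) * 2 = 2 * e + 2 * h := by ring
    rw [← pow_mul, ← pow_mul, e6]
    field_simp

variable {p δ : ℝ} {K : (V → V) → (V → V) → V → V}

/-- the estimate of the flux -/
theorem flux_le (hK : Low (2 * h) p δ K) (hp : 0 ≤ p) (hδ : 0 ≤ δ) (hu : SPV u) (hM : h ≤ M + 1) :
    |∑ k ∈ Bl n, tk K u k| ≤ δ * 5 ^ (2 * M + 2 * h + 4) * LL n ^ p
      * (√(XX n 1 0 u) + √(ZZ n 0 0 u)) * (√(XX n M h u) * √(ZZ n M h u)) := by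
  have hP := Pn_spv n u
  have hQ := Qn_spv n hu
  have h2n : (0 : ℝ) < 2 ^ n := by positivity
  have hL := one_le_LL n
  have hMc : ((M + 1 - h : ℕ) : ℝ) = (M : ℝ) + 1 - h := by
    rw [Nat.cast_sub hM]; push_cast; ring
  have hMc0 : 0 ≤ ((M + 1 - h : ℕ) : ℝ) := Nat.cast_nonneg _
  rw [flux_eq hK hu n]
  have b1 := hK.bound _ _ _ hP hQ hP ((1 + 0 : ℕ) : ℝ) (-((M + 1 - h : ℕ) : ℝ)) ((M + h : ℕ) : ℝ)
    0 0 p (by rw [hMc]; push_cast; ring) le_rfl le_rfl hp (by ring)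
  have b2 := hK.bound _ _ _ hQ hQ hP (-((0 + 1 - 0 : ℕ) : ℝ)) (-((M + 1 - h : ℕ) : ℝ))
    ((M + h + 2 : ℕ) : ℝ) 0 0 p (by rw [hMc]; push_cast; ring) le_rfl le_rfl hp (by ring)
  have n1 := Hn_Pn (M := 1) (h := 0) (n := n) hu (le_refl (0 : ℝ))
  have n2 := Hn_Pn (M := M) (h := h) (n := n) hu hp
  have n3 := Hn_Pn2 (M := M) (h := h) (n := n) hu hp
  have n4 := Hn_Qn (M := M) (h := h) (n := n) hu hM
  have n5 := Hn_Qn (M := 0) (h := 0) (n := n) hu (by norm_num)
  rw [Real.rpow_zero, one_mul, pow_one] at n1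
  rw [zero_add, pow_one] at n5
  set a := Hn (-((M + 1 - h : ℕ) : ℝ)) 0 (Qn n u) with ha
  set b := Hn (-((0 + 1 - 0 : ℕ) : ℝ)) 0 (Qn n u) with hb
  set X := √(XX n M h u) with hX
  set Z := √(ZZ n M h u) with hZ
  set G := √(XX n 1 0 u) with hG
  set G' := √(ZZ n 0 0 u) with hG'
  have ha0 : 0 ≤ a := Hn_nonneg _ _ _
  have hb0 : 0 ≤ b := Hn_nonneg _ _ _
  have hX0 : 0 ≤ X := Real.sqrt_nonneg _
  have hZ0 : 0 ≤ Z := Real.sqrt_nonneg _
  have hG0 : 0 ≤ G := Real.sqrt_nonneg _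
  have hG'0 : 0 ≤ G' := Real.sqrt_nonneg _
  have hbe : b * 2 ^ n = G' := by simpa using n5
  have five : ∀ {x : ℝ}, x ≤ ((2 * M + 2 * h + 4 : ℕ) : ℝ) →
      (5 : ℝ) ^ x ≤ 5 ^ (2 * M + 2 * h + 4) := fun hx => by
    rw [← Real.rpow_natCast]
    exact Real.rpow_le_rpow_of_exponent_le (by norm_num) hx
  have hh0 : (0 : ℝ) ≤ h := Nat.cast_nonneg h
  have c1 : |TT K (Pn n u) (Qn n u) (Pn n u)|
      ≤ δ * 5 ^ (2 * M + 2 * h + 4) * (LL n ^ p * (G * (X * Z))) := by
    refine b1.trans ?_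
    have f1 : (5 : ℝ) ^ (|((1 + 0 : ℕ) : ℝ)| + |-((M + 1 - h : ℕ) : ℝ)| + |((M + h : ℕ) : ℝ)|)
        ≤ 5 ^ (2 * M + 2 * h + 4) := by
      apply five
      rw [abs_neg, abs_of_nonneg hMc0, abs_of_nonneg (Nat.cast_nonneg _),
        abs_of_nonneg (Nat.cast_nonneg _), hMc]
      push_cast
      linarith
    have f2 : Hn ((1 + 0 : ℕ) : ℝ) 0 (Pn n u) * a * Hn ((M + h : ℕ) : ℝ) p (Pn n u)
        ≤ LL n ^ p * (G * (X * Z)) := by
      calc Hn ((1 + 0 : ℕ) : ℝ) 0 (Pn n u) * a * Hn ((M + h : ℕ) : ℝ) p (Pn n u)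
          ≤ (2 ^ n * G) * a * (LL n ^ p * (2 ^ n) ^ M * X) :=
            mul_le_mul (mul_le_mul_of_nonneg_right n1 ha0) n2 (Hn_nonneg _ _ _) (by positivity)
        _ = LL n ^ p * (G * (X * (a * (2 ^ n) ^ (M + 1)))) := by rw [pow_succ]; ring
        _ = _ := by rw [n4]
    exact mul_le_mul (mul_le_mul_of_nonneg_left f1 hδ) f2
      (mul_nonneg (mul_nonneg (Hn_nonneg _ _ _) ha0) (Hn_nonneg _ _ _)) (by positivity)
  have c2 : |TT K (Qn n u) (Qn n u) (Pn n u)|
      ≤ δ * 5 ^ (2 * M + 2 * h + 4) * (LL n ^ p * (G' * (X * Z))) := by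
    refine b2.trans ?_
    have f1 : (5 : ℝ) ^ (|-((0 + 1 - 0 : ℕ) : ℝ)| + |-((M + 1 - h : ℕ) : ℝ)|
        + |((M + h + 2 : ℕ) : ℝ)|) ≤ 5 ^ (2 * M + 2 * h + 4) := by
      apply five
      rw [abs_neg, abs_neg, abs_of_nonneg hMc0, abs_of_nonneg (Nat.cast_nonneg _),
        abs_of_nonneg (Nat.cast_nonneg _), hMc]
      push_cast
      linarith
    have f2 : b * a * Hn ((M + h + 2 : ℕ) : ℝ) p (Pn n u) ≤ LL n ^ p * (G' * (X * Z)) := by
      calc b * a * Hn ((M + h + 2 : ℕ) : ℝ) p (Pn n u)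
          ≤ b * a * (LL n ^ p * (2 ^ n) ^ (M + 2) * X) :=
            mul_le_mul_of_nonneg_left n3 (mul_nonneg hb0 ha0)
        _ = LL n ^ p * ((b * 2 ^ n) * (X * (a * (2 ^ n) ^ (M + 1)))) := by
            rw [pow_succ _ (M + 1)]; ring
        _ = _ := by rw [n4, hbe]
    exact mul_le_mul (mul_le_mul_of_nonneg_left f1 hδ) f2
      (mul_nonneg (mul_nonneg hb0 ha0) (Hn_nonneg _ _ _)) (by positivity)
  refine (abs_add_le _ _).trans ((add_le_add c1 c2).trans (le_of_eq ?_))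
  ring

end Pool.Agent.N977.Q
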