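import Pool.Agent.N977.Q.Th3

/-!
Weighted energies and their evolution.
-/

open MeasureTheory Set Filter Topology
open scoped ContDiff ComplexConjugate

namespace Pool.Agent.N977.Q

open H459R3.NS
open Pool.Agent.N977.K (SolK)

/-- the dyadic level of a frequency -/
noncomputable def lv (k : K3) : ℕ := Nat.log 2 ⌊len k⌋₊

theorem lv_le_iff (k : K3) (n : ℕ) : lv k ≤ n ↔ k ∈ Bl (n + 1) := by
  rw [mem_Bl]
  unfold lv
  have h1 : len k < 2 ^ (n + 1) ↔ ⌊len k⌋₊ < 2 ^ (n + 1) := by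
    rw [Nat.floor_lt (len_nonneg k)]
    push_cast
    exact Iff.rfl
  rw [h1, ← Nat.lt_succ_iff]
  by_cases h0 : ⌊len k⌋₊ = 0
  · rw [h0]; simp
  · rw [← Nat.log_lt_iff_lt_pow one_lt_two h0]

theorem pow_lv_le {k : K3} (hk : k ≠ 0) : (2 : ℝ) ^ lv k ≤ len k := by
  have h1 := one_le_len hk
  have h0 : ⌊len k⌋₊ ≠ 0 := by
    rw [← Nat.one_le_iff_ne_zero, Nat.one_le_floor_iff]
    exact h1
  have h2 := Nat.pow_log_le_self 2 h0
  have h3 := Nat.floor_le (len_nonneg k)
  unfold lv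
  calc (2 : ℝ) ^ Nat.log 2 ⌊len k⌋₊ = ((2 ^ Nat.log 2 ⌊len k⌋₊ : ℕ) : ℝ) := by push_cast; rfl
    _ ≤ (⌊len k⌋₊ : ℝ) := by exact_mod_cast h2
    _ ≤ len k := h3

theorem lt_pow_lv (k : K3) : len k < 2 ^ (lv k + 1) := mem_Bl.1 ((lv_le_iff k (lv k)).1 le_rfl)

/-- admissible weights -/
structure Wg (M : ℕ) (w : ℕ → ℝ) : Prop where
  M0 : 0 < M
  pos : ∀ n, 0 < w n
  mono : ∀ n, w n ≤ w (n + 1)
  ratio : ∀ n, 2 * w (n + 1) ≤ 4 ^ M * w n

variable {M m h : ℕ} {w : ℕ → ℝ} {u : V → V}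

theorem Wg.monotone (hw : Wg M w) : Monotone w := monotone_nat_of_le_succ hw.mono

theorem wk_eq (w : ℕ → ℝ) (m : ℕ) (k : K3) : w (min (lv k) m)
    = w m - ∑ n ∈ Finset.range m, (w (n + 1) - w n) * (if lv k ≤ n then 1 else 0) := by
  induction m with
  | zero => simp
  | succ m ih =>
    rw [Finset.sum_range_succ]
    by_cases hk : lv k ≤ m
    · rw [if_pos hk]
      have e1 : min (lv k) (m + 1) = lv k := min_eq_left (by omega)
      have e2 : min (lv k) m = lv k := min_eq_left hk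
      rw [e1]
      rw [e2] at ih
      linarith
    · rw [if_neg hk]
      have e1 : min (lv k) (m + 1) = m + 1 := min_eq_right (by omega)
      have e2 : min (lv k) m = m := min_eq_right (by omega)
      rw [e1]
      rw [e2] at ih
      linarith

theorem sum_half_le (m : ℕ) : ∑ j ∈ Finset.range m, (1 / 2 : ℝ) ^ j ≤ 2 := by
  have := summable_geometric_two.sum_le_tsum (Finset.range m) fun _ _ => by positivity
  rwa [tsum_geometric_two] at this

theorem sum_up_le (N m : ℕ) :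
    ∑ n ∈ Finset.range m, (if N ≤ n then (1 / 2 : ℝ) ^ (n - N) else 0) ≤ 2 := by
  have h1 : ∑ n ∈ Finset.range m, (if N ≤ n then (1 / 2 : ℝ) ^ (n - N) else 0)
      ≤ ∑ n ∈ Finset.range (N + m), (if N ≤ n then (1 / 2 : ℝ) ^ (n - N) else 0) := by
    refine Finset.sum_le_sum_of_subset_of_nonneg
      (Finset.range_subset_range.2 (by omega)) fun i _ _ => ?_
    split_ifs <;> positivity
  refine h1.trans ?_
  rw [Finset.sum_range_add, Finset.sum_eq_zero (fun n hn => ?_), zero_add]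
  · refine le_trans (le_of_eq (Finset.sum_congr rfl fun j _ => ?_)) (sum_half_le m)
    rw [if_pos (by omega), Nat.add_sub_cancel_left]
  · rw [if_neg (by have := Finset.mem_range.1 hn; omega)]

theorem sum_dn_le (N m : ℕ) :
    ∑ n ∈ Finset.range m, (if N ≤ n then 0 else (1 / 2 : ℝ) ^ (N - 1 - n)) ≤ 2 := by
  have h1 : ∑ n ∈ Finset.range m, (if N ≤ n then 0 else (1 / 2 : ℝ) ^ (N - 1 - n))
      ≤ ∑ n ∈ Finset.range (N + m), (if N ≤ n then 0 else (1 / 2 : ℝ) ^ (N - 1 - n)) := by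
    refine Finset.sum_le_sum_of_subset_of_nonneg
      (Finset.range_subset_range.2 (by omega)) fun i _ _ => ?_
    split_ifs <;> positivity
  refine h1.trans ?_
  rw [Finset.sum_range_add]
  have h2 : ∑ x ∈ Finset.range m, (if N ≤ N + x then 0 else (1 / 2 : ℝ) ^ (N - 1 - (N + x))) = 0 :=
    Finset.sum_eq_zero fun n _ => if_pos (by omega)
  rw [h2, add_zero]
  have h3 : ∑ n ∈ Finset.range N, (if N ≤ n then 0 else (1 / 2 : ℝ) ^ (N - 1 - n))
      = ∑ n ∈ Finset.range N, (1 / 2 : ℝ) ^ (N - 1 - n) :=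
    Finset.sum_congr rfl fun n hn => if_neg (by have := Finset.mem_range.1 hn; omega)
  rw [h3, Finset.sum_range_reflect (fun j => (1 / 2 : ℝ) ^ j) N]
  exact sum_half_le N

theorem w_ratio (hw : Wg M w) (N j : ℕ) : 2 ^ j * w (N + j) ≤ (4 ^ M) ^ j * w N := by
  induction j with
  | zero => simp
  | succ j ih =>
    have h1 := hw.ratio (N + j)
    have h2 : (0 : ℝ) < 2 ^ j := by positivity
    calc 2 ^ (j + 1) * w (N + (j + 1)) = 2 ^ j * (2 * w (N + j + 1)) := by
          rw [pow_succ, ← add_assoc]; ring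
      _ ≤ 2 ^ j * (4 ^ M * w (N + j)) := mul_le_mul_of_nonneg_left h1 h2.le
      _ = 4 ^ M * (2 ^ j * w (N + j)) := by ring
      _ ≤ 4 ^ M * ((4 ^ M) ^ j * w N) := mul_le_mul_of_nonneg_left ih (by positivity)
      _ = _ := by rw [pow_succ]; ring

/-- the weighted geometric sums -/
theorem geo_le (hw : Wg M w) {k : K3} (hk : k ≠ 0) (m : ℕ) :
    ∑ n ∈ Finset.range m, w (n + 1) * (if lv k ≤ n then (len k / 2 ^ (n + 1)) ^ (2 * M)
      else (2 ^ (n + 1) / len k) ^ (2 * M + 2)) ≤ (4 ^ M + 2) * w (min (lv k) m) := by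
  set N := lv k with hN
  have hl := len_pos hk
  have h1 : (2 : ℝ) ^ N ≤ len k := pow_lv_le hk
  have h2 : len k < 2 ^ (N + 1) := lt_pow_lv k
  have hW := hw.pos (min N m)
  have key : ∀ n ∈ Finset.range m, w (n + 1) * (if N ≤ n then (len k / 2 ^ (n + 1)) ^ (2 * M)
      else (2 ^ (n + 1) / len k) ^ (2 * M + 2))
      ≤ w (min N m) * (4 ^ M / 2) * (if N ≤ n then (1 / 2 : ℝ) ^ (n - N) else 0)
        + w (min N m) * (if N ≤ n then 0 else (1 / 2 : ℝ) ^ (N - 1 - n)) := by
    intro n hn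
    rw [Finset.mem_range] at hn
    by_cases hNn : N ≤ n
    · rw [if_pos hNn, if_pos hNn, if_pos hNn, mul_zero, add_zero]
      obtain ⟨j, rfl⟩ := Nat.exists_eq_add_of_le hNn
      have e1 : min N m = N := min_eq_left (by omega)
      rw [e1, Nat.add_sub_cancel_left]
      have h3 := w_ratio hw N (j + 1)
      have h4 : (len k / 2 ^ (N + j + 1)) ^ (2 * M) ≤ (1 / 4 ^ M) ^ j := by
        have e2 : len k / 2 ^ (N + j + 1) ≤ (1 / 2) ^ j := by
          rw [div_le_iff₀ (by positivity)]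
          have : (1 / 2 : ℝ) ^ j * 2 ^ (N + j + 1) = 2 ^ (N + 1) := by
            rw [show N + j + 1 = j + (N + 1) by ring, pow_add, ← mul_assoc, ← mul_pow]
            norm_num
          rw [this]
          exact h2.le
        calc (len k / 2 ^ (N + j + 1)) ^ (2 * M) ≤ ((1 / 2) ^ j) ^ (2 * M) :=
              pow_le_pow_left₀ (by positivity) e2 _
          _ = (1 / 4 ^ M) ^ j := by
              rw [← pow_mul, one_div_pow, one_div_pow, ← pow_mul]
              congr 1
              have : (4 : ℝ) = 2 ^ 2 := by norm_num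
              rw [this, ← pow_mul]
              congr 1
              ring
      have h5 : w (N + j + 1) ≤ (4 ^ M) ^ (j + 1) * w N / 2 ^ (j + 1) := by
        rw [le_div_iff₀ (by positivity), mul_comm]
        exact h3
      have hwN := hw.pos N
      calc w (N + j + 1) * (len k / 2 ^ (N + j + 1)) ^ (2 * M)
          ≤ ((4 ^ M) ^ (j + 1) * w N / 2 ^ (j + 1)) * (1 / 4 ^ M) ^ j :=
            mul_le_mul h5 h4 (by positivity) (by positivity)
        _ = w N * (4 ^ M / 2) * (1 / 2) ^ j := by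
            rw [pow_succ, pow_succ, one_div_pow, one_div_pow]
            field_simp
    · rw [if_neg hNn, if_neg hNn, if_neg hNn, mul_zero, zero_add]
      have h3 : w (n + 1) ≤ w (min N m) := hw.monotone (by omega)
      obtain ⟨j, hj⟩ : ∃ j, N = n + 1 + j := Nat.exists_eq_add_of_le (by omega)
      have e3 : N - 1 - n = j := by omega
      rw [e3]
      have h4 : (2 ^ (n + 1) / len k) ^ (2 * M + 2) ≤ (1 / 2 : ℝ) ^ j := by
        have e2 : 2 ^ (n + 1) / len k ≤ (1 / 2) ^ j := by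
          rw [div_le_iff₀ hl]
          have : (1 / 2 : ℝ) ^ j * 2 ^ N = 2 ^ (n + 1) := by
            rw [hj, pow_add _ (n + 1) j, mul_comm, mul_assoc, ← mul_pow]
            norm_num
          calc (2 : ℝ) ^ (n + 1) = (1 / 2 : ℝ) ^ j * 2 ^ N := this.symm
            _ ≤ _ := mul_le_mul_of_nonneg_left h1 (by positivity)
        have e4 : (1 / 2 : ℝ) ^ j ≤ 1 := pow_le_one₀ (by norm_num) (by norm_num)
        calc (2 ^ (n + 1) / len k) ^ (2 * M + 2) ≤ ((1 / 2 : ℝ) ^ j) ^ (2 * M + 2) :=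
              pow_le_pow_left₀ (by positivity) e2 _
          _ ≤ ((1 / 2 : ℝ) ^ j) ^ 1 := pow_le_pow_of_le_one (by positivity) e4 (by omega)
          _ = _ := pow_one _
      exact mul_le_mul h3 h4 (by positivity) hW.le
  refine (Finset.sum_le_sum key).trans ?_
  rw [Finset.sum_add_distrib, ← Finset.mul_sum, ← Finset.mul_sum]
  have s1 := mul_le_mul_of_nonneg_left (sum_up_le N m)
    (show 0 ≤ w (min N m) * (4 ^ M / 2) by positivity)
  have s2 := mul_le_mul_of_nonneg_left (sum_dn_le N m) hW.le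
  linarith

/-- weighted energy -/
noncomputable def YY (w : ℕ → ℝ) (m h : ℕ) (u : V → V) : ℝ :=
  ∑' k, w (min (lv k) m) * (len k ^ (2 * h) * un u k ^ 2)

theorem YY_summable (hw : Wg M w) (hu : SPV u) (m h : ℕ) :
    Summable fun k => w (min (lv k) m) * (len k ^ (2 * h) * un u k ^ 2) := by
  refine Summable.of_nonneg_of_le (fun k => ?_) (fun k => ?_) ((EE_summable hu h).mul_left (w m))
  · have := len_nonneg k
    have := hw.pos (min (lv k) m)
    positivity
  · have := len_nonneg k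
    exact mul_le_mul_of_nonneg_right (hw.monotone (min_le_right _ _)) (by positivity)

theorem YY_nonneg (hw : Wg M w) : 0 ≤ YY w m h u := tsum_nonneg fun k => by
  have := len_nonneg k
  have := hw.pos (min (lv k) m)
  positivity

theorem YY_eq (hw : Wg M w) (hu : SPV u) (m : ℕ) : YY w m 0 u
    = w m * EE 0 u - ∑ n ∈ Finset.range m, (w (n + 1) - w n) * ∑ k ∈ Bl (n + 1), un u k ^ 2 := by
  classical
  have hs : ∀ n ∈ Finset.range m, Summable fun k => (w (n + 1) - w n) *
      (if k ∈ Bl (n + 1) then un u k ^ 2 else 0) := fun n _ =>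
    (summable_of_ne_finset_zero (s := Bl (n + 1)) fun k hk => if_neg hk).mul_left _
  have h1 : ∀ n, ∑ k ∈ Bl (n + 1), un u k ^ 2
      = ∑' k, (if k ∈ Bl (n + 1) then un u k ^ 2 else 0) := by
    intro n
    rw [tsum_eq_sum (s := Bl (n + 1)) (fun k hk => if_neg hk)]
    exact Finset.sum_congr rfl fun k hk => (if_pos hk).symm
  simp_rw [h1, ← tsum_mul_left]
  rw [← Summable.tsum_finsetSum hs]
  unfold YY EE
  rw [← tsum_mul_left, ← ((EE_summable hu 0).mul_left _).tsum_sub (summable_sum hs)]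
  refine tsum_congr fun k => ?_
  rw [wk_eq w m k]
  simp only [mul_zero, pow_zero, one_mul]
  rw [sub_mul, Finset.sum_mul]
  congr 1
  refine Finset.sum_congr rfl fun n _ => ?_
  by_cases hk : lv k ≤ n
  · rw [if_pos hk, if_pos ((lv_le_iff k n).1 hk)]; ring
  · rw [if_neg hk, if_neg (fun h' => hk ((lv_le_iff k n).2 h'))]; ring

theorem len_zero : len (0 : K3) = 0 := by unfold len; simp

/-- the weighted sum of the local dissipations -/
theorem sum_XZ_le (hw : Wg M w) (hu : SPV u) (hM : h ≤ M + 1) (m : ℕ) :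
    ∑ n ∈ Finset.range m, w (n + 1) * (XX (n + 1) M h u + ZZ (n + 1) M h u)
      ≤ (4 ^ M + 2) * YY w m h u := by
  classical
  have hs1 : ∀ n, Summable fun k => (if k ∈ Bl (n + 1) then
      (len k / 2 ^ (n + 1)) ^ (2 * M) * len k ^ (2 * h) * un u k ^ 2 else 0) := fun n =>
    summable_of_ne_finset_zero (s := Bl (n + 1)) fun k hk => if_neg hk
  have hs2 : ∀ n, Summable fun k => if k ∈ Bl (n + 1) then 0 else
      (2 ^ (n + 1) / len k) ^ (2 * M + 2) * len k ^ (2 * h) * un u k ^ 2 := fun n =>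
    ZZ_summable hu hM
  have h1 : ∀ n, XX (n + 1) M h u + ZZ (n + 1) M h u = ∑' k, (if lv k ≤ n then
      (len k / 2 ^ (n + 1)) ^ (2 * M) else (2 ^ (n + 1) / len k) ^ (2 * M + 2))
      * (len k ^ (2 * h) * un u k ^ 2) := by
    intro n
    have e1 : XX (n + 1) M h u = ∑' k, (if k ∈ Bl (n + 1) then
      (len k / 2 ^ (n + 1)) ^ (2 * M) * len k ^ (2 * h) * un u k ^ 2 else 0) := by
      rw [tsum_eq_sum (s := Bl (n + 1)) (fun k hk => if_neg hk)]
      unfold XX
      exact Finset.sum_congr rfl fun k hk => (if_pos hk).symm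
    have e2 : ZZ (n + 1) M h u = ∑' k, if k ∈ Bl (n + 1) then 0 else
      (2 ^ (n + 1) / len k) ^ (2 * M + 2) * len k ^ (2 * h) * un u k ^ 2 := rfl
    rw [e1, e2, ← (hs1 n).tsum_add (hs2 n)]
    refine tsum_congr fun k => ?_
    by_cases hk : lv k ≤ n
    · rw [if_pos hk, if_pos ((lv_le_iff k n).1 hk), if_pos ((lv_le_iff k n).1 hk)]; ring
    · have hk' : k ∉ Bl (n + 1) := fun h' => hk ((lv_le_iff k n).2 h')
      rw [if_neg hk, if_neg hk', if_neg hk']; ring
  have hs3 : ∀ n, Summable fun k => (if lv k ≤ n then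
      (len k / 2 ^ (n + 1)) ^ (2 * M) else (2 ^ (n + 1) / len k) ^ (2 * M + 2))
      * (len k ^ (2 * h) * un u k ^ 2) := by
    intro n
    refine ((hs1 n).add (hs2 n)).congr fun k => ?_
    by_cases hk : lv k ≤ n
    · rw [if_pos hk, if_pos ((lv_le_iff k n).1 hk), if_pos ((lv_le_iff k n).1 hk)]; ring
    · have hk' : k ∉ Bl (n + 1) := fun h' => hk ((lv_le_iff k n).2 h')
      rw [if_neg hk, if_neg hk', if_neg hk']; ring
  simp_rw [h1, ← tsum_mul_left]
  rw [← Summable.tsum_finsetSum fun n _ => (hs3 n).mul_left _]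
  unfold YY
  rw [← tsum_mul_left]
  refine (summable_sum fun n _ => (hs3 n).mul_left _).tsum_le_tsum (fun k => ?_)
    ((YY_summable hw hu m h).mul_left _)
  have e3 : ∑ n ∈ Finset.range m, w (n + 1) * ((if lv k ≤ n then
      (len k / 2 ^ (n + 1)) ^ (2 * M) else (2 ^ (n + 1) / len k) ^ (2 * M + 2))
      * (len k ^ (2 * h) * un u k ^ 2))
      = (∑ n ∈ Finset.range m, w (n + 1) * (if lv k ≤ n then
      (len k / 2 ^ (n + 1)) ^ (2 * M) else (2 ^ (n + 1) / len k) ^ (2 * M + 2)))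
      * (len k ^ (2 * h) * un u k ^ 2) := by
    rw [Finset.sum_mul]
    exact Finset.sum_congr rfl fun n _ => by ring
  have hl := len_nonneg k
  rw [e3, ← mul_assoc (4 ^ M + 2 : ℝ) (w (min (lv k) m)) (len k ^ (2 * h) * un u k ^ 2)]
  by_cases hk : k = 0
  · subst hk
    have hz : ∀ n ∈ Finset.range m, w (n + 1) * (if lv (0 : K3) ≤ n then
        (len (0 : K3) / 2 ^ (n + 1)) ^ (2 * M) else (2 ^ (n + 1) / len (0 : K3)) ^ (2 * M + 2)) = 0 := by
      intro n _
      have h0 : 2 * M ≠ 0 := by have := hw.M0; omega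
      rw [len_zero]
      simp [h0]
    rw [Finset.sum_eq_zero hz, zero_mul]
    have h5 := (hw.pos (min (lv (0 : K3)) m)).le
    exact mul_nonneg (mul_nonneg (by positivity) h5)
      (mul_nonneg (pow_nonneg (len_nonneg _) _) (sq_nonneg _))
  · exact mul_le_mul_of_nonneg_right (geo_le hw hk m) (by positivity)

end Pool.Agent.N977.Q
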