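import Pool.Agent.N977.Q.Th4

/-!
The evolution of the weighted energies.
-/

open MeasureTheory Set Filter Topology
open scoped ContDiff ComplexConjugate

namespace Pool.Agent.N977.Q

open H459R3.NS
open Pool.Agent.N977.K (SolK cmp)

theorem EE_zero {u : V → V} (hu : SPV u) : EE 0 u = ∑ i, ∫ x in cube, u x i ^ 2 := by
  unfold EE
  have h0 : ∀ k, len k ^ (2 * 0) * un u k ^ 2 = ∑ i, ‖fr (fun x => u x i) k‖ ^ 2 := fun k => by
    rw [mul_zero, pow_zero, one_mul, un_sq]
  simp_rw [h0]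
  rw [Summable.tsum_finsetSum fun i _ => summable_sq (rap_fr (spv_sp hu i)).summable]
  refine Finset.sum_congr rfl fun i _ => ?_
  rw [← n2_sq, n2_fr (spv_sp hu i)]

theorem EE_one {u : V → V} (hu : SPV u) :
    (2 * Real.pi) ^ 2 * EE 1 u = ∑ i, ∑ j, ∫ x in cube, pd j (fun y => u y i) x ^ 2 := by
  unfold EE
  have hs : ∀ i j, Summable fun k => ‖fr (pd j (fun y => u y i)) k‖ ^ 2 := fun i j =>
    summable_sq (rap_fr ((spv_sp hu i).pd j)).summable
  have h0 : ∀ k, (2 * Real.pi) ^ 2 * (len k ^ (2 * 1) * un u k ^ 2)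
      = ∑ i, ∑ j, ‖fr (pd j (fun y => u y i)) k‖ ^ 2 := fun k => by
    have h1 : ∀ i j, ‖fr (pd j (fun y => u y i)) k‖ ^ 2
        = (2 * Real.pi) ^ 2 * ((k j : ℝ) ^ 2 * ‖fr (fun y => u y i) k‖ ^ 2) := by
      intro i j
      rw [fr_pd' (spv_sp hu i), norm_mul, norm_mul, norm_mul, norm_mul, Complex.norm_I]
      simp only [Complex.norm_ofNat, Complex.norm_real, Real.norm_eq_abs, Complex.norm_intCast,
        mul_one]
      rw [mul_pow, mul_pow, mul_pow, sq_abs, sq_abs]
      ring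
    simp_rw [h1]
    rw [mul_one, un_sq, len_sq]
    simp only [Fin.sum_univ_three]
    ring
  rw [← tsum_mul_left]
  simp_rw [h0]
  rw [Summable.tsum_finsetSum fun i _ => summable_sum fun j _ => hs i j]
  refine Finset.sum_congr rfl fun i _ => ?_
  rw [Summable.tsum_finsetSum fun j _ => hs i j]
  refine Finset.sum_congr rfl fun j _ => ?_
  rw [← n2_sq, n2_fr ((spv_sp hu i).pd j)]

variable {ν T σ π' δ : ℝ} {u : ℝ → V → V} {q : ℝ → V → ℝ} {K : (V → V) → (V → V) → V → V}

theorem sol_spv (hs : SolK ν T K u q) {t : ℝ} (ht : t ∈ Ico 0 T) : SPV (u t) :=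
  sp_spv fun i => sol_sp hs ht i

theorem EE_deriv (hK : Low σ π' δ K) (hs : SolK ν T K u q) {t : ℝ} (ht : t ∈ Ioo 0 T) :
    HasDerivAt (fun s => EE 0 (u s)) (-(2 * ν * (2 * Real.pi) ^ 2 * EE 1 (u t))) t := by
  have htI := Ioo_subset_Ico_self ht
  have hU : ∀ i, SP (fun y => u t y i) := fun i => sol_sp hs htI i
  have hUs : SPV (u t) := sp_spv hU
  have hKs := hK.smooth _ _ hUs hUs
  have hq := sol_sp_p hs htI
  have hcv : ∀ i, SP (conv (fun i y => u t y i) i) := fun i => sp_conv hU i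
  have hev : (fun s => EE 0 (u s)) =ᶠ[𝓝 t] fun s => ∑ i, ∫ x in cube, u s x i ^ 2 := by
    filter_upwards [Ioo_mem_nhds ht.1 ht.2] with s hs'
    exact EE_zero (sol_spv hs (Ioo_subset_Ico_self hs'))
  set g : Fin 3 → V → ℝ := fun i x => ν * lap (fun y => u t y i) x
      - conv (fun i y => u t y i) i x - pd i (q t) x + K (u t) (u t) x i with hgdef
  have h1 : ∀ i, HasDerivAt (fun s => ∫ x in cube, u s x i ^ 2)
      (∫ x in cube, 2 * (u t x i * g i x)) t := by
    intro i
    have key := hasDerivAt_int (F := fun s x => u s x i ^ 2)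
      ((mono_Ioo (f := fun s x => u s x i) (smooth_c hs i) (by norm_cast)).pow 2) ht
    refine key.congr_deriv ?_
    congr 1
    funext x
    have h2 := (sol_hasDerivAt hs ht i x).pow 2
    have h3 : HasDerivAt (fun s => u s x i ^ 2) _ t := h2
    rw [h3.deriv]
    simp only [hgdef]
    push_cast
    ring
  refine ((HasDerivAt.fun_sum fun i (_ : i ∈ Finset.univ) => h1 i).congr_of_eventuallyEq
    hev).congr_deriv ?_
  have h4 : ∀ i, ∫ x in cube, 2 * (u t x i * g i x)
      = 2 * (ν * (∫ x in cube, lap (fun y => u t y i) x * u t x i)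
        - (∫ x in cube, u t x i * conv (fun i y => u t y i) i x)
        - (∫ x in cube, u t x i * pd i (q t) x) + ∫ x in cube, K (u t) (u t) x i * u t x i) := by
    intro i
    have i1 : IntegrableOn (fun x => lap (fun y => u t y i) x * u t x i) cube :=
      ((hU i).lap.mul (hU i)).int
    have i2 : IntegrableOn (fun x => u t x i * conv (fun i y => u t y i) i x) cube :=
      ((hU i).mul (hcv i)).int
    have i3 : IntegrableOn (fun x => u t x i * pd i (q t) x) cube := ((hU i).mul (hq.pd i)).int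
    have i4 : IntegrableOn (fun x => K (u t) (u t) x i * u t x i) cube :=
      ((spv_sp hKs i).mul (hU i)).int
    rw [integral_const_mul]
    congr 1
    have e1 : (fun x => u t x i * g i x) = fun x => ν * (lap (fun y => u t y i) x * u t x i)
        - u t x i * conv (fun i y => u t y i) i x - u t x i * pd i (q t) x
        + K (u t) (u t) x i * u t x i := by
      funext x
      simp only [hgdef]
      ring
    rw [e1, integral_add (isub (isub (i1.const_mul ν) i2) i3) i4,
      integral_sub (isub (i1.const_mul ν) i2) i3, integral_sub (i1.const_mul ν) i2,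
      integral_const_mul]
  simp_rw [h4]
  rw [← Finset.mul_sum, Finset.sum_add_distrib, Finset.sum_sub_distrib, Finset.sum_sub_distrib,
    int_conv hU (hs.divfree t htI), int_press hU (hs.divfree t htI) hq, hK.energy _ _ hUs hUs,
    ← Finset.mul_sum]
  have h5 : ∑ i, ∫ x in cube, lap (fun y => u t y i) x * u t x i
      = -((2 * Real.pi) ^ 2 * EE 1 (u t)) := by
    rw [EE_one hUs, ← Finset.sum_neg_distrib]
    refine Finset.sum_congr rfl fun i _ => ?_
    rw [int_lap_mul (hU i) (hU i)]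
    congr 1
    refine Finset.sum_congr rfl fun j _ => ?_
    congr 1
    funext x
    rw [sq]
  rw [h5]
  ring

theorem EE_continuousOn (hs : SolK ν T K u q) : ContinuousOn (fun s => EE 0 (u s)) (Ico 0 T) := by
  have h1 : ContinuousOn (fun s => ∑ i, ∫ x in cube, u s x i ^ 2) (Ico 0 T) :=
    continuousOn_finsetSum _ fun i _ =>
      continuousOn_int (F := fun s x => u s x i ^ 2) ((smooth_c hs i).continuousOn.pow 2)
  exact h1.congr fun s hs' => EE_zero (sol_spv hs hs')

theorem EE_nonneg (h : ℕ) (u : V → V) : 0 ≤ EE h u := tsum_nonneg fun k =>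
  mul_nonneg (pow_nonneg (len_nonneg k) _) (sq_nonneg _)

/-- the energy decreases -/
theorem EE_le (hν : 0 ≤ ν) (hK : Low σ π' δ K) (hs : SolK ν T K u q) {t : ℝ} (ht : t ∈ Ico 0 T) :
    EE 0 (u t) ≤ EE 0 (u 0) := by
  have h := cmp (f := fun s => EE 0 (u s)) (f' := fun s => -(2 * ν * (2 * Real.pi) ^ 2 * EE 1 (u s)))
    (g := fun _ => 0) (g' := fun _ => 0) ht.1
    ((EE_continuousOn hs).mono fun s hs' => ⟨hs'.1, hs'.2.trans_lt ht.2⟩) continuousOn_const
    (fun s hs' => EE_deriv hK hs ⟨hs'.1, hs'.2.trans ht.2⟩) (fun s _ => hasDerivAt_const _ _)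
    (fun s _ => by
      have := EE_nonneg 1 (u s)
      have : 0 ≤ 2 * ν * (2 * Real.pi) ^ 2 * EE 1 (u s) := by positivity
      linarith)
  simp only [sub_self] at h
  linarith

theorem YY_one_eq {M : ℕ} {w : ℕ → ℝ} (hw : Wg M w) {u : V → V} (hu : SPV u) (m : ℕ) :
    YY w m 1 u = w m * EE 1 u
      - ∑ n ∈ Finset.range m, (w (n + 1) - w n) * ∑ k ∈ Bl (n + 1), len k ^ 2 * un u k ^ 2 := by
  classical
  have hs : ∀ n ∈ Finset.range m, Summable fun k => (w (n + 1) - w n) *
      (if k ∈ Bl (n + 1) then len k ^ 2 * un u k ^ 2 else 0) := fun n _ =>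
    (summable_of_ne_finset_zero (s := Bl (n + 1)) fun k hk => if_neg hk).mul_left _
  have h1 : ∀ n, ∑ k ∈ Bl (n + 1), len k ^ 2 * un u k ^ 2
      = ∑' k, (if k ∈ Bl (n + 1) then len k ^ 2 * un u k ^ 2 else 0) := by
    intro n
    rw [tsum_eq_sum (s := Bl (n + 1)) (fun k hk => if_neg hk)]
    exact Finset.sum_congr rfl fun k hk => (if_pos hk).symm
  simp_rw [h1, ← tsum_mul_left]
  rw [← Summable.tsum_finsetSum hs]
  unfold YY EE
  rw [← tsum_mul_left, ← ((EE_summable hu 1).mul_left _).tsum_sub (summable_sum hs)]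
  refine tsum_congr fun k => ?_
  rw [wk_eq w m k]
  rw [mul_one, sub_mul, Finset.sum_mul]
  congr 1
  refine Finset.sum_congr rfl fun n _ => ?_
  by_cases hk : lv k ≤ n
  · rw [if_pos hk, if_pos ((lv_le_iff k n).1 hk)]; ring
  · rw [if_neg hk, if_neg (fun h' => hk ((lv_le_iff k n).2 h'))]; ring

theorem YY_deriv {M : ℕ} {w : ℕ → ℝ} (hw : Wg M w) (hK : Low σ π' δ K) (hs : SolK ν T K u q)
    (hg : ∀ t ∈ Ioo 0 T, ∃ P : V → ℝ, SP P ∧ ∀ i x, conv (fun i y => u t y i) i x = pd i P x)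
    {t : ℝ} (ht : t ∈ Ioo 0 T) (m : ℕ) :
    HasDerivAt (fun s => YY w m 0 (u s)) (-(2 * ν * (2 * Real.pi) ^ 2 * YY w m 1 (u t))
      - 2 * ∑ n ∈ Finset.range m, (w (n + 1) - w n) * ∑ k ∈ Bl (n + 1), tk K (u t) k) t := by
  have htI := Ioo_subset_Ico_self ht
  have hev : (fun s => YY w m 0 (u s)) =ᶠ[𝓝 t] fun s => w m * EE 0 (u s)
      - ∑ n ∈ Finset.range m, (w (n + 1) - w n) * ∑ k ∈ Bl (n + 1), un (u s) k ^ 2 := by
    filter_upwards [Ioo_mem_nhds ht.1 ht.2] with s hs'
    exact YY_eq hw (sol_spv hs (Ioo_subset_Ico_self hs')) m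
  have h1 := (EE_deriv hK hs ht).const_mul (w m)
  have h2 : HasDerivAt (fun s => ∑ n ∈ Finset.range m, (w (n + 1) - w n)
      * ∑ k ∈ Bl (n + 1), un (u s) k ^ 2) _ t :=
    HasDerivAt.fun_sum fun n _ => (HasDerivAt.fun_sum fun k (_ : k ∈ Bl (n + 1)) =>
      un_deriv hK hs hg ht k).const_mul (w (n + 1) - w n)
  refine ((h1.sub h2).congr_of_eventuallyEq hev).congr_deriv ?_
  rw [YY_one_eq hw (sol_spv hs htI) m]
  simp_rw [Finset.sum_add_distrib, ← Finset.mul_sum, Finset.sum_neg_distrib, ← Finset.mul_sum]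
  rw [mul_sub, Finset.mul_sum, Finset.mul_sum]
  have e1 : ∑ n ∈ Finset.range m, (w (n + 1) - w n)
      * (-(2 * ν * (2 * Real.pi) ^ 2 * ∑ k ∈ Bl (n + 1), len k ^ 2 * un (u t) k ^ 2)
        + 2 * ∑ k ∈ Bl (n + 1), tk K (u t) k)
      = -(∑ n ∈ Finset.range m, 2 * ν * (2 * Real.pi) ^ 2
        * ((w (n + 1) - w n) * ∑ k ∈ Bl (n + 1), len k ^ 2 * un (u t) k ^ 2))
        + ∑ n ∈ Finset.range m, 2 * ((w (n + 1) - w n) * ∑ k ∈ Bl (n + 1), tk K (u t) k) := by
    rw [← Finset.sum_neg_distrib, ← Finset.sum_add_distrib]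
    exact Finset.sum_congr rfl fun n _ => by ring
  rw [e1]
  ring

theorem YY_continuousOn {M : ℕ} {w : ℕ → ℝ} (hw : Wg M w) (hs : SolK ν T K u q) (m : ℕ) :
    ContinuousOn (fun s => YY w m 0 (u s)) (Ico 0 T) := by
  have h1 : ContinuousOn (fun s => w m * EE 0 (u s)
      - ∑ n ∈ Finset.range m, (w (n + 1) - w n) * ∑ k ∈ Bl (n + 1), un (u s) k ^ 2) (Ico 0 T) := by
    refine (continuousOn_const.mul (EE_continuousOn hs)).sub
      (continuousOn_finsetSum _ fun n _ => continuousOn_const.mul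
        (continuousOn_finsetSum _ fun k _ => ?_))
    simp_rw [un_sq]
    exact continuousOn_finsetSum _ fun i _ => fr_continuousOn (f := fun s x => u s x i)
      (smooth_c hs i) k
  exact h1.congr fun s hs' => YY_eq hw (sol_spv hs hs') m

/-- the initial weighted energy is bounded uniformly in the truncation -/
theorem YY_init {M : ℕ} {w : ℕ → ℝ} (hw : Wg M w) {u : V → V} (hu : SPV u) (m : ℕ) :
    YY w m 0 u ≤ w 0 * (EE M u + EE 0 u) := by
  unfold YY
  have hE : EE M u + EE 0 u = ∑' k, (len k ^ (2 * M) * un u k ^ 2 + len k ^ (2 * 0) * un u k ^ 2) :=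
    ((EE_summable hu M).tsum_add (EE_summable hu 0)).symm
  rw [hE, ← tsum_mul_left]
  refine (YY_summable hw hu m 0).tsum_le_tsum (fun k => ?_)
    (((EE_summable hu M).add (EE_summable hu 0)).mul_left _)
  have hl := len_nonneg k
  have h0 := hw.pos 0
  have h1 : w (min (lv k) m) ≤ w (lv k) := hw.monotone (min_le_left _ _)
  have h2 : w (lv k) ≤ w 0 * (len k ^ (2 * M) + 1) := by
    by_cases hk : k = 0
    · subst hk
      have e : lv (0 : K3) = 0 := by unfold lv; rw [len_zero]; simp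
      rw [e]
      have : 0 ≤ len (0 : K3) ^ (2 * M) := pow_nonneg (len_nonneg _) _
      nlinarith
    · have h3 := w_ratio hw 0 (lv k)
      rw [zero_add] at h3
      have h4 : (4 ^ M : ℝ) ^ lv k ≤ len k ^ (2 * M) := by
        calc (4 ^ M : ℝ) ^ lv k = (2 ^ lv k) ^ (2 * M) := by
              have : (4 : ℝ) = 2 ^ 2 := by norm_num
              rw [this, ← pow_mul, ← pow_mul, ← pow_mul]
              congr 1
              ring
          _ ≤ _ := pow_le_pow_left₀ (by positivity) (pow_lv_le hk) _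
      have h5 : (1 : ℝ) ≤ 2 ^ lv k := one_le_pow₀ (by norm_num)
      have h6 := (hw.pos (lv k)).le
      calc w (lv k) ≤ 2 ^ lv k * w (lv k) := by nlinarith
        _ ≤ (4 ^ M) ^ lv k * w 0 := h3
        _ ≤ len k ^ (2 * M) * w 0 := mul_le_mul_of_nonneg_right h4 h0.le
        _ ≤ _ := by nlinarith
  simp only [mul_zero, pow_zero, one_mul]
  calc w (min (lv k) m) * un u k ^ 2 ≤ w 0 * (len k ^ (2 * M) + 1) * un u k ^ 2 :=
        mul_le_mul_of_nonneg_right (h1.trans h2) (sq_nonneg _)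
    _ = _ := by ring

end Pool.Agent.N977.Q
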