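import Pool.Agent.N977.Q.Th5

/-!
Uniform bounds of the weighted energies.
-/

open MeasureTheory Set Filter Topology
open scoped ContDiff ComplexConjugate

namespace Pool.Agent.N977.Q

open H459R3.NS
open Pool.Agent.N977.K (SolK cmp)

variable {ν T p δ : ℝ} {u : ℝ → V → V} {q : ℝ → V → ℝ} {K : (V → V) → (V → V) → V → V}
variable {M : ℕ} {w : ℕ → ℝ}

theorem sqrt_mul_sqrt_le {x y : ℝ} (hx : 0 ≤ x) (hy : 0 ≤ y) : √x * √y ≤ (x + y) / 2 := by
  nlinarith [sq_nonneg (√x - √y), Real.sq_sqrt hx, Real.sq_sqrt hy]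

/-- Propagation of the weighted energies. -/
theorem prop_w (hw : Wg M w) (hK : Low 2 p δ K) (hp0 : 0 ≤ p) (hδ : 0 ≤ δ) (hν : 0 ≤ ν)
    (hT : 0 < T) (hs : SolK ν T K u q)
    (hg : ∀ t ∈ Ioo 0 T, ∃ P : V → ℝ, SP P ∧ ∀ i x, conv (fun i y => u t y i) i x = pd i P x)
    {Γ : ℕ → ℝ} (hΓ : ∀ t ∈ Ioo 0 T, ∀ n, √(XX n 1 0 (u t)) + √(ZZ n 0 0 (u t)) ≤ Γ n) {n₀ : ℕ}
    (hn₀ : ∀ n ≥ n₀, (w (n + 1) - w n) * (δ * 5 ^ (2 * M + 6) * LL (n + 1) ^ p * Γ (n + 1))
      * (4 ^ M + 2) ≤ 2 * ν * (2 * Real.pi) ^ 2 * w (n + 1)) :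
    ∃ B, 0 ≤ B ∧ ∀ t ∈ Ico 0 T, ∀ m, YY w m 0 (u t) ≤ B := by
  have hΓ0 : ∀ n, 0 ≤ Γ n := fun n => by
    have h1 : T / 2 ∈ Ioo 0 T := ⟨by linarith, by linarith⟩
    exact le_trans (by positivity) (hΓ _ h1 n)
  have hc0 : ∀ n, 0 ≤ w (n + 1) - w n := fun n => sub_nonneg.2 (hw.mono n)
  have hL0 : ∀ n, 0 ≤ LL n ^ p := fun n => Real.rpow_nonneg (by linarith [one_le_LL n]) _
  set E₀ := EE 0 (u 0) with hE₀
  have hE0 : 0 ≤ E₀ := EE_nonneg 0 _
  set A : ℕ → ℝ := fun n => (w (n + 1) - w n) * (δ * 5 ^ (2 * M + 6) * LL (n + 1) ^ p * Γ (n + 1))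
    * (2 * (4 ^ (n + 1) * E₀)) with hA
  have hA0 : ∀ n, 0 ≤ A n := fun n => by
    have := hΓ0 (n + 1)
    have := hc0 n
    have := hL0 (n + 1)
    positivity
  set κ := 2 * ν * (2 * Real.pi) ^ 2 / (4 ^ M + 2) with hκ
  have h4 : (0 : ℝ) < 4 ^ M + 2 := by positivity
  have hκ0 : 0 ≤ κ := by positivity
  have hKh : Low (2 * ((1 : ℕ) : ℝ)) p δ K := by
    rw [Nat.cast_one, mul_one]; exact hK
  have key : ∀ t ∈ Ioo 0 T, ∀ m, -(2 * ν * (2 * Real.pi) ^ 2 * YY w m 1 (u t))
      - 2 * ∑ n ∈ Finset.range m, (w (n + 1) - w n) * ∑ k ∈ Bl (n + 1), tk K (u t) k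
      ≤ ∑ n ∈ Finset.range n₀, A n := by
    intro t ht m
    have htI := Ioo_subset_Ico_self ht
    have hu : SPV (u t) := sol_spv hs htI
    have h1 : ∀ n, -(2 * ((w (n + 1) - w n) * ∑ k ∈ Bl (n + 1), tk K (u t) k))
        ≤ κ * (w (n + 1) * (XX (n + 1) M 1 (u t) + ZZ (n + 1) M 1 (u t)))
          + (if n < n₀ then A n else 0) := by
      intro n
      have f1 := flux_le (n := n + 1) (M := M) (h := 1) hKh hp0 hδ hu (by omega)
      have hX0 : 0 ≤ XX (n + 1) M 1 (u t) := XX_nonneg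
      have hZ0 : 0 ≤ ZZ (n + 1) M 1 (u t) := ZZ_nonneg
      set X := XX (n + 1) M 1 (u t) with hX
      set Z := ZZ (n + 1) M 1 (u t) with hZ
      have e6 : 2 * M + 2 * 1 + 4 = 2 * M + 6 := by ring
      rw [e6] at f1
      have f2 : |∑ k ∈ Bl (n + 1), tk K (u t) k|
          ≤ δ * 5 ^ (2 * M + 6) * LL (n + 1) ^ p * Γ (n + 1) * ((X + Z) / 2) := by
        refine f1.trans ?_
        have := hL0 (n + 1)
        refine mul_le_mul (mul_le_mul_of_nonneg_left (hΓ t ht (n + 1)) (by positivity))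
          (sqrt_mul_sqrt_le hX0 hZ0) (by positivity) ?_
        have := hΓ0 (n + 1)
        positivity
      have f3 : -(2 * ((w (n + 1) - w n) * ∑ k ∈ Bl (n + 1), tk K (u t) k))
          ≤ (w (n + 1) - w n) * (δ * 5 ^ (2 * M + 6) * LL (n + 1) ^ p * Γ (n + 1)) * (X + Z) := by
        have f4 := neg_abs_le (∑ k ∈ Bl (n + 1), tk K (u t) k)
        have f5 := mul_le_mul_of_nonneg_left f2 (hc0 n)
        have f6 := mul_le_mul_of_nonneg_left f4 (hc0 n)
        linarith
      refine f3.trans ?_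
      have hXZ : 0 ≤ X + Z := by linarith
      by_cases hn : n < n₀
      · rw [if_pos hn]
        have g1 : X ≤ 4 ^ (n + 1) * E₀ := by
          have := XX_le (n := n + 1) (M := M) (h := 1) hu
          rw [mul_one] at this
          exact this.trans (mul_le_mul_of_nonneg_left (EE_le hν hK hs htI) (by positivity))
        have g2 : Z ≤ 4 ^ (n + 1) * E₀ := by
          have := ZZ_le (n := n + 1) (M := M) (h := 1) hu (by omega)
          rw [mul_one] at this
          exact this.trans (mul_le_mul_of_nonneg_left (EE_le hν hK hs htI) (by positivity))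
        have g3 : (w (n + 1) - w n) * (δ * 5 ^ (2 * M + 6) * LL (n + 1) ^ p * Γ (n + 1)) * (X + Z)
            ≤ A n := by
          simp only [hA]
          refine mul_le_mul_of_nonneg_left (by linarith) ?_
          have := hΓ0 (n + 1)
          have := hc0 n
          have := hL0 (n + 1)
          positivity
        have g4 : 0 ≤ κ * (w (n + 1) * (X + Z)) :=
          mul_nonneg hκ0 (mul_nonneg (hw.pos _).le hXZ)
        linarith
      · rw [if_neg hn, add_zero]
        have g1 := hn₀ n (not_lt.1 hn)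
        have g2 : (w (n + 1) - w n) * (δ * 5 ^ (2 * M + 6) * LL (n + 1) ^ p * Γ (n + 1))
            ≤ κ * w (n + 1) := by
          rw [hκ, div_mul_eq_mul_div, le_div_iff₀ h4]
          exact g1
        calc _ ≤ κ * w (n + 1) * (X + Z) := mul_le_mul_of_nonneg_right g2 hXZ
          _ = _ := by ring
    have h2 : -(2 * ∑ n ∈ Finset.range m, (w (n + 1) - w n) * ∑ k ∈ Bl (n + 1), tk K (u t) k)
        ≤ κ * ((4 ^ M + 2) * YY w m 1 (u t)) + ∑ n ∈ Finset.range n₀, A n := by
      calc -(2 * ∑ n ∈ Finset.range m, (w (n + 1) - w n) * ∑ k ∈ Bl (n + 1), tk K (u t) k)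
          = ∑ n ∈ Finset.range m,
            -(2 * ((w (n + 1) - w n) * ∑ k ∈ Bl (n + 1), tk K (u t) k)) := by
            rw [Finset.sum_neg_distrib, ← Finset.mul_sum]
        _ ≤ ∑ n ∈ Finset.range m, (κ * (w (n + 1) * (XX (n + 1) M 1 (u t) + ZZ (n + 1) M 1 (u t)))
          + (if n < n₀ then A n else 0)) := Finset.sum_le_sum fun n _ => h1 n
        _ = κ * ∑ n ∈ Finset.range m, w (n + 1) * (XX (n + 1) M 1 (u t) + ZZ (n + 1) M 1 (u t))
          + ∑ n ∈ Finset.range m, (if n < n₀ then A n else 0) := by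
            rw [Finset.sum_add_distrib, ← Finset.mul_sum]
        _ ≤ _ := by
            refine add_le_add (mul_le_mul_of_nonneg_left (sum_XZ_le hw hu (by omega) m) hκ0) ?_
            rw [← Finset.sum_filter]
            refine Finset.sum_le_sum_of_subset_of_nonneg (fun n hn => ?_) fun n _ _ => hA0 n
            rw [Finset.mem_filter] at hn
            exact Finset.mem_range.2 hn.2
    have h3 : κ * ((4 ^ M + 2) * YY w m 1 (u t)) = 2 * ν * (2 * Real.pi) ^ 2 * YY w m 1 (u t) := by
      rw [hκ]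
      field_simp
    rw [h3] at h2
    linarith
  set A' := ∑ n ∈ Finset.range n₀, A n with hA'
  have hA'0 : 0 ≤ A' := Finset.sum_nonneg fun n _ => hA0 n
  have h00 : (0 : ℝ) ∈ Ico 0 T := ⟨le_rfl, hT⟩
  refine ⟨w 0 * (EE M (u 0) + EE 0 (u 0)) + A' * T, ?_, fun t ht m => ?_⟩
  · have := (hw.pos 0).le
    have := EE_nonneg M (u 0)
    have := EE_nonneg 0 (u 0)
    positivity
  · have h := cmp (f := fun s => YY w m 0 (u s))
      (f' := fun s => -(2 * ν * (2 * Real.pi) ^ 2 * YY w m 1 (u s))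
        - 2 * ∑ n ∈ Finset.range m, (w (n + 1) - w n) * ∑ k ∈ Bl (n + 1), tk K (u s) k)
      (g := fun s => A' * s) (g' := fun _ => A') ht.1
      ((YY_continuousOn hw hs m).mono fun s hs' => ⟨hs'.1, hs'.2.trans_lt ht.2⟩) (by fun_prop)
      (fun s hs' => YY_deriv hw hK hs hg ⟨hs'.1, hs'.2.trans ht.2⟩ m)
      (fun s _ => by simpa using (hasDerivAt_id s).const_mul A')
      (fun s hs' => key s ⟨hs'.1, hs'.2.trans ht.2⟩ m)
    simp only [mul_zero, sub_zero] at h
    have h1 := YY_init hw (sol_spv hs h00) m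
    have h2 : A' * t ≤ A' * T := mul_le_mul_of_nonneg_left ht.2.le hA'0
    linarith

/-- the weighted energy controls the local quantity -/
theorem gam_le (hw : Wg M w) (h4 : ∀ n, w (n + 1) ≤ 4 * w n) {v : V → V} (hv : SPV v) {B : ℝ}
    (n : ℕ) (hB : YY w n 0 v ≤ B) : √(XX n 1 0 v) + √(ZZ n 0 0 v) ≤ 3 * √(B / w n) := by
  classical
  have hwn := hw.pos n
  have hZ : ZZ n 0 0 v ≤ B / w n := by
    rw [le_div_iff₀ hwn]
    refine le_trans ?_ hB
    unfold ZZ YY
    rw [← tsum_mul_right]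
    refine ((ZZ_summable hv (by norm_num)).mul_right _).tsum_le_tsum (fun k => ?_)
      (YY_summable hw hv n 0)
    have h5 := hw.pos (min (lv k) n)
    split_ifs with hk
    · rw [zero_mul]
      have := len_nonneg k
      positivity
    · have e1 : n ≤ lv k := by
        by_contra hcon
        push Not at hcon
        apply hk
        obtain ⟨j, rfl⟩ : ∃ j, n = j + 1 := ⟨n - 1, by omega⟩
        exact (lv_le_iff k j).1 (by omega)
      rw [min_eq_right e1]
      have hk' := hk
      rw [mem_Bl, not_lt] at hk'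
      have h2n : (0 : ℝ) < 2 ^ n := by positivity
      have hl : 0 < len k := by linarith
      have h6 : (2 ^ n / len k) ^ (2 * 0 + 2) ≤ 1 :=
        pow_le_one₀ (by positivity) (by rw [div_le_one hl]; exact hk')
      simp only [mul_zero, pow_zero, mul_one, one_mul]
      have h7 : (2 ^ n / len k) ^ (0 + 2) * un v k ^ 2 ≤ 1 * un v k ^ 2 :=
        mul_le_mul_of_nonneg_right h6 (sq_nonneg _)
      calc (2 ^ n / len k) ^ (0 + 2) * un v k ^ 2 * w n ≤ 1 * un v k ^ 2 * w n :=
            mul_le_mul_of_nonneg_right h7 hwn.le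
        _ = w n * un v k ^ 2 := by ring
  have hX : XX n 1 0 v ≤ 4 * (B / w n) := by
    rw [mul_div_assoc', le_div_iff₀ hwn]
    have hY : XX n 1 0 v * w n ≤ 4 * YY w n 0 v := by
      unfold XX YY
      rw [← tsum_mul_left, Finset.sum_mul]
      refine le_trans (Finset.sum_le_sum fun k hk => ?_)
        (((YY_summable hw hv n 0).mul_left 4).sum_le_tsum (Bl n) fun k _ => ?_)
      · have h5 := hw.pos (min (lv k) n)
        by_cases hk0 : k = 0
        · subst hk0
          rw [len_zero]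
          simp only [zero_div, mul_one, ne_eq, OfNat.ofNat_ne_zero, not_false_eq_true, zero_pow,
            mul_zero, pow_zero, zero_mul, one_mul]
          positivity
        · have hn : lv k < n := by
            cases n with
            | zero =>
              rw [mem_Bl, pow_zero] at hk
              exact absurd (one_le_len hk0) (not_le.2 hk)
            | succ n => exact Nat.lt_succ_of_le ((lv_le_iff k n).2 hk)
          rw [min_eq_left hn.le]
          obtain ⟨j, rfl⟩ : ∃ j, n = lv k + j := ⟨n - lv k, by omega⟩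
          have h6 : w (lv k + j) ≤ 4 ^ j * w (lv k) := by
            clear hn hk hZ hB hwn h5
            induction j with
            | zero => simp
            | succ j ih =>
              calc w (lv k + (j + 1)) ≤ 4 * w (lv k + j) := h4 _
                _ ≤ 4 * (4 ^ j * w (lv k)) := by linarith
                _ = _ := by rw [pow_succ]; ring
          have h7 := (lt_pow_lv k).le
          have hl := len_nonneg k
          have h8 : (len k / 2 ^ (lv k + j)) ^ (2 * 1) ≤ 4 / 4 ^ j := by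
            have h9 : len k / 2 ^ (lv k + j) ≤ 2 / 2 ^ j := by
              rw [div_le_div_iff₀ (by positivity) (by positivity)]
              calc len k * 2 ^ j ≤ 2 ^ (lv k + 1) * 2 ^ j :=
                    mul_le_mul_of_nonneg_right h7 (by positivity)
                _ = 2 * 2 ^ (lv k + j) := by rw [pow_succ, pow_add]; ring
            calc (len k / 2 ^ (lv k + j)) ^ (2 * 1) ≤ (2 / 2 ^ j) ^ (2 * 1) :=
                  pow_le_pow_left₀ (by positivity) h9 _
              _ = 4 / 4 ^ j := by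
                  rw [mul_one, div_pow, ← pow_mul, mul_comm j 2, pow_mul]
                  norm_num
          simp only [mul_zero, pow_zero, mul_one, one_mul] at h8 ⊢
          have hwl := (hw.pos (lv k)).le
          calc (len k / 2 ^ (lv k + j)) ^ 2 * un v k ^ 2 * w (lv k + j)
              ≤ (4 / 4 ^ j) * un v k ^ 2 * (4 ^ j * w (lv k)) :=
                mul_le_mul (mul_le_mul_of_nonneg_right h8 (sq_nonneg _)) h6 (hw.pos _).le
                  (by positivity)
            _ = 4 * (w (lv k) * un v k ^ 2) := by field_simp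
      · have := hw.pos (min (lv k) n)
        have := len_nonneg k
        positivity
    linarith
  have hB0 : 0 ≤ B / w n := ZZ_nonneg.trans hZ
  have s1 : √(XX n 1 0 v) ≤ 2 * √(B / w n) := by
    calc √(XX n 1 0 v) ≤ √(4 * (B / w n)) := Real.sqrt_le_sqrt hX
      _ = 2 * √(B / w n) := by
        rw [Real.sqrt_mul (by norm_num), show (4 : ℝ) = 2 ^ 2 by norm_num,
          Real.sqrt_sq (by norm_num)]
  have s2 : √(ZZ n 0 0 v) ≤ √(B / w n) := Real.sqrt_le_sqrt hZ
  linarith

theorem LL_le (n : ℕ) : LL n ≤ n + 2 := by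
  unfold LL
  have h1 : (2 : ℝ) + 2 ^ n ≤ 2 ^ (n + 2) := by
    rw [pow_add]
    have := one_le_pow₀ (M₀ := ℝ) (a := 2) (by norm_num) (n := n)
    linarith
  calc Real.log (2 + 2 ^ n) ≤ Real.log (2 ^ (n + 2)) :=
        Real.log_le_log (by positivity) h1
    _ = (n + 2) * Real.log 2 := by rw [Real.log_pow]; push_cast; ring
    _ ≤ (n + 2) * 1 := by
        apply mul_le_mul_of_nonneg_left _ (by positivity)
        have := Real.log_two_lt_d9
        linarith
    _ = _ := mul_one _

theorem LL_rpow_le (hp1 : p ≤ 1) (n : ℕ) : LL n ^ p ≤ n + 2 := by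
  have h1 : LL n ^ p ≤ LL n ^ (1 : ℝ) := Real.rpow_le_rpow_of_exponent_le (one_le_LL n) hp1
  rw [Real.rpow_one] at h1
  exact h1.trans (LL_le n)

end Pool.Agent.N977.Q
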