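import Pool.Agent.N977.Q.Th6

/-!
Up to the power one of the logarithm there is no blow-up (Navier-Stokes case).
-/

open MeasureTheory Set Filter Topology
open scoped ContDiff ComplexConjugate

namespace Pool.Agent.N977.Q

open H459R3.NS
open Pool.Agent.N977.K (SolK cmp)

variable {ν T p δ : ℝ} {u : ℝ → V → V} {q : ℝ → V → ℝ} {K : (V → V) → (V → V) → V → V}
variable {M : ℕ} {w : ℕ → ℝ}

theorem rat1 {η : ℝ} (hη : 0 < η) (hη1 : η ≤ 1) (n : ℕ) :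
    ((n + 1 : ℕ) + 2 : ℝ) ^ η ≤ 2 * ((n : ℝ) + 2) ^ η := by
  have h1 : ((n + 1 : ℕ) + 2 : ℝ) ≤ 2 * ((n : ℝ) + 2) := by push_cast; linarith
  calc ((n + 1 : ℕ) + 2 : ℝ) ^ η ≤ (2 * ((n : ℝ) + 2)) ^ η :=
        Real.rpow_le_rpow (by positivity) h1 hη.le
    _ = 2 ^ η * ((n : ℝ) + 2) ^ η := Real.mul_rpow (by norm_num) (by positivity)
    _ ≤ 2 ^ (1 : ℝ) * ((n : ℝ) + 2) ^ η := by
        apply mul_le_mul_of_nonneg_right _ (by positivity)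
        exact Real.rpow_le_rpow_of_exponent_le (by norm_num) hη1
    _ = _ := by rw [Real.rpow_one]

theorem wg1 {η : ℝ} (hη : 0 < η) (hη1 : η ≤ 1) : Wg 1 (fun n : ℕ => ((n : ℝ) + 2) ^ η) where
  M0 := one_pos
  pos n := by positivity
  mono n := Real.rpow_le_rpow (by positivity) (by push_cast; linarith) hη.le
  ratio n := by
    have := rat1 hη hη1 n
    linarith

theorem wg2 : Wg 2 (fun n : ℕ => ((n : ℝ) + 2) ^ 3) where
  M0 := two_pos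
  pos n := by positivity
  mono n := pow_le_pow_left₀ (by positivity) (by push_cast; linarith) 3
  ratio n := by
    have h1 : ((n + 1 : ℕ) + 2 : ℝ) ^ 3 ≤ (2 * ((n : ℝ) + 2)) ^ 3 :=
      pow_le_pow_left₀ (by positivity) (by push_cast; linarith) 3
    rw [mul_pow] at h1
    linarith

theorem wg3 (s : ℕ) : Wg (s + 1) (fun n : ℕ => ((4 : ℝ) ^ s) ^ n) where
  M0 := Nat.succ_pos s
  pos n := by positivity
  mono n := pow_le_pow_right₀ (one_le_pow₀ (by norm_num)) (Nat.le_succ n)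
  ratio n := by
    have : (0 : ℝ) < (4 ^ s) ^ (n + 1) := by positivity
    rw [pow_succ 4 s, mul_right_comm, ← pow_succ' ((4 : ℝ) ^ s) n]
    linarith

theorem diff1 {η : ℝ} (hη : 0 < η) (hη1 : η ≤ 1) (n : ℕ) :
    ((n + 1 : ℕ) + 2 : ℝ) ^ η - ((n : ℝ) + 2) ^ η
      ≤ η * ((n + 1 : ℕ) + 2 : ℝ) ^ η / ((n : ℝ) + 2) := by
  have ha : (0 : ℝ) < (n : ℝ) + 2 := by positivity
  have h1 := _root_.rpow_one_add_le_one_add_mul_self (s := 1 / ((n : ℝ) + 2))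
    (by have : (0 : ℝ) ≤ 1 / ((n : ℝ) + 2) := by positivity
        linarith) hη.le hη1
  have h2 : ((n + 1 : ℕ) + 2 : ℝ) ^ η = ((n : ℝ) + 2) ^ η * (1 + 1 / ((n : ℝ) + 2)) ^ η := by
    rw [← Real.mul_rpow ha.le (by positivity)]
    congr 1
    push_cast
    field_simp
    ring
  have h3 : ((n : ℝ) + 2) ^ η ≤ ((n + 1 : ℕ) + 2 : ℝ) ^ η :=
    Real.rpow_le_rpow (by positivity) (by push_cast; linarith) hη.le
  have h4 : (0 : ℝ) < ((n : ℝ) + 2) ^ η := by positivity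
  calc ((n + 1 : ℕ) + 2 : ℝ) ^ η - ((n : ℝ) + 2) ^ η
      = ((n : ℝ) + 2) ^ η * ((1 + 1 / ((n : ℝ) + 2)) ^ η - 1) := by rw [h2]; ring
    _ ≤ ((n : ℝ) + 2) ^ η * (η * (1 / ((n : ℝ) + 2))) :=
        mul_le_mul_of_nonneg_left (by linarith) h4.le
    _ ≤ ((n + 1 : ℕ) + 2 : ℝ) ^ η * (η * (1 / ((n : ℝ) + 2))) :=
        mul_le_mul_of_nonneg_right h3 (by positivity)
    _ = _ := by ring

theorem tend_sqrt {f : ℕ → ℝ} (hf : Tendsto f atTop atTop) (B C : ℝ) :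
    Tendsto (fun n => C * √(B / f n)) atTop (𝓝 0) := by
  have h1 : Tendsto (fun n => B / f n) atTop (𝓝 0) := hf.const_div_atTop B
  have h2 := ((Real.continuous_sqrt.tendsto 0).comp h1).const_mul C
  rw [Real.sqrt_zero, mul_zero] at h2
  exact h2

theorem ev_le {f : ℕ → ℝ} (hf : Tendsto f atTop (𝓝 0)) {c : ℝ} (hc : 0 < c) :
    ∃ n₀, ∀ n ≥ n₀, f n ≤ c := by
  have h1 := hf.eventually_lt_const hc
  obtain ⟨n₀, h2⟩ := eventually_atTop.1 h1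
  exact ⟨n₀, fun n hn => (h2 n hn).le⟩

/-- the local quantity is bounded by the energy -/
theorem gam_energy (hν : 0 ≤ ν) {σ : ℝ} (hK : Low σ p δ K) (hs : SolK ν T K u q) {t : ℝ}
    (ht : t ∈ Ico 0 T) (n : ℕ) :
    √(XX n 1 0 (u t)) + √(ZZ n 0 0 (u t)) ≤ 2 * √(EE 0 (u 0)) := by
  have hu := sol_spv hs ht
  have h1 := XX_le (n := n) (M := 1) (h := 0) hu
  have h2 := ZZ_le (n := n) (M := 0) (h := 0) hu (by norm_num)
  rw [mul_zero, pow_zero, one_mul] at h1 h2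
  have h3 := EE_le hν hK hs ht
  have s1 := Real.sqrt_le_sqrt (h1.trans h3)
  have s2 := Real.sqrt_le_sqrt (h2.trans h3)
  linarith

/-- all the weighted energies are bounded -/
theorem YY_bdd (hK : Low 2 p δ K) (hp0 : 0 ≤ p) (hp1 : p ≤ 1) (hδ : 0 ≤ δ) (hν : 0 < ν)
    (hT : 0 < T) (hs : SolK ν T K u q)
    (hg : ∀ t ∈ Ioo 0 T, ∃ P : V → ℝ, SP P ∧ ∀ i x, conv (fun i y => u t y i) i x = pd i P x)
    (s : ℕ) : ∃ B, 0 ≤ B ∧ ∀ t ∈ Ico 0 T, ∀ m, YY (fun n : ℕ => ((4 : ℝ) ^ s) ^ n) m 0 (u t) ≤ B := by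
  have hπ : 0 < ν * (2 * Real.pi) ^ 2 := by positivity
  -- the first step
  obtain ⟨η, hη, hη1, B₁, hB₁0, hB₁⟩ : ∃ η : ℝ, 0 < η ∧ η ≤ 1 ∧ ∃ B, 0 ≤ B ∧ ∀ t ∈ Ico 0 T, ∀ m,
      YY (fun n : ℕ => ((n : ℝ) + 2) ^ η) m 0 (u t) ≤ B := by
    set G := 2 * √(EE 0 (u 0)) with hG
    have hG0 : 0 ≤ G := by positivity
    set η := min 1 (ν * (2 * Real.pi) ^ 2 / (6 * (δ * 5 ^ 8 * G) + 1)) with hη
    have hη0 : 0 < η := lt_min one_pos (by positivity)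
    refine ⟨η, hη0, min_le_left _ _, ?_⟩
    have hη2 : η * (6 * (δ * 5 ^ 8 * G)) ≤ ν * (2 * Real.pi) ^ 2 := by
      have h1 : η ≤ ν * (2 * Real.pi) ^ 2 / (6 * (δ * 5 ^ 8 * G) + 1) := min_le_right _ _
      rw [le_div_iff₀ (by positivity)] at h1
      linarith
    refine prop_w (wg1 hη0 (min_le_left _ _)) hK hp0 hδ hν.le hT hs hg (Γ := fun _ => G)
      (fun t ht n => gam_energy hν.le hK hs (Ioo_subset_Ico_self ht) n) (n₀ := 0) fun n _ => ?_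
    have h1 := diff1 hη0 (min_le_left _ _ : η ≤ 1) n
    have h2 := LL_rpow_le hp1 (n + 1)
    have h3 : (0 : ℝ) < ((n + 1 : ℕ) + 2 : ℝ) ^ η := by positivity
    have h4 : (0 : ℝ) ≤ ((n + 1 : ℕ) + 2 : ℝ) ^ η - ((n : ℝ) + 2) ^ η :=
      sub_nonneg.2 ((wg1 hη0 (min_le_left _ _)).mono n)
    have h5 : (((n + 1 : ℕ) + 2 : ℝ) ^ η - ((n : ℝ) + 2) ^ η) * LL (n + 1) ^ p
        ≤ 2 * η * ((n + 1 : ℕ) + 2 : ℝ) ^ η := by
      calc (((n + 1 : ℕ) + 2 : ℝ) ^ η - ((n : ℝ) + 2) ^ η) * LL (n + 1) ^ p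
          ≤ (η * ((n + 1 : ℕ) + 2 : ℝ) ^ η / ((n : ℝ) + 2)) * (((n + 1 : ℕ) : ℝ) + 2) :=
            mul_le_mul h1 h2 (Real.rpow_nonneg (by linarith [one_le_LL (n + 1)]) _) (by positivity)
        _ ≤ (η * ((n + 1 : ℕ) + 2 : ℝ) ^ η / ((n : ℝ) + 2)) * (2 * ((n : ℝ) + 2)) := by
            apply mul_le_mul_of_nonneg_left _ (by positivity)
            push_cast
            linarith
        _ = _ := by field_simp
    calc (((n + 1 : ℕ) + 2 : ℝ) ^ η - ((n : ℝ) + 2) ^ η)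
          * (δ * 5 ^ (2 * 1 + 6) * LL (n + 1) ^ p * G) * (4 ^ 1 + 2)
        = ((((n + 1 : ℕ) + 2 : ℝ) ^ η - ((n : ℝ) + 2) ^ η) * LL (n + 1) ^ p)
          * (6 * (δ * 5 ^ 8 * G)) := by ring
      _ ≤ (2 * η * ((n + 1 : ℕ) + 2 : ℝ) ^ η) * (6 * (δ * 5 ^ 8 * G)) :=
          mul_le_mul_of_nonneg_right h5 (by positivity)
      _ = 2 * (η * (6 * (δ * 5 ^ 8 * G))) * ((n + 1 : ℕ) + 2 : ℝ) ^ η := by ring
      _ ≤ 2 * (ν * (2 * Real.pi) ^ 2) * ((n + 1 : ℕ) + 2 : ℝ) ^ η :=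
          mul_le_mul_of_nonneg_right (by linarith) h3.le
      _ = _ := by ring
  -- the second step
  obtain ⟨B₂, hB₂0, hB₂⟩ : ∃ B, 0 ≤ B ∧ ∀ t ∈ Ico 0 T, ∀ m,
      YY (fun n : ℕ => ((n : ℝ) + 2) ^ 3) m 0 (u t) ≤ B := by
    have hw1 := wg1 hη hη1
    have hr : ∀ n : ℕ, ((n + 1 : ℕ) + 2 : ℝ) ^ η ≤ 4 * ((n : ℝ) + 2) ^ η := fun n => by
      have h1 := rat1 hη hη1 n
      have h2 : (0 : ℝ) < ((n : ℝ) + 2) ^ η := by positivity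
      linarith
    have ht1 : Tendsto (fun n : ℕ => (((n + 1 : ℕ) : ℝ) + 2) ^ η) atTop atTop := by
      refine (tendsto_rpow_atTop hη).comp (tendsto_atTop_add_const_right _ _ ?_)
      exact tendsto_natCast_atTop_atTop.comp (tendsto_add_atTop_nat 1)
    obtain ⟨n₀, hn₀⟩ := ev_le (tend_sqrt ht1 B₁ (3 * (δ * 5 ^ 10) * 18 * 3))
      (c := 2 * ν * (2 * Real.pi) ^ 2) (by positivity)
    refine prop_w wg2 hK hp0 hδ hν.le hT hs hg (Γ := fun n => 3 * √(B₁ / ((n : ℝ) + 2) ^ η))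
      (fun t ht n => gam_le hw1 hr (sol_spv hs (Ioo_subset_Ico_self ht)) n
        (hB₁ t (Ioo_subset_Ico_self ht) n)) (n₀ := n₀) fun n hn => ?_
    have h1 := hn₀ n hn
    have h2 := LL_rpow_le hp1 (n + 1)
    have hL0 : 0 ≤ LL (n + 1) ^ p := Real.rpow_nonneg (by linarith [one_le_LL (n + 1)]) _
    have h3 : (((n + 1 : ℕ) + 2 : ℝ) ^ 3 - ((n : ℝ) + 2) ^ 3) ≤ 3 * (((n + 1 : ℕ) : ℝ) + 2) ^ 2 := by
      push_cast
      have : (0 : ℝ) ≤ n := Nat.cast_nonneg n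
      nlinarith
    have h4 : (((n + 1 : ℕ) + 2 : ℝ) ^ 3 - ((n : ℝ) + 2) ^ 3) * LL (n + 1) ^ p
        ≤ 3 * (((n + 1 : ℕ) : ℝ) + 2) ^ 3 := by
      calc _ ≤ (3 * (((n + 1 : ℕ) : ℝ) + 2) ^ 2) * (((n + 1 : ℕ) : ℝ) + 2) :=
            mul_le_mul h3 h2 hL0 (by positivity)
        _ = _ := by ring
    set G := √(B₁ / ((n + 1 : ℕ) + 2 : ℝ) ^ η) with hG
    have hG0 : 0 ≤ G := Real.sqrt_nonneg _
    calc (((n + 1 : ℕ) + 2 : ℝ) ^ 3 - ((n : ℝ) + 2) ^ 3)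
          * (δ * 5 ^ (2 * 2 + 6) * LL (n + 1) ^ p * (3 * G)) * (4 ^ 2 + 2)
        = ((((n + 1 : ℕ) + 2 : ℝ) ^ 3 - ((n : ℝ) + 2) ^ 3) * LL (n + 1) ^ p)
          * ((δ * 5 ^ 10) * 18 * 3 * G) := by ring
      _ ≤ (3 * (((n + 1 : ℕ) : ℝ) + 2) ^ 3) * ((δ * 5 ^ 10) * 18 * 3 * G) :=
          mul_le_mul_of_nonneg_right h4 (by positivity)
      _ = (3 * (δ * 5 ^ 10) * 18 * 3 * G) * (((n + 1 : ℕ) : ℝ) + 2) ^ 3 := by ring
      _ ≤ _ := mul_le_mul_of_nonneg_right h1 (by positivity)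
  -- the third step
  have hr2 : ∀ n : ℕ, ((n + 1 : ℕ) + 2 : ℝ) ^ 3 ≤ 4 * ((n : ℝ) + 2) ^ 3 := fun n => by
    push_cast
    have : (0 : ℝ) ≤ n := Nat.cast_nonneg n
    nlinarith [mul_nonneg this this, mul_nonneg (mul_nonneg this this) this]
  have ht2 : Tendsto (fun n : ℕ => ((n + 1 : ℕ) : ℝ) + 2) atTop atTop :=
    tendsto_atTop_add_const_right _ _
      (tendsto_natCast_atTop_atTop.comp (tendsto_add_atTop_nat 1))
  obtain ⟨n₀, hn₀⟩ := ev_le (tend_sqrt ht2 B₂ ((δ * 5 ^ (2 * (s + 1) + 6)) * 3 * (4 ^ (s + 1) + 2)))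
    (c := 2 * ν * (2 * Real.pi) ^ 2) (by positivity)
  refine prop_w (wg3 s) hK hp0 hδ hν.le hT hs hg (Γ := fun n => 3 * √(B₂ / ((n : ℝ) + 2) ^ 3))
      (fun t ht n => gam_le wg2 hr2 (sol_spv hs (Ioo_subset_Ico_self ht)) n
        (hB₂ t (Ioo_subset_Ico_self ht) n)) (n₀ := n₀) fun n hn => ?_
  have h1 := hn₀ n hn
  have h2 := LL_rpow_le hp1 (n + 1)
  have hL0 : 0 ≤ LL (n + 1) ^ p := Real.rpow_nonneg (by linarith [one_le_LL (n + 1)]) _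
  set y : ℝ := ((n + 1 : ℕ) : ℝ) + 2 with hy
  have hy0 : 0 < y := by positivity
  have h3 : LL (n + 1) ^ p * √(B₂ / y ^ 3) ≤ √(B₂ / y) := by
    calc LL (n + 1) ^ p * √(B₂ / y ^ 3) ≤ y * √(B₂ / y ^ 3) :=
          mul_le_mul_of_nonneg_right h2 (Real.sqrt_nonneg _)
      _ = √(y ^ 2 * (B₂ / y ^ 3)) := by rw [Real.sqrt_mul (sq_nonneg _), Real.sqrt_sq hy0.le]
      _ = √(B₂ / y) := by
          congr 1
          field_simp
  have h4 : ((4 : ℝ) ^ s) ^ (n + 1) - (4 ^ s) ^ n ≤ (4 ^ s) ^ (n + 1) := by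
    have : (0 : ℝ) < (4 ^ s) ^ n := by positivity
    linarith
  have h40 : 0 ≤ ((4 : ℝ) ^ s) ^ (n + 1) - (4 ^ s) ^ n := sub_nonneg.2 ((wg3 s).mono n)
  calc (((4 : ℝ) ^ s) ^ (n + 1) - (4 ^ s) ^ n)
        * (δ * 5 ^ (2 * (s + 1) + 6) * LL (n + 1) ^ p * (3 * √(B₂ / y ^ 3))) * (4 ^ (s + 1) + 2)
      = (((4 : ℝ) ^ s) ^ (n + 1) - (4 ^ s) ^ n) * ((δ * 5 ^ (2 * (s + 1) + 6)) * 3 *
        (4 ^ (s + 1) + 2) * (LL (n + 1) ^ p * √(B₂ / y ^ 3))) := by ring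
    _ ≤ (4 ^ s) ^ (n + 1) * ((δ * 5 ^ (2 * (s + 1) + 6)) * 3 * (4 ^ (s + 1) + 2) * √(B₂ / y)) :=
        mul_le_mul h4 (mul_le_mul_of_nonneg_left h3 (by positivity)) (by positivity) (by positivity)
    _ ≤ (4 ^ s) ^ (n + 1) * (2 * ν * (2 * Real.pi) ^ 2) :=
        mul_le_mul_of_nonneg_left h1 (by positivity)
    _ = _ := by ring

/-- the weighted energies control the norms -/
theorem Hn_of_YY {s : ℕ} {v : V → V} (hv : SPV v) {B : ℝ}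
    (hB : ∀ m, YY (fun n : ℕ => ((4 : ℝ) ^ s) ^ n) m 0 v ≤ B) : Hn s 0 v ≤ √(4 ^ s * B) := by
  apply Real.le_sqrt_of_sq_le
  rw [Hn_sq_un]
  refine (wun_summable hv _ _).tsum_le_of_sum_le fun F => ?_
  set m := F.sup lv with hm
  have h1 : ∀ k ∈ F, (wt s 0 k * un v k) ^ 2
      ≤ 4 ^ s * ((fun n : ℕ => ((4 : ℝ) ^ s) ^ n) (min (lv k) m) * (len k ^ (2 * 0) * un v k ^ 2)) := by
    intro k hk
    have h2 : lv k ≤ m := Finset.le_sup hk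
    rw [min_eq_left h2]
    simp only [mul_zero, pow_zero, one_mul]
    have hl := len_nonneg k
    have h3 : wt s 0 k ≤ len k ^ s := by
      unfold wt
      split_ifs
      · positivity
      · rw [Real.rpow_zero, mul_one, Real.rpow_natCast]
    have h4 : len k ^ (2 * s) ≤ 4 ^ s * (4 ^ s) ^ lv k := by
      calc len k ^ (2 * s) ≤ (2 ^ (lv k + 1)) ^ (2 * s) := pow_le_pow_left₀ hl (lt_pow_lv k).le _
        _ = 4 ^ s * (4 ^ s) ^ lv k := by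
            have : (4 : ℝ) = 2 ^ 2 := by norm_num
            rw [this, ← pow_mul, ← pow_mul, ← pow_mul, ← pow_add]
            congr 1
            ring
    calc (wt s 0 k * un v k) ^ 2 = wt s 0 k ^ 2 * un v k ^ 2 := mul_pow _ _ _
      _ ≤ (len k ^ s) ^ 2 * un v k ^ 2 :=
          mul_le_mul_of_nonneg_right (pow_le_pow_left₀ (wt_nonneg _ _ _) h3 2) (sq_nonneg _)
      _ = len k ^ (2 * s) * un v k ^ 2 := by rw [← pow_mul, mul_comm s 2]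
      _ ≤ 4 ^ s * (4 ^ s) ^ lv k * un v k ^ 2 := mul_le_mul_of_nonneg_right h4 (sq_nonneg _)
      _ = _ := by ring
  refine (Finset.sum_le_sum h1).trans ?_
  rw [← Finset.mul_sum]
  apply mul_le_mul_of_nonneg_left _ (by positivity)
  refine le_trans ?_ (hB m)
  exact (YY_summable (wg3 s) hv m 0).sum_le_tsum F fun k _ => by
    have := len_nonneg k
    positivity

theorem Hn_mono {s s' : ℝ} (h : s ≤ s') {v : V → V} (hv : SPV v) : Hn s 0 v ≤ Hn s' 0 v := by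
  rw [← Real.sqrt_sq (Hn_nonneg s 0 v), ← Real.sqrt_sq (Hn_nonneg s' 0 v)]
  apply Real.sqrt_le_sqrt
  rw [Hn_sq_un, Hn_sq_un]
  refine (wun_summable hv _ _).tsum_le_tsum (fun k => ?_) (wun_summable hv _ _)
  refine pow_le_pow_left₀ (mul_nonneg (wt_nonneg _ _ _) (un_nonneg _ _)) ?_ 2
  apply mul_le_mul_of_nonneg_right _ (un_nonneg _ _)
  unfold wt
  split_ifs with hk
  · exact le_rfl
  · rw [Real.rpow_zero, mul_one, mul_one]
    exact Real.rpow_le_rpow_of_exponent_le (one_le_len hk) h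

/-- **No blow-up** up to the power one of the logarithm, Navier-Stokes case. -/
theorem reg_two (hK : Low 2 p δ K) (hp0 : 0 ≤ p) (hp1 : p ≤ 1) (hδ : 0 ≤ δ) (hν : 0 < ν)
    (hs : SolK ν T K u q)
    (hg : ∀ t ∈ Ioo 0 T, ∃ P : V → ℝ, SP P ∧ ∀ i x, conv (fun i y => u t y i) i x = pd i P x)
    (s : ℝ) : ∃ B, ∀ t ∈ Ico 0 T, Hn s 0 (u t) ≤ B := by
  rcases le_or_gt T 0 with hT | hT
  · exact ⟨0, fun t ht => absurd (ht.1.trans_lt ht.2) (not_lt.2 hT)⟩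
  obtain ⟨B, _, hB⟩ := YY_bdd hK hp0 hp1 hδ hν hT hs hg ⌈s⌉₊
  refine ⟨√(4 ^ ⌈s⌉₊ * B), fun t ht => ?_⟩
  exact (Hn_mono (Nat.le_ceil s) (sol_spv hs ht)).trans (Hn_of_YY (sol_spv hs ht) (hB t ht))

end Pool.Agent.N977.Q
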