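import Pool.Agent.N977.Q.Th7

/-!
Up to the power one of the logarithm there is no blow-up (Euler case).
-/

open MeasureTheory Set Filter Topology
open scoped ContDiff ComplexConjugate

namespace Pool.Agent.N977.Q

open H459R3.NS
open Pool.Agent.N977.K (SolK cmp)

variable {ν T p δ : ℝ} {u : ℝ → V → V} {q : ℝ → V → ℝ} {K : (V → V) → (V → V) → V → V}
variable {M : ℕ} {w : ℕ → ℝ}

theorem exists_c3 : ∃ C : ℝ, 0 ≤ C ∧ ∀ n : ℕ, ((n : ℝ) + 2) * √(Real.exp n / 4 ^ n) ≤ C := by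
  have h1 : Tendsto (fun n : ℕ => (n : ℝ) ^ 2 * (7 / 10 : ℝ) ^ n) atTop (𝓝 0) :=
    tendsto_pow_const_mul_const_pow_of_lt_one 2 (by norm_num) (by norm_num)
  obtain ⟨C, hC⟩ := h1.bddAbove_range
  have hC' : ∀ n : ℕ, (n : ℝ) ^ 2 * (7 / 10 : ℝ) ^ n ≤ C := fun n => hC (mem_range_self n)
  have hC0 : 0 ≤ C := le_trans (by positivity) (hC' 0)
  refine ⟨√(C * (100 / 49)), Real.sqrt_nonneg _, fun n => ?_⟩
  have hn : (0 : ℝ) ≤ (n : ℝ) + 2 := by positivity
  have e1 : ((n : ℝ) + 2) * √(Real.exp n / 4 ^ n) = √(((n : ℝ) + 2) ^ 2 * (Real.exp n / 4 ^ n)) := by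
    rw [Real.sqrt_mul (sq_nonneg _), Real.sqrt_sq hn]
  rw [e1]
  apply Real.sqrt_le_sqrt
  have h2 : Real.exp n / 4 ^ n ≤ (7 / 10 : ℝ) ^ n := by
    have h3 : Real.exp n = Real.exp 1 ^ n := by rw [← Real.exp_nat_mul, mul_one]
    rw [h3, ← div_pow]
    have := Real.exp_one_lt_d9
    exact pow_le_pow_left₀ (by positivity) (by linarith) n
  have h4 := hC' (n + 2)
  push_cast at h4
  rw [pow_add (7 / 10 : ℝ) n 2] at h4
  calc ((n : ℝ) + 2) ^ 2 * (Real.exp n / 4 ^ n) ≤ ((n : ℝ) + 2) ^ 2 * (7 / 10 : ℝ) ^ n :=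
        mul_le_mul_of_nonneg_left h2 (by positivity)
    _ ≤ C * (100 / 49) := by linarith

theorem YY_mono_m (hw : Wg M w) {v : V → V} (hv : SPV v) {m m' h : ℕ} (hm : m ≤ m') :
    YY w m h v ≤ YY w m' h v := by
  refine (YY_summable hw hv m h).tsum_le_tsum (fun k => ?_) (YY_summable hw hv m' h)
  have := len_nonneg k
  exact mul_le_mul_of_nonneg_right (hw.monotone (by omega)) (by positivity)

theorem YY_mono_w {M' : ℕ} {w' : ℕ → ℝ} (hw : Wg M w) (hw' : Wg M' w') (hle : ∀ n, w n ≤ w' n)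
    {v : V → V} (hv : SPV v) (m h : ℕ) : YY w m h v ≤ YY w' m h v := by
  refine (YY_summable hw hv m h).tsum_le_tsum (fun k => ?_) (YY_summable hw' hv m h)
  have := len_nonneg k
  exact mul_le_mul_of_nonneg_right (hle _) (by positivity)

/-- the local quantity is logarithmically small -/
theorem gam_log (hν : 0 ≤ ν) {σ : ℝ} (hK : Low σ p δ K) (hp1 : p ≤ 1) (hs : SolK ν T K u q)
    {s : ℕ} (hs1 : 1 ≤ s) {C₃ : ℝ}
    (hC₃ : ∀ n : ℕ, ((n : ℝ) + 2) * √(Real.exp n / 4 ^ n) ≤ C₃) {t : ℝ}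
    (ht : t ∈ Ico 0 T) {n m : ℕ} (hn : n ≤ m) :
    LL n ^ p * (√(XX n 1 0 (u t)) + √(ZZ n 0 0 (u t)))
      ≤ (6 * √(EE 0 (u 0)) + 3 * C₃)
        * Real.log (3 + YY (fun n : ℕ => ((4 : ℝ) ^ s) ^ n) m 0 (u t)) := by
  have hu := sol_spv hs ht
  have hC₃0 : 0 ≤ C₃ := le_trans (by positivity) (hC₃ 0)
  have hY0 : 0 ≤ YY (fun n : ℕ => ((4 : ℝ) ^ s) ^ n) m 0 (u t) := YY_nonneg (wg3 s)
  set Y := YY (fun n : ℕ => ((4 : ℝ) ^ s) ^ n) m 0 (u t) with hY
  set E := √(EE 0 (u 0)) with hE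
  have hE0 : 0 ≤ E := Real.sqrt_nonneg _
  have hL1 : 1 ≤ Real.log (3 + Y) := by
    rw [Real.le_log_iff_exp_le (by linarith)]
    have := Real.exp_one_lt_d9
    linarith
  set L := Real.log (3 + Y) with hL
  have hLn := LL_rpow_le hp1 n
  have hLn0 : 0 ≤ LL n ^ p := Real.rpow_nonneg (by linarith [one_le_LL n]) _
  have hG0 : 0 ≤ √(XX n 1 0 (u t)) + √(ZZ n 0 0 (u t)) := by positivity
  rcases le_or_gt (n : ℝ) L with h | h
  · have h1 := gam_energy hν hK hs ht n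
    calc LL n ^ p * (√(XX n 1 0 (u t)) + √(ZZ n 0 0 (u t))) ≤ ((n : ℝ) + 2) * (2 * E) :=
          mul_le_mul hLn h1 hG0 (by positivity)
      _ ≤ (3 * L) * (2 * E) := mul_le_mul_of_nonneg_right (by linarith) (by positivity)
      _ = 6 * E * L + 0 := by ring
      _ ≤ 6 * E * L + 3 * C₃ * L := by
          have : 0 ≤ 3 * C₃ * L := by positivity
          linarith
      _ = _ := by ring
  · have h1 : YY (fun n : ℕ => ((4 : ℝ) ^ 1) ^ n) n 0 (u t) ≤ Y := by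
      refine (YY_mono_m (wg3 1) hu hn).trans (YY_mono_w (wg3 1) (wg3 s) (fun j => ?_) hu m 0)
      exact pow_le_pow_left₀ (by positivity) (pow_le_pow_right₀ (by norm_num) hs1) j
    have h2 := gam_le (wg3 1) (fun j => by rw [pow_succ, pow_one, mul_comm]) hu n h1
    rw [pow_one] at h2
    have h3 : Y ≤ Real.exp n := by
      have e1 : Real.exp L = 3 + Y := Real.exp_log (by linarith)
      have e2 : Real.exp L ≤ Real.exp n := Real.exp_le_exp.2 h.le
      linarith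
    have h4 : √(Y / 4 ^ n) ≤ √(Real.exp n / 4 ^ n) :=
      Real.sqrt_le_sqrt (div_le_div_of_nonneg_right h3 (by positivity))
    calc LL n ^ p * (√(XX n 1 0 (u t)) + √(ZZ n 0 0 (u t)))
        ≤ ((n : ℝ) + 2) * (3 * √(Real.exp n / 4 ^ n)) :=
          mul_le_mul hLn (h2.trans (by linarith)) hG0 (by positivity)
      _ = 3 * (((n : ℝ) + 2) * √(Real.exp n / 4 ^ n)) := by ring
      _ ≤ 3 * C₃ := by linarith [hC₃ n]
      _ ≤ 3 * C₃ * L := le_mul_of_one_le_right (by positivity) hL1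
      _ ≤ (6 * E + 3 * C₃) * L := by
          have : 0 ≤ 6 * E * L := by positivity
          linarith

/-- all the weighted energies are bounded -/
theorem YY_bdd0 (hK : Low 0 p δ K) (hp0 : 0 ≤ p) (hp1 : p ≤ 1) (hδ : 0 ≤ δ) (hν : 0 ≤ ν)
    (hT : 0 < T) (hs : SolK ν T K u q)
    (hg : ∀ t ∈ Ioo 0 T, ∃ P : V → ℝ, SP P ∧ ∀ i x, conv (fun i y => u t y i) i x = pd i P x)
    {s : ℕ} (hs1 : 1 ≤ s) :
    ∃ B, 0 ≤ B ∧ ∀ t ∈ Ico 0 T, ∀ m, YY (fun n : ℕ => ((4 : ℝ) ^ s) ^ n) m 0 (u t) ≤ B := by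
  obtain ⟨C₃, hC₃0, hC₃⟩ := exists_c3
  set w : ℕ → ℝ := fun n : ℕ => ((4 : ℝ) ^ s) ^ n with hw'
  have hw : Wg (s + 1) w := wg3 s
  set C₂ := 6 * √(EE 0 (u 0)) + 3 * C₃ with hC₂
  have hC₂0 : 0 ≤ C₂ := by positivity
  have hc0 : ∀ n, 0 ≤ w (n + 1) - w n := fun n => sub_nonneg.2 (hw.mono n)
  have hKh : Low (2 * ((0 : ℕ) : ℝ)) p δ K := by
    rw [Nat.cast_zero, mul_zero]; exact hK
  set C₁ := δ * 5 ^ (2 * (s + 1) + 4) * C₂ with hC₁
  have hC₁0 : 0 ≤ C₁ := by positivity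
  set C₄ := C₁ * (4 ^ (s + 1) + 2) with hC₄
  have hC₄0 : 0 ≤ C₄ := by positivity
  have key : ∀ t ∈ Ioo 0 T, ∀ m, -(2 * ν * (2 * Real.pi) ^ 2 * YY w m 1 (u t))
      - 2 * ∑ n ∈ Finset.range m, (w (n + 1) - w n) * ∑ k ∈ Bl (n + 1), tk K (u t) k
      ≤ C₄ * Real.log (3 + YY w m 0 (u t)) * YY w m 0 (u t) := by
    intro t ht m
    have htI := Ioo_subset_Ico_self ht
    have hu : SPV (u t) := sol_spv hs htI
    have hY0 : 0 ≤ YY w m 0 (u t) := YY_nonneg hw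
    have hY1 : 0 ≤ YY w m 1 (u t) := YY_nonneg hw
    have hL0 : 0 ≤ Real.log (3 + YY w m 0 (u t)) := Real.log_nonneg (by linarith)
    set L := Real.log (3 + YY w m 0 (u t)) with hL
    have h1 : ∀ n ∈ Finset.range m, -(2 * ((w (n + 1) - w n) * ∑ k ∈ Bl (n + 1), tk K (u t) k))
        ≤ C₁ * L * (w (n + 1) * (XX (n + 1) (s + 1) 0 (u t) + ZZ (n + 1) (s + 1) 0 (u t))) := by
      intro n hn
      have hnm : n + 1 ≤ m := Finset.mem_range.1 hn
      have f1 := flux_le (n := n + 1) (M := s + 1) (h := 0) hKh hp0 hδ hu (by omega)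
      have hX0 : 0 ≤ XX (n + 1) (s + 1) 0 (u t) := XX_nonneg
      have hZ0 : 0 ≤ ZZ (n + 1) (s + 1) 0 (u t) := ZZ_nonneg
      set X := XX (n + 1) (s + 1) 0 (u t) with hX
      set Z := ZZ (n + 1) (s + 1) 0 (u t) with hZ
      have e6 : 2 * (s + 1) + 2 * 0 + 4 = 2 * (s + 1) + 4 := by ring
      rw [e6] at f1
      have g1 := gam_log hν hK hp1 hs hs1 hC₃ htI hnm
      have f2 : |∑ k ∈ Bl (n + 1), tk K (u t) k| ≤ C₁ * L * ((X + Z) / 2) := by
        refine f1.trans ?_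
        rw [mul_assoc (δ * 5 ^ (2 * (s + 1) + 4)) (LL (n + 1) ^ p)]
        have e7 : C₁ * L = δ * 5 ^ (2 * (s + 1) + 4) * (C₂ * L) := by rw [hC₁]; ring
        rw [e7]
        exact mul_le_mul (mul_le_mul_of_nonneg_left g1 (by positivity))
          (sqrt_mul_sqrt_le hX0 hZ0) (by positivity) (by positivity)
      have hXZ : 0 ≤ X + Z := by linarith
      have f4 := neg_abs_le (∑ k ∈ Bl (n + 1), tk K (u t) k)
      have f5 := mul_le_mul_of_nonneg_left f2 (hc0 n)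
      have f6 := mul_le_mul_of_nonneg_left f4 (hc0 n)
      have f7 : (w (n + 1) - w n) * (C₁ * L * (X + Z)) ≤ w (n + 1) * (C₁ * L * (X + Z)) := by
        apply mul_le_mul_of_nonneg_right _ (by positivity)
        have := (hw.pos n).le
        linarith
      calc -(2 * ((w (n + 1) - w n) * ∑ k ∈ Bl (n + 1), tk K (u t) k))
          ≤ (w (n + 1) - w n) * (C₁ * L * (X + Z)) := by linarith
        _ ≤ w (n + 1) * (C₁ * L * (X + Z)) := f7
        _ = _ := by ring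
    have h2 : -(2 * ∑ n ∈ Finset.range m, (w (n + 1) - w n) * ∑ k ∈ Bl (n + 1), tk K (u t) k)
        ≤ C₁ * L * ((4 ^ (s + 1) + 2) * YY w m 0 (u t)) := by
      calc -(2 * ∑ n ∈ Finset.range m, (w (n + 1) - w n) * ∑ k ∈ Bl (n + 1), tk K (u t) k)
          = ∑ n ∈ Finset.range m,
            -(2 * ((w (n + 1) - w n) * ∑ k ∈ Bl (n + 1), tk K (u t) k)) := by
            rw [Finset.sum_neg_distrib, ← Finset.mul_sum]
        _ ≤ ∑ n ∈ Finset.range m, C₁ * L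
          * (w (n + 1) * (XX (n + 1) (s + 1) 0 (u t) + ZZ (n + 1) (s + 1) 0 (u t))) :=
            Finset.sum_le_sum h1
        _ = C₁ * L * ∑ n ∈ Finset.range m,
          w (n + 1) * (XX (n + 1) (s + 1) 0 (u t) + ZZ (n + 1) (s + 1) 0 (u t)) := by
            rw [← Finset.mul_sum]
        _ ≤ _ := mul_le_mul_of_nonneg_left (sum_XZ_le hw hu (by omega) m) (by positivity)
    have h3 : 0 ≤ 2 * ν * (2 * Real.pi) ^ 2 * YY w m 1 (u t) := by positivity
    have h4 : C₁ * L * ((4 ^ (s + 1) + 2) * YY w m 0 (u t)) = C₄ * L * YY w m 0 (u t) := by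
      rw [hC₄]; ring
    rw [h4] at h2
    linarith
  have h00 : (0 : ℝ) ∈ Ico 0 T := ⟨le_rfl, hT⟩
  set I := w 0 * (EE (s + 1) (u 0) + EE 0 (u 0)) with hI
  have hI0 : 0 ≤ I := by
    have := (hw.pos 0).le
    have := EE_nonneg (s + 1) (u 0)
    have := EE_nonneg 0 (u 0)
    positivity
  refine ⟨Real.exp (Real.log (3 + I) * Real.exp (C₄ * T)), (Real.exp_pos _).le,
    fun t ht m => ?_⟩
  have hYt : ∀ r, 0 ≤ YY w m 0 (u r) := fun r => YY_nonneg hw
  have hcon : ContinuousOn (fun r => YY w m 0 (u r)) (Icc 0 t) :=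
    (YY_continuousOn hw hs m).mono fun r hr => ⟨hr.1, hr.2.trans_lt ht.2⟩
  have h := cmp (f := fun r => Real.log (3 + YY w m 0 (u r)) * Real.exp (-(C₄ * r)))
      (f' := fun r => (-(2 * ν * (2 * Real.pi) ^ 2 * YY w m 1 (u r))
        - 2 * ∑ n ∈ Finset.range m, (w (n + 1) - w n) * ∑ k ∈ Bl (n + 1), tk K (u r) k)
          / (3 + YY w m 0 (u r)) * Real.exp (-(C₄ * r))
        + Real.log (3 + YY w m 0 (u r)) * (Real.exp (-(C₄ * r)) * -C₄))
      (g := fun _ => 0) (g' := fun _ => 0) ht.1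
      (((continuousOn_const.add hcon).log fun r _ =>
        (show (0 : ℝ) < 3 + YY w m 0 (u r) by linarith [hYt r]).ne').mul (by fun_prop))
      continuousOn_const
      (fun r hr => by
        have h1 := ((hasDerivAt_id r).const_mul C₄).neg.exp
        have h2 : HasDerivAt (fun r => Real.exp (-(C₄ * r))) (Real.exp (-(C₄ * r)) * -C₄) r := by
          refine h1.congr_deriv ?_
          simp
        have h3 := (YY_deriv hw hK hs hg ⟨hr.1, hr.2.trans ht.2⟩ m).const_add 3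
        exact (h3.log (by linarith [hYt r])).mul h2)
      (fun r _ => hasDerivAt_const _ _)
      (fun r hr => by
        have h1 := key r ⟨hr.1, hr.2.trans ht.2⟩ m
        have hy := hYt r
        have hL0 : 0 ≤ Real.log (3 + YY w m 0 (u r)) := Real.log_nonneg (by linarith)
        have h2 : (-(2 * ν * (2 * Real.pi) ^ 2 * YY w m 1 (u r))
            - 2 * ∑ n ∈ Finset.range m, (w (n + 1) - w n) * ∑ k ∈ Bl (n + 1), tk K (u r) k)
            / (3 + YY w m 0 (u r)) ≤ C₄ * Real.log (3 + YY w m 0 (u r)) := by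
          rw [div_le_iff₀ (by linarith)]
          refine h1.trans ?_
          apply mul_le_mul_of_nonneg_left _ (by positivity)
          linarith
        have h3 := mul_le_mul_of_nonneg_right h2 (Real.exp_pos (-(C₄ * r))).le
        linarith)
  simp only [sub_self, mul_zero, neg_zero, Real.exp_zero, mul_one] at h
  have h0 : Real.log (3 + YY w m 0 (u 0)) ≤ Real.log (3 + I) := by
    have := YY_init hw (sol_spv hs h00) m
    exact Real.log_le_log (by linarith [hYt 0]) (by linarith)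
  have h1 : Real.log (3 + YY w m 0 (u t)) ≤ Real.log (3 + I) * Real.exp (C₄ * T) := by
    have e1 : Real.log (3 + YY w m 0 (u t))
        = (Real.log (3 + YY w m 0 (u t)) * Real.exp (-(C₄ * t))) * Real.exp (C₄ * t) := by
      rw [mul_assoc, ← Real.exp_add, neg_add_cancel, Real.exp_zero, mul_one]
    rw [e1]
    have h2 : Real.log (3 + YY w m 0 (u t)) * Real.exp (-(C₄ * t)) ≤ Real.log (3 + I) := by
      linarith
    have h3 : 0 ≤ Real.log (3 + I) := Real.log_nonneg (by linarith)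
    exact mul_le_mul h2 (Real.exp_le_exp.2 (mul_le_mul_of_nonneg_left ht.2.le hC₄0))
      (Real.exp_pos _).le h3
  have h2 := Real.exp_le_exp.2 h1
  rw [Real.exp_log (by linarith [hYt t])] at h2
  linarith

/-- **No blow-up** up to the power one of the logarithm, Euler case. -/
theorem reg_zero (hK : Low 0 p δ K) (hp0 : 0 ≤ p) (hp1 : p ≤ 1) (hδ : 0 ≤ δ) (hν : 0 ≤ ν)
    (hs : SolK ν T K u q)
    (hg : ∀ t ∈ Ioo 0 T, ∃ P : V → ℝ, SP P ∧ ∀ i x, conv (fun i y => u t y i) i x = pd i P x)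
    (s : ℝ) : ∃ B, ∀ t ∈ Ico 0 T, Hn s 0 (u t) ≤ B := by
  rcases le_or_gt T 0 with hT | hT
  · exact ⟨0, fun t ht => absurd (ht.1.trans_lt ht.2) (not_lt.2 hT)⟩
  have hs1 : 1 ≤ ⌈s⌉₊ + 1 := by omega
  obtain ⟨B, _, hB⟩ := YY_bdd0 hK hp0 hp1 hδ hν hT hs hg hs1
  refine ⟨√(4 ^ (⌈s⌉₊ + 1) * B), fun t ht => ?_⟩
  have h1 : s ≤ ((⌈s⌉₊ + 1 : ℕ) : ℝ) := by
    have := Nat.le_ceil s
    push_cast
    linarith
  exact (Hn_mono h1 (sol_spv hs ht)).trans (Hn_of_YY (sol_spv hs ht) (hB t ht))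

end Pool.Agent.N977.Q
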