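import Pool.Agent.N977.Q.Sol

/-!
The triads of the operator, and the Fourier coefficients of the fields of the cascade.
-/

open MeasureTheory Set Filter Topology
open scoped ContDiff

namespace Pool.Agent.N977.Q

open H459R3.NS

/-- the directions of the modes -/
def ev : Fin 6 → K3 := ![![2, 0, 0], ![0, 2, 0], ![2, 1, 0], ![2, -1, 0], ![1, 2, 0], ![1, -2, 0]]

/-- first frequencies of the triads (in units of the scale of the level) -/
def PP : Fin 12 → K3 := ![![2, 1, 0], ![2, -1, 0], ![1, 2, 0], ![1, -2, 0],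
  ![2, 1, 0], ![2, -1, 0], ![1, 2, 0], ![1, -2, 0],
  ![2, 1, 0], ![2, -1, 0], ![1, 2, 0], ![1, -2, 0]]

/-- second frequencies of the triads (in units of the scale of the level) -/
def QQ : Fin 12 → K3 := ![![0, -2, 0], ![0, 2, 0], ![-2, 0, 0], ![-2, 0, 0],
  ![-4, 0, 0], ![-4, 0, 0], ![0, -4, 0], ![0, 4, 0],
  ![2, 1, 0], ![2, -1, 0], ![1, 2, 0], ![1, -2, 0]]

/-- coefficients of the triads -/
noncomputable def cc (α μ : ℕ → ℝ) (n : ℕ) : Fin 12 → ℝ :=
  ![4 * α n, 4 * α n, 4 * α n, 4 * α n, -(4 * α n), -(4 * α n), -(4 * α n), -(4 * α n),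
    4 * √2 * μ n, 4 * √2 * μ n, 4 * √2 * μ n, 4 * √2 * μ n]

theorem PP_ne (i : Fin 12) : PP i ≠ 0 := by
  revert i; unfold PP; decide

theorem QQ_ne (i : Fin 12) : QQ i ≠ 0 := by
  revert i; unfold QQ; decide

theorem RR_ne (i : Fin 12) : thd (PP i) (QQ i) ≠ 0 := by
  revert i; unfold PP QQ thd; decide

theorem PP_two (i : Fin 12) : PP i 2 = 0 := by
  revert i; unfold PP; decide

theorem QQ_two (i : Fin 12) : QQ i 2 = 0 := by
  revert i; unfold QQ; decide

theorem ev_two (i : Fin 6) : ev i 2 = 0 := by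
  revert i; unfold ev; decide

/-- the frequencies of different modes are different -/
theorem smul_ev_eq {a b : ℤ} (ha : 0 < a) (hb : 0 < b) (e e' : Fin 6)
    (h : a • ev e = b • ev e') : e = e' ∧ a = b := by
  have h0 := congrFun h 0
  have h1 := congrFun h 1
  fin_cases e <;> fin_cases e' <;> simp [ev] at h0 h1 ⊢ <;> omega

theorem smul_ev_ne_neg {a b : ℤ} (ha : 0 < a) (hb : 0 < b) (e e' : Fin 6)
    (h : a • ev e = -(b • ev e')) : False := by
  have h0 := congrFun h 0
  have h1 := congrFun h 1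
  fin_cases e <;> fin_cases e' <;> simp [ev] at h0 h1 <;> omega

theorem Mn_inj {N : ℕ} (hN : 0 < N) {n m : ℕ} (h : Mn N n = Mn N m) : n = m := by
  unfold Mn at h
  exact Nat.pow_right_injective le_rfl (Nat.eq_of_mul_eq_mul_left hN h)

/-! ### Fourier coefficients of the modes -/

theorem fr_cos (q k : K3) : fr (fun x => Real.cos (2 * Real.pi * ph q x)) k
    = ((if k = q then 1 else 0) + (if k = -q then 1 else 0)) / 2 := by
  unfold fr fc
  have e : ∀ x, ee (-k) x * ((Real.cos (2 * Real.pi * ph q x) : ℝ) : ℂ)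
      = (1 / 2) * ee (-k + q) x + (1 / 2) * ee (-k + -q) x := by
    intro x
    rw [ee_add_left, ee_add_left, ee_neg q, ee_eq q]
    simp only [map_add, Complex.conj_ofReal, map_mul, Complex.conj_I]
    ring
  simp_rw [e]
  have i1 : IntegrableOn (fun x => (1 / 2 : ℂ) * ee (-k + q) x) cube :=
    integrableOn_cube (continuous_const.mul (ee_continuous _))
  have i2 : IntegrableOn (fun x => (1 / 2 : ℂ) * ee (-k + -q) x) cube :=
    integrableOn_cube (continuous_const.mul (ee_continuous _))
  rw [integral_add i1 i2, integral_const_mul, integral_const_mul, integral_ee, integral_ee]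
  have e1 : (-k + q = 0) ↔ k = q := by
    constructor
    · intro h; have := neg_add_eq_zero.1 h; exact this
    · intro h; rw [h]; simp
  have e2 : (-k + -q = 0) ↔ k = -q := by
    constructor
    · intro h; have := neg_add_eq_zero.1 h; exact this
    · intro h; rw [h]; simp
  simp only [e1, e2]
  ring

variable {N : ℕ} {T : ℝ}

/-- the mode -/
noncomputable def Cm (N : ℕ) (e : Fin 6) (n : ℕ) (x : V) : ℝ :=
  Real.cos ((Mn N n : ℝ) * lf (ev e) x)

theorem Cm_eq (e : Fin 6) (n : ℕ) (x : V) :
    Cm N e n x = Real.cos (2 * Real.pi * ph ((Mn N n : ℤ) • ev e) x) := by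
  unfold Cm; rw [arg_eq]

theorem Cm_cont (e : Fin 6) (n : ℕ) : Continuous (Cm N e n) := by
  unfold Cm
  exact Real.continuous_cos.comp (continuous_const.mul (lf (ev e)).continuous)

theorem abs_Cm_le (e : Fin 6) (n : ℕ) (x : V) : |Cm N e n x| ≤ 1 := Real.abs_cos_le_one _

/-- the field of the cascade at a fixed time, with the amplitudes `a e n` -/
noncomputable def Wf (N : ℕ) (a : Fin 6 → ℕ → ℝ) (x : V) : ℝ := ∑ e, ∑' n, a e n * Cm N e n x

/-- summable amplitudes -/
def Sa (a : Fin 6 → ℕ → ℝ) : Prop := ∀ e, Summable fun n => |a e n|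

theorem Sa.summable {a : Fin 6 → ℕ → ℝ} (ha : Sa a) (e : Fin 6) (x : V) :
    Summable fun n => a e n * Cm N e n x := by
  refine Summable.of_norm_bounded (g := fun n => |a e n|) (ha e) fun n => ?_
  rw [norm_mul, Real.norm_eq_abs, Real.norm_eq_abs]
  exact mul_le_of_le_one_right (abs_nonneg _) (abs_Cm_le _ _ _)

theorem fr_Cm (e : Fin 6) (n : ℕ) (k : K3) : fr (Cm N e n) k
    = ((if k = (Mn N n : ℤ) • ev e then 1 else 0)
      + (if k = -((Mn N n : ℤ) • ev e) then 1 else 0)) / 2 := by
  have : Cm N e n = fun x => Real.cos (2 * Real.pi * ph ((Mn N n : ℤ) • ev e) x) :=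
    funext fun x => Cm_eq e n x
  rw [this, fr_cos]

theorem hasSum_fr {a : Fin 6 → ℕ → ℝ} (ha : Sa a) (e : Fin 6) (k : K3) :
    HasSum (fun n => (a e n : ℂ) * fr (Cm N e n) k)
      (fr (fun x => ∑' n, a e n * Cm N e n x) k) := by
  have hint : ∀ n, Integrable (fun x => ee (-k) x * ((a e n * Cm N e n x : ℝ) : ℂ))
      (volume.restrict cube) := fun n =>
    integrableOn_cube ((ee_continuous _).mul (Complex.continuous_ofReal.comp
      (continuous_const.mul (Cm_cont e n))))
  have hs : Summable fun n => ∫ x in cube, ‖ee (-k) x * ((a e n * Cm N e n x : ℝ) : ℂ)‖ := by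
    refine Summable.of_nonneg_of_le (f := fun n : ℕ => |a e n|)
      (fun n => integral_nonneg fun x => norm_nonneg _) (fun n => ?_) (ha e)
    calc ∫ x in cube, ‖ee (-k) x * ((a e n * Cm N e n x : ℝ) : ℂ)‖
        ≤ ∫ x in cube, |a e n| := by
          refine integral_mono (hint n).norm (integrableOn_cube continuous_const) fun x => ?_
          simp only
          rw [norm_mul, norm_ee, one_mul, Complex.norm_real, Real.norm_eq_abs, abs_mul]
          exact mul_le_of_le_one_right (abs_nonneg _) (abs_Cm_le _ _ _)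
      _ = |a e n| := by
          rw [setIntegral_const]
          simp [Measure.real, volume_cube]
  have key := hasSum_integral_of_summable_integral_norm hint hs
  have e1 : ∀ n, (∫ x in cube, ee (-k) x * ((a e n * Cm N e n x : ℝ) : ℂ))
      = (a e n : ℂ) * fr (Cm N e n) k := by
    intro n
    unfold fr fc
    rw [← integral_const_mul]
    congr 1
    funext x
    push_cast
    ring
  simp_rw [e1] at key
  have e2 : (∫ x in cube, ∑' n, ee (-k) x * ((a e n * Cm N e n x : ℝ) : ℂ))
      = fr (fun x => ∑' n, a e n * Cm N e n x) k := by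
    unfold fr fc
    congr 1
    funext x
    rw [tsum_mul_left]
    simp only [Complex.ofReal_tsum]
  rwa [e2] at key

theorem term_cont {a : Fin 6 → ℕ → ℝ} (ha : Sa a) (e : Fin 6) :
    Continuous fun x => ∑' n, a e n * Cm N e n x := by
  refine continuous_tsum (u := fun n => |a e n|)
    (fun n => continuous_const.mul (Cm_cont e n)) (ha e) fun n x => ?_
  rw [norm_mul, Real.norm_eq_abs, Real.norm_eq_abs]
  exact mul_le_of_le_one_right (abs_nonneg _) (abs_Cm_le _ _ _)

theorem fr_sum {s : Finset (Fin 6)} {f : Fin 6 → V → ℝ} (hf : ∀ e, Continuous (f e)) (k : K3) :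
    fr (fun x => ∑ e ∈ s, f e x) k = ∑ e ∈ s, fr (f e) k := by
  classical
  induction s using Finset.induction_on with
  | empty =>
    simp only [Finset.sum_empty]
    unfold fr fc; simp
  | insert e s he ih =>
    simp only [Finset.sum_insert he]
    rw [fr_add (hf e) (continuous_finsetSum _ fun i _ => hf i), ih]

/-- the Fourier coefficients of the field -/
theorem fr_Wf (hN : 0 < N) {a : Fin 6 → ℕ → ℝ} (ha : Sa a) (e : Fin 6) (n : ℕ) {k : K3}
    (hk : k = (Mn N n : ℤ) • ev e ∨ k = -((Mn N n : ℤ) • ev e)) :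
    fr (Wf N a) k = (a e n : ℂ) / 2 := by
  have hM : ∀ n, (0 : ℤ) < Mn N n := fun n => by exact_mod_cast Mn_pos hN n
  have h1 : fr (Wf N a) k = ∑ e', ∑' m, (a e' m : ℂ) * fr (Cm N e' m) k := by
    have : Wf N a = fun x => ∑ e ∈ Finset.univ, ∑' n, a e n * Cm N e n x := rfl
    rw [this, fr_sum (fun e' => term_cont ha e')]
    exact Finset.sum_congr rfl fun e' _ => (hasSum_fr ha e' k).tsum_eq.symm
  have h2 : ∀ e' m, fr (Cm N e' m) k = if e' = e ∧ m = n then 1 / 2 else 0 := by
    intro e' m
    rw [fr_Cm]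
    by_cases hem : e' = e ∧ m = n
    · obtain ⟨rfl, rfl⟩ := hem
      have hR : (if e' = e' ∧ m = m then (1 / 2 : ℂ) else 0) = 1 / 2 := if_pos ⟨rfl, rfl⟩
      rw [hR]
      rcases hk with hk | hk
      · have h3 : ¬ k = -((Mn N m : ℤ) • ev e') := fun h => by
          rw [hk] at h
          exact smul_ev_ne_neg (hM m) (hM m) e' e' h
        rw [if_pos hk, if_neg h3]
        norm_num
      · have h3 : ¬ k = (Mn N m : ℤ) • ev e' := fun h => by
          rw [hk] at h
          exact smul_ev_ne_neg (hM m) (hM m) e' e' h.symm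
        rw [if_pos hk, if_neg h3]
        norm_num
    · rw [if_neg hem]
      have h3 : k ≠ (Mn N m : ℤ) • ev e' := by
        intro h
        rcases hk with hk | hk
        · rw [hk] at h
          obtain ⟨h4, h5⟩ := smul_ev_eq (hM n) (hM m) e e' h
          exact hem ⟨h4.symm, (Mn_inj hN (by exact_mod_cast h5)).symm⟩
        · rw [hk] at h
          exact smul_ev_ne_neg (hM m) (hM n) e' e h.symm
      have h4 : k ≠ -((Mn N m : ℤ) • ev e') := by
        intro h
        rcases hk with hk | hk
        · rw [hk] at h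
          exact smul_ev_ne_neg (hM n) (hM m) e e' h
        · rw [hk] at h
          obtain ⟨h4, h5⟩ := smul_ev_eq (hM n) (hM m) e e' (neg_injective h)
          exact hem ⟨h4.symm, (Mn_inj hN (by exact_mod_cast h5)).symm⟩
      rw [if_neg h3, if_neg h4]
      norm_num
  rw [h1]
  simp_rw [h2]
  have h3 : ∀ e', ∑' m, (a e' m : ℂ) * (if e' = e ∧ m = n then 1 / 2 else 0)
      = if e' = e then (a e n : ℂ) / 2 else 0 := by
    intro e'
    by_cases he : e' = e
    · subst he
      rw [if_pos rfl, tsum_eq_single n (fun m hm => by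
        rw [if_neg (fun h => hm h.2), mul_zero]), if_pos ⟨rfl, rfl⟩]
      ring
    · rw [if_neg he]
      have : ∀ m, (a e' m : ℂ) * (if e' = e ∧ m = n then 1 / 2 else 0) = 0 := fun m => by
        rw [if_neg (fun h => he h.1), mul_zero]
      simp_rw [this]
      exact tsum_zero
  simp_rw [h3]
  simp

end Pool.Agent.N977.Q
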