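import Pool.Agent.N977.Q.Th7

/-!
The flux of energy of the Navier-Stokes nonlinearity.
-/

open MeasureTheory Set Filter Topology
open scoped ContDiff ComplexConjugate

namespace Pool.Agent.N977.Q

open H459R3.NS
open Pool.Agent.N977.K (SolK cmp)

theorem len_add_le (k l : K3) : len (k + l) ≤ len k + len l := by
  have hk := len_nonneg k
  have hl := len_nonneg l
  apply Real.sqrt_le_iff.2
  refine ⟨by positivity, ?_⟩
  have h1 := Finset.sum_mul_sq_le_sq_mul_sq Finset.univ (fun j => (k j : ℝ)) (fun j => (l j : ℝ))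
  rw [← len_sq k, ← len_sq l, ← mul_pow] at h1
  have h2 := abs_le_of_sq_le_sq' h1 (by positivity) |>.2
  have h3 : ∑ j, (((k + l) j : ℤ) : ℝ) ^ 2
      = (∑ j, (k j : ℝ) ^ 2) + 2 * (∑ j, (k j : ℝ) * (l j : ℝ)) + ∑ j, (l j : ℝ) ^ 2 := by
    rw [Finset.mul_sum, ← Finset.sum_add_distrib, ← Finset.sum_add_distrib]
    refine Finset.sum_congr rfl fun j _ => ?_
    rw [Pi.add_apply]
    push_cast
    ring
  rw [h3, ← len_sq k, ← len_sq l]
  nlinarith

/-- the sum of the low-frequency coefficients -/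
noncomputable def S1 (n : ℕ) (v : V → V) : ℝ := ∑ k ∈ Bl n, un v k

theorem S1_nonneg (n : ℕ) (v : V → V) : 0 ≤ S1 n v := Finset.sum_nonneg fun k _ => un_nonneg _ _

theorem S1_mono (n : ℕ) (v : V → V) : S1 n v ≤ S1 (n + 1) v := by
  refine Finset.sum_le_sum_of_subset_of_nonneg (fun k hk => ?_) fun k _ _ => un_nonneg _ _
  rw [mem_Bl] at hk ⊢
  have : (2 : ℝ) ^ n ≤ 2 ^ (n + 1) := pow_le_pow_right₀ (by norm_num) (Nat.le_succ n)
  linarith

theorem abs_le_of_fr {f : V → ℝ} (hf : SP f) {n : ℕ} {v : V → V}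
    (h0 : ∀ k, k ∉ Bl n → fr f k = 0) (h1 : ∀ k, ‖fr f k‖ ≤ un v k) (x : V) : |f x| ≤ S1 n v := by
  have h2 : ‖S (fr f) x‖ ≤ ∑' k, ‖fr f k‖ := norm_S_le (rap_fr hf).summable x
  rw [S_fr hf, Complex.norm_real, Real.norm_eq_abs] at h2
  refine h2.trans ?_
  rw [tsum_eq_sum (s := Bl n) fun k hk => by rw [h0 k hk, norm_zero]]
  exact Finset.sum_le_sum fun k _ => h1 k

theorem abs_pd_le_of_fr {f : V → ℝ} (hf : SP f) {n : ℕ} {v : V → V}
    (h0 : ∀ k, k ∉ Bl n → fr f k = 0) (h1 : ∀ k, ‖fr f k‖ ≤ un v k) (j : Fin 3) (x : V) :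
    |pd j f x| ≤ 2 * Real.pi * 2 ^ n * S1 n v := by
  have h2 : ‖S (fr (pd j f)) x‖ ≤ ∑' k, ‖fr (pd j f) k‖ := norm_S_le (rap_fr (hf.pd j)).summable x
  rw [S_fr (hf.pd j), Complex.norm_real, Real.norm_eq_abs] at h2
  refine h2.trans ?_
  rw [tsum_eq_sum (s := Bl n) fun k hk => by rw [fr_pd' hf, h0 k hk, mul_zero, norm_zero]]
  unfold S1
  rw [Finset.mul_sum]
  refine Finset.sum_le_sum fun k hk => ?_
  rw [mem_Bl] at hk
  rw [fr_pd' hf, norm_mul, norm_mul, norm_mul, norm_mul, Complex.norm_I]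
  simp only [Complex.norm_ofNat, Complex.norm_real, Real.norm_eq_abs, Complex.norm_intCast,
    mul_one]
  rw [abs_of_pos Real.pi_pos]
  have h3 := (abs_le_len k j).trans hk.le
  exact mul_le_mul (mul_le_mul_of_nonneg_left h3 (by positivity)) (h1 k) (norm_nonneg _)
    (by positivity)

theorem tri_bound {f g h : V → ℝ} (hf : SP f) (hg : SP g) (hh : SP h) {A r : ℝ} (hr : 0 < r)
    (hA : ∀ x, |f x| ≤ A) :
    |∫ x in cube, f x * (g x * h x)|
      ≤ A / 2 * (r⁻¹ * (∫ x in cube, g x ^ 2) + r * ∫ x in cube, h x ^ 2) := by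
  have hA0 : 0 ≤ A := (abs_nonneg _).trans (hA 0)
  have i1 : IntegrableOn (fun x => g x ^ 2) cube := by
    have := (hg.mul hg).int
    simpa [sq] using this
  have i2 : IntegrableOn (fun x => h x ^ 2) cube := by
    have := (hh.mul hh).int
    simpa [sq] using this
  have h1 : |∫ x in cube, f x * (g x * h x)| ≤ ∫ x in cube, |f x * (g x * h x)| :=
    abs_integral_le_integral_abs
  refine h1.trans ?_
  have h2 : (∫ x in cube, |f x * (g x * h x)|)
      ≤ ∫ x in cube, A / 2 * (r⁻¹ * g x ^ 2 + r * h x ^ 2) := by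
    refine integral_mono (hf.mul (hg.mul hh)).int.abs
      (((i1.const_mul _).add (i2.const_mul _)).const_mul _) fun x => ?_
    simp only
    rw [abs_mul, abs_mul]
    have h3 : |g x| * |h x| ≤ (r⁻¹ * g x ^ 2 + r * h x ^ 2) / 2 := by
      rw [← sq_abs (g x), ← sq_abs (h x)]
      have h4 : 0 ≤ r⁻¹ * (|g x| - r * |h x|) ^ 2 := by positivity
      have h5 : r⁻¹ * (|g x| - r * |h x|) ^ 2
          = r⁻¹ * |g x| ^ 2 + r * |h x| ^ 2 - 2 * (|g x| * |h x|) := by
        field_simp
        ring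
      linarith
    calc |f x| * (|g x| * |h x|) ≤ A * ((r⁻¹ * g x ^ 2 + r * h x ^ 2) / 2) :=
          mul_le_mul (hA x) h3 (by positivity) hA0
      _ = _ := by ring
  refine h2.trans (le_of_eq ?_)
  rw [integral_const_mul, integral_add (i1.const_mul _) (i2.const_mul _), integral_const_mul,
    integral_const_mul]

/-- orthogonality of low and high frequencies -/
theorem tri_zero {f g h : V → ℝ} (hf : SP f) (hg : SP g) (hh : SP h) {n : ℕ}
    (h1 : ∀ k, k ∉ Bl n → fr f k = 0) (h2 : ∀ k, k ∉ Bl n → fr g k = 0)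
    (h3 : ∀ k ∈ Bl (n + 1), fr h k = 0) : ∫ x in cube, f x * (g x * h x) = 0 := by
  have h4 := tri_fr hf hg hh
  have h5 : Tri (fr f) (fr g) (fr h) = 0 := by
    unfold Tri
    refine (tsum_congr fun p => ?_).trans tsum_zero
    by_cases ha : p.1 ∈ Bl n
    · by_cases hb : p.2 ∈ Bl n
      · rw [h3 _ ?_, mul_zero]
        rw [mem_Bl] at ha hb ⊢
        have h6 := len_add_le (-p.1) (-p.2)
        rw [len_neg, len_neg, ← sub_eq_add_neg] at h6
        rw [pow_succ]
        linarith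
      · rw [h2 _ hb]; ring
    · rw [h1 _ ha]; ring
  rw [h5] at h4
  exact_mod_cast h4.symm

/-- the transfer of energy by the convection term -/
noncomputable def tc (v : V → V) (k : K3) : ℝ :=
  ∑ i, (conj (fr (fun x => v x i) k) * fr (conv (fun i y => v y i) i) k).re

variable {v : V → V} {n M : ℕ}

theorem conv_sp (hv : SPV v) (i : Fin 3) : SP (conv (fun i y => v y i) i) :=
  sp_conv (v := fun i y => v y i) (spv_sp hv) i

theorem test_conv (hv : SPV v) (n : ℕ) :
    ∑ i, ∫ x in cube, conv (fun i y => v y i) i x * Pn n v x i = ∑ k ∈ Bl n, tc v k := by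
  unfold tc
  rw [Finset.sum_comm]
  refine Finset.sum_congr rfl fun i _ => ?_
  unfold Pn
  simp_rw [Finset.mul_sum]
  rw [integral_finsetSum _ fun k _ => ((conv_sp hv i).mul (Rm_sp k _)).int]
  refine Finset.sum_congr rfl fun k _ => ?_
  have h1 := int_Rm_mul k (fr (fun y => v y i) k) (conv_sp hv i).cont
  have h2 : (∫ x in cube, conv (fun i y => v y i) i x * Rm k (fr (fun y => v y i) k) x)
      = ∫ x in cube, Rm k (fr (fun y => v y i) k) x * conv (fun i y => v y i) i x := by
    congr 1; funext x; ring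
  rw [h2, h1, fr_neg' (conv_sp hv i).cont]
  rw [← Complex.conj_re, map_mul, Complex.conj_conj]

/-- the middle frequencies -/
noncomputable def Rn (n : ℕ) (v : V → V) (x : V) : V := Pn (n + 1) v x - Pn n v x

theorem Rn_spv (n : ℕ) (v : V → V) : SPV (Rn n v) :=
  sp_spv fun i => (spv_sp (Pn_spv (n + 1) v) i).sub (spv_sp (Pn_spv n v) i)

theorem Bl_sub {k : K3} (hk : k ∈ Bl n) : k ∈ Bl (n + 1) := by
  rw [mem_Bl] at hk ⊢
  have : (2 : ℝ) ^ n ≤ 2 ^ (n + 1) := pow_le_pow_right₀ (by norm_num) (Nat.le_succ n)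
  linarith

open Classical in
theorem fr_Rn (hv : SPV v) (n : ℕ) (i : Fin 3) (k : K3) : fr (fun x => Rn n v x i) k
    = if k ∈ Bl (n + 1) ∧ k ∉ Bl n then fr (fun x => v x i) k else 0 := by
  have e : (fun x => Rn n v x i) = fun x => Pn (n + 1) v x i - Pn n v x i := rfl
  rw [e, fr_sub (spv_sp (Pn_spv _ v) i).cont (spv_sp (Pn_spv n v) i).cont, fr_Pn hv, fr_Pn hv]
  by_cases h1 : k ∈ Bl n
  · rw [if_pos (Bl_sub h1), if_pos h1, if_neg (fun h => h.2 h1), sub_self]
  · by_cases h2 : k ∈ Bl (n + 1)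
    · rw [if_pos h2, if_neg h1, if_pos ⟨h2, h1⟩, sub_zero]
    · rw [if_neg h2, if_neg h1, if_neg (fun h => h2 h.1), sub_zero]

open Classical in
theorem un_Rn (hv : SPV v) (n : ℕ) (k : K3) : un (Rn n v) k
    = if k ∈ Bl (n + 1) ∧ k ∉ Bl n then un v k else 0 := by
  unfold un
  simp_rw [fr_Rn hv]
  split_ifs <;> simp

/-- the identity for the flux -/
theorem flux_conv (hv : SPV v) (hdiv : ∀ x, ∑ i, pd i (fun y => v y i) x = 0) (n : ℕ) :
    ∑ k ∈ Bl (n + 1), tc v k = -∑ i, ∑ j,
      ((∫ x in cube, Pn n v x j * (pd j (fun y => Rn n v y i) x * Qn (n + 1) v x i))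
      + (∫ x in cube, pd j (fun y => Pn (n + 1) v y i) x * (Rn n v x j * Qn (n + 1) v x i))
      + ∫ x in cube, pd j (fun y => Pn (n + 1) v y i) x
          * (Qn (n + 1) v x j * Qn (n + 1) v x i)) := by
  have hV : ∀ i, SP (fun y => v y i) := spv_sp hv
  have hP : ∀ i, SP (fun y => Pn (n + 1) v y i) := spv_sp (Pn_spv _ v)
  have hP' : ∀ i, SP (fun y => Pn n v y i) := spv_sp (Pn_spv _ v)
  have hR : ∀ i, SP (fun y => Rn n v y i) := spv_sp (Rn_spv n v)
  have hQ : ∀ i, SP (fun y => Qn (n + 1) v y i) := spv_sp (Qn_spv _ hv)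
  rw [← test_conv hv]
  have h1 : ∀ i, ∫ x in cube, conv (fun i y => v y i) i x * Pn (n + 1) v x i
      = -∑ j, ∫ x in cube, v x j * (Qn (n + 1) v x i * pd j (fun y => Pn (n + 1) v y i) x) := by
    intro i
    have a1 := int_press (v := fun i y => v y i) hV hdiv ((hV i).mul (hP i))
    have a2 := transport_zero (v := fun i y => v y i) hV hdiv (hP i)
    have a3 : ∫ x in cube, conv (fun i y => v y i) i x * Pn (n + 1) v x i
        = ∑ j, ∫ x in cube, (v x j * pd j (fun y => v y i) x) * Pn (n + 1) v x i := by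
      rw [← integral_finsetSum _ fun j _ => (((hV j).mul ((hV i).pd j)).mul (hP i)).int]
      congr 1
      funext x
      unfold conv
      rw [Finset.sum_mul]
    rw [a3, ← Finset.sum_neg_distrib]
    have a4 : ∀ j, (∫ x in cube, (v x j * pd j (fun y => v y i) x) * Pn (n + 1) v x i)
        = (∫ x in cube, v x j * pd j (fun y => v y i * Pn (n + 1) v y i) x)
          - (∫ x in cube, v x j * (Pn (n + 1) v x i * pd j (fun y => Pn (n + 1) v y i) x))
          - ∫ x in cube, v x j * (Qn (n + 1) v x i * pd j (fun y => Pn (n + 1) v y i) x) := by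
      intro j
      have i1 : IntegrableOn (fun x => v x j * pd j (fun y => v y i * Pn (n + 1) v y i) x) cube :=
        ((hV j).mul (((hV i).mul (hP i)).pd j)).int
      have i2 : IntegrableOn (fun x => v x j
          * (Pn (n + 1) v x i * pd j (fun y => Pn (n + 1) v y i) x)) cube :=
        ((hV j).mul ((hP i).mul ((hP i).pd j))).int
      have i3 : IntegrableOn (fun x => v x j
          * (Qn (n + 1) v x i * pd j (fun y => Pn (n + 1) v y i) x)) cube :=
        ((hV j).mul ((hQ i).mul ((hP i).pd j))).int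
      rw [← integral_sub i1 i2, ← integral_sub (isub i1 i2) i3]
      congr 1
      funext x
      rw [pd_mul (hV i) (hP i)]
      have : v x i = Pn (n + 1) v x i + Qn (n + 1) v x i := by
        unfold Qn
        simp
      rw [this]
      ring
    simp_rw [a4]
    rw [Finset.sum_sub_distrib, Finset.sum_sub_distrib, a1, a2, sub_zero, zero_sub,
      Finset.sum_neg_distrib]
  simp_rw [h1]
  rw [Finset.sum_neg_distrib]
  congr 1
  refine Finset.sum_congr rfl fun i _ => Finset.sum_congr rfl fun j _ => ?_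
  have h0 : ∫ x in cube, Pn n v x j * (pd j (fun y => Pn n v y i) x * Qn (n + 1) v x i) = 0 := by
    refine tri_zero (n := n) (hP' j) ((hP' i).pd j) (hQ i) (fun k hk => ?_) (fun k hk => ?_)
      fun k hk => ?_
    · rw [fr_Pn hv, if_neg hk]
    · rw [fr_pd' (hP' i), fr_Pn hv, if_neg hk, mul_zero]
    · rw [fr_Qn hv, if_pos hk]
  have i0 : IntegrableOn (fun x => Pn n v x j
      * (pd j (fun y => Pn n v y i) x * Qn (n + 1) v x i)) cube :=
    ((hP' j).mul (((hP' i).pd j).mul (hQ i))).int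
  have i1 : IntegrableOn (fun x => Pn n v x j
      * (pd j (fun y => Rn n v y i) x * Qn (n + 1) v x i)) cube :=
    ((hP' j).mul (((hR i).pd j).mul (hQ i))).int
  have i2 : IntegrableOn (fun x => pd j (fun y => Pn (n + 1) v y i) x
      * (Rn n v x j * Qn (n + 1) v x i)) cube :=
    (((hP i).pd j).mul ((hR j).mul (hQ i))).int
  have i3 : IntegrableOn (fun x => pd j (fun y => Pn (n + 1) v y i) x
      * (Qn (n + 1) v x j * Qn (n + 1) v x i)) cube :=
    (((hP i).pd j).mul ((hQ j).mul (hQ i))).int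
  have e1 : (∫ x in cube, v x j * (Qn (n + 1) v x i * pd j (fun y => Pn (n + 1) v y i) x))
      = (∫ x in cube, Pn n v x j * (pd j (fun y => Pn n v y i) x * Qn (n + 1) v x i))
        + ((∫ x in cube, Pn n v x j * (pd j (fun y => Rn n v y i) x * Qn (n + 1) v x i))
        + (∫ x in cube, pd j (fun y => Pn (n + 1) v y i) x * (Rn n v x j * Qn (n + 1) v x i))
        + ∫ x in cube, pd j (fun y => Pn (n + 1) v y i) x
            * (Qn (n + 1) v x j * Qn (n + 1) v x i)) := by
    rw [← integral_add i1 i2, ← integral_add (iadd i1 i2) i3, ← integral_add i0 (iadd (iadd i1 i2) i3)]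
    congr 1
    funext x
    have b1 : v x j = Pn n v x j + Rn n v x j + Qn (n + 1) v x j := by
      unfold Qn Rn
      simp
    have b2 : pd j (fun y => Pn (n + 1) v y i) x
        = pd j (fun y => Pn n v y i) x + pd j (fun y => Rn n v y i) x := by
      have : (fun y => Rn n v y i) = fun y => Pn (n + 1) v y i - Pn n v y i := rfl
      rw [this, pd_sub' (hP i) (hP' i)]
      ring
    rw [b1, b2]
    ring
  rw [e1, h0, zero_add]

end Pool.Agent.N977.Q
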