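import Pool.Agent.N977.Q.Tw1

/-!
The estimate of the flux of energy of the Navier-Stokes nonlinearity.
-/

open MeasureTheory Set Filter Topology
open scoped ContDiff ComplexConjugate

namespace Pool.Agent.N977.Q

open H459R3.NS
open Pool.Agent.N977.K (SolK cmp)

variable {v : V → V} {n M : ℕ}

theorem EE_Qn (hv : SPV v) (n : ℕ) : ZZ n 0 1 v = (2 ^ n) ^ 2 * EE 0 (Qn n v) := by
  classical
  unfold ZZ EE
  rw [← tsum_mul_left]
  refine tsum_congr fun k => ?_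
  rw [un_Qn hv]
  split_ifs with hk
  · simp
  · rw [mem_Bl, not_lt] at hk
    have h2n : (0 : ℝ) < 2 ^ n := by positivity
    have hl : 0 < len k := by linarith
    rw [mul_zero, pow_zero, one_mul, mul_one, zero_add, div_pow]
    field_simp

theorem ann_le {k : K3} (hk : k ∉ Bl n) (M : ℕ) (hk1 : k ∈ Bl (n + 1)) :
    1 ≤ 4 ^ M * (len k / 2 ^ (n + 1)) ^ (2 * M) := by
  rw [mem_Bl, not_lt] at hk
  have h1 : 1 / 2 ≤ len k / 2 ^ (n + 1) := by
    rw [le_div_iff₀ (by positivity), pow_succ]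
    linarith
  have h2 : (1 / 2 : ℝ) ^ (2 * M) ≤ (len k / 2 ^ (n + 1)) ^ (2 * M) :=
    pow_le_pow_left₀ (by norm_num) h1 _
  have h3 : (4 : ℝ) ^ M * (1 / 2) ^ (2 * M) = 1 := by
    rw [pow_mul, ← mul_pow]
    norm_num
  calc (1 : ℝ) = 4 ^ M * (1 / 2) ^ (2 * M) := h3.symm
    _ ≤ _ := mul_le_mul_of_nonneg_left h2 (by positivity)

theorem EE_Rn (hv : SPV v) (n M : ℕ) :
    EE 1 (Rn n v) ≤ 4 ^ M * XX (n + 1) M 1 v ∧
    (2 ^ (n + 1)) ^ 2 * EE 0 (Rn n v) ≤ 4 * 4 ^ M * XX (n + 1) M 1 v := by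
  classical
  have h2n : (0 : ℝ) < 2 ^ (n + 1) := by positivity
  have h0 : ∀ k, k ∉ Bl (n + 1) → un (Rn n v) k = 0 := fun k hk => by
    rw [un_Rn hv, if_neg (fun h => hk h.1)]
  constructor
  · unfold EE XX
    rw [tsum_eq_sum (s := Bl (n + 1)) fun k hk => by rw [h0 k hk]; ring, Finset.mul_sum]
    refine Finset.sum_le_sum fun k hk => ?_
    rw [un_Rn hv]
    have hl := len_nonneg k
    by_cases hk' : k ∈ Bl n
    · rw [if_neg (fun h => h.2 hk')]
      have : 0 ≤ 4 ^ M * ((len k / 2 ^ (n + 1)) ^ (2 * M) * len k ^ (2 * 1) * un v k ^ 2) := by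
        positivity
      simpa using this
    · rw [if_pos ⟨hk, hk'⟩]
      have h1 := ann_le hk' M hk
      calc len k ^ (2 * 1) * un v k ^ 2 = 1 * (len k ^ (2 * 1) * un v k ^ 2) := (one_mul _).symm
        _ ≤ (4 ^ M * (len k / 2 ^ (n + 1)) ^ (2 * M)) * (len k ^ (2 * 1) * un v k ^ 2) :=
            mul_le_mul_of_nonneg_right h1 (by positivity)
        _ = _ := by ring
  · unfold EE XX
    rw [tsum_eq_sum (s := Bl (n + 1)) fun k hk => by rw [h0 k hk]; ring, Finset.mul_sum,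
      Finset.mul_sum]
    refine Finset.sum_le_sum fun k hk => ?_
    rw [un_Rn hv]
    have hl := len_nonneg k
    by_cases hk' : k ∈ Bl n
    · rw [if_neg (fun h => h.2 hk')]
      have : 0 ≤ 4 * 4 ^ M * ((len k / 2 ^ (n + 1)) ^ (2 * M) * len k ^ (2 * 1) * un v k ^ 2) := by
        positivity
      simpa using this
    · rw [if_pos ⟨hk, hk'⟩]
      have h1 := ann_le hk' M hk
      have h2 : ((2 : ℝ) ^ (n + 1)) ^ 2 ≤ 4 * len k ^ 2 := by
        rw [mem_Bl, not_lt] at hk'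
        have h3 : (2 : ℝ) ^ (n + 1) ≤ 2 * len k := by rw [pow_succ]; linarith
        calc ((2 : ℝ) ^ (n + 1)) ^ 2 ≤ (2 * len k) ^ 2 := pow_le_pow_left₀ h2n.le h3 2
          _ = _ := by ring
      rw [mul_zero, pow_zero, one_mul, mul_one]
      calc ((2 : ℝ) ^ (n + 1)) ^ 2 * un v k ^ 2 ≤ (4 * len k ^ 2) * un v k ^ 2 :=
            mul_le_mul_of_nonneg_right h2 (sq_nonneg _)
        _ = 1 * ((4 * len k ^ 2) * un v k ^ 2) := (one_mul _).symm
        _ ≤ (4 ^ M * (len k / 2 ^ (n + 1)) ^ (2 * M)) * ((4 * len k ^ 2) * un v k ^ 2) :=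
            mul_le_mul_of_nonneg_right h1 (by positivity)
        _ = _ := by ring

theorem nsflux (hv : SPV v) (hdiv : ∀ x, ∑ i, pd i (fun y => v y i) x = 0) (n M : ℕ) :
    |∑ k ∈ Bl (n + 1), tc v k|
      ≤ 100 * 4 ^ M * (S1 (n + 1) v / 2 ^ (n + 1)) * (XX (n + 1) M 1 v + ZZ (n + 1) 0 1 v) := by
  have hP : ∀ i, SP (fun y => Pn (n + 1) v y i) := spv_sp (Pn_spv _ v)
  have hP' : ∀ i, SP (fun y => Pn n v y i) := spv_sp (Pn_spv _ v)
  have hR : ∀ i, SP (fun y => Rn n v y i) := spv_sp (Rn_spv n v)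
  have hQ : ∀ i, SP (fun y => Qn (n + 1) v y i) := spv_sp (Qn_spv _ hv)
  have h2n : (0 : ℝ) < 2 ^ (n + 1) := by positivity
  obtain ⟨r1, r2⟩ := EE_Rn hv n M
  have r3 := EE_Qn hv (n + 1)
  have r4 := EE_zero (Rn_spv n v)
  have r5 := EE_zero (Qn_spv (n + 1) hv)
  have r6 := EE_one (Rn_spv n v)
  set r : ℝ := 2 ^ (n + 1) with hr
  set s := S1 (n + 1) v with hs
  set X := XX (n + 1) M 1 v with hX
  set Z := ZZ (n + 1) 0 1 v with hZ
  have hX0 : 0 ≤ X := XX_nonneg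
  have hZ0 : 0 ≤ Z := ZZ_nonneg
  have hs0 : 0 ≤ s := S1_nonneg _ _
  have hπ := Real.pi_pos
  set A : Fin 3 → Fin 3 → ℝ := fun i j => ∫ x in cube, pd j (fun y => Rn n v y i) x ^ 2 with hA
  set B : Fin 3 → ℝ := fun i => ∫ x in cube, Rn n v x i ^ 2 with hB
  set C : Fin 3 → ℝ := fun i => ∫ x in cube, Qn (n + 1) v x i ^ 2 with hC
  have bd1 : ∀ j x, |Pn n v x j| ≤ s := fun j x =>
    (abs_le_of_fr (v := v) (hP' j) (fun k hk => by rw [fr_Pn hv, if_neg hk])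
      (fun k => by
        rw [fr_Pn hv]
        split_ifs
        · exact fr_le_un v k j
        · rw [norm_zero]; exact un_nonneg _ _) x).trans (S1_mono n v)
  have bd2 : ∀ i j x, |pd j (fun y => Pn (n + 1) v y i) x| ≤ 2 * Real.pi * r * s := fun i j x =>
    abs_pd_le_of_fr (v := v) (hP i) (fun k hk => by rw [fr_Pn hv, if_neg hk])
      (fun k => by
        rw [fr_Pn hv]
        split_ifs
        · exact fr_le_un v k i
        · rw [norm_zero]; exact un_nonneg _ _) j x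
  rw [flux_conv hv hdiv, abs_neg]
  have t1 : ∀ i j, |∫ x in cube, Pn n v x j * (pd j (fun y => Rn n v y i) x * Qn (n + 1) v x i)|
      ≤ s / 2 * (r⁻¹ * A i j + r * C i) := fun i j =>
    tri_bound (hP' j) ((hR i).pd j) (hQ i) h2n (bd1 j)
  have t2 : ∀ i j, |∫ x in cube, pd j (fun y => Pn (n + 1) v y i) x
      * (Rn n v x j * Qn (n + 1) v x i)| ≤ 2 * Real.pi * r * s / 2 * (1⁻¹ * B j + 1 * C i) :=
    fun i j => tri_bound ((hP i).pd j) (hR j) (hQ i) one_pos (bd2 i j)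
  have t3 : ∀ i j, |∫ x in cube, pd j (fun y => Pn (n + 1) v y i) x
      * (Qn (n + 1) v x j * Qn (n + 1) v x i)| ≤ 2 * Real.pi * r * s / 2 * (1⁻¹ * C j + 1 * C i) :=
    fun i j => tri_bound ((hP i).pd j) (hQ j) (hQ i) one_pos (bd2 i j)
  have t4 := (Finset.abs_sum_le_sum_abs _ _).trans (Finset.sum_le_sum fun i (_ : i ∈ Finset.univ) =>
    (Finset.abs_sum_le_sum_abs (fun j =>
      ((∫ x in cube, Pn n v x j * (pd j (fun y => Rn n v y i) x * Qn (n + 1) v x i))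
      + (∫ x in cube, pd j (fun y => Pn (n + 1) v y i) x * (Rn n v x j * Qn (n + 1) v x i))
      + ∫ x in cube, pd j (fun y => Pn (n + 1) v y i) x
          * (Qn (n + 1) v x j * Qn (n + 1) v x i))) Finset.univ).trans
      (Finset.sum_le_sum fun j (_ : j ∈ Finset.univ) =>
        ((abs_add_le _ _).trans (add_le_add (abs_add_le _ _) le_rfl)).trans
          (add_le_add (add_le_add (t1 i j) (t2 i j)) (t3 i j))))
  refine t4.trans ?_
  -- the bounds of the norms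
  have q1 : ∑ i, C i = Z / r ^ 2 := by
    rw [eq_div_iff (by positivity), ← r5, r3]; ring
  have q2 : ∑ i, B i ≤ 4 * 4 ^ M * X / r ^ 2 := by
    rw [le_div_iff₀ (by positivity), ← r4]
    linarith
  have q3 : ∑ i, ∑ j, A i j ≤ (2 * Real.pi) ^ 2 * (4 ^ M * X) := by
    rw [← r6]
    exact mul_le_mul_of_nonneg_left r1 (by positivity)
  have q4 : ∑ i, ∑ j, (s / 2 * (r⁻¹ * A i j + r * C i)
      + 2 * Real.pi * r * s / 2 * (1⁻¹ * B j + 1 * C i)
      + 2 * Real.pi * r * s / 2 * (1⁻¹ * C j + 1 * C i))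
      = s / 2 * (r⁻¹ * (∑ i, ∑ j, A i j) + 3 * r * ∑ i, C i)
        + Real.pi * r * s * (3 * (∑ i, B i) + 9 * ∑ i, C i) := by
    simp only [Fin.sum_univ_three]
    ring
  rw [q4, q1]
  have hr0 : 0 ≤ r := h2n.le
  have m1 : s / 2 * (r⁻¹ * (∑ i, ∑ j, A i j) + 3 * r * (Z / r ^ 2))
      ≤ s / r * ((2 * Real.pi) ^ 2 / 2 * (4 ^ M * X) + 3 / 2 * Z) := by
    calc s / 2 * (r⁻¹ * (∑ i, ∑ j, A i j) + 3 * r * (Z / r ^ 2))
        ≤ s / 2 * (r⁻¹ * ((2 * Real.pi) ^ 2 * (4 ^ M * X)) + 3 * r * (Z / r ^ 2)) := by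
          apply mul_le_mul_of_nonneg_left _ (by positivity)
          have := mul_le_mul_of_nonneg_left q3 (show 0 ≤ r⁻¹ by positivity)
          linarith
      _ = _ := by field_simp
  have m2 : Real.pi * r * s * (3 * (∑ i, B i) + 9 * (Z / r ^ 2))
      ≤ s / r * (Real.pi * (12 * (4 ^ M * X) + 9 * Z)) := by
    calc Real.pi * r * s * (3 * (∑ i, B i) + 9 * (Z / r ^ 2))
        ≤ Real.pi * r * s * (3 * (4 * 4 ^ M * X / r ^ 2) + 9 * (Z / r ^ 2)) :=
          mul_le_mul_of_nonneg_left (by linarith) (by positivity)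
      _ = _ := by field_simp; ring
  have hsr : 0 ≤ s / r := by positivity
  have hpi : Real.pi < 3.15 := Real.pi_lt_d2
  have h4 : (1 : ℝ) ≤ 4 ^ M := one_le_pow₀ (by norm_num)
  have m3 : ((2 * Real.pi) ^ 2 / 2 * (4 ^ M * X) + 3 / 2 * Z)
      + Real.pi * (12 * (4 ^ M * X) + 9 * Z) ≤ 100 * 4 ^ M * (X + Z) := by
    have h5 : (2 * Real.pi) ^ 2 ≤ 40 := by nlinarith
    have hMX : 0 ≤ 4 ^ M * X := by positivity
    have h6 : Z ≤ 4 ^ M * Z := le_mul_of_one_le_left hZ0 h4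
    have h7 : (2 * Real.pi) ^ 2 / 2 * (4 ^ M * X) ≤ 20 * (4 ^ M * X) :=
      mul_le_mul_of_nonneg_right (by linarith) hMX
    have h8 : Real.pi * (12 * (4 ^ M * X) + 9 * Z) ≤ 4 * (12 * (4 ^ M * X) + 9 * Z) :=
      mul_le_mul_of_nonneg_right (by linarith) (by positivity)
    nlinarith
  calc _ ≤ s / r * ((2 * Real.pi) ^ 2 / 2 * (4 ^ M * X) + 3 / 2 * Z)
        + s / r * (Real.pi * (12 * (4 ^ M * X) + 9 * Z)) := add_le_add m1 m2
    _ = s / r * (((2 * Real.pi) ^ 2 / 2 * (4 ^ M * X) + 3 / 2 * Z)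
        + Real.pi * (12 * (4 ^ M * X) + 9 * Z)) := by ring
    _ ≤ s / r * (100 * 4 ^ M * (X + Z)) := mul_le_mul_of_nonneg_left m3 hsr
    _ = _ := by ring

end Pool.Agent.N977.Q
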