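import Pool.Agent.N977.Q.Tw2

/-!
The evolution of the weighted energies with the Navier-Stokes nonlinearity.
-/

open MeasureTheory Set Filter Topology
open scoped ContDiff ComplexConjugate

namespace Pool.Agent.N977.Q

open H459R3.NS
open Pool.Agent.N977.K (SolK cmp)

variable {ν T σ p δ : ℝ} {u : ℝ → V → V} {q : ℝ → V → ℝ} {K : (V → V) → (V → V) → V → V}
variable {M h : ℕ} {w : ℕ → ℝ}

/-- the evolution of the energy of a mode -/
theorem un_deriv' (hK : Low σ p δ K) (hs : SolK ν T K u q) {t : ℝ} (ht : t ∈ Ioo 0 T) (k : K3) :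
    HasDerivAt (fun s => un (u s) k ^ 2)
      (-(2 * ν * (2 * Real.pi) ^ 2 * (len k ^ 2 * un (u t) k ^ 2))
        + 2 * (tk K (u t) k - tc (u t) k)) t := by
  have htI := Ioo_subset_Ico_self ht
  have hU : ∀ i, SP (fun y => u t y i) := fun i => sol_sp hs htI i
  have hUs : SPV (u t) := sp_spv hU
  have hKs := hK.smooth _ _ hUs hUs
  have hq := sol_sp_p hs htI
  set g : Fin 3 → V → ℝ := fun i x => ν * lap (fun y => u t y i) x
      - conv (fun i y => u t y i) i x - pd i (q t) x + K (u t) (u t) x i with hgdef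
  have hcv : ∀ i, SP (conv (fun i y => u t y i) i) := fun i => sp_conv hU i
  have hgc : ∀ i, Continuous (g i) := fun i =>
    ((((continuous_const.mul (hU i).lap.cont).sub (hcv i).cont).sub (hq.pd i).cont).add
      (spv_sp hKs i).cont)
  have h1 : ∀ i, HasDerivAt (fun s => ‖fr (fun x => u s x i) k‖ ^ 2)
      (2 * (conj (fr (fun x => u t x i) k) * fr (g i) k).re) t := fun i =>
    fr_deriv (f := fun s x => u s x i) (smooth_c hs i) ht
      (fun x => sol_hasDerivAt hs ht i x) (hgc i) k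
  have h2 := HasDerivAt.fun_sum (u := Finset.univ) fun i (_ : i ∈ Finset.univ) => h1 i
  have e0 : (fun s => un (u s) k ^ 2) = fun s => ∑ i, ‖fr (fun x => u s x i) k‖ ^ 2 :=
    funext fun s => un_sq _ _
  rw [e0]
  refine h2.congr_deriv ?_
  have e1 : ∀ i, fr (g i) k = -(ν * ((2 * Real.pi) ^ 2 * len k ^ 2) : ℝ) * fr (fun x => u t x i) k
      - fr (conv (fun i y => u t y i) i) k
      - 2 * Real.pi * Complex.I * (k i : ℂ) * fr (q t) k
      + fr (fun x => K (u t) (u t) x i) k := by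
    intro i
    have c1 : Continuous fun x => ν * lap (fun y => u t y i) x := continuous_const.mul (hU i).lap.cont
    have c2 : Continuous fun x => ν * lap (fun y => u t y i) x
      - conv (fun i y => u t y i) i x := c1.sub (hcv i).cont
    have c3 : Continuous fun x => ν * lap (fun y => u t y i) x
      - conv (fun i y => u t y i) i x - pd i (q t) x := c2.sub (hq.pd i).cont
    simp only [hgdef]
    rw [fr_add c3 (spv_sp hKs i).cont, fr_sub c2 (hq.pd i).cont, fr_sub c1 (hcv i).cont]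
    rw [fr_smul, fr_lap (hU i), fr_pd' hq]
    push_cast
    ring
  have e3 := sum_k_fr hUs (hs.divfree t htI) k
  have e4 : ∀ i, (conj (fr (fun x => u t x i) k) * fr (g i) k).re
      = -(ν * ((2 * Real.pi) ^ 2 * len k ^ 2)) * ‖fr (fun x => u t x i) k‖ ^ 2
        - (2 * Real.pi * Complex.I * fr (q t) k
          * conj ((k i : ℂ) * fr (fun x => u t x i) k)).re
        + (conj (fr (fun x => u t x i) k) * fr (fun x => K (u t) (u t) x i) k).re
        - (conj (fr (fun x => u t x i) k) * fr (conv (fun i y => u t y i) i) k).re := by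
    intro i
    have e5 : conj (fr (fun x => u t x i) k) * fr (g i) k
        = ((-(ν * ((2 * Real.pi) ^ 2 * len k ^ 2)) * ‖fr (fun x => u t x i) k‖ ^ 2 : ℝ) : ℂ)
        - 2 * Real.pi * Complex.I * fr (q t) k
          * conj ((k i : ℂ) * fr (fun x => u t x i) k)
        + conj (fr (fun x => u t x i) k) * fr (fun x => K (u t) (u t) x i) k
        - conj (fr (fun x => u t x i) k) * fr (conv (fun i y => u t y i) i) k := by
      rw [e1, map_mul, map_intCast]
      have e6 : ((‖fr (fun x => u t x i) k‖ ^ 2 : ℝ) : ℂ)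
          = fr (fun x => u t x i) k * conj (fr (fun x => u t x i) k) := by
        rw [Complex.mul_conj, Complex.normSq_eq_norm_sq]
      push_cast at e6 ⊢
      linear_combination (ν * ((2 * Real.pi) ^ 2 * (len k : ℂ) ^ 2)) * e6
    rw [e5, Complex.sub_re, Complex.add_re, Complex.sub_re, Complex.ofReal_re]
  simp_rw [e4]
  have e7 : ∑ i, (2 * Real.pi * Complex.I * fr (q t) k
      * conj ((k i : ℂ) * fr (fun x => u t x i) k)).re = 0 := by
    rw [← Complex.re_sum, ← Finset.mul_sum, ← map_sum, e3, map_zero, mul_zero, Complex.zero_re]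
  rw [← Finset.mul_sum, Finset.sum_sub_distrib, Finset.sum_add_distrib, Finset.sum_sub_distrib, e7,
    ← Finset.mul_sum, ← un_sq]
  unfold tk tc
  ring

theorem YY_deriv' (hw : Wg M w) (hK : Low σ p δ K) (hs : SolK ν T K u q)
    {t : ℝ} (ht : t ∈ Ioo 0 T) (m : ℕ) :
    HasDerivAt (fun s => YY w m 0 (u s)) (-(2 * ν * (2 * Real.pi) ^ 2 * YY w m 1 (u t))
      - 2 * ∑ n ∈ Finset.range m, (w (n + 1) - w n)
        * ∑ k ∈ Bl (n + 1), (tk K (u t) k - tc (u t) k)) t := by
  have htI := Ioo_subset_Ico_self ht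
  have hev : (fun s => YY w m 0 (u s)) =ᶠ[𝓝 t] fun s => w m * EE 0 (u s)
      - ∑ n ∈ Finset.range m, (w (n + 1) - w n) * ∑ k ∈ Bl (n + 1), un (u s) k ^ 2 := by
    filter_upwards [Ioo_mem_nhds ht.1 ht.2] with s hs'
    exact YY_eq hw (sol_spv hs (Ioo_subset_Ico_self hs')) m
  have h1 := (EE_deriv hK hs ht).const_mul (w m)
  have h2 : HasDerivAt (fun s => ∑ n ∈ Finset.range m, (w (n + 1) - w n)
      * ∑ k ∈ Bl (n + 1), un (u s) k ^ 2) _ t :=
    HasDerivAt.fun_sum fun n _ => (HasDerivAt.fun_sum fun k (_ : k ∈ Bl (n + 1)) =>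
      un_deriv' hK hs ht k).const_mul (w (n + 1) - w n)
  refine ((h1.sub h2).congr_of_eventuallyEq hev).congr_deriv ?_
  rw [YY_one_eq hw (sol_spv hs htI) m]
  set X : ℕ → ℝ := fun n => ∑ k ∈ Bl (n + 1), len k ^ 2 * un (u t) k ^ 2 with hX
  set Z : ℕ → ℝ := fun n => ∑ k ∈ Bl (n + 1), (tk K (u t) k - tc (u t) k) with hZ
  have e1 : ∀ n, ∑ k ∈ Bl (n + 1), (-(2 * ν * (2 * Real.pi) ^ 2 * (len k ^ 2 * un (u t) k ^ 2))
        + 2 * (tk K (u t) k - tc (u t) k))
      = -(2 * ν * (2 * Real.pi) ^ 2) * X n + 2 * Z n := by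
    intro n
    simp only [hX, hZ]
    rw [Finset.mul_sum, Finset.mul_sum, ← Finset.sum_add_distrib]
    exact Finset.sum_congr rfl fun k _ => by ring
  simp_rw [e1]
  have e2 : ∑ n ∈ Finset.range m, (w (n + 1) - w n)
      * (-(2 * ν * (2 * Real.pi) ^ 2) * X n + 2 * Z n)
      = -(2 * ν * (2 * Real.pi) ^ 2) * (∑ n ∈ Finset.range m, (w (n + 1) - w n) * X n)
        + 2 * ∑ n ∈ Finset.range m, (w (n + 1) - w n) * Z n := by
    rw [Finset.mul_sum, Finset.mul_sum, ← Finset.sum_add_distrib]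
    exact Finset.sum_congr rfl fun n _ => by ring
  rw [e2]
  ring

/-- the weighted geometric sums -/
theorem geo_le' (hw : Wg M w) {k : K3} (hk : k ≠ 0) (m : ℕ) :
    ∑ n ∈ Finset.range m, w (n + 1) * (if lv k ≤ n then (len k / 2 ^ (n + 1)) ^ (2 * M)
      else (2 ^ (n + 1) / len k) ^ (2 * 0 + 2)) ≤ (4 ^ M + 2) * w (min (lv k) m) := by
  set N := lv k with hN
  have hl := len_pos hk
  have h1 : (2 : ℝ) ^ N ≤ len k := pow_lv_le hk
  have h2 : len k < 2 ^ (N + 1) := lt_pow_lv k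
  have hW := hw.pos (min N m)
  have key : ∀ n ∈ Finset.range m, w (n + 1) * (if N ≤ n then (len k / 2 ^ (n + 1)) ^ (2 * M)
      else (2 ^ (n + 1) / len k) ^ (2 * 0 + 2))
      ≤ w (min N m) * (4 ^ M / 2) * (if N ≤ n then (1 / 2 : ℝ) ^ (n - N) else 0)
        + w (min N m) * (if N ≤ n then 0 else (1 / 2 : ℝ) ^ (N - 1 - n)) := by
    intro n hn
    rw [Finset.mem_range] at hn
    by_cases hNn : N ≤ n
    · rw [if_pos hNn, if_pos hNn, if_pos hNn, mul_zero, add_zero]
      obtain ⟨j, rfl⟩ := Nat.exists_eq_add_of_le hNn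
      have e1 : min N m = N := min_eq_left (by omega)
      rw [e1, Nat.add_sub_cancel_left]
      have h3 := w_ratio hw N (j + 1)
      have h4 : (len k / 2 ^ (N + j + 1)) ^ (2 * M) ≤ (1 / 4 ^ M) ^ j := by
        have e2 : len k / 2 ^ (N + j + 1) ≤ (1 / 2) ^ j := by
          rw [div_le_iff₀ (by positivity)]
          have : (1 / 2 : ℝ) ^ j * 2 ^ (N + j + 1) = 2 ^ (N + 1) := by
            rw [show N + j + 1 = j + (N + 1) by ring, pow_add, ← mul_assoc, ← mul_pow]
            norm_num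
          rw [this]
          exact h2.le
        calc (len k / 2 ^ (N + j + 1)) ^ (2 * M) ≤ ((1 / 2) ^ j) ^ (2 * M) :=
              pow_le_pow_left₀ (by positivity) e2 _
          _ = (1 / 4 ^ M) ^ j := by
              rw [← pow_mul, one_div_pow, one_div_pow, ← pow_mul]
              congr 1
              have : (4 : ℝ) = 2 ^ 2 := by norm_num
              rw [this, ← pow_mul]
              congr 1
              ring
      have h5 : w (N + j + 1) ≤ (4 ^ M) ^ (j + 1) * w N / 2 ^ (j + 1) := by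
        rw [le_div_iff₀ (by positivity), mul_comm]
        exact h3
      have hwN := hw.pos N
      calc w (N + j + 1) * (len k / 2 ^ (N + j + 1)) ^ (2 * M)
          ≤ ((4 ^ M) ^ (j + 1) * w N / 2 ^ (j + 1)) * (1 / 4 ^ M) ^ j :=
            mul_le_mul h5 h4 (by positivity) (by positivity)
        _ = w N * (4 ^ M / 2) * (1 / 2) ^ j := by
            rw [pow_succ, pow_succ, one_div_pow, one_div_pow]
            field_simp
    · rw [if_neg hNn, if_neg hNn, if_neg hNn, mul_zero (w (min N m) * (4 ^ M / 2)), zero_add]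
      have h3 : w (n + 1) ≤ w (min N m) := hw.monotone (by omega)
      obtain ⟨j, hj⟩ : ∃ j, N = n + 1 + j := Nat.exists_eq_add_of_le (by omega)
      have e3 : N - 1 - n = j := by omega
      rw [e3]
      have h4 : (2 ^ (n + 1) / len k) ^ (2 * 0 + 2) ≤ (1 / 2 : ℝ) ^ j := by
        have e2 : 2 ^ (n + 1) / len k ≤ (1 / 2) ^ j := by
          rw [div_le_iff₀ hl]
          have : (1 / 2 : ℝ) ^ j * 2 ^ N = 2 ^ (n + 1) := by
            rw [hj, pow_add _ (n + 1) j, mul_comm, mul_assoc, ← mul_pow]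
            norm_num
          calc (2 : ℝ) ^ (n + 1) = (1 / 2 : ℝ) ^ j * 2 ^ N := this.symm
            _ ≤ _ := mul_le_mul_of_nonneg_left h1 (by positivity)
        have e4 : (1 / 2 : ℝ) ^ j ≤ 1 := pow_le_one₀ (by norm_num) (by norm_num)
        calc (2 ^ (n + 1) / len k) ^ (2 * 0 + 2) ≤ ((1 / 2 : ℝ) ^ j) ^ (2 * 0 + 2) :=
              pow_le_pow_left₀ (by positivity) e2 _
          _ ≤ ((1 / 2 : ℝ) ^ j) ^ 1 := pow_le_pow_of_le_one (by positivity) e4 (by omega)
          _ = _ := pow_one _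
      exact mul_le_mul h3 h4 (by positivity) hW.le
  refine (Finset.sum_le_sum key).trans ?_
  rw [Finset.sum_add_distrib, ← Finset.mul_sum, ← Finset.mul_sum]
  have s1 := mul_le_mul_of_nonneg_left (sum_up_le N m)
    (show 0 ≤ w (min N m) * (4 ^ M / 2) by positivity)
  have s2 := mul_le_mul_of_nonneg_left (sum_dn_le N m) hW.le
  linarith

/-- the weighted sum of the local dissipations -/
theorem sum_XZ_le' {u : V → V} (hw : Wg M w) (hu : SPV u) (hM : h ≤ 0 + 1) (m : ℕ) :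
    ∑ n ∈ Finset.range m, w (n + 1) * (XX (n + 1) M h u + ZZ (n + 1) 0 h u)
      ≤ (4 ^ M + 2) * YY w m h u := by
  classical
  have hs1 : ∀ n, Summable fun k => (if k ∈ Bl (n + 1) then
      (len k / 2 ^ (n + 1)) ^ (2 * M) * len k ^ (2 * h) * un u k ^ 2 else 0) := fun n =>
    summable_of_ne_finset_zero (s := Bl (n + 1)) fun k hk => if_neg hk
  have hs2 : ∀ n, Summable fun k => if k ∈ Bl (n + 1) then 0 else
      (2 ^ (n + 1) / len k) ^ (2 * 0 + 2) * len k ^ (2 * h) * un u k ^ 2 := fun n =>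
    ZZ_summable hu hM
  have h1 : ∀ n, XX (n + 1) M h u + ZZ (n + 1) 0 h u = ∑' k, (if lv k ≤ n then
      (len k / 2 ^ (n + 1)) ^ (2 * M) else (2 ^ (n + 1) / len k) ^ (2 * 0 + 2))
      * (len k ^ (2 * h) * un u k ^ 2) := by
    intro n
    have e1 : XX (n + 1) M h u = ∑' k, (if k ∈ Bl (n + 1) then
      (len k / 2 ^ (n + 1)) ^ (2 * M) * len k ^ (2 * h) * un u k ^ 2 else 0) := by
      rw [tsum_eq_sum (s := Bl (n + 1)) (fun k hk => if_neg hk)]
      unfold XX
      exact Finset.sum_congr rfl fun k hk => (if_pos hk).symm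
    have e2 : ZZ (n + 1) 0 h u = ∑' k, if k ∈ Bl (n + 1) then 0 else
      (2 ^ (n + 1) / len k) ^ (2 * 0 + 2) * len k ^ (2 * h) * un u k ^ 2 := rfl
    rw [e1, e2, ← (hs1 n).tsum_add (hs2 n)]
    refine tsum_congr fun k => ?_
    by_cases hk : lv k ≤ n
    · rw [if_pos hk, if_pos ((lv_le_iff k n).1 hk), if_pos ((lv_le_iff k n).1 hk)]; ring
    · have hk' : k ∉ Bl (n + 1) := fun h' => hk ((lv_le_iff k n).2 h')
      rw [if_neg hk, if_neg hk', if_neg hk']; ring
  have hs3 : ∀ n, Summable fun k => (if lv k ≤ n then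
      (len k / 2 ^ (n + 1)) ^ (2 * M) else (2 ^ (n + 1) / len k) ^ (2 * 0 + 2))
      * (len k ^ (2 * h) * un u k ^ 2) := by
    intro n
    refine ((hs1 n).add (hs2 n)).congr fun k => ?_
    by_cases hk : lv k ≤ n
    · rw [if_pos hk, if_pos ((lv_le_iff k n).1 hk), if_pos ((lv_le_iff k n).1 hk)]; ring
    · have hk' : k ∉ Bl (n + 1) := fun h' => hk ((lv_le_iff k n).2 h')
      rw [if_neg hk, if_neg hk', if_neg hk']; ring
  simp_rw [h1, ← tsum_mul_left]
  rw [← Summable.tsum_finsetSum fun n _ => (hs3 n).mul_left _]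
  unfold YY
  rw [← tsum_mul_left]
  refine (summable_sum fun n _ => (hs3 n).mul_left _).tsum_le_tsum (fun k => ?_)
    ((YY_summable hw hu m h).mul_left _)
  have e3 : ∑ n ∈ Finset.range m, w (n + 1) * ((if lv k ≤ n then
      (len k / 2 ^ (n + 1)) ^ (2 * M) else (2 ^ (n + 1) / len k) ^ (2 * 0 + 2))
      * (len k ^ (2 * h) * un u k ^ 2))
      = (∑ n ∈ Finset.range m, w (n + 1) * (if lv k ≤ n then
      (len k / 2 ^ (n + 1)) ^ (2 * M) else (2 ^ (n + 1) / len k) ^ (2 * 0 + 2)))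
      * (len k ^ (2 * h) * un u k ^ 2) := by
    rw [Finset.sum_mul]
    exact Finset.sum_congr rfl fun n _ => by ring
  have hl := len_nonneg k
  rw [e3, ← mul_assoc (4 ^ M + 2 : ℝ) (w (min (lv k) m)) (len k ^ (2 * h) * un u k ^ 2)]
  by_cases hk : k = 0
  · subst hk
    have hz : ∀ n ∈ Finset.range m, w (n + 1) * (if lv (0 : K3) ≤ n then
        (len (0 : K3) / 2 ^ (n + 1)) ^ (2 * M) else (2 ^ (n + 1) / len (0 : K3)) ^ (2 * 0 + 2)) = 0 := by
      intro n _
      have h0 : 2 * M ≠ 0 := by have := hw.M0; omega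
      rw [len_zero]
      simp [h0]
    rw [Finset.sum_eq_zero hz, zero_mul]
    have h5 := (hw.pos (min (lv (0 : K3)) m)).le
    exact mul_nonneg (mul_nonneg (by positivity) h5)
      (mul_nonneg (pow_nonneg (len_nonneg _) _) (sq_nonneg _))
  · exact mul_le_mul_of_nonneg_right (geo_le' hw hk m) (by positivity)

theorem ZZ_anti {u : V → V} (hu : SPV u) (n : ℕ) (hM : h ≤ 0 + 1) : ZZ n M h u ≤ ZZ n 0 h u := by
  classical
  unfold ZZ
  refine (ZZ_summable hu (by omega)).tsum_le_tsum (fun k => ?_) (ZZ_summable hu hM)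
  split_ifs with hk
  · exact le_rfl
  · rw [mem_Bl, not_lt] at hk
    have h2n : (0 : ℝ) < 2 ^ n := by positivity
    have hl : 0 < len k := by linarith
    have h6 : (2 ^ n / len k) ^ (2 * M + 2) ≤ (2 ^ n / len k) ^ (2 * 0 + 2) :=
      pow_le_pow_of_le_one (by positivity) (by rw [div_le_one hl]; exact hk) (by omega)
    exact mul_le_mul_of_nonneg_right (mul_le_mul_of_nonneg_right h6 (by positivity)) (sq_nonneg _)

/-- the estimate of the total flux -/
theorem flux_tot {v : V → V} (hK : Low 2 p δ K) (hp0 : 0 ≤ p) (hδ : 0 ≤ δ) (hv : SPV v)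
    (hdiv : ∀ x, ∑ i, pd i (fun y => v y i) x = 0) (n M : ℕ) {Γ G : ℝ}
    (hΓ : √(XX (n + 1) 1 0 v) + √(ZZ (n + 1) 0 0 v) ≤ Γ)
    (hG : S1 (n + 1) v / 2 ^ (n + 1) ≤ G) :
    |∑ k ∈ Bl (n + 1), (tk K v k - tc v k)| ≤ (δ * 5 ^ (2 * M + 6) * LL (n + 1) ^ p * Γ / 2
      + 100 * 4 ^ M * G) * (XX (n + 1) M 1 v + ZZ (n + 1) 0 1 v) := by
  have hKh : Low (2 * ((1 : ℕ) : ℝ)) p δ K := by
    rw [Nat.cast_one, mul_one]; exact hK
  have f1 := flux_le (n := n + 1) (M := M) (h := 1) hKh hp0 hδ hv (by omega)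
  have f2 := nsflux hv hdiv n M
  have hX0 : 0 ≤ XX (n + 1) M 1 v := XX_nonneg
  have hZ0 : 0 ≤ ZZ (n + 1) M 1 v := ZZ_nonneg
  have hZZ : ZZ (n + 1) M 1 v ≤ ZZ (n + 1) 0 1 v := ZZ_anti hv _ (by norm_num)
  set X := XX (n + 1) M 1 v with hX
  set Z := ZZ (n + 1) 0 1 v with hZ
  have hL0 : 0 ≤ LL (n + 1) ^ p := Real.rpow_nonneg (by linarith [one_le_LL (n + 1)]) _
  have hΓ0 : 0 ≤ Γ := le_trans (by positivity) hΓ
  have hG0 : 0 ≤ G := le_trans (div_nonneg (S1_nonneg _ _) (by positivity)) hG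
  have e6 : 2 * M + 2 * 1 + 4 = 2 * M + 6 := by ring
  rw [e6] at f1
  have f3 : |∑ k ∈ Bl (n + 1), tk K v k|
      ≤ δ * 5 ^ (2 * M + 6) * LL (n + 1) ^ p * Γ * ((X + Z) / 2) := by
    refine f1.trans ?_
    refine mul_le_mul (mul_le_mul_of_nonneg_left hΓ (by positivity))
      ((sqrt_mul_sqrt_le hX0 hZ0).trans (by linarith)) (by positivity) (by positivity)
  have f4 : |∑ k ∈ Bl (n + 1), tc v k| ≤ 100 * 4 ^ M * G * (X + Z) := by
    refine f2.trans ?_
    exact mul_le_mul_of_nonneg_right (mul_le_mul_of_nonneg_left hG (by positivity)) (by linarith)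
  rw [Finset.sum_sub_distrib]
  refine (abs_sub _ _).trans ((add_le_add f3 f4).trans (le_of_eq ?_))
  ring

/-- Propagation of the weighted energies. -/
theorem prop_w' (hw : Wg M w) (hK : Low σ p δ K) (hν : 0 ≤ ν)
    (hT : 0 < T) (hs : SolK ν T K u q) {a : ℕ → ℝ} (ha0 : ∀ n, 0 ≤ a n)
    (ha : ∀ t ∈ Ioo 0 T, ∀ n, |∑ k ∈ Bl (n + 1), (tk K (u t) k - tc (u t) k)|
      ≤ a n * (XX (n + 1) M 1 (u t) + ZZ (n + 1) 0 1 (u t))) {n₀ : ℕ}
    (hn₀ : ∀ n ≥ n₀, (w (n + 1) - w n) * (2 * a n) * (4 ^ M + 2)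
      ≤ 2 * ν * (2 * Real.pi) ^ 2 * w (n + 1)) :
    ∃ B, 0 ≤ B ∧ ∀ t ∈ Ico 0 T, ∀ m, YY w m 0 (u t) ≤ B := by
  have hc0 : ∀ n, 0 ≤ w (n + 1) - w n := fun n => sub_nonneg.2 (hw.mono n)
  set E₀ := EE 0 (u 0) with hE₀
  have hE0 : 0 ≤ E₀ := EE_nonneg 0 _
  set A : ℕ → ℝ := fun n => (w (n + 1) - w n) * (2 * a n)
    * (2 * (4 ^ (n + 1) * E₀)) with hA
  have hA0 : ∀ n, 0 ≤ A n := fun n => by
    have := ha0 n
    have := hc0 n
    positivity
  set κ := 2 * ν * (2 * Real.pi) ^ 2 / (4 ^ M + 2) with hκ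
  have h4 : (0 : ℝ) < 4 ^ M + 2 := by positivity
  have hκ0 : 0 ≤ κ := by positivity
  have key : ∀ t ∈ Ioo 0 T, ∀ m, -(2 * ν * (2 * Real.pi) ^ 2 * YY w m 1 (u t))
      - 2 * ∑ n ∈ Finset.range m, (w (n + 1) - w n)
        * ∑ k ∈ Bl (n + 1), (tk K (u t) k - tc (u t) k)
      ≤ ∑ n ∈ Finset.range n₀, A n := by
    intro t ht m
    have htI := Ioo_subset_Ico_self ht
    have hu : SPV (u t) := sol_spv hs htI
    have h1 : ∀ n, -(2 * ((w (n + 1) - w n) * ∑ k ∈ Bl (n + 1), (tk K (u t) k - tc (u t) k)))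
        ≤ κ * (w (n + 1) * (XX (n + 1) M 1 (u t) + ZZ (n + 1) 0 1 (u t)))
          + (if n < n₀ then A n else 0) := by
      intro n
      have f2 := ha t ht n
      have hX0 : 0 ≤ XX (n + 1) M 1 (u t) := XX_nonneg
      have hZ0 : 0 ≤ ZZ (n + 1) 0 1 (u t) := ZZ_nonneg
      have g1 : XX (n + 1) M 1 (u t) ≤ 4 ^ (n + 1) * E₀ := by
        have := XX_le (n := n + 1) (M := M) (h := 1) hu
        rw [mul_one] at this
        exact this.trans (mul_le_mul_of_nonneg_left (EE_le hν hK hs htI) (by positivity))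
      have g2 : ZZ (n + 1) 0 1 (u t) ≤ 4 ^ (n + 1) * E₀ := by
        have := ZZ_le (n := n + 1) (M := 0) (h := 1) hu (by omega)
        rw [mul_one] at this
        exact this.trans (mul_le_mul_of_nonneg_left (EE_le hν hK hs htI) (by positivity))
      set X := XX (n + 1) M 1 (u t) with hX
      set Z := ZZ (n + 1) 0 1 (u t) with hZ
      have f3 : -(2 * ((w (n + 1) - w n) * ∑ k ∈ Bl (n + 1), (tk K (u t) k - tc (u t) k)))
          ≤ (w (n + 1) - w n) * (2 * a n) * (X + Z) := by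
        have f4 := neg_abs_le (∑ k ∈ Bl (n + 1), (tk K (u t) k - tc (u t) k))
        have f5 := mul_le_mul_of_nonneg_left f2 (hc0 n)
        have f6 := mul_le_mul_of_nonneg_left f4 (hc0 n)
        linarith
      refine f3.trans ?_
      have hXZ : 0 ≤ X + Z := by linarith
      by_cases hn : n < n₀
      · rw [if_pos hn]
        have g3 : (w (n + 1) - w n) * (2 * a n) * (X + Z) ≤ A n := by
          simp only [hA]
          refine mul_le_mul_of_nonneg_left (by linarith) ?_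
          have := ha0 n
          have := hc0 n
          positivity
        have g4 : 0 ≤ κ * (w (n + 1) * (X + Z)) :=
          mul_nonneg hκ0 (mul_nonneg (hw.pos _).le hXZ)
        linarith
      · rw [if_neg hn, add_zero]
        have g1 := hn₀ n (not_lt.1 hn)
        have g2 : (w (n + 1) - w n) * (2 * a n) ≤ κ * w (n + 1) := by
          rw [hκ, div_mul_eq_mul_div, le_div_iff₀ h4]
          exact g1
        calc _ ≤ κ * w (n + 1) * (X + Z) := mul_le_mul_of_nonneg_right g2 hXZ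
          _ = _ := by ring
    have h2 : -(2 * ∑ n ∈ Finset.range m, (w (n + 1) - w n)
        * ∑ k ∈ Bl (n + 1), (tk K (u t) k - tc (u t) k))
        ≤ κ * ((4 ^ M + 2) * YY w m 1 (u t)) + ∑ n ∈ Finset.range n₀, A n := by
      calc -(2 * ∑ n ∈ Finset.range m, (w (n + 1) - w n)
            * ∑ k ∈ Bl (n + 1), (tk K (u t) k - tc (u t) k))
          = ∑ n ∈ Finset.range m,
            -(2 * ((w (n + 1) - w n) * ∑ k ∈ Bl (n + 1), (tk K (u t) k - tc (u t) k))) := by
            rw [Finset.sum_neg_distrib, ← Finset.mul_sum]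
        _ ≤ ∑ n ∈ Finset.range m, (κ * (w (n + 1) * (XX (n + 1) M 1 (u t) + ZZ (n + 1) 0 1 (u t)))
          + (if n < n₀ then A n else 0)) := Finset.sum_le_sum fun n _ => h1 n
        _ = κ * ∑ n ∈ Finset.range m, w (n + 1) * (XX (n + 1) M 1 (u t) + ZZ (n + 1) 0 1 (u t))
          + ∑ n ∈ Finset.range m, (if n < n₀ then A n else 0) := by
            rw [Finset.sum_add_distrib, ← Finset.mul_sum]
        _ ≤ _ := by
            refine add_le_add (mul_le_mul_of_nonneg_left (sum_XZ_le' hw hu (by norm_num) m) hκ0) ?_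
            rw [← Finset.sum_filter]
            refine Finset.sum_le_sum_of_subset_of_nonneg (fun n hn => ?_) fun n _ _ => hA0 n
            rw [Finset.mem_filter] at hn
            exact Finset.mem_range.2 hn.2
    have h3 : κ * ((4 ^ M + 2) * YY w m 1 (u t)) = 2 * ν * (2 * Real.pi) ^ 2 * YY w m 1 (u t) := by
      rw [hκ]
      field_simp
    rw [h3] at h2
    linarith
  set A' := ∑ n ∈ Finset.range n₀, A n with hA'
  have hA'0 : 0 ≤ A' := Finset.sum_nonneg fun n _ => hA0 n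
  have h00 : (0 : ℝ) ∈ Ico 0 T := ⟨le_rfl, hT⟩
  refine ⟨w 0 * (EE M (u 0) + EE 0 (u 0)) + A' * T, ?_, fun t ht m => ?_⟩
  · have := (hw.pos 0).le
    have := EE_nonneg M (u 0)
    have := EE_nonneg 0 (u 0)
    positivity
  · have h := cmp (f := fun s => YY w m 0 (u s))
      (f' := fun s => -(2 * ν * (2 * Real.pi) ^ 2 * YY w m 1 (u s))
        - 2 * ∑ n ∈ Finset.range m, (w (n + 1) - w n)
          * ∑ k ∈ Bl (n + 1), (tk K (u s) k - tc (u s) k))
      (g := fun s => A' * s) (g' := fun _ => A') ht.1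
      ((YY_continuousOn hw hs m).mono fun s hs' => ⟨hs'.1, hs'.2.trans_lt ht.2⟩) (by fun_prop)
      (fun s hs' => YY_deriv' hw hK hs ⟨hs'.1, hs'.2.trans ht.2⟩ m)
      (fun s _ => by simpa using (hasDerivAt_id s).const_mul A')
      (fun s hs' => key s ⟨hs'.1, hs'.2.trans ht.2⟩ m)
    simp only [mul_zero, sub_zero] at h
    have h1 := YY_init hw (sol_spv hs h00) m
    have h2 : A' * t ≤ A' * T := mul_le_mul_of_nonneg_left ht.2.le hA'0
    linarith

end Pool.Agent.N977.Q
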