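import Pool.Agent.N977.Q.Adm
import Pool.Agent.N977.Q.Step

/-!
Maximal solutions of the cascade system.
-/

open Set Filter Topology

namespace Pool.Agent.N977.Q

open Pool.Agent.Y5.E

/-- Rapidly decaying solutions of the cascade on `[0, T)`. -/
structure Zs (T : ℝ) (d D α μ r : ℕ → ℝ) (x y : ℕ → ℝ → ℝ) : Prop where
  xd : ∀ n, ∀ t ∈ Ico 0 T, HasDerivWithinAt (x n)
    (-(d n * x n t) + gf α y n t - α n * y n t ^ 2) (Ico 0 T) t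
  yd : ∀ n, ∀ t ∈ Ico 0 T, HasDerivWithinAt (y n)
    (-(D n * y n t) + α n * y n t * (x n t - x (n + 1) t) + gf μ y n t
      - μ n * y n t * y (n + 1) t) (Ico 0 T) t
  x0 : x 0 0 = 4 / 5
  y0 : y 0 0 = 3 / 5
  xs : ∀ n, x (n + 1) 0 = 0
  ys : ∀ n, y (n + 1) 0 = 0
  rap : ∀ k : ℕ, ∀ T' < T, ∃ C, ∀ t ∈ Icc 0 T', ∀ n,
    r n ^ k * |x n t| ≤ C ∧ r n ^ k * |y n t| ≤ C

/-! ### the kernel of the cascade -/

/-- first factors -/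
def kA : Fin 6 → ℕ ⊕ ℕ → ℕ ⊕ ℕ
  | 0, Sum.inl (n + 1) => Sum.inr n
  | 4, Sum.inr (n + 1) => Sum.inr n
  | _, Sum.inl n => Sum.inr n
  | _, Sum.inr n => Sum.inr n

/-- second factors -/
def kB : Fin 6 → ℕ ⊕ ℕ → ℕ ⊕ ℕ
  | 0, Sum.inl (n + 1) => Sum.inr n
  | 1, Sum.inl n => Sum.inr n
  | 2, Sum.inr n => Sum.inl n
  | 3, Sum.inr n => Sum.inl (n + 1)
  | 4, Sum.inr (n + 1) => Sum.inr n
  | 5, Sum.inr n => Sum.inr (n + 1)
  | _, Sum.inl n => Sum.inr n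
  | _, Sum.inr n => Sum.inr n

/-- coefficients -/
def kv (α μ : ℕ → ℝ) : Fin 6 → ℕ ⊕ ℕ → ℝ
  | 0, Sum.inl (n + 1) => α n
  | 1, Sum.inl n => -α n
  | 2, Sum.inr n => α n
  | 3, Sum.inr n => -α n
  | 4, Sum.inr (n + 1) => μ n
  | 5, Sum.inr n => -μ n
  | _, _ => 0

/-- weights of the modes -/
def kr (r : ℕ → ℝ) : ℕ ⊕ ℕ → ℝ
  | Sum.inl n => r n
  | Sum.inr n => r n

/-- dissipation rates of the modes -/
def kd (d D : ℕ → ℝ) : ℕ ⊕ ℕ → ℝ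
  | Sum.inl n => d n
  | Sum.inr n => D n

/-- initial data -/
noncomputable def kz : ℕ ⊕ ℕ → ℝ
  | Sum.inl 0 => 4 / 5
  | Sum.inr 0 => 3 / 5
  | _ => 0

variable {T : ℝ} {d D α μ r : ℕ → ℝ} {x y : ℕ → ℝ → ℝ}

/-- Conditions on the weights. -/
structure Wt (d D α μ r : ℕ → ℝ) : Prop where
  d0 : ∀ n, 0 ≤ d n
  D0 : ∀ n, 0 ≤ D n
  r1 : ∀ n, 1 ≤ r n
  rg : ∀ n, 2 ^ n ≤ r n
  rm : ∀ n, r n ≤ r (n + 1)
  rs : ∃ ρ, 1 ≤ ρ ∧ ∀ n, r (n + 1) ≤ ρ * r n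
  α : ∀ n, |α n| ≤ r n
  μ : ∀ n, |μ n| ≤ r n

theorem Wt.adm (W : Wt d D α μ r) : Adm (kd d D) (kr r) (ker kA kB (kv α μ)) := by
  obtain ⟨ρ, hρ, hρr⟩ := W.rs
  have hfin : ∀ R : ℝ, {n : ℕ | r n ≤ R}.Finite := by
    intro R
    obtain ⟨n₀, hn₀⟩ := pow_unbounded_of_one_lt R (one_lt_two (α := ℝ))
    refine (Set.finite_lt_nat n₀).subset fun n hn => ?_
    by_contra hlt
    have h1 : n₀ ≤ n := not_lt.1 hlt
    have h2 : (2 : ℝ) ^ n₀ ≤ 2 ^ n := pow_le_pow_right₀ (by norm_num) h1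
    have h3 : r n ≤ R := hn
    linarith [W.rg n]
  refine adm_ker (ρ := ρ) ?_ ?_ ?_ ?_ ?_ ?_
  · rintro (n | n)
    · exact W.d0 n
    · exact W.D0 n
  · rintro (n | n) <;> exact W.r1 n
  · intro R
    have h1 := ((hfin R).image (Sum.inl : ℕ → ℕ ⊕ ℕ)).union ((hfin R).image (Sum.inr : ℕ → ℕ ⊕ ℕ))
    refine h1.subset ?_
    rintro (n | n) hn
    · exact Or.inl ⟨n, hn, rfl⟩
    · exact Or.inr ⟨n, hn, rfl⟩
  · have hr0 : ∀ n, 0 ≤ r n := fun n => by linarith [W.r1 n]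
    intro k i
    fin_cases k <;> rcases i with (_ | n) | (_ | n) <;>
      simp [kv, kB, kr, hr0, W.α, W.μ, (W.α _).trans (W.rm _), (W.μ _).trans (W.rm _)]
  · have h1 : ∀ n, r n ≤ ρ * r n := fun n => le_mul_of_one_le_left (by linarith [W.r1 n]) hρ
    intro k i
    fin_cases k <;> rcases i with (_ | n) | (_ | n) <;> simp [kv, kA, kr, h1, hρr]
  · intro k i j
    fin_cases k <;> rcases i with (_ | n) | (_ | n) <;> rcases j with (_ | m) | (_ | m) <;>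
      simp [kv, kA]

theorem bl_inl (z : ℕ ⊕ ℕ → ℝ → ℝ) (n : ℕ) (t : ℝ) :
    bl (ker kA kB (kv α μ)) (fun a => z a t) (fun a => z a t) (Sum.inl n)
      = gf α (fun m => z (Sum.inr m)) n t - α n * z (Sum.inr n) t ^ 2 := by
  rw [bl_ker, Fin.sum_univ_six]
  cases n with
  | zero => simp [kv, kA, kB, gf]; ring
  | succ n => simp [kv, kA, kB, gf]; ring

theorem bl_inr (z : ℕ ⊕ ℕ → ℝ → ℝ) (n : ℕ) (t : ℝ) :
    bl (ker kA kB (kv α μ)) (fun a => z a t) (fun a => z a t) (Sum.inr n)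
      = α n * z (Sum.inr n) t * (z (Sum.inl n) t - z (Sum.inl (n + 1)) t)
        + gf μ (fun m => z (Sum.inr m)) n t - μ n * z (Sum.inr n) t * z (Sum.inr (n + 1)) t := by
  rw [bl_ker, Fin.sum_univ_six]
  cases n with
  | zero => simp [kv, kA, kB, gf]; ring
  | succ n => simp [kv, kA, kB, gf]; ring

end Pool.Agent.N977.Q
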